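import Mathlib
import Pool.Agent.Y957.VK.Stm2
import Pool.Agent.H469R2.NK.KL
import Pool.Agent.H373R2.T7.LamZ

/-!
# Project CR (helper236), part 1: statements

Bounds of Vinogradov-Korobov type for Dirichlet characters to small moduli (the starting library
`Pool/Agent/Y957/VK` treats only the zeta function) and Dirichlet polynomials over primes in mean square.
Every statement below is a `Prop` with a complete proof in its docstring; `L` always stands for the logarithm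
of the main parameter. Nothing is optimised: constants may be changed freely inside the proofs.
-/

set_option autoImplicit false

namespace Pool.Agent.Q236.CR

open Finset Filter MeasureTheory
open Pool.Agent.Y957.VK (al TT WJ)
open Pool.Agent.H469R2.NK (e)

/-- `n^{-it}` -/
noncomputable def nt (t : ℝ) (n : ℕ) : ℂ := (n : ℂ) ^ (-(t : ℂ) * Complex.I)

/-- the coefficients of the phase of `e(β (n + xy)) (n + xy)^{-it}`: only `j = 1` changes -/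
noncomputable def alb (β t : ℝ) (n j : ℕ) : ℝ := al t n j + if j = 1 then β else 0

/-- **SHB** (adapt `Pool/Agent/Y125/VK/Shift.lean`, 270 lines). Proof: as there; the only change is
`e(β(n + xy)) = e(β n) e(β xy)`: the factor `e(β n)` does not depend on `x, y`, the factor `e(β xy)` adds `β` to the
coefficient of `(xy)^1`. -/
def S_SHB : Prop := ∀ (N N' M r : ℕ) (t β : ℝ), 1 ≤ N → N ≤ N' → N' ≤ 2 * N → 1 ≤ M → M ^ 2 ≤ N → 1 ≤ r →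
  ‖∑ n ∈ Finset.Ioc N N', e (β * n) * nt t n‖ ≤
    1 / (M : ℝ) ^ 2 * ∑ n ∈ Finset.Ioc N N', ‖TT r M (alb β t n)‖ + 2 * (M : ℝ) ^ 2 +
      N * |t| * ((M : ℝ) ^ 2 / N) ^ (r + 1)

/-- **TNB** (adapt `Pool/Agent/Y70/VK/Tn.lean`; hypotheses `S_VMVT`, `S_DBL`, `S_TW`, `S_WB` are theorems:
`Pool.Agent.Y957.VK.vmvt_all`, `dbl_all`, `Pool.Agent.Y288.VK.tw Pool.Agent.Y331.VK.wb`, `Pool.Agent.Y331.VK.wb`;
import `Pool.Agent.Y957.VK.Fin1`). Proof: in `Tn.lean` the coefficients enter only through the bounds `WJ s M j (α j)`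
of `S_TW`. For `j ≥ 2` nothing changes because `alb β t n j = al t n j`. For `j = 1` the first clause of `S_TW` holds
for every real coefficient by the first clause of `S_WB`: `WJ s M 1 a ≤ (2 s M + 1)^2 ≤ M^2 (3 s)^2` and
`s = 9 r^2 ≤ exp (C (1 + κ)^C)`; the second clause of `S_TW` is only used for `2 κ ≤ j`, and `2 κ ≥ 2 > 1`. -/
def S_TNB : Prop := ∃ (C : ℕ) (c : ℝ), 0 < c ∧ c ≤ 1 / 10 ∧ ∀ (N n : ℕ) (t κ β : ℝ), 2 ≤ N →
  n ∈ Finset.Icc N (2 * N) → 1 ≤ κ → |t| = (N : ℝ) ^ κ →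
  ‖TT (⌈5 * κ⌉₊ + 5) ⌊(N : ℝ) ^ (2 / 5 : ℝ)⌋₊ (alb β t n)‖ ≤
    Real.exp (C * (1 + κ) ^ C) * (⌊(N : ℝ) ^ (2 / 5 : ℝ)⌋₊ : ℝ) ^ 2 * (N : ℝ) ^ (-(c / (1 + κ) ^ 2) : ℝ)

/-- **ZSB** (adapt `Pool/Agent/Y824/VK/Zs.lean`, 128 lines). Proof: insert TNB into SHB, as there. -/
def S_ZSB : Prop := ∃ (C : ℕ) (c : ℝ), 0 < c ∧ c ≤ 1 / 10 ∧ ∀ (N N' : ℕ) (t κ β : ℝ), 2 ≤ N → N ≤ N' →
  N' ≤ 2 * N → 1 ≤ κ → |t| = (N : ℝ) ^ κ →
  ‖∑ n ∈ Finset.Ioc N N', e (β * n) * nt t n‖ ≤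
    Real.exp (C * (1 + κ) ^ C) * (N : ℝ) ^ (1 - c / (1 + κ) ^ 2 : ℝ)

/-- **SDB**: second derivative test. Proof: if `|t| > N^2` the trivial bound `N` is at most `√|t|`. Otherwise let
`x n = β (N + 1 + n) - (t / 2π) log (N + 1 + n)` for `n < N' - N` (replace the sum by its conjugate if `t < 0`, so
`t > 0` and the second differences are positive). The second difference of `- log` at `m` is
`2 log (m+1) - log m - log (m+2) = log (1 + 1 / (m (m+2)))`, between `1 / (2 m (m + 2))` and `1 / (m (m+2))`, DECREASING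
in `m`; reverse the order of summation (`n ↦ N' - N - 1 - n`) so that second differences increase. Apply
`Pool.Agent.Q83.WG.vdc2` with `lam = c t / N^2`, `Lam = t / (2 π N^2) ≤ 1/4` (`N ≥ 1`, `t ≤ N^2`): the square of the
sum is at most `2 (1 + 4 Lam N) (N + (4 / lam) (1 + log N)) ≤ C (1 + t / N) (N + N^2 / t) (1 + log N)
≤ C' (t + N^2 / t) (1 + log N)` (if `t ≥ N` the product is `≤ 2 (t/N) 2 N`, if `t < N` it is `≤ 2 · 2 N^2 / t`). -/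
def S_SDB : Prop := ∃ C : ℝ, 1 ≤ C ∧ ∀ (N N' : ℕ) (t β : ℝ), 1 ≤ N → N ≤ N' → N' ≤ 2 * N → 1 ≤ |t| →
  ‖∑ n ∈ Finset.Ioc N N', e (β * n) * nt t n‖ ≤ C * (√|t| + N / √|t|) * (1 + Real.log N)

/-- **CHR** (from ZSB and SDB). Proof: a function `χ` on `ℤ/q` with `|χ| ≤ 1` is
`χ(n) = ∑_{a < q} c_a e(a n / q)` with `c_a = (1/q) ∑_{b < q} χ(b) e(-a b / q)`, `|c_a| ≤ 1` (orthogonality). So the
sum is at most `q` times the largest of the sums with `β = a / q`. -/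
def S_CHR : Prop :=
  (∃ (C : ℕ) (c : ℝ), 0 < c ∧ c ≤ 1 / 10 ∧ ∀ (q : ℕ) (_ : NeZero q) (χ : DirichletCharacter ℂ q)
    (N N' : ℕ) (t κ : ℝ), 2 ≤ N → N ≤ N' → N' ≤ 2 * N → 1 ≤ κ → |t| = (N : ℝ) ^ κ →
    ‖∑ n ∈ Finset.Ioc N N', χ (n : ZMod q) * nt t n‖ ≤
      q * (Real.exp (C * (1 + κ) ^ C) * (N : ℝ) ^ (1 - c / (1 + κ) ^ 2 : ℝ))) ∧
  (∃ C : ℝ, 1 ≤ C ∧ ∀ (q : ℕ) (_ : NeZero q) (χ : DirichletCharacter ℂ q)
    (N N' : ℕ) (t : ℝ), 1 ≤ N → N ≤ N' → N' ≤ 2 * N → 1 ≤ |t| →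
    ‖∑ n ∈ Finset.Ioc N N', χ (n : ZMod q) * nt t n‖ ≤ q * (C * (√|t| + N / √|t|) * (1 + Real.log N)))

/-- **FD**: the trivial approximation by integrals. Proof: for a class `a` modulo `q`, the sum of `n^{-iτ}` over
`u < n ≤ v`, `n ≡ a (mod q)`, differs from `(1/q) ∫_u^v y^{-iτ} dy` by at most `1` plus the variation of `y^{-iτ}` on
`[u, v] ⊂ [M - 1, 2M]`, so by `≤ 10 (1 + |τ|)` (treat `n = 1` separately if `M = 1`). Multiply by `χ(a)` and add: the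
integrals contribute `(1/q) (∑_a χ(a)) ∫_u^v y^{-iτ} dy`, `|∑_a χ(a)| ≤ q`, `|∫| = |[y^{1-iτ} / (1 - iτ)]| ≤ 4 M / |τ|`.
Second part: partial summation with the monotone weight `log n ≤ log (2M)`. -/
def S_FD : Prop := ∃ C : ℝ, 1 ≤ C ∧ ∀ (q : ℕ) (_ : NeZero q) (χ : DirichletCharacter ℂ q) (M u v : ℕ) (τ : ℝ),
  1 ≤ M → M ≤ u + 1 → v ≤ 2 * M → 1 ≤ |τ| →
  ‖∑ n ∈ Finset.Ioc u v, χ (n : ZMod q) * nt τ n‖ ≤ C * (M / |τ| + q * |τ|) ∧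
  ‖∑ n ∈ Finset.Ioc u v, (χ (n : ZMod q) * (Real.log n : ℂ)) * nt τ n‖ ≤
    C * (M / |τ| + q * |τ|) * (1 + Real.log M)

/-- **LUP**: upper bound for `L(s, χ)` near `Re s = 1`, all moduli `q ≤ (log T)^B`, all heights up to `3 T`
(adapt `Pool/Agent/Y306/VK/Zeta.lean`; from CHR). Proof for `χ ≠ 1`. Let `L = log T`, `C, c` the constants of the first
part of CHR, `u = L^{δ'}` with `δ' = 1 / (2 (C + 4))`, `δ = δ' / 2`, `w = L^{δ - 1}`, `Y = ⌈exp (L / u)⌉`,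
`X = ⌈(q (|t| + 2))^2⌉`, `σ = Re s ≥ 1 - w ≥ 1/2`, `t = Im s`.
(i) `|∑_{n ≤ y} χ(n)| ≤ q + 1`, so (lemma `L_integral` of `Pool/Agent/H370R2/DirGood.lean`:
`L(s, χ) = s ∫_1^∞ A(u) u^{-s-1} du`, `A(u) = ∑_{n ≤ u} χ(n)`, and summation by parts up to `X`) `L(s, χ)` differs from
`∑_{n ≤ X} χ(n) n^{-s}` by at most `(q + 1) X^{-σ} (1 + |s| / σ) ≤ 16`.
(ii) the terms `n ≤ min (X, Y)`: `n^{-σ} ≤ e^{w log Y} / n ≤ 8 / n`, sum `≤ 8 (2 + log Y)`.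
(iii) if `X > Y` then `|t| + 2 ≥ √Y / q`, so `log |t| ≥ L / (3 u)` for large `T` (as `log q ≤ B log L`). Dyadic pieces
`(M, M']`, `Y ≤ M`, `M' ≤ min(2M, X)`, partial summation (lemma `abel'` in `Zeta.lean`):
`|piece| ≤ M^{-σ} max_{M''} |∑_{M < n ≤ M''} χ(n) n^{-it}|`.
  * `M ≤ |t|`: `κ = log |t| / log M` lies in `[1, 2u]` (as `|t| ≤ 3 T`), so the piece is at most
    `exp (log q + C (1 + 2u)^C + log M (w - c / (1 + 2u)^2)) ≤ exp (B log L + C (3u)^C - (L / u) c / (18 u^2)) ≤ 1`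
    for large `T`, since `w ≤ c / (18 u^2)` and `u^{C + 3} ≤ L^{1/2}`.
  * `M > |t|`: `√|t| ≤ M / √|t|`, so the piece is at most `2 C q (1 + log M) M^{1 - σ} / √|t|`, and
    `M^{1 - σ} ≤ exp (w log X) ≤ exp (4 w L) ≤ exp (4 u)`, `√|t| ≥ exp (L / (6 u))`, so it is `≤ 1` for large `T`.
  There are at most `10 L` pieces. Total `≤ 100 L ≤ L^K`.
For `χ = 1` (the principal character modulo `q`) and `|t| ≥ 1`: `L(s, 1) = ζ(s) ∏_{p | q} (1 - p^{-s})`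
(`DirichletCharacter.LFunction_one_eq_mul_riemannZeta` or a similar name), the product is at most
`∏_{p | q} 2 ≤ q ≤ L^B`, and `ζ` is bounded by `Pool.Agent.Y957.VK.zeta_all` for `|t| ≥ t₀` (note
`(log T)^{δ - 1} ≤ (log |t|)^{δ - 1}` for `|t| ≤ T`; take `δ` smaller than the one of `zeta_all`, and treat
`T ≤ |t| ≤ 3 T` with `log |t| ≤ 2 log T`), and by compactness of `[1/2, 3] × {1 ≤ |t| ≤ t₀}` below. -/
def S_LUP : Prop := ∀ B : ℕ, ∃ δ K T₀ : ℝ, 0 < δ ∧ δ < 1 ∧ 1 ≤ K ∧ 3 ≤ T₀ ∧ ∀ T : ℝ, T₀ ≤ T →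
  ∀ (q : ℕ) (_ : NeZero q), (q : ℝ) ≤ Real.log T ^ B → ∀ χ : DirichletCharacter ℂ q, ∀ s : ℂ,
  (χ ≠ 1 ∨ 1 ≤ |s.im|) → |s.im| ≤ 3 * T → 1 - (Real.log T) ^ (δ - 1) ≤ s.re → s.re ≤ 3 →
  ‖DirichletCharacter.LFunction χ s‖ ≤ (Real.log T) ^ K

/-- **LZF**: zero free region and bound for the inverse (adapt `Pool/Agent/Y333/VK/ZfA.lean` and `Zf.lean`; from LUP).
Proof: exactly as for the zeta function, with `log |t|` replaced by the fixed number `log T` (this is simpler).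
* bound for the inverse to the right: `1 / L(s, χ) = ∑ μ(n) χ(n) n^{-s}`, so `|1 / L(s, χ)| ≤ 1 + 1 / (Re s - 1)`
  (lemma `zeta_le` there).
* local lemma `loc`: Landau's lemma `Pool.Agent.W66.landau_re`, `H370.Loc.landau` for `f = LFunction χ` in the discs
  `closedBall (1 + η + iτ) (4 w)`, `w = (log T)^{δ-1} / 32`, `1.9 ≤ |τ| ≤ 2 T + 1`, `M = (log T)^K`; for `χ = 1` the disc
  avoids `s = 1` because `|τ| ≥ 1.9`; zeros of `L(s, χ)` have real part `< 1`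
  (`DirichletCharacter.LFunction_ne_zero_of_one_le_re`).
* `3-4-1`: for `σ > 1`, `∑ Λ(n) n^{-σ} χ₀(n) (3 + 4 Re (χ(n) n^{-it}) + Re (χ²(n) n^{-2it})) ≥ 0`, and
  `∑ χ₀(n) Λ(n) n^{-σ} ≤ ∑ Λ(n) n^{-σ} = -ζ'/ζ(σ) ≤ 1 / (σ - 1) + C` (lemma `Pool.Agent.W66.D_re` as used there), so
  `0 ≤ 3 / η + 3 C + 4 Re (-L'/L (1 + η + it, χ)) + Re (-L'/L (1 + η + 2it, χ²))`. The character `χ²` is again a
  character modulo `q` (possibly `1`), its `L`-function is bounded near height `2t` by LUP (`2 |t| ≥ 3.8`).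
  There is no Siegel zero problem because `|t| ≥ 1.9`.
* growth along horizontal segments as in `grow`, `bd`. -/
def S_LZF : Prop := ∀ B : ℕ, ∃ δ K T₀ : ℝ, 0 < δ ∧ δ < 1 ∧ 1 ≤ K ∧ 3 ≤ T₀ ∧ ∀ T : ℝ, T₀ ≤ T →
  ∀ (q : ℕ) (_ : NeZero q), (q : ℝ) ≤ Real.log T ^ B → ∀ χ : DirichletCharacter ℂ q, ∀ s : ℂ,
  2 ≤ |s.im| → |s.im| ≤ T → 1 - (Real.log T) ^ (δ - 1) ≤ s.re → s.re ≤ 2 →
  DirichletCharacter.LFunction χ s ≠ 0 ∧ ‖(DirichletCharacter.LFunction χ s)⁻¹‖ ≤ (Real.log T) ^ K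

/-- **MOC**: twisted sums of the Moebius function with a character (adapt `Pool/Agent/Y25/VK/MobA.lean`, `MobB.lean`,
`MobC.lean`, `Mob.lean`; from LZF). Proof: as there, with `1 / L(s + iτ, χ)` in place of `1 / ζ(s + iτ)`, the Riesz sums
`RS τ v = ∑ μ(n) χ(n) n^{-iτ} max (v - log n) 0 = (1/2π) ∫ e^{s v} / (s² L(s + iτ, χ)) dt` on `Re s = c > 1`, but the
contour is moved only for `|Im s| ≤ R` with `R = |τ| / 2` (instead of `R = e^v`), so that all heights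
`Im s + τ` lie between `|τ|/2 ≥ 2` and `2 |τ| ≤ 2 N^A ≤ T := N^{A+1}` and LZF applies. Errors: the part `|Im s| > R` of
the line `c = 1 + 1 / v` is at most `e^{c v} (1 + v) / R ≤ 10 N v / |τ| ≤ 10 N log^2 N / |τ|`, the horizontal segments
`≤ N (log T)^K / R^2`, the new vertical line `≤ N (log T)^K exp (- (log T)^{δ-1} v / 2) · 4 · (1 + 1 / width)`. With
`|τ| ≥ (log N)^{C₀}`, `C₀` large in terms of `K` and the exponent of LZF, everything is `≤ N / (log N)^{2K}`; unsmoothing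
as in `MobC.lean` (`unsmooth`) with `h = (log N)^{-K}`. For small `N` use the trivial bound and a large `C`. -/
def S_MOC : Prop := ∀ A B K : ℕ, ∃ (C₀ : ℕ) (C : ℝ), ∀ (N : ℕ) (q : ℕ) (_ : NeZero q)
  (χ : DirichletCharacter ℂ q) (τ : ℝ), 2 ≤ N → (q : ℝ) ≤ Real.log N ^ B → Real.log N ^ C₀ ≤ |τ| → |τ| ≤ (N : ℝ) ^ A →
  ‖∑ n ∈ Finset.Icc 1 N, ((ArithmeticFunction.moebius n : ℤ) : ℂ) * (χ (n : ZMod q) * nt τ n)‖ ≤
    C * N / (Real.log N) ^ K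

/-- **PW**: pointwise bounds on blocks (from CHR and MOC). Proof. `L = log X`. Second and third part for `N ≥ |τ|`: second
part of CHR, `≤ C q (√|τ| + N / √|τ|) L ≤ 2 C q L N / √|τ|` and `|τ| ≥ L^{C₀}`. For `N < |τ| ≤ X ≤ N^m`: first part of CHR,
`κ = log |τ| / log N ∈ [1, m]`, saving `N^{c / (1 + m)^2} ≥ X^{c'}`. (Blocks `(u, v]` with `M ≤ u + 1`, `v ≤ 2 M`: the case
`u = M - 1` costs one more term; if `v ≤ u` the sum is empty.) Part two with the weight `log n`: partial summation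
(the weight is monotone, `≤ 2 L`). First part: difference of two sums of MOC (for `u ≥ X^{1/(2m)}`; note
`M ≥ X^{1/m}`, so `u ≥ M - 1` is large), `A = 2 m`, `q ≤ (log X)^B ≤ (2m)^B (log u)^B ≤ (log u)^{B+1}`, and
`(log u)^{C₀'} ≤ L^{C₀} ≤ |τ|`. -/
def S_PW : Prop := ∀ B K m : ℕ, 1 ≤ m → ∃ C₀ X₀ : ℕ, ∀ X : ℕ, X₀ ≤ X → ∀ (q : ℕ) (_ : NeZero q),
  (q : ℝ) ≤ Real.log X ^ B → ∀ χ : DirichletCharacter ℂ q, ∀ M u v : ℕ, (X : ℝ) ≤ (M : ℝ) ^ m → M ≤ u + 1 →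
  v ≤ 2 * M → M ≤ X ^ 2 → ∀ τ : ℝ, Real.log X ^ C₀ ≤ |τ| → |τ| ≤ X →
  ‖∑ n ∈ Finset.Ioc u v, (χ (n : ZMod q) * ((ArithmeticFunction.moebius n : ℤ) : ℂ)) * nt τ n‖ ≤ M / Real.log X ^ K ∧
  ‖∑ n ∈ Finset.Ioc u v, χ (n : ZMod q) * nt τ n‖ ≤ M / Real.log X ^ K ∧
  ‖∑ n ∈ Finset.Ioc u v, (χ (n : ZMod q) * (Real.log n : ℂ)) * nt τ n‖ ≤ M / Real.log X ^ K

/-! ### Heath-Brown's identity -/

/-- sums over the ordered factorisations of `n` into `r` factors (all `≤ X`) -/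
noncomputable def TS {r : ℕ} (F : Fin r → ℕ → ℂ) (X n : ℕ) : ℂ :=
  ∑ v ∈ (Fintype.piFinset (fun _ : Fin r => Finset.Icc 1 X)).filter (fun v => ∏ i, v i = n), ∏ i, F i (v i)

/-- the Moebius function cut at `z`, times `g` -/
noncomputable def gmu (g : ℕ → ℂ) (z n : ℕ) : ℂ :=
  if n ≤ z then g n * ((ArithmeticFunction.moebius n : ℤ) : ℂ) else 0

/-- factors for `Λ`: `j + 1` factors `μ 1_{≤ z}`, `j` factors `1`, one factor `log`, all times `g` -/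
noncomputable def HBL (g : ℕ → ℂ) (z j : ℕ) : Fin ((j + 1) + (j + 1)) → ℕ → ℂ :=
  Fin.addCases (fun _ n => gmu g z n) (fun i n => if (i : ℕ) = j then g n * (Real.log n : ℂ) else g n)

/-- factors for `μ`: `j + 1` factors `μ 1_{≤ z}`, `j` factors `1`, all times `g` -/
noncomputable def HBM (g : ℕ → ℂ) (z j : ℕ) : Fin ((j + 1) + j) → ℕ → ℂ :=
  Fin.addCases (fun _ n => gmu g z n) (fun _ n => g n)

/-- **HB**: Heath-Brown's identity for `Λ` and `μ` with a completely multiplicative twist. Proof. In the ring of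
arithmetic functions let `μ_z` be `μ` cut at `z` and `δ` the unit. `δ - 1 * μ_z` vanishes at all `n ≤ z` (at `n = 1`:
`1 - 1`; for `1 < n ≤ z` all divisors are `≤ z`), so `(δ - 1 * μ_z)^k` vanishes at all `n ≤ z^k` (a product of `k` numbers
`> z` is `> z^k`; precisely the power vanishes at `n < (z+1)^k`), and so do `Λ * (δ - 1 * μ_z)^k` and
`μ * (δ - 1 * μ_z)^k`. Expand by the binomial theorem and use `Λ * 1 = log`, `μ * 1 = δ`: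
`0 = Λ + ∑_{j=1}^k (-1)^j C(k, j) log * 1^{j-1} * μ_z^j` and `0 = μ + ∑_{j=1}^k (-1)^j C(k,j) 1^{j-1} * μ_z^j` at
`n ≤ z^k`. An `r`-fold Dirichlet convolution at `n ≤ X` is the sum over tuples in `[1, X]^r` with product `n`, and the
completely multiplicative `g` distributes over the factors (`g n = ∏ g (v i)`, `g 1 = 1`). -/
def S_HB : Prop := ∀ g : ℕ → ℂ, (∀ m n, g (m * n) = g m * g n) → g 1 = 1 → ∀ k z X n : ℕ, 1 ≤ n → n ≤ X → n ≤ z ^ k →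
  (g n * (ArithmeticFunction.vonMangoldt n : ℂ) =
    ∑ j ∈ Finset.range k, (-1 : ℂ) ^ j * (k.choose (j + 1) : ℂ) * TS (HBL g z j) X n) ∧
  (g n * ((ArithmeticFunction.moebius n : ℤ) : ℂ) =
    ∑ j ∈ Finset.range k, (-1 : ℂ) ^ j * (k.choose (j + 1) : ℂ) * TS (HBM g z j) X n)

/-! ### mean squares of products of Dirichlet polynomials -/

/-- the number of ordered factorisations of `n` into `r` factors (all `≤ X`) -/
noncomputable def tr (r X n : ℕ) : ℕ :=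
  ((Fintype.piFinset (fun _ : Fin r => Finset.Icc 1 X)).filter (fun v => ∏ i, v i = n)).card

/-- **DV**: moments of the number of factorisations. Proof: `tr r X n ≤ d(n)^r` (every factor is a divisor of `n ≥ 1`),
and `∑_{n ≤ Y} d(n)^k / n ≤ (1 + log Y)^(2^k)` (`Pool/Agent/H398R2/BA1.lean`), so
`∑_{n ≤ Y} tr r X n ^ 4 ≤ Y (1 + log Y)^(2^(4r))`. -/
def S_DV : Prop := ∀ r : ℕ, ∃ C : ℕ, ∀ X Y : ℕ, 1 ≤ Y →
  ∑ n ∈ Finset.Icc 1 Y, (tr r X n : ℝ) ^ 4 ≤ Y * (1 + Real.log Y) ^ C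

/-- the blocks of `F` in `[M, 2M]` are small at all heights between `T0` and `T`, relative to `X` -/
def Good (X : ℕ) (T0 T : ℝ) (K : ℕ) (F : ℕ → ℂ) (M : ℕ) : Prop :=
  ∀ u v : ℕ, M ≤ u + 1 → v ≤ 2 * M → ∀ τ : ℝ, T0 ≤ |τ| → |τ| ≤ T →
    ‖∑ n ∈ Finset.Ioc u v, F n * nt τ n‖ ^ 2 * ((T + X / M) * (X / M)) ≤ (X : ℝ) ^ 2 / Real.log X ^ K

/-- the polynomial of all products in `(x1, x2]` -/
noncomputable def PD {r : ℕ} (F : Fin r → ℕ → ℂ) (x1 x2 : ℕ) (τ : ℝ) : ℂ :=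
  ∑ v ∈ (Fintype.piFinset (fun _ : Fin r => Finset.Icc 1 x2)).filter
    (fun v => x1 < ∏ i, v i ∧ ∏ i, v i ≤ x2), (∏ i, F i (v i)) * nt τ (∏ i, v i)

/-- **MVG**: if for all sizes one factor has small blocks, the product is small in mean square (from DV and
`H370.mean_value` in `Pool/Agent/H370R2/MV.lean`). Proof. `L = log X`, `η = L^{-D}` with `D` chosen at the end.
Cells: `cell l = {n : e^{l η} ≤ n < e^{(l+1) η}}` for `0 ≤ l ≤ 3 L / η`; every `n ∈ [1, 9X]` lies in exactly one cell, and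
`cell l = Ioc (M - 1) (M' - 1) ⊂ [M, 2M]` with `M = ⌈e^{l η}⌉`, `M' = ⌈e^{(l+1) η}⌉`. Split the tuples `v` according to the
tuple of cells `l`. Call `l` inner if `x1 < e^{η ∑ l_i}` and `e^{η ∑ (l_i + 1)} ≤ x2`: then all products are in
`(x1, x2]` and the sum over these `v` is `A_l(τ) = ∏_i D_i(τ)`, `D_i(τ) = ∑_{n ∈ cell l_i} F_i(n) n^{-iτ}`. With
`M_i = ⌈e^{l_i η}⌉`: `∏ M_i ≥ e^{η ∑ l_i} ≥ X`, `∏ M_i ≤ 2^r e^{η ∑ l_i} ≤ 2^r · 9 X ≤ 18^r X` (`r ≥ 1`), so the hypothesis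
gives an `i` with `Good (F i) (M i)`. The product over `j ≠ i` is a Dirichlet polynomial
`∑_{n ≤ Z} b(n) n^{-iτ}`, `Z ≤ 20 X / M_i` (and `Z ≥ 1`), with `|b(n)| ≤ (3L)^r tr (r-1) (9X) n`; by `H370.mean_value` and
DV its mean square over `[T0, T]` (or `[-T, -T0]`) is at most `(T + 8 Z (1 + log Z)) Z L^{C'} ≤ L^{C''} (T + X/M_i) X/M_i`,
hence `∫ |A_l|² ≤ X² L^{C'' - K}`. There are at most `(4 L^{1 + D})^r` tuples `l`, so by Cauchy-Schwarz the inner part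
contributes `≤ (4 L^{1+D})^{2r} X² L^{C'' - K}`. The remaining `v` with product in `(x1, x2]` have a product within a
factor `e^{r η}` of `x1` or of `x2`: this part is `∑ b(n) n^{-iτ}` over `n` in two intervals of at most `40 r η X + 2` integers
`≤ 9X`, `|b(n)| ≤ (3L)^r tr r (9X) n`, so its mean square is at most `(T + 8 · 9X (1 + log 9X)) ∑ |b|²
≤ X L^{C'} (40 r η X + 2)^{1/2} (∑ tr^4)^{1/2} ≤ X² L^{C'''} η^{1/2}`. Choose `D = 2 (U + C''' + 3)` and then `K` large. -/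
def S_MVG : Prop := ∀ r U : ℕ, 1 ≤ r → ∃ K X₀ : ℕ, ∀ X : ℕ, X₀ ≤ X → ∀ T0 T : ℝ, 0 ≤ T0 → T0 ≤ T → T ≤ X →
  ∀ F : Fin r → ℕ → ℂ, (∀ i n, ‖F i n‖ ≤ Real.log (n + 3)) →
  (∀ M : Fin r → ℕ, (∀ i, 1 ≤ M i) → X ≤ ∏ i, M i → ∏ i, M i ≤ 18 ^ r * X → ∃ i, Good X T0 T K (F i) (M i)) →
  ∀ x1 x2 : ℕ, X ≤ x1 → x2 ≤ 9 * X →
    ∫ τ in T0..T, ‖PD F x1 x2 τ‖ ^ 2 ≤ (X : ℝ) ^ 2 / Real.log X ^ U ∧
    ∫ τ in (-T)..(-T0), ‖PD F x1 x2 τ‖ ^ 2 ≤ (X : ℝ) ^ 2 / Real.log X ^ U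

/-- the two coefficient sequences: `χ Λ` and `χ μ` -/
noncomputable def cL {q : ℕ} (χ : DirichletCharacter ℂ q) (n : ℕ) : ℂ :=
  χ (n : ZMod q) * (ArithmeticFunction.vonMangoldt n : ℂ)
noncomputable def cM {q : ℕ} (χ : DirichletCharacter ℂ q) (n : ℕ) : ℂ :=
  χ (n : ZMod q) * ((ArithmeticFunction.moebius n : ℤ) : ℂ)

/-- **DPL**: the Dirichlet polynomials over `χ Λ` and `χ μ` in mean square over `L^{C₀} ≤ |τ| ≤ X^{2/3} / L^{C₁}`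
(from HB, MVG, PW, CHR, FD). Proof. HB with `k = 3`, `g = χ`, `z = ⌈(9X)^{1/3}⌉ + 1`: for `n ≤ 9X ≤ z^3`, `χ(n) Λ(n)` is a
combination (coefficients `≤ 3`) of three functions `TS (HBL ..)`, so the polynomial is a combination of three polynomials
`PD (HBL ..) x1 x2 τ` (the sum over `n ∈ (x1, x2]` of `TS F x2 n * nt τ n` is `PD F x1 x2 τ`); same for `μ`. Split
`[L^{C₀}, T]` into at most `2 L` dyadic pieces `[T', 2T']` (cut at `T`) and apply MVG on each with `T0 := T'`,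
`T := 2 T'`, `r ≤ 6`, `U + 5`; let `K` be its exponent. The functions `F_i` are bounded by `log (n + 3)`. From now on
`T' ≤ |τ| ≤ T = 2T' ≤ 2 X^{2/3} / L^{C₁}`. Goodness: let `M_1, ..., M_r` have product between `X` and `18^r X`.
(a) some `M = M_i` with `X^{1/20} ≤ M ≤ 8 X^{1/3}`: by PW (`m = 20`, exponent `K' = K + 1`; for the cut Moebius function the
block is intersected with `[1, z]`, again `Ioc u v'` with `v' ≤ 2M`), `|block|² (T + X/M)(X/M) ≤ L^{-2K'} (T M X + X²)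
≤ 20 L^{-2K'} X²`.
(b) a factor `μ_z` with `M > z`: the blocks are `0`, good. (`z ≤ 8 X^{1/3}` for large `X`.)
(c) otherwise every factor has `M_i < X^{1/20}`, or it is `χ` or `χ log` and has `M_i > 8 X^{1/3}`; as the product is
`≥ X` and `r ≤ 6`, one factor is of the second kind. Let `M = M_i` for this factor, `M ≤ 18^6 X`.
If `M ≤ X / L^{K''}`: second part of CHR (and summation by parts for the weight `log n`):
`|block|² (T + X/M)(X/M) ≤ C q² L^6 (T + M²/T)(T + X/M)(X/M) = C q² L^6 (T² X/M + T X²/M² + M X + X²/T)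
≤ C q² L^6 X² (L^{-2C₁} + L^{-C₁} + L^{-K''} + L^{-C₀})`.
If `M > X / L^{K''}`: FD: `|block|² (T + X/M)(X/M) ≤ C q² L² (M²/T² + T²)(T + X/M)(X/M)
= C q² L² (M X/T + X²/T² + T³ X/M + T² X²/M²) ≤ C' q² L² X² (L^{-C₀} + L^{K'' - 3 C₁} + X^{-1/2})`.
Choose `K''`, then `C₀` and `C₁` large. -/
def S_DPL : Prop := ∀ B U : ℕ, ∃ Cm : ℕ, ∀ C₀ : ℕ, Cm ≤ C₀ → ∃ C₁ X₀ : ℕ, ∀ X : ℕ, X₀ ≤ X → ∀ (q : ℕ) (_ : NeZero q),
  (q : ℝ) ≤ Real.log X ^ B → ∀ χ : DirichletCharacter ℂ q, ∀ T : ℝ, T * Real.log X ^ C₁ ≤ (X : ℝ) ^ (2 / 3 : ℝ) →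
  Real.log X ^ C₀ ≤ T → ∀ x1 x2 : ℕ, X ≤ x1 → x2 ≤ 9 * X → ∀ c : ℕ → ℂ, c = cL χ ∨ c = cM χ →
    ∫ τ in (Real.log X ^ C₀)..T, ‖∑ n ∈ Finset.Ioc x1 x2, c n * nt τ n‖ ^ 2 ≤ (X : ℝ) ^ 2 / Real.log X ^ U ∧
    ∫ τ in (-T)..(-Real.log X ^ C₀), ‖∑ n ∈ Finset.Ioc x1 x2, c n * nt τ n‖ ^ 2 ≤ (X : ℝ) ^ 2 / Real.log X ^ U

/-! ### windows -/

/-- **WIN**: from Dirichlet polynomials to short intervals. `A(τ) = ∑_{x < n ≤ 9x} a(n) n^{-iτ}`.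
Proof. Let `S(y) = ∑_{x < n ≤ y} a(n)` for real `y ≥ x` (`S(y) = S(⌊y⌋)`; only `n ∈ (x, 9x]` occur below). The left side is
`∫_x^{2x} |S(y + Y) - S(y)|² dy` up to replacing `Ioc x (2x)` by `Ico` (shift `m` by one; add the window at `m = 2x` by
integrating up to `2x + 1`). Let `k₀ = 2 Y / x ≤ 1/5`; for `k ∈ [k₀, 2 k₀]` write
`S(y + Y) - S(y) = (S(y e^k) - S(y)) - (S(y₁ e^{k'}) - S(y₁))`, `y₁ = y + Y`, `k' = k - log(1 + Y/y) ∈ [k₀/2, 2k₀]`. Average over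
`k` and integrate over `y` (substitutions `k → k'`, `y → y₁`; Saffari-Vaughan):
`LHS ≤ (4 / k₀) ∫_{k₀/2}^{2k₀} ∫_x^{3x+1} |S(y e^k) - S(y)|² dy dk`. For fixed `k`, with `y = e^u`:
`∫_x^{3x+1} |S(y e^k) - S(y)|² dy ≤ 4 x ∫_ℝ |G(u)|² du`, `G(u) = ∑_{x < n ≤ 9x} a(n) 1_{u < log n ≤ u + k}`, a finite
combination of indicator functions with Fourier transform `Ĝ(ξ) = A(2πξ) ∫_{-k}^0 e^{-2πiξv} dv`, and the last
factor is `≤ min (k, 1/(π|ξ|))`. Plancherel (`Pool/Agent/H153R4/Pl.lean`, `plancherel`, or Mathlib):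
`∫ |G|² = ∫ |A(2πξ)|² |..|² dξ = (1/2π) ∫ |A(τ)|² min (k, 2/|τ|)² dτ`. So
`LHS ≤ 100 x ∫ |A(τ)|² min (Y/x, 1/|τ|)² dτ`. On `|τ| ≤ T` bound the minimum by `Y/x`. On `2^j T ≤ |τ| ≤ 2^{j+1} T` bound it by
`1 / (2^j T)` and use `H370.mean_value`: `∫ ≤ (2^{j+2} T + 8 · 9x (1 + log 9x)) ∑ |a|²`; the sum over `j` is at most
`C (1/T + x (1 + log x) / T²) ∑ |a|²`. -/
def S_WIN : Prop := ∃ C : ℝ, 1 ≤ C ∧ ∀ (a : ℕ → ℂ) (x Y : ℕ) (T : ℝ), 1 ≤ Y → 10 * Y ≤ x → 1 ≤ T →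
  ∑ m ∈ Finset.Ioc x (2 * x), ‖∑ n ∈ Finset.Ioc m (m + Y), a n‖ ^ 2 ≤
    C * ((Y : ℝ) ^ 2 / x) * (∫ τ in (-T)..T, ‖∑ n ∈ Finset.Ioc x (9 * x), a n * nt τ n‖ ^ 2) +
    C * (x / T + (x : ℝ) ^ 2 * (1 + Real.log x) / T ^ 2) * ∑ n ∈ Finset.Ioc x (9 * x), ‖a n‖ ^ 2

/-- **LOW**: small heights. Proof: from `Pool.Agent.H373R2.T7.lam_ap` and `mu_ap` (`Pool/Agent/H373R2/T7/LamMaj.lean`,
`SupMu.lean`) with `N = 9X` and a large exponent: for all `y ≤ 9X`, `|∑_{n ≤ y} (χ(n) Λ(n) - δ)| ≤ q · 9X / L^{K'}`,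
`δ = 1` if `χ = 1` and `0` otherwise (sum over the classes `c` modulo `q`: main term `y/φ(q) ∑_{(c,q)=1} χ(c)`, which is `y` or
`0`), and `|∑_{n ≤ y} χ(n) μ(n)| ≤ q · 9X / L^{K'}`. Partial summation with `n^{-iτ}` on `(x1, x2] ⊂ (X, 9X]`: factor
`≤ 2 + |τ| log 9 ≤ 5 L^{C₀}`. Choose `K' = K + B + C₀ + 2`. -/
def S_LOW : Prop := ∀ B C₀ K : ℕ, ∃ X₀ : ℕ, ∀ X : ℕ, X₀ ≤ X → ∀ (q : ℕ) (_ : NeZero q),
  (q : ℝ) ≤ Real.log X ^ B → ∀ χ : DirichletCharacter ℂ q, ∀ τ : ℝ, |τ| ≤ Real.log X ^ C₀ →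
  ∀ x1 x2 : ℕ, X ≤ x1 → x2 ≤ 9 * X →
  ‖∑ n ∈ Finset.Ioc x1 x2, (cL χ n - (if χ = 1 then 1 else 0)) * nt τ n‖ ≤ X / Real.log X ^ K ∧
  ‖∑ n ∈ Finset.Ioc x1 x2, cM χ n * nt τ n‖ ≤ X / Real.log X ^ K

/-- **SIC**: primes and the Moebius function with characters in almost all short intervals of length
`≥ x^{1/3} (log x)^C` (from DPL, WIN, LOW, FD). Proof. `c(n) = χ(n) Λ(n) - δ` (`δ = 1` if `χ = 1`, else `0`) or `χ(n) μ(n)`;
`T = max ((x / Y) L^V) (L^{C₀})`, `V = U + 10`, `C₀` the least exponent of DPL for `U + 5` (or larger); `∑_{x < n ≤ 9x} |c(n)|² ≤ 9 x (2L)²·2`. WIN: the second term is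
`≤ C (Y L^{-V} + Y² L^{2 - 2V}) · 100 x L² ≤ x Y² / (3 L^U)` (as `T ≥ (x / Y) L^V`; `Y` is large). The first term: `|τ| ≤ L^{C₀}`: LOW gives
`(Y²/x) · 2 L^{C₀} x² / L^{2K}`. `L^{C₀} ≤ |τ| ≤ T`: `|a + b|² ≤ 2|a|² + 2|b|²`; DPL with `U + 5` for `χ Λ` or `χ μ` (its condition
`T L^{C₁} ≤ x^{2/3}` is `Y ≥ x^{1/3} L^{V + C₁}`), and for the constant `δ` FD with `q = 1` on the four blocks covering
`(x, 9x]`: `∫_{L^{C₀}}^T (x/τ + τ)² dτ ≤ C (x² / L^{C₀} + T³) ≤ C x² (L^{-C₀} + L^{-3 C₁})`. If `10 Y > x` the statement for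
`Y` follows from the one for `⌊Y/20⌋` (split the window; or use `LOW` with `τ = 0` and prefix sums directly: all windows
are small because prefix sums are). -/
def S_SIC : Prop := ∀ B U : ℕ, ∃ C X₀ : ℕ, ∀ x : ℕ, X₀ ≤ x → ∀ (q : ℕ) (_ : NeZero q),
  (q : ℝ) ≤ Real.log x ^ B → ∀ χ : DirichletCharacter ℂ q, ∀ Y : ℕ, (x : ℝ) ^ (1 / 3 : ℝ) * Real.log x ^ C ≤ Y → Y ≤ x →
  ∑ m ∈ Finset.Ioc x (2 * x), ‖∑ n ∈ Finset.Ioc m (m + Y), (cL χ n - (if χ = 1 then 1 else 0))‖ ^ 2 ≤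
    x * (Y : ℝ) ^ 2 / Real.log x ^ U ∧
  ∑ m ∈ Finset.Ioc x (2 * x), ‖∑ n ∈ Finset.Ioc m (m + Y), cM χ n‖ ^ 2 ≤ x * (Y : ℝ) ^ 2 / Real.log x ^ U

/-- the mean value of `e(a n / q)` over the reduced classes -/
noncomputable def cc (q a : ℕ) : ℂ :=
  (1 / (Nat.totient q : ℂ)) * ∑ b ∈ (Finset.range q).filter (fun b => b.Coprime q), e ((a : ℝ) * b / q)

/-- **SIA**: the same with additive characters (from SIC). Proof for `Λ`: the terms with `(n, q) > 1` are powers of primes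
`p | q`; there are at most `q · 2 L` of them up to `4x`, each `≤ 2L`, so they contribute at most `4 q L²` to a window, which is
negligible (`Y` is large). For `(n, q) = 1`: `e(a n / q) = (1/φ(q)) ∑_χ (∑_b e(a b / q) χ̄(b)) χ(n)` (orthogonality, `b` over the
reduced classes); the coefficient of `χ` has absolute value `≤ 1` after division by `φ(q)`, and the coefficient of `χ = 1` is
`cc q a`; so the window is `∑_χ coeff_χ ∑ χ(n) Λ(n)`, main term `cc q a Y` from `χ = 1`, and the mean square of the rest is at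
most `φ(q)² max_χ` of the mean squares of SIC (with `U + 2B + 3`).
Proof for `μ`: `n = g n'` with `g = (n, q)`; `μ(g n') = μ(g) μ(n')` if `(n', g) = 1`, else `0`; so the window is
`∑_{g | q} μ(g) ∑_{n' : m < g n' ≤ m + Y, (n', q) = 1} μ(n') e(a n' g / q)`; expand `e(a n' g / q)` on the reduced classes
modulo `q` in characters modulo `q` as before; the inner sum runs over `⌊m/g⌋ < n' ≤ ⌊(m+Y)/g⌋`, which differs from the window of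
length `⌊Y/g⌋` after `⌊m/g⌋` by at most one term; as `m` runs over `(x, 2x]`, `⌊m/g⌋` takes each value at most `g` times,
in the range `[⌊x/g⌋, ⌊2x/g⌋]`, so SIC at `x' = ⌊x/g⌋ - 1` or `⌊x/g⌋`, `Y' = ⌊Y/g⌋` applies (cover `[⌊x/g⌋, ⌊2x/g⌋]` by
two dyadic ranges; `q ≤ (log x)^B ≤ (log x')^{B+1}`). -/
def S_SIA : Prop := ∀ B U : ℕ, ∃ C X₀ : ℕ, ∀ x : ℕ, X₀ ≤ x → ∀ q : ℕ, 1 ≤ q → (q : ℝ) ≤ Real.log x ^ B →
  ∀ a Y : ℕ, (x : ℝ) ^ (1 / 3 : ℝ) * Real.log x ^ C ≤ Y → Y ≤ x →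
  ∑ m ∈ Finset.Ioc x (2 * x), ‖∑ n ∈ Finset.Ioc m (m + Y),
      (ArithmeticFunction.vonMangoldt n : ℂ) * e ((a : ℝ) * n / q) - cc q a * Y‖ ^ 2 ≤
    x * (Y : ℝ) ^ 2 / Real.log x ^ U ∧
  ∑ m ∈ Finset.Ioc x (2 * x), ‖∑ n ∈ Finset.Ioc m (m + Y),
      ((ArithmeticFunction.moebius n : ℤ) : ℂ) * e ((a : ℝ) * n / q)‖ ^ 2 ≤
    x * (Y : ℝ) ^ 2 / Real.log x ^ U

/-- **LZ**: the model `lamz z` in short intervals (adapt `rough_ap` and `lamz_ap` of `Pool/Agent/H373R2/T7/LamZ.lean`).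
Proof: for a class `c` modulo `q` with `(c, q) = 1`, the number of `n ∈ (m, m + Y]`, `n ≡ c (mod q)`, divisible by all primes of
a set `S` (primes `≤ z` not dividing `q`) is `Y / (q ∏ S) + O(1)` (difference of two prefix counts), so `sieve_gen'` as in
`rough_ap`, with the interval in place of `Icc 1 y`, gives
`|#{n ∈ (m, m+Y], n ≡ c, (n, P(z)) = 1} - (Y / φ(q)) Vz z| ≤ 2 (z+1)^r + 2 Y exp (3 (1 + log z) - r)` (all primes dividing `q`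
are `≤ z` because `q ≤ z`). Classes with `(c, q) > 1` contain no `n` free of primes `≤ z`. Divide by `Vz z ≥ 1/z`, multiply
by `e(a c / q)` and add over `c`. Choose `r = ⌊log Y / (4 log (z+1))⌋`: `(z+1)^r ≤ Y^{1/4}` and
`exp (-r) ≤ L^{-U-3E-B-9}` for large `x` because `log Y ≥ (1/8) log x` and `log z ≤ E log log x`. -/
def S_LZ : Prop := ∀ B E U : ℕ, ∃ X₀ : ℕ, ∀ x : ℕ, X₀ ≤ x → ∀ z q : ℕ, 1 ≤ q → (q : ℝ) ≤ Real.log x ^ B → q ≤ z →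
  (z : ℝ) ≤ Real.log x ^ E → ∀ a m Y : ℕ, (x : ℝ) ^ (1 / 8 : ℝ) ≤ Y →
  ‖∑ n ∈ Finset.Ioc m (m + Y), (Pool.Agent.H373R2.T7.lamz z n : ℂ) * e ((a : ℝ) * n / q) - cc q a * Y‖ ≤
    Y / Real.log x ^ U

end Pool.Agent.Q236.CR
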