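import Mathlib
import Pool.Agent.Q236.CR.Stm
import Pool.Agent.H300R2.FB.MinorF
import Pool.Agent.H993R2.FB_InvFull
import Pool.Agent.H373R2.T7.SysCount

/-!
# Project CR (helper236), part 2: statements

From short intervals to random systems of polynomials in the complete range, with arbitrary weights.
Every statement is a `Prop` with a complete proof in its docstring. `L` is the logarithm of the main parameter.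
-/

set_option autoImplicit false

namespace Pool.Agent.Q236.CR

open Finset Filter
open Pool.Agent.H469R2.NK (e)
open Pool.Agent.H300R2.BH (fz chf)
open Pool.Agent.H300R2.FB (bx)
open Pool.Agent.H442R2.EHI (Maj)
open Pool.Agent.H373R2.T7 (pz Vz lamz)

/-- `f` cut at `x` -/
noncomputable def cut (x : ℕ) (f : ℕ → ℂ) (n : ℕ) : ℂ := if n ≤ x then f n else 0

/-- `f` is small in mean square in short intervals of `[1, x]`, with every additive twist of small denominator -/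
def Win (f : ℕ → ℂ) (x E C U : ℕ) : Prop := ∀ q : ℕ, 1 ≤ q → (q : ℝ) ≤ Real.log x ^ E → ∀ b Y : ℕ,
  (x : ℝ) ^ (1 / 3 : ℝ) * Real.log x ^ C ≤ Y → (Y : ℝ) * Real.log x ^ C ≤ x →
  ∑ m ∈ Finset.Icc 1 (x + Y), ‖∑ n ∈ Finset.Ioc (m - Y) m, cut x f n * e ((b : ℝ) * n / q)‖ ^ 2 ≤
    x * (Y : ℝ) ^ 2 / Real.log x ^ U

/-- **COV**: from windows over dyadic ranges to all windows. Proof. `C = U + 8`, `m0 = ⌊x / L^{C-2}⌋`. For `m ≤ m0` every window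
is at most `Y L²` (at most `Y` terms), contribution `≤ m0 Y² L⁴ ≤ x Y² / L^{U+2}`. For `x < m ≤ x + Y`: `≤ Y · Y² L⁴ ≤ x Y² L^{4 - C}`.
For `m0 < m ≤ x` put `m' = m - Y`: the window is `Ioc m' (m' + Y)` (all `n ≤ x`, so the cut does nothing), and
`m' ≥ m0 + 1 - Y > x / L^{C - 1}` for large `x`. With `X_i = ⌈x / 2^i⌉`, `i = 1, ..., I`, `I` least with `X_I ≤ x / L^{C-1}` (so
`X_i L^C ≥ x` for `i ≤ I`), the intervals `Ioc X_i (2 X_i) ⊇ Ioc X_i X_{i-1}` (with `X_0 = x`) cover all these `m'`, and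
`∑ X_i ≤ x + I ≤ 2 x`. Total `≤ (1 + 2 + 1) x Y² / L^{U+2} ≤ x Y² / L^U`. -/
def S_COV : Prop := ∀ U : ℕ, ∃ C x0 : ℕ, ∀ x : ℕ, x0 ≤ x → ∀ (h : ℕ → ℂ) (Y : ℕ),
  (∀ n ≤ x, ‖h n‖ ≤ Real.log x ^ 2) → 1 ≤ Y → (Y : ℝ) * Real.log x ^ C ≤ x →
  (∀ x' : ℕ, (x : ℝ) ≤ x' * Real.log x ^ C → x' ≤ x →
    ∑ m ∈ Finset.Ioc x' (2 * x'), ‖∑ n ∈ Finset.Ioc m (m + Y), h n‖ ^ 2 ≤ x' * (Y : ℝ) ^ 2 / Real.log x ^ (U + 2)) →
  ∑ m ∈ Finset.Icc 1 (x + Y), ‖∑ n ∈ Finset.Ioc (m - Y) m, cut x h n‖ ^ 2 ≤ x * (Y : ℝ) ^ 2 / Real.log x ^ U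

/-- `Λ - Λ_z` -/
noncomputable def fL (z n : ℕ) : ℂ := ((ArithmeticFunction.vonMangoldt n - lamz z n : ℝ) : ℂ)
/-- `μ` -/
noncomputable def fM (n : ℕ) : ℂ := ((ArithmeticFunction.moebius n : ℤ) : ℂ)
/-- `λ` (Liouville) -/
noncomputable def fV (n : ℕ) : ℂ := ((ArithmeticFunction.liouville n : ℤ) : ℂ)

/-- **WL** (from SIA, LZ, COV). Proof: apply COV to `h n = fL z n * e(b n / q)` (pointwise `≤ L + 1 / Vz z ≤ L²`, lemma `Vz_low`;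
`cut x h n = cut x (fL z) n * e(b n / q)`). For `x ≤ x' L^C`, `x' ≤ x`: subtract `cc q b * Y` from both windows; the window of
`Λ` by SIA at `x'` (`q ≤ L^{E1} ≤ (log x')^{E1 + 1}`, `x'^{1/3} (log x')^{C''} ≤ x^{1/3} L^{C''} ≤ Y`, `Y ≤ x / L^C ≤ x'`), the
window of `lamz` by LZ at `x'` (`q ≤ L^{E1} ≤ z`, `z ≤ L^E ≤ (log x')^{E+1}`, `x'^{1/8} ≤ Y`), and `|u - v|² ≤ 2|u|² + 2|v|²`;
`log x' ≥ L / 2`. `C` does not depend on `E` because the constants of SIA do not. -/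
def S_WL : Prop := ∀ E1 U1 : ℕ, ∃ C : ℕ, ∀ E : ℕ, ∃ x0 : ℕ, ∀ x : ℕ, x0 ≤ x → ∀ z : ℕ, Real.log x ^ E1 ≤ z →
  (z : ℝ) ≤ Real.log x ^ E → Win (fL z) x E1 C U1

/-- **WM** (from SIA, COV): as WL. -/
def S_WM : Prop := ∀ E1 U1 : ℕ, ∃ C x0 : ℕ, ∀ x : ℕ, x0 ≤ x → Win fM x E1 C U1

/-- **WV** (from SIA, COV). Proof: COV with `h n = fV n * e(b n / q)`. Let `x ≤ x' L^C`, `x' ≤ x`, `D0 = ⌊L^V⌋`. For `n ≥ 1`:
`λ(n) = ∑_{d² | n} μ(n / d²)`, where exactly one `d` contributes (`n / d²` squarefree), so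
`λ(n) = ∑_{d ≤ D0, d² | n} μ(n / d²) + O(1)` with error `0` unless some `d > D0` has `d² | n`. The errors contribute at most
`∑_m (#{n ∈ (m, m + Y] : ∃ d > D0, d² | n})² ≤ Y ∑_m # ≤ Y² #{n ≤ 4x' : ∃ d > D0, d² | n} ≤ Y² 4 x' / D0`. For `d ≤ D0` the sum
over `n = d² k` is `∑ μ(k) e(b d² k / q)` over `⌊m / d²⌋ < k ≤ ⌊(m + Y) / d²⌋`, which differs by at most one term from the
window of length `⌊Y / d²⌋` after `⌊m / d²⌋`; as `m` runs over `(x', 2x']` each value `⌊m / d²⌋` is taken at most `d²` times, in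
`[⌊x'/d²⌋, 2⌊x'/d²⌋ + 2]`, covered by `Ioc (X'' - 1) (2 X'' - 2)` and `Ioc (X'' + 1) (2X'' + 2)`, `X'' = ⌊x'/d²⌋`; SIA at
`X'' - 1` and `X'' + 1` gives `≤ 3 d² (x'/d²) (Y/d²)² / L^{U'} + 2 x'`; Cauchy-Schwarz over `d ≤ D0` costs a factor `D0`.
(Windows of length `⌊Y/d²⌋` have to be `≤ X'' - 1`, which holds as `Y L^C ≤ x ≤ x' L^{C_1}` with `C` larger than the exponent
`C_1` of COV.) -/
def S_WV : Prop := ∀ E1 U1 : ℕ, ∃ C x0 : ℕ, ∀ x : ℕ, x0 ≤ x → Win fV x E1 C U1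

/-- **GAL**: discrete Gallagher lemma. Proof. Let `F m = ∑_{n ∈ Ioc (m - Y) m} cut x f n * e((n - m) b / q)`; its norm is the norm
of the window on the right. For `0 ≤ h < N`:
`chf F (x + Y) N h = (1/N) ∑_n cut x f n ∑_{m = n}^{n + Y - 1} e((n - m) b / q) e(m h / N) = chf f x N h * D(h/N - b/q)`,
`D(θ) = ∑_{l < Y} e(l θ)`. If `|θ| ≤ 1 / (8 Y)` every `l θ` has absolute value `≤ 1/8`, so `Re e(l θ) ≥ cos (π/4) ≥ 1/2` and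
`|D(θ)| ≥ Y / 2`. Parseval `Pool.Agent.H300R2.BH.ch_parseval F (x + Y) N` gives `∑_h |chf F|² = (1/N) ∑_m |F m|²`. -/
def S_GAL : Prop := ∀ (f : ℕ → ℂ) (x N Y q b : ℕ), 1 ≤ Y → 1 ≤ q → x + Y + 1 ≤ N →
  ∑ h ∈ (Finset.range N).filter (fun h : ℕ => |(h : ℝ) / N - (b : ℝ) / q| ≤ 1 / (8 * (Y : ℝ))), ‖chf f x N h‖ ^ 2 ≤
    4 / (N * (Y : ℝ) ^ 2) *
      ∑ m ∈ Finset.Icc 1 (x + Y), ‖∑ n ∈ Finset.Ioc (m - Y) m, cut x f n * e ((b : ℝ) * n / q)‖ ^ 2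

open Classical in
/-- **MJE** (from GAL): the energy on the major arcs. Proof: if `|h/N - b/q| ≤ δ` with `0 ≤ h < N`, `b ∈ ℤ`, `q ≤ Q`, then
`0 ≤ b ≤ q` (as `Q δ < 1`). So the set of `h` is covered by the at most `Q (Q + 1)` sets of GAL, and the sum is at most
`Q (Q + 1) · 4 / (N Y²) · x Y² / L^U ≤ Q² / L^U` because `x / N ≤ 1 / 16`. -/
def S_MJE : Prop := ∀ (f : ℕ → ℂ) (x E C U Q Y : ℕ) (δ : ℝ), 3 ≤ x → Win f x E C U → 1 ≤ Q → (Q : ℝ) ≤ Real.log x ^ E →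
  1 ≤ Y → Y ≤ x → (x : ℝ) ^ (1 / 3 : ℝ) * Real.log x ^ C ≤ Y → (Y : ℝ) * Real.log x ^ C ≤ x → 8 * (Y : ℝ) * δ ≤ 1 → Q * δ < 1 →
  ∑ h ∈ (Finset.range (16 * x + 1)).filter (fun h : ℕ => Maj Q δ ((h : ℝ) / ((16 * x + 1 : ℕ) : ℝ))),
    ‖chf f x (16 * x + 1) h‖ ^ 2 ≤ (Q : ℝ) ^ 2 / Real.log x ^ U

/-- value of the box polynomial: `a + ∑ r_i k^{i+1} + σ d k^j` -/
def bval (j : ℕ) (r : Fin (j - 1) → ℤ) (σ : ℤ) (a d k : ℕ) : ℤ :=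
  (a : ℤ) + ∑ i : Fin (j - 1), r i * (k : ℤ) ^ ((i : ℕ) + 1) + σ * d * (k : ℤ) ^ j

open Classical in
/-- **MUL**: multiplicities. Proof. The map `(r, a, d) ↦ (⌊(a - a0 - 1) / k⌋, (⌊(r_i + H_i) / k⌋)_i)` is injective on the set of
solutions: let two solutions have the same image. Modulo `k`, `a ≡ m ≡ a'`, and `a - a0 - 1`, `a' - a0 - 1` have the same quotient,
so `a = a'`; if `a = a'` and `r_l = r'_l` for `l < i`, subtract and divide by `k^{i+1}`: `r_i ≡ r'_i (mod k)`, and the quotients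
of `r_i + H_i`, `r'_i + H_i` agree, so `r_i = r'_i`; finally `d = d'`. The first coordinate takes at most
`(A - 1) / k + 1 ≤ 2 A / k` values, the others `2 H_i / k + 1 ≤ 2 (2 H_i + 1) / k`. -/
def S_MUL : Prop := ∀ (j : ℕ), 1 ≤ j → ∀ (H : Fin (j - 1) → ℕ) (A a0 D k : ℕ) (σ m : ℤ), 1 ≤ k → k ≤ A →
  (∀ i, k ≤ 2 * H i + 1) → (σ = 1 ∨ σ = -1) →
  ((((bx j H ×ˢ (Finset.Ioc a0 (a0 + A) ×ˢ Finset.Ioc D (2 * D))).filter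
    (fun t : (Fin (j - 1) → ℤ) × ℕ × ℕ => bval j t.1 σ t.2.1 t.2.2 k = m)).card : ℕ) : ℝ) ≤
    2 ^ j * A * (∏ i, ((2 * H i + 1 : ℕ) : ℝ)) / (k : ℝ) ^ j

/-- **ENG**: the second moment over a box of polynomials, with an arbitrary function `G` and arbitrary weights `w` (from MJE and
MUL; model: `Pool/Agent/H300R2/FB/CoreF.lean`, whose treatment of the minor arcs can be copied). Proof. `N = 16 x + 1`. Take `E`
from `Pool.Agent.H993R2.FB.inv_full j hj U' E2 E6` with `U' = U + E0 + j E2 + 4`, and `E1 = E`, `Q = ⌊L^{E1}⌋`,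
`δ = L^{E1} / (A K^{j-1})`, `Y = ⌊A K^{j-1} / (8 L^{E1})⌋`, `U1 = U + E0 + j E2 + 2 E1 + 2`. By
`Pool.Agent.H300R2.BH.ch_inv`, for `|v| ≤ 15 x`: `fz (cut x f) v = P(v) + M(v)`,
`P(v) = ∑_{h ∈ Maj} c_h e(-v h / N)`, `M(v)` the sum over the other `h`, `c_h = chf (cut x f) x N h = chf f x N h`.
Minor arcs: `Pool.Agent.H300R2.FB.minorF` with the weights `w k * e(-G k h / N)`, `T = Ioc K1 K`, `A1 = A`, `R = K² / L^{U'}`, as in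
`CoreF.lean`: at most `10^{j+1} A D card R (4 N / (D K1^j) + 1) ∑ |c_h|²`, `∑ |c_h|² ≤ (1/N) ∑_{n ≤ x} |f n|² ≤ L² / 16`,
`4 N / (D K1^j) ≤ 68 L^{E0 + j E2}`. Major arcs: Cauchy-Schwarz over `k` and MUL:
`∑_{r, a, d} |∑_k w_k P(G k + bval)|² ≤ K ∑_{k} (2^j A card / k^j) ∑_{|v| ≤ 15x} |P(v)|²`, and `P` is `N`-periodic on `ℤ`,
`∑_{v mod N} |P(v)|² = N ∑_{Maj} |c_h|²`, `30 x + 1 ≤ 2 N`, so with MJE this is
`≤ K · K · (2^j A card / K1^j) · 2 N · Q² / L^{U1} ≤ 2^j · 34 · card A D K² L^{E0 + j E2 + 2 E1 - U1}` (as `x ≤ D K^j L^{E0}`,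
`K^j ≤ K1^j L^{j E2}`). Conditions of MJE for large `B`: `x ≤ A K^j L^{E0 + E6}` gives
`x^{1/3} L^C ≤ A K^{j-1} / (16 L^{E1}) ≤ Y` because `L^{c} ≤ A² K^{2 j - 3}` (`A ≥ K L^B`, `K ≥ L^B`), and
`Y L^C ≤ A K^{j-1} L^C ≤ D L^{E6} K^{j-1} L^C ≤ x`. -/
def S_ENG : Prop := ∀ j : ℕ, 1 ≤ j → ∀ E0 E2 E6 U : ℕ, ∃ E1 U1 : ℕ, ∀ C : ℕ, ∃ B x0 : ℕ, ∀ x : ℕ, x0 ≤ x → ∀ f : ℕ → ℂ,
  Win f x E1 C U1 → (∀ n ≤ x, ‖f n‖ ≤ Real.log x) →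
  ∀ (D K K1 A a0 : ℕ) (G : ℕ → ℤ) (H : Fin (j - 1) → ℕ) (σ : ℤ) (w : ℕ → ℂ), (∀ k, ‖w k‖ ≤ 1) → (σ = 1 ∨ σ = -1) →
  2 * D * K ^ j ≤ x → (x : ℝ) ≤ D * (K : ℝ) ^ j * Real.log x ^ E0 → Real.log x ^ B ≤ K → K1 ≤ K →
  (K : ℝ) ≤ K1 * Real.log x ^ E2 → (K : ℝ) * Real.log x ^ B ≤ A → (∀ i, A ≤ 2 * H i + 1) →
  (A : ℝ) ≤ D * Real.log x ^ E6 → (D : ℝ) ≤ A * Real.log x ^ E6 → A ≤ x → (∀ i, 2 * H i + 1 ≤ x) →
  (∀ r ∈ bx j H, ∀ a ∈ Finset.Ioc a0 (a0 + A), ∀ d ∈ Finset.Ioc D (2 * D), ∀ k ∈ Finset.Ioc K1 K,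
    |G k + bval j r σ a d k| ≤ 15 * (x : ℤ)) →
  ∑ r ∈ bx j H, ∑ a ∈ Finset.Ioc a0 (a0 + A), ∑ d ∈ Finset.Ioc D (2 * D),
    ‖∑ k ∈ Finset.Ioc K1 K, w k * fz (cut x f) (G k + bval j r σ a d k)‖ ^ 2 ≤
    ((bx j H).card : ℝ) * (A * D * (K : ℝ) ^ 2 / Real.log x ^ U)

/-! ### one random polynomial of degree `e + 1` -/

/-- coefficient vectors of polynomials of degree `≤ s + 1`, all coefficients in `[-H, H]` -/
noncomputable def BX (s H : ℕ) : Finset (Fin (s + 2) → ℤ) := Fintype.piFinset (fun _ => Finset.Icc (-(H : ℤ)) H)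

/-- `g n + ∑_l c_l n^l` -/
def pv (s : ℕ) (g : ℕ → ℤ) (c : Fin (s + 2) → ℤ) (n : ℕ) : ℤ := g n + ∑ l, c l * (n : ℤ) ^ (l : ℕ)

/-- a bound for all values -/
def XX (s H K : ℕ) : ℕ := 4 * (s + 3) * H * K ^ (s + 1)

/-- **OB**: one random polynomial (from ENG). Proof. `j = s + 1`, `x = XX s H K`, `L = log H`, `L ≤ log x ≤ (s + 3) L`; all values
`v = pv s g c n`, `1 ≤ n ≤ K`, satisfy `|v| ≤ H K^j + (s + 2) H K^j ≤ x`, and `f |v| = fz (cut x f) v + fz (cut x f) (-v)` as `f 0 = 0`.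
The substitution `c ↦ -c` turns the second term into the first with `-g`, so it suffices to bound the sum with `fz (cut x f) v`
(constants are absorbed by powers of `L`). Write `V = U + 10`.
(i) `n ≤ K1 = ⌊K / L^V⌋`: trivially `(K1 log x)² ≤ K² / (8 L^U)`.
(ii) `c` with `|c_{top}| ≤ D_I` (see below): trivially `(K log x)²` for a proportion `≤ 3 D_I / H` of the `c`.
(iii) `D_i = ⌈H / 2^i⌉`, `i = 1, ..., I`, `I` least with `D_I ≤ H / L^V + 1`; `Ioc D_i (2 D_i)`, `1 ≤ i ≤ I`, cover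
`(D_I, H]`, `∑ D_i ≤ 2 H`, `D_i ≥ H / (2 L^V)`. For `σ = ±1` and `c_top = σ d`, `d ∈ Ioc D_i (2 D_i)`, `a = c_0 + H + 1 ∈ Ioc 0 (2H + 1)`,
`r_i = c_{i+1}` (`Fin (s + 2)` splits as first, middle, last: `Fin.cons`, `Fin.snoc`), `G k = g k - (H + 1)` apply ENG with
`A = 2 H + 1`, `a0 = 0`, `H_i = H`, `E0 = E2 = E6 = V + 2`, exponent `U + 3 + s` or larger; values with `d ≤ 2 D_i ≤ H + 2` are
`≤ 15 x`. (The blocks may overlap or leave the box slightly; all terms are nonnegative.) Multiplying: the total is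
`≤ (2 H + 1)^{s + 2} K² / L^U`. The exponents `E1, U1` are those of ENG, and powers of `log x` and `L` differ by constants. -/
def S_OB : Prop := ∀ s U : ℕ, ∃ E1 U1 : ℕ, ∀ C : ℕ, ∃ B H0 : ℕ, ∀ H : ℕ, H0 ≤ H → ∀ K : ℕ, Real.log H ^ B ≤ K →
  (K : ℝ) * Real.log H ^ B ≤ H → ∀ f : ℕ → ℂ, f 0 = 0 → Win f (XX s H K) E1 C U1 →
  (∀ n ≤ XX s H K, ‖f n‖ ≤ Real.log (XX s H K)) → ∀ (g : ℕ → ℤ) (w : ℕ → ℂ),
  (∀ n ∈ Finset.Icc 1 K, |g n| ≤ H * K ^ (s + 1)) → (∀ n, ‖w n‖ ≤ 1) →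
  ∑ c ∈ BX s H, ‖∑ n ∈ Finset.Icc 1 K, w n * f (pv s g c n).natAbs‖ ^ 2 ≤
    (2 * (H : ℝ) + 1) ^ (s + 2) * ((K : ℝ) ^ 2 / Real.log H ^ U)

/-! ### systems -/

/-- systems of `k` coefficient vectors -/
noncomputable def SB (k : ℕ) (s : Fin k → ℕ) (H : ℕ) : Finset ((i : Fin k) → Fin (s i + 2) → ℤ) :=
  Fintype.piFinset (fun i => BX (s i) H)

/-- **TEL**: telescoping. Proof. For `0 ≤ j ≤ k` let `T_j(n) = ∏_{i < j} M_i ∏_{i ≥ j} F_i` at the values of `c`; then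
`∏ F - ∏ M = ∑_{j < k} (T_j - T_{j+1})` and `T_j - T_{j+1} = W_j (F_j - M_j)`, `|W_j| ≤ W^{k-1} ≤ W^k` independent of `c_j`. By
Cauchy-Schwarz the left side is at most `k ∑_j ∑_c |∑_n w W_j (F_j - M_j)|²`. For fixed `j`:
`∑_{c ∈ SB} Φ(c) = |BX (s j) H|^{-1} ∑_{c ∈ SB} ∑_{u ∈ BX (s j) H} Φ(Function.update c j u)` (the map
`(c, u) ↦ (update c j u, c j)` is a bijection of `SB × BX (s j) H`), and the hypothesis applies to the inner sum with the weights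
`w W_j / W^k` (defined to be `0` outside `1..K`). `|BX s H| = (2H+1)^{s+2}`. (If `k = 0` both products are `1`.) -/
def S_TEL : Prop := ∀ (k : ℕ) (s : Fin k → ℕ) (H K : ℕ) (g : Fin k → ℕ → ℤ) (w : ℕ → ℂ) (F M : Fin k → ℕ → ℂ) (W S : ℝ),
  1 ≤ W → 0 ≤ S → (∀ n, ‖w n‖ ≤ 1) →
  (∀ i, ∀ c ∈ BX (s i) H, ∀ n ∈ Finset.Icc 1 K, ‖F i (pv (s i) (g i) c n).natAbs‖ ≤ W ∧
    ‖M i (pv (s i) (g i) c n).natAbs‖ ≤ W) →
  (∀ i, ∀ w' : ℕ → ℂ, (∀ n, ‖w' n‖ ≤ 1) →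
    ∑ c ∈ BX (s i) H, ‖∑ n ∈ Finset.Icc 1 K, w' n * (F i (pv (s i) (g i) c n).natAbs - M i (pv (s i) (g i) c n).natAbs)‖ ^ 2 ≤
      (2 * (H : ℝ) + 1) ^ (s i + 2) * S) →
  ∑ c ∈ SB k s H, ‖∑ n ∈ Finset.Icc 1 K, w n * (∏ i, F i (pv (s i) (g i) (c i) n).natAbs -
      ∏ i, M i (pv (s i) (g i) (c i) n).natAbs)‖ ^ 2 ≤
    ((SB k s H).card : ℝ) * ((k : ℝ) ^ 2 * W ^ (2 * k) * S)

open Classical in
/-- **GRD**: from a mean square for each `K` to all `K` at once. Proof. `L = log H`, `η = L^{-(A + m + 3)}`, `K_i = ⌊exp (i η)⌋`. For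
`K ∈ [2 K0, K1]` let `i = ⌊log K / η⌋`; then `K_i ≤ K`, `K - K_i ≤ 2 η K + 1`, `K_i ≥ K0`, so
`|∑_{n ≤ K} a - ∑_{n ≤ K_i} a| ≤ L^m (2 η K + 1) ≤ K / (2 L^A)` (as `K ≥ L^B`). So if `|∑_{n ≤ K} a| > K / L^A` then
`|∑_{n ≤ K_i} a| > K_i / (2 L^A)`. By Chebyshev the number of `c` with this property for a given `i` is `≤ 4 L^{2A - U} |Ω|`, and
there are at most `L / η + 2` indices `i` with `K_i ≤ K1 ≤ H`. So `U = 4 A + m + 8` and `B = A + m + 4` will do. -/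
def S_GRD : Prop := ∀ A m : ℕ, ∃ U B H0 : ℕ, ∀ H : ℕ, H0 ≤ H → ∀ (Ω : Type) (S : Finset Ω) (a : Ω → ℕ → ℂ) (K0 K1 : ℕ),
  Real.log H ^ B ≤ K0 → K1 ≤ H → (∀ c ∈ S, ∀ n ∈ Finset.Icc 1 K1, ‖a c n‖ ≤ Real.log H ^ m) →
  (∀ K : ℕ, K0 ≤ K → K ≤ K1 → ∑ c ∈ S, ‖∑ n ∈ Finset.Icc 1 K, a c n‖ ^ 2 ≤ S.card * ((K : ℝ) ^ 2 / Real.log H ^ U)) →
  (((S.filter (fun c => ∃ K : ℕ, 2 * K0 ≤ K ∧ K ≤ K1 ∧ (K : ℝ) / Real.log H ^ A < ‖∑ n ∈ Finset.Icc 1 K, a c n‖)).card : ℕ) : ℝ) ≤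
    S.card / Real.log H ^ A

/-! ### the main term -/

open Classical in
/-- **FND**: the fundamental lemma with a growing parameter (adapt `sys_fund` of `Pool/Agent/H373R2/T7/Fund.lean`: the only change is
that `b` is given instead of chosen from `ε`, and `x` is replaced by `X`). -/
def S_FND : Prop := ∀ c : ℕ, 1 ≤ c → ∃ C0 y0 : ℕ, 1 ≤ C0 ∧ ∀ b : ℕ, C0 ≤ b → ∀ y X : ℕ, y0 ≤ y → y ^ (C0 * b) ≤ X →
  ∀ Q : ℕ → ℕ → Prop, Pool.Agent.H373R2.T7.PerB Q c →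
  |((((Finset.Icc 1 X).filter (fun n : ℕ => ∀ p ∈ pz y, ¬ Q p n)).card : ℕ) : ℝ) -
      X * ∏ p ∈ pz y, (1 - (Pool.Agent.H373R2.T7.nuB Q p : ℝ) / p)| ≤
    (1 / 2 : ℝ) ^ b * (X * ∏ p ∈ pz y, (1 - (Pool.Agent.H373R2.T7.nuB Q p : ℝ) / p)) + √(X : ℝ)

open Classical in
/-- the number of residues `n` modulo `p` at which some polynomial of the system vanishes -/
noncomputable def om {k : ℕ} (P : Fin k → Polynomial ℤ) (p : ℕ) : ℕ :=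
  ((Finset.range p).filter (fun n : ℕ => ∃ i, (p : ℤ) ∣ (P i).eval (n : ℤ))).card

/-- the truncated Bateman-Horn constant `∏_{p ≤ z} (1 - ω(p)/p) (1 - 1/p)^{-k}` -/
noncomputable def sing {k : ℕ} (P : Fin k → Polynomial ℤ) (z : ℕ) : ℝ :=
  ∏ p ∈ pz z, (1 - (om P p : ℝ) / p) / (1 - 1 / (p : ℝ)) ^ k

/-- **POL** (from FND). Proof. `∏_i lamz z |P_i(n)| = (Vz z)^{-k}` if no prime `p ≤ z` divides any `P_i(n)`, else `0`. If some prime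
`p ≤ z` has `om P p = p`, then every `n` has a `P_i(n)` divisible by `p`, so the sum is `0` and so is `sing P z`. Otherwise, for every
prime `p ≤ z`, the product of the `P_i` is not the zero polynomial modulo `p` (it has a non-root), so it has at most
`∑ natDegree ≤ c` roots modulo `p`, `om P p ≤ c`. Apply FND with `Q p n := p ≤ z ∧ p.Prime ∧ ∃ i, p ∣ P_i(n)` (periodic modulo `p`) and
multiply by `(Vz z)^{-k}`. -/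
def S_POL : Prop := ∀ k c : ℕ, 1 ≤ c → ∃ C0 y0 : ℕ, 1 ≤ C0 ∧ ∀ P : Fin k → Polynomial ℤ, ∑ i, (P i).natDegree ≤ c →
  ∀ b : ℕ, C0 ≤ b → ∀ z K : ℕ, y0 ≤ z → z ^ (C0 * b) ≤ K →
  |∑ n ∈ Finset.Icc 1 K, ∏ i, lamz z ((P i).eval (n : ℤ)).natAbs - K * sing P z| ≤
    (1 / 2 : ℝ) ^ b * (K * sing P z) + (Vz z)⁻¹ ^ k * √(K : ℝ)

end Pool.Agent.Q236.CR
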