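import Mathlib
import Pool.Agent.Q236.CR.Stm2
import Pool.Agent.H373R2.T7.Bonf
import Pool.Agent.H373R2.T7.Cnt

/-!
# Project CR (helper236), part 3: statements

The main term for almost all systems, with arbitrary savings of powers of the logarithm, and the passage from
von Mangoldt weights to the number of prime values. Every statement is a `Prop` with a complete proof in its docstring.
-/

set_option autoImplicit false

namespace Pool.Agent.Q236.CR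

open Finset Filter Polynomial
open Pool.Agent.H373R2.T7 (pz Vz lamz)

/-- the values of `G + ∑ c_l X^l` -/
noncomputable def pw (s : ℕ) (G : ℤ[X]) (c : Fin (s + 2) → ℤ) (n : ℕ) : ℤ := pv s (fun m => G.eval (m : ℤ)) c n

/-- the prime `p` divides a value of the system at `n` -/
def hit {k : ℕ} (s : Fin k → ℕ) (G : Fin k → ℤ[X]) (c : (i : Fin k) → Fin (s i + 2) → ℤ) (p n : ℕ) : Prop :=
  ∃ i, (p : ℤ) ∣ pw (s i) (G i) (c i) n

open Classical in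
/-- the number of `n` modulo `p` with `p` dividing a value of the system at `n` -/
noncomputable def omc {k : ℕ} (s : Fin k → ℕ) (G : Fin k → ℤ[X]) (c : (i : Fin k) → Fin (s i + 2) → ℤ) (p : ℕ) : ℕ :=
  ((Finset.range p).filter (fun n => hit s G c p n)).card

open Classical in
/-- the indicator function of: all primes of `T` divide a value at `n` -/
noncomputable def xi {k : ℕ} (s : Fin k → ℕ) (G : Fin k → ℤ[X]) (c : (i : Fin k) → Fin (s i + 2) → ℤ) (T : Finset ℕ)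
    (n : ℕ) : ℝ := if ∀ p ∈ T, hit s G c p n then 1 else 0

/-- its mean value over `n` -/
noncomputable def rhoT {k : ℕ} (s : Fin k → ℕ) (G : Fin k → ℤ[X]) (c : (i : Fin k) → Fin (s i + 2) → ℤ)
    (T : Finset ℕ) : ℝ := ∏ p ∈ T, (omc s G c p : ℝ) / p

/-- the probability that a random system of `k` residues modulo `p` contains `0` -/
noncomputable def dk (k p : ℕ) : ℝ := 1 - (1 - 1 / (p : ℝ)) ^ k

open Classical in
/-- **EQD**: two points, independence of primes. Proof. Let `q = ∏_{p ∈ T ∪ T'} p ≤ H`, `N = ∑ (s_i + 2)` the number of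
coefficients. The summand depends only on `c` modulo `q`. Each residue modulo `q` is taken by a coefficient in `[-H, H]` exactly
`(2H+1)/q + θ` times, `|θ| ≤ 1`, so every residue vector is taken `((2H+1)/q)^N (1 + O(2^N q/(2H+1)))` times, and the sum is
`|SB| (share of the good residue vectors + O(2^N q / H))`. By the Chinese remainder theorem the share is the product over
`p ∈ T ∪ T'` of the shares modulo `p`. Modulo `p`, if `p` is only in `T`: for each `i` the value `P_i(n)` is uniform (it contains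
the free constant coefficient), so no value is `0` with probability `(1 - 1/p)^k`; the share is `dk k p`. The same for `p` only in
`T'`, and for `p` in both if `n ≡ n' (mod p)` (then `P_i(n) ≡ P_i(n')`). If `p` is in both and `n ≢ n'`, the map
`(c_{i,0}, c_{i,1}) ↦ (c_{i,0} + c_{i,1} n, c_{i,0} + c_{i,1} n')` is a bijection of `𝔽_p²`, so `(P_i(n))_i` and `(P_i(n'))_i` are
independent and uniform, and the share is `(dk k p)^2`. -/
def S_EQD : Prop := ∀ (k : ℕ) (s : Fin k → ℕ), ∃ C : ℝ, 0 ≤ C ∧ ∀ (G : Fin k → ℤ[X]) (H : ℕ) (T T' : Finset ℕ)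
  (n n' : ℕ), 1 ≤ H → (∀ p ∈ T ∪ T', p.Prime) → ∏ p ∈ T ∪ T', (p : ℝ) ≤ H →
  |∑ c ∈ SB k s H, xi s G c T n * xi s G c T' n' - (SB k s H).card *
      ∏ p ∈ T ∪ T', (if p ∈ T ∧ p ∈ T' ∧ ¬ n ≡ n' [MOD p] then dk k p ^ 2 else dk k p)| ≤
    C * ((∏ p ∈ T ∪ T', (p : ℝ)) / H) * (SB k s H).card

/-- **VAR** (from EQD). Proof. Let `M = ∏_{p ∈ pz z} p`. For `T ⊂ pz z` the function `xi T` is periodic modulo `∏_T p`, a divisor of
`M`, and `rhoT T = (1/M) ∑_{m ≤ M} xi T m` (Chinese remainder theorem; or `count_sys` along multiples of `M`). So with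
`X_T = ∑_{n ≤ K} xi T n - K rhoT T`, `X_T X_{T'}` is a combination of four double sums of `xi T n * xi T' n'` over `n, n'` in
`[1, K]` or `[1, M]` (with weights `1`, `- K/M`, `- K/M`, `(K/M)²`). Sum over `c` with EQD: error at most
`4 C K² z^{2r} / H |SB|` for each pair (`|T|, |T'| < r`, product `≤ z^{2r} ≤ H`), at most `(z+1)^{2r}` pairs. Main term: with
`S = T ∩ T'`, `δ_p = dk k p`, the product is
`∏_{(T ∪ T') \ S} δ_p · ∑_{W ⊂ S} ∏_{S \ W} δ_p² ∏_W (δ_p - δ_p²) · 1[∏_W p ∣ n - n']`; for `q = ∏_W p` the combination of the four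
double sums of `1[q ∣ n - n']` is `#{n, n' ≤ K : n ≡ n' (q)} - K²/q = ∑_{classes} (c_j - K/q)²`, where `c_j` is the number of
`n ≤ K` in class `j`; it is `0` if `W = ∅`, and between `0` and `K` always. So the main term for `(T, T')` is between `0` and
`K ∏_{T ∪ T'} δ_p`, and `∑_{T, T' ⊂ pz z} ∏_{T ∪ T'} δ_p = ∏_{p ∈ pz z} (1 + 3 δ_p) ≤ exp (3 k ∑ 1/p) ≤ exp (3 k (1 + log z))
≤ (3 z)^{3k}` (`δ_p ≤ k / p`; lemma `sum_pz_le`). -/
def S_VAR : Prop := ∀ (k : ℕ) (s : Fin k → ℕ), ∃ C : ℝ, 0 ≤ C ∧ ∀ (G : Fin k → ℤ[X]) (H z r K : ℕ), 1 ≤ H → 1 ≤ z →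
  ((z : ℝ) + 1) ^ (2 * r) ≤ H →
  ∑ c ∈ SB k s H, (∑ j ∈ Finset.range r, (-1 : ℝ) ^ j * ∑ T ∈ (pz z).powersetCard j,
      (∑ n ∈ Finset.Icc 1 K, xi s G c T n - K * rhoT s G c T)) ^ 2 ≤
    (SB k s H).card * (K * (3 * (z : ℝ)) ^ (3 * k) + C * (K : ℝ) ^ 2 * (((z : ℝ) + 1) ^ (4 * r) / H))

/-- **ER** (from EQD). Proof. Expand the square and use EQD with `n = n'`: the main term is
`∑_{|T| = |T'| = r} ∏_{T ∪ T'} δ_p ≤ e^{-r} ∑_{T, T' ⊂ pz z} e^{(|T| + |T'|)/2} ∏_{T ∪ T'} δ_p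
= e^{-r} ∏_{p ∈ pz z} (1 + (2 e^{1/2} + e) δ_p) ≤ e^{-r} exp (7 k ∑ 1/p) ≤ e^{-r} (3z)^{7k}`; the error is at most `C z^{2r}/H` for
each of the at most `(z+1)^{2r}` pairs. -/
def S_ER : Prop := ∀ (k : ℕ) (s : Fin k → ℕ), ∃ C : ℝ, 0 ≤ C ∧ ∀ (G : Fin k → ℤ[X]) (H z r n : ℕ), 1 ≤ H → 1 ≤ z →
  ((z : ℝ) + 1) ^ (2 * r) ≤ H →
  ∑ c ∈ SB k s H, (∑ T ∈ (pz z).powersetCard r, xi s G c T n) ^ 2 ≤
    (SB k s H).card * ((3 * (z : ℝ)) ^ (7 * k) * Real.exp (-(r : ℝ)) + C * (((z : ℝ) + 1) ^ (4 * r) / H))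

open Classical in
/-- **MT** (from VAR and ER): the main term. Proof. `L = log H`, `r = ⌈(7 k E + U + 8) log L⌉₊ + 1`. By `bonf_ind`
(`Pool/Agent/H373R2/T7/Bonf.lean`) the count differs from `∑_{j < r} (-1)^j ∑_{|T| = j} ∑_{n ≤ K} xi T n` by at most
`∑_{n ≤ K} e_r(n)`, `e_r(n) = ∑_{|T| = r} xi T n`; by `bonf_bound` the product differs from `∑_{j<r} (-1)^j ∑_{|T| = j} rhoT T` by at
most `∑_{|T| = r} rhoT T = (1/M) ∑_{m ≤ M} e_r(m)`, `M = ∏_{p ∈ pz z} p`. So the difference `D` satisfies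
`D² ≤ 3 (∑ (-1)^j ∑ X_T)² + 3 K ∑_{n ≤ K} e_r(n)² + 3 (K²/M) ∑_{m ≤ M} e_r(m)²`. Sum over `c` with VAR and ER: at most
`3 |SB| (K (3z)^{3k} + 3 (C + C') K² (z+1)^{4r}/H + 2 K² (3z)^{7k} e^{-r})`. Here `(3z)^{7k} e^{-r} ≤ 3^{7k} L^{-U-8}`,
`(z+1)^{4r} ≤ exp (c (log L)²) ≤ H^{1/2}` for large `H`, and `K (3z)^{3k} ≤ K² L^{-U-2}` if `K ≥ L^B`, `B = 3 k E + U + 4`. -/
def S_MT : Prop := ∀ (k : ℕ) (s : Fin k → ℕ) (E U : ℕ), ∃ B H0 : ℕ, ∀ H : ℕ, H0 ≤ H → ∀ (G : Fin k → ℤ[X]) (K : ℕ),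
  Real.log H ^ B ≤ K → K ≤ H →
  ∑ c ∈ SB k s H, (((((Finset.Icc 1 K).filter (fun n : ℕ => ∀ p ∈ pz ⌊Real.log H ^ E⌋₊, ¬ hit s G c p n)).card : ℕ) : ℝ) -
      K * ∏ p ∈ pz ⌊Real.log H ^ E⌋₊, (1 - (omc s G c p : ℝ) / p)) ^ 2 ≤
    (SB k s H).card * ((K : ℝ) ^ 2 / Real.log H ^ U)

/-- `1 / log max (|P(n)|, Y)` -/
noncomputable def psi (P : ℤ[X]) (Y : ℝ) (n : ℕ) : ℝ := 1 / Real.log (max |((P.eval (n : ℤ) : ℤ) : ℝ)| Y)

/-- **TV**: total variation. Proof. If `P` is constant all differences vanish. Otherwise for every level `u > Y` the real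
polynomials `P - u`, `P + u` have together at most `2 d` real roots. `|ψ(n+1) - ψ(n)|` is the length of the set of all
`t ∈ (0, 1/log Y)` strictly between `ψ(n)` and `ψ(n+1)`; for such a `t`, `u = e^{1/t} > Y` is strictly between
`max(|P(n)|, Y)` and `max(|P(n+1)|, Y)`, so `|P|` takes the value `u` in the open interval `(n, n+1)`. These intervals are disjoint,
so every `t` is counted for at most `2d` numbers `n`; the sum is at most `2 d / log Y`. -/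
def S_TV : Prop := ∀ (P : ℤ[X]) (d K : ℕ) (Y : ℝ), P.natDegree ≤ d → 3 ≤ Y →
  ∑ n ∈ Finset.Ico 1 K, |psi P Y (n + 1) - psi P Y n| ≤ 2 * d / Real.log Y

/-- a value of the system at `n` is small (`v² ≤ H`) or a perfect power -/
def BadN {k : ℕ} (s : Fin k → ℕ) (g : Fin k → ℕ → ℤ) (c : (i : Fin k) → Fin (s i + 2) → ℤ) (H n : ℕ) : Prop :=
  ∃ i, (pv (s i) (g i) (c i) n).natAbs ^ 2 ≤ H ∨ ∃ a m : ℕ, 2 ≤ m ∧ a ^ m = (pv (s i) (g i) (c i) n).natAbs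

open Classical in
/-- **BAD**: Proof. Fix `n ≤ H`, `i` and all coefficients except `c_{i,0}`: the value runs over an interval of `2H + 1` consecutive
integers, of absolute value `≤ (s + 3) H n^{s+1} ≤ H^{s + 3}` (`s = s i`, `H` large). At most `2 √H + 1` of them have square `≤ H`; for
each `m` between `2` and `log_2 (H^{s+3})` at most `2 (√(2H + 1) + 2)` of them are `± a^m` with `a ≥ 2`
(if `a < b` then `b^m - a^m ≥ (b - a)^m ≥ (b-a)²`), and `± 0, ± 1` are at most three more. So the share of the `c` with `BadN n` is at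
most `C L / √H`. If the number of bad `n ≤ K` is `> K / L^{A}` then `∑_{n ≤ H, bad} 1/n > L^{-A}`; by Markov's inequality this
happens for a share of at most `L^A (1 + L) C L / √H ≤ L^{-A}` of the `c`. -/
def S_BAD : Prop := ∀ (k : ℕ) (s : Fin k → ℕ) (A : ℕ), ∃ H0 : ℕ, ∀ H : ℕ, H0 ≤ H → ∀ g : Fin k → ℕ → ℤ,
  (∀ i, ∀ n : ℕ, 1 ≤ n → n ≤ H → |g i n| ≤ H * (n : ℤ) ^ (s i + 1)) →
  ((((SB k s H).filter (fun c => ∃ K : ℕ, 1 ≤ K ∧ K ≤ H ∧ (K : ℝ) / Real.log H ^ A <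
    ((((Finset.Icc 1 K).filter (fun n => BadN s g c H n)).card : ℕ) : ℝ))).card : ℕ) : ℝ) ≤
    (SB k s H).card / Real.log H ^ A

open Classical in
/-- the number of `n ≤ K` at which all `|P_i(n)|` are prime -/
noncomputable def piP {k : ℕ} (P : Fin k → ℤ[X]) (K : ℕ) : ℕ :=
  ((Finset.Icc 1 K).filter (fun n : ℕ => ∀ i, ((P i).eval (n : ℤ)).natAbs.Prime)).card

open Classical in
/-- the sum of `∏ 1 / log |P_i(n)|` over the `n ≤ K` with all `|P_i(n)| ≥ 2` -/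
noncomputable def MP {k : ℕ} (P : Fin k → ℤ[X]) (K : ℕ) : ℝ :=
  ∑ n ∈ (Finset.Icc 1 K).filter (fun n : ℕ => ∀ i, 2 ≤ |(P i).eval (n : ℤ)|),
    ∏ i, 1 / Real.log |(((P i).eval (n : ℤ) : ℤ) : ℝ)|

open Classical in
/-- **CNT** (from TV): from von Mangoldt weights to prime values. Proof. `L = log H`, `Y = √H`, `φ(n) = ∏_i psi (P i) Y n ≤ (2/L)^k`,
`a(n) = ∏ Λ(|P_i(n)|) ≤ ((D + 3) L)^k`. Call `n` bad as in the hypothesis. If `n` is not bad, no `|P_i(n)|` is a proper prime power and all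
are `> √H`, so `φ(n) a(n)` is `1` if all `|P_i(n)|` are prime and `0` otherwise, and `φ(n) = ∏ 1 / log |P_i(n)|`. The bad `n` change
`piP`, `MP`, `∑ φ a`, `∑ φ` by at most `#bad · (2 (D + 3))^k · 2^k` (terms of `MP` are `≤ (1/log 2)^k ≤ 2^k`). `0 ≤ S ≤ L^{k+1}` follows from
the hypothesis at `K' = K`. Abel summation: `∑_{n ≤ K} φ(n) (a(n) - S) = φ(K) D(K) - ∑_{n < K} D(n) (φ(n+1) - φ(n))`,
`D(n) = ∑_{m ≤ n} (a(m) - S)`, `|D(n)| ≤ K / L^{A'}` for `L^B ≤ n ≤ K`, and `|D(n)| ≤ n L^{k+2} ≤ K / L^{A'}` for `n ≤ L^B`; the total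
variation of `φ` is at most `∑_i (2 D / log Y) (2/L)^{k-1} ≤ 4 k D (2/L)^k` (TV; product rule). So
`|piP - S MP| ≤ #bad L^{k + 3} + (4 k D + 1) (2/L)^k K / L^{A'} ≤ K / L^A` with `A' = A + 2 k + 6` and large `H`. -/
def S_CNT : Prop := ∀ k D A : ℕ, ∃ A' : ℕ, ∀ B : ℕ, ∃ B' H0 : ℕ, ∀ H : ℕ, H0 ≤ H → ∀ (P : Fin k → ℤ[X]) (K : ℕ) (S : ℝ),
  (∀ i, (P i).natDegree ≤ D) → (∀ i, ∀ n : ℕ, 1 ≤ n → n ≤ K → ((P i).eval (n : ℤ)).natAbs ≤ H ^ (D + 3)) → 0 ≤ S →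
  Real.log H ^ B' ≤ K → K ≤ H →
  (∀ K' : ℕ, Real.log H ^ B ≤ K' → K' ≤ K →
    |∑ n ∈ Finset.Icc 1 K', ∏ i, ArithmeticFunction.vonMangoldt ((P i).eval (n : ℤ)).natAbs - K' * S| ≤
      K' / Real.log H ^ A') →
  ((((Finset.Icc 1 K).filter (fun n : ℕ => ∃ i, ((P i).eval (n : ℤ)).natAbs ^ 2 ≤ H ∨
    ∃ a m : ℕ, 2 ≤ m ∧ a ^ m = ((P i).eval (n : ℤ)).natAbs)).card : ℕ) : ℝ) ≤ K / Real.log H ^ A' →
  |(piP P K : ℝ) - S * MP P K| ≤ K / Real.log H ^ A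

/-- **SLB**: lower bound for the truncated constant. Proof. For `p ≤ 2 D`: the factor is at least `1 - om/p ≥ 1/p ≥ 1/(2D + 1)`. For
`p > 2D`: some value of the product of the `P_i` is not divisible by `p`, so `om P p ≤ D` and
`1 - om/p ≥ 1 - D/p ≥ (1 - 1/p)^{2D}` (`(1 - 1/p)^{2D} ≤ e^{-2D/p} ≤ 1 - D/p` as `D/p ≤ 1/2`); the denominator is `≤ 1`. So
`sing P z ≥ (2D + 1)^{-2D} (Vz z)^{2D}`, and `1 / Vz z ≤ (log z)^C` (`Vz_low` in `T7/Fund.lean`), `log z ≤ E log L`, which is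
`≥ 1 / L` for large `H`. -/
def S_SLB : Prop := ∀ k D E : ℕ, ∃ H0 : ℕ, ∀ H : ℕ, H0 ≤ H → ∀ P : Fin k → ℤ[X], ∑ i, (P i).natDegree ≤ D →
  (∀ p : ℕ, p.Prime → om P p < p) → 1 / Real.log H ≤ sing P ⌊Real.log H ^ E⌋₊

end Pool.Agent.Q236.CR
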