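import Mathlib
import Pool.Agent.Q236.CR.Stm3
import Pool.Agent.H373R2.T7.SupE2
import Pool.Agent.H373R2.T7.LamMaj

/-!
# Project CR (helper236), part 4: statements

The main term at prime arguments, and the equation `a p - b q = c` for almost all triples `(a, b, c)` with coefficients up to
`X / (log X)^B`. Every statement is a `Prop` with a complete proof in its docstring.
-/

set_option autoImplicit false

namespace Pool.Agent.Q236.CR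

open Finset Filter Polynomial
open Pool.Agent.H373R2.T7 (pz Vz lamz)

/-! ### prime arguments -/

open Classical in
/-- the number of `n` modulo `p`, prime to `p`, with `p` dividing a value of the system at `n` -/
noncomputable def omp {k : ℕ} (s : Fin k → ℕ) (G : Fin k → ℤ[X]) (c : (i : Fin k) → Fin (s i + 2) → ℤ) (p : ℕ) : ℕ :=
  ((Finset.range p).filter (fun n => ¬ p ∣ n ∧ hit s G c p n)).card

/-- the mean value of `xi T` over the `n` prime to all primes `p ≤ z` -/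
noncomputable def rhoP {k : ℕ} (s : Fin k → ℕ) (G : Fin k → ℤ[X]) (c : (i : Fin k) → Fin (s i + 2) → ℤ)
    (T : Finset ℕ) : ℝ := ∏ p ∈ T, (omp s G c p : ℝ) / ((p : ℝ) - 1)

/-- the variance of `u` in the reduced classes modulo `q` -/
noncomputable def Vq (u : ℕ → ℝ) (K q : ℕ) : ℝ :=
  ∑ a ∈ (Finset.range q).filter (fun a => a.Coprime q),
    (∑ n ∈ (Finset.Icc 1 K).filter (fun n => n ≡ a [MOD q]), u n - K / (Nat.totient q : ℝ)) ^ 2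

/-- **VARP** (from EQD; the proof of VAR with the weight `u`). Let `M = ∏_{p ∈ pz z} p`. For `T ⊂ pz z`,
`rhoP T = (1/φ(M)) ∑_{m ≤ M, (m, M) = 1} xi T m` (Chinese remainder theorem). With `X_T = ∑_{n ≤ K} u n xi T n - K rhoP T`,
`X_T X_{T'}` is a combination of four double sums of `xi T n * xi T' n'`; apply EQD to each pair `(n, n')`: the total error is at
most `C z^{2r}/H (∑ u + K)² |SB|` for each of the at most `(z+1)^{2r}` pairs `(T, T')`. Main term: with `S = T ∩ T'`,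
`δ_p = dk k p`, it is `∏_{(T ∪ T') \ S} δ_p ∑_{W ⊂ S} ∏_{S \ W} δ_p² ∏_W (δ_p - δ_p²) V(q_W)`, `q_W = ∏_W p`, where `V(q)` is the
combination of the four double sums of `1[q ∣ n - n']`: `∑_{n, n' ≤ K, n ≡ n' (q)} u n u n' - 2 K ∑_n u n / φ(q) + K² / φ(q)
= ∑_{(a, q) = 1} (∑_{n ≡ a} u n - K/φ(q))² = Vq u K q ≥ 0` (`u` is supported on `n` prime to `M`; the number of `m ≤ M` prime to `M` in
a reduced class modulo `q` is `φ(M)/φ(q)`). The absolute value of the signed sum over `T, T'` is at most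
`∑_W ∏_W δ_p Vq u K q_W ∏_{p ∉ W} (1 + 2 δ_p + δ_p²) ≤ (3z)^{3k} ∑_W ∏_W δ_p Vq u K q_W`. -/
def S_VARP : Prop := ∀ (k : ℕ) (s : Fin k → ℕ), ∃ C : ℝ, 0 ≤ C ∧ ∀ (G : Fin k → ℤ[X]) (H z r K : ℕ) (u : ℕ → ℝ), 1 ≤ H →
  1 ≤ z → ((z : ℝ) + 1) ^ (2 * r) ≤ H → (∀ n, 0 ≤ u n) → (∀ n, u n ≠ 0 → ∀ p ∈ pz z, ¬ p ∣ n) →
  ∑ c ∈ SB k s H, (∑ j ∈ Finset.range r, (-1 : ℝ) ^ j * ∑ T ∈ (pz z).powersetCard j,
      (∑ n ∈ Finset.Icc 1 K, u n * xi s G c T n - K * rhoP s G c T)) ^ 2 ≤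
    (SB k s H).card * ((3 * (z : ℝ)) ^ (3 * k) * ∑ W ∈ (pz z).powerset, (∏ p ∈ W, dk k p) * Vq u K (∏ p ∈ W, p) +
      C * (∑ n ∈ Finset.Icc 1 K, u n + K) ^ 2 * (((z : ℝ) + 1) ^ (4 * r) / H))

open Classical in
/-- **MTP** (from VARP and ER): the main term at prime arguments. Proof. `L = log H`, `L ≥ log K ≥ L^ε`, `r` as in MT,
`u n = Λ(n)` if no `p ≤ z` divides `n`, else `0`; this changes the sum by at most `z log K` (powers of primes `≤ z`). As in MT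
(`bonf_ind` multiplied by `u n`, `bonf_bound` for `x p = omp / (p - 1) ∈ [0, 1]`) the difference `D` satisfies
`D² ≤ 4 (z L)² + 4 (∑ (-1)^j ∑ X_T)² + 4 (∑ u) ∑_{n ≤ K} u(n) e_r(n)² + 4 (K²/φ(M)) ∑_{m ≤ M, (m,M)=1} e_r(m)²`; the last two are
handled by ER (`∑ u ≤ K L`). For VARP: `∏_W δ_p ≤ k^{|W|}/q_W` and `≤ 1`.
(i) `q ≤ Q0 = L^{C2}`: `Vq ≤ q (2 K / L^{A2})²` by `Pool.Agent.H373R2.T7.lam_ap` with `N = K` (`q ≤ (log K)^{C'}`, savings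
`(log K)^{U'} ≥ L^{ε U'}`; the change from `Λ` to `u` is `≤ z L`). Contribution `≤ 4 Q0² K² / L^{2 A2}`.
(ii) `q > Q0`: `∑_{n ≤ K, n ≡ a} Λ ≤ (K/q + 1) L`, so `Vq ≤ 2 (K/q + 1) L · K L + 2 K²/φ(q) ≤ 2 K² L²/q + 2 K L² + 2 K² L / q` for large `H`
(`q/φ(q) ≤ 1/Vz z ≤ L` for `q ∣ M`). Contribution: `∑_W ∏ δ_p 4 K² L²/q ≤ 4 K² L² Q0^{-1/2} ∏_p (1 + k p^{-3/2}) ≤ C_k K² L² Q0^{-1/2}`
and `2 K L² ∏ (1 + δ_p) ≤ 2 K L² (3z)^k`, negligible as `K ≥ exp (L^ε)`.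
Choose `C2 = 2 (U + 3 k E + 10)`, then `A2` large. -/
def S_MTP : Prop := ∀ (k : ℕ) (s : Fin k → ℕ) (ε : ℝ) (E U : ℕ), 0 < ε → ∃ H0 : ℕ, ∀ H : ℕ, H0 ≤ H → ∀ (G : Fin k → ℤ[X])
  (K : ℕ), Real.exp (Real.log H ^ ε) ≤ K → K ≤ H →
  ∑ c ∈ SB k s H, (∑ n ∈ (Finset.Icc 1 K).filter (fun n : ℕ => ∀ p ∈ pz ⌊Real.log H ^ E⌋₊, ¬ hit s G c p n),
      ArithmeticFunction.vonMangoldt n -
      K * ∏ p ∈ pz ⌊Real.log H ^ E⌋₊, (1 - (omp s G c p : ℝ) / ((p : ℝ) - 1))) ^ 2 ≤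
    (SB k s H).card * ((K : ℝ) ^ 2 / Real.log H ^ U)

/-! ### the equation `a p - b q = c` -/

open Classical in
/-- weighted number of solutions of `a m - b n = c`, `1 ≤ m, n ≤ X` -/
noncomputable def SS (F G : ℕ → ℂ) (X a b : ℕ) (c : ℤ) : ℂ :=
  ∑ t ∈ (Finset.Icc 1 X ×ˢ Finset.Icc 1 X).filter (fun t : ℕ × ℕ => (a : ℤ) * t.1 - b * t.2 = c), F t.1 * G t.2

/-- **T3A**: mean square over all triples. `L = log X`, `F = Λ - Λ_z` on `[1, X]`, `C_F(h) = ∑_{n} F(n + h) conj (F n)` over `n, n + h`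
in `[1, X]` (`h ∈ ℤ`), `C_G` similarly. Proof. For fixed `a, b`: `∑_{c ∈ ℤ} |SS F G X a b c|² = ∑_{h, k : a h = b k} C_F(h) conj (C_G(k))`
(pairs of solutions `(m, n)`, `(m', n')` with `a m - b n = a m' - b n'`, `h = m - m'`, `k = n - n'`).
(i) `h = k = 0`: `|C_F(0)| ≤ X L²·4`, `|C_G(0)| ≤ X L²`; sum over `a, b ≤ A`: `≤ 4 A² X² L⁴ ≤ A X³ / L^{U+1}` as `A L^B ≤ X`.
(ii) `h, k ≠ 0` (same sign), `g = gcd(h, k)`: `a h = b k` forces `a = s |k|/g`, `b = s |h|/g`, `s ≥ 1`, so there are at most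
`A g / max(|h|, |k|)` pairs `(a, b)`. `|C_G(k)| ≤ X L²`. For fixed `h`:
`∑_{1 ≤ k ≤ X} gcd(h, k)/max(h, k) ≤ ∑_{t ∣ h} t ∑_{k ≤ X, t ∣ k} 1/max(h, k) ≤ ∑_{t ∣ h} (1 + 1 + L) = τ(h) (2 + L)`. So (ii) is at most
`2 A X L² (2 + L) ∑_{1 ≤ h ≤ X} τ(h) |C_F(h)|`, by Cauchy-Schwarz `≤ 2 A X L² (2 + L) (∑ τ(h)²)^{1/2} (∑_h |C_F(h)|²)^{1/2}`,
`∑_{h ≤ X} τ(h)² ≤ X (1 + L)^4`, and `∑_{h ∈ ℤ} |C_F(h)|² = ∫_0^1 |F̂(α)|⁴ dα ≤ (sup |F̂|)² ∑ |F n|² ≤ (X / L^{U'})² · 4 X L²` by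
`Pool.Agent.H373R2.T7.sup_diff` (instead of the integral one may use the discrete Fourier transform modulo `4 X`). Total
`≤ 2 A X L² (2 + L) X^{1/2} (1 + L)² · 2 X^{3/2} L^{1 - U'} ≤ A X³ / L^{U+1}` for `U' = U + 10`. -/
def S_T3A : Prop := ∀ U : ℕ, ∃ E0 B : ℕ, ∀ E : ℕ, ∃ X0 : ℕ, ∀ X : ℕ, X0 ≤ X → ∀ z : ℕ, Real.log X ^ E0 ≤ z →
  (z : ℝ) ≤ Real.log X ^ E → ∀ A : ℕ, 1 ≤ A → (A : ℝ) * Real.log X ^ B ≤ X → ∀ G : ℕ → ℂ, (∀ n, ‖G n‖ ≤ Real.log X) →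
  ∑ a ∈ Finset.Icc 1 A, ∑ b ∈ Finset.Icc 1 A, ∑ c ∈ Finset.Icc (-((A : ℤ) * X)) (A * X),
    ‖SS (fL z) G X a b c‖ ^ 2 ≤ A * (X : ℝ) ^ 3 / Real.log X ^ U

/-- the twin prime constant: the infimum (the limit) of the decreasing products of `1 - 1 / (p - 1)^2` over `3 ≤ p ≤ z` -/
noncomputable def C2 : ℝ := ⨅ z : ℕ, ∏ p ∈ (Finset.Icc 3 z).filter Nat.Prime, (1 - 1 / ((p : ℝ) - 1) ^ 2)

/-- the singular series `2 C₂ ∏_{p ∣ n, p > 2} (p - 1) / (p - 2)` -/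
noncomputable def S2 (n : ℕ) : ℝ := 2 * C2 * ∏ p ∈ n.primeFactors.filter (fun p => 2 < p), ((p : ℝ) - 1) / ((p : ℝ) - 2)

/-- **T3M** (from FND): the main term for `a m - b n = c`. `N = |a b c|`, `T = SS 1 1 X a b c` the number of solutions in `[1, X]²`.
Proof. All integral solutions are `(m0 + b t, n0 + a t)`; those in `[1, X]²` are given by `T` consecutive `t`, which after a shift are
`1 ≤ t ≤ T`. If `T = 0` both sides vanish. `lamz z m * lamz z n = (Vz z)^{-2}` if no prime `p ≤ z` divides `m n`, else `0`. Apply FND (`c = 2`) to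
`Q p t := p.Prime ∧ p ∣ (m0 + b t) (n0 + a t)` (periodic modulo `p`): for `p ∤ abc` there are two different roots (equal roots
`m0 + b t ≡ n0 + a t ≡ 0` would give `c = a m0 - b n0 ≡ 0`), for `p ∣ abc` exactly one (`p` divides exactly one of `a, b, c`; if `p ∣ a`
then `n0 + a t ≡ n0 ≢ 0` and `m0 + b t` has one root, if `p ∣ c` the two roots coincide). `2 ∣ abc`. So the main term is `T` times
`P_z = (Vz z)^{-2} ∏_{p ≤ z} (1 - ν_p/p) = 2 ∏_{2 < p ≤ z} (1 - 1/(p-1)²) ∏_{p ∣ N, 2 < p ≤ z} (p-1)/(p-2)`. Compare with `S2 N`: the first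
product lies between `C2` and `C2 / (1 - 2/z)` (as `∏_{z < p ≤ z'} (1 - 1/(p-1)²) ≥ 1 - ∑_{n > z} 1/(n-1)²`), and
`1 ≤ ∏_{p ∣ N, p > z} (p-1)/(p-2) ≤ exp (2 · #{p ∣ N, p > z} / z) ≤ 1 + L²/z` because `#{p ∣ N} ≤ log N / log 2 ≤ 10 L`. Since `z ≥ L^{U+4}`,
`|P_z - S2 N| ≤ S2 N / L^{U+1}`. FND has the relative error `(1/2)^{b'}` and the
additive error `√T`, multiplied by `(Vz z)^{-2} ≤ L²` (`Vz_low`). -/
def S_T3M : Prop := ∀ U E : ℕ, ∃ C0 X0 : ℕ, 1 ≤ C0 ∧ ∀ X : ℕ, X0 ≤ X → ∀ z : ℕ, Real.log X ^ (U + 4) ≤ z →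
  (z : ℝ) ≤ Real.log X ^ E → ∀ a b : ℕ, ∀ c : ℤ, 1 ≤ a → 1 ≤ b → a ≤ X → b ≤ X → c ≠ 0 → |c| ≤ (X : ℤ) ^ 2 → a.Coprime b →
  a.Coprime c.natAbs → b.Coprime c.natAbs → 2 ∣ a * b * c.natAbs → ∀ T : ℕ, SS (fun _ => 1) (fun _ => 1) X a b c = T →
  ∀ b' : ℕ, C0 ≤ b' → z ^ (C0 * b') ≤ T →
  ‖SS (fun n => (lamz z n : ℂ)) (fun n => (lamz z n : ℂ)) X a b c - S2 (a * b * c.natAbs) * T‖ ≤
    ((1 / 2 : ℝ) ^ b' + 1 / Real.log X ^ U) * (S2 (a * b * c.natAbs) * T) + Real.log X ^ 2 * √(T : ℝ)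

end Pool.Agent.Q236.CR
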