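import Pool.Agent.Q236.CR.Dpl3
import Pool.Agent.Q53.CR.SHB
import Pool.Agent.Q247.CR.TNB
import Pool.Agent.Q247.CR.ZSB
import Pool.Agent.Q53.CR.SDB
import Pool.Agent.Q154.CR.CHR
import Pool.Agent.Q229.CR.FD
import Pool.Agent.Q111.CR.LUP
import Pool.Agent.Q161.CR.Lzf
import Pool.Agent.Q52.CR.Moc
import Pool.Agent.Q111.CR.PW
import Pool.Agent.Q229.CR.DV
import Pool.Agent.Q297.CR.MVG
import Pool.Agent.Q247.CR.WIN
import Pool.Agent.Q121.CR.LOW
import Pool.Agent.Q198.CR.Sic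
import Pool.Agent.Q198.CR.Sia
import Pool.Agent.Q111.CR.LZ
import Pool.Agent.Q95.CR.Cov
import Pool.Agent.Q154.CR.WM
import Pool.Agent.Q53.CR.WV
import Pool.Agent.Q162.CR.GAL
import Pool.Agent.Q285.CR.MJE
import Pool.Agent.Q24.CR.MUL
import Pool.Agent.Q111.CR.ENG
import Pool.Agent.Q297.CR.OB
import Pool.Agent.Q162.CR.TEL
import Pool.Agent.Q24.CR.GRD
import Pool.Agent.Q285.CR.FND
import Pool.Agent.Q24.CR.POL

/-! Project CR: collection of the lemmas. -/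

set_option autoImplicit false

namespace Pool.Agent.Q236.CR

theorem chr_all : S_CHR := Pool.Agent.Q154.CR.chr (Pool.Agent.Q247.CR.zsb Pool.Agent.Q53.CR.shb Pool.Agent.Q247.CR.tnb)
  Pool.Agent.Q53.CR.sdb

theorem moc_all : S_MOC := Q52.CR.moc (Pool.Agent.Q161.CR.lzf (Pool.Agent.Q111.CR.lup chr_all))

theorem pw_all : S_PW := Pool.Agent.Q111.CR.pw chr_all moc_all

theorem dpl_all : S_DPL := dpl' (Pool.Agent.Q297.CR.mvg Pool.Agent.Q229.CR.dv) pw_all chr_all Pool.Agent.Q229.CR.fd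

theorem sic_all : S_SIC := Pool.Agent.Q198.CR.sic dpl_all Pool.Agent.Q247.CR.win Pool.Agent.Q121.CR.low
  Pool.Agent.Q229.CR.fd

theorem sia_all : S_SIA := Pool.Agent.Q198.CR.sia sic_all

theorem wm_all : S_WM := Pool.Agent.Q154.CR.wm sia_all Pool.Agent.Q95.CR.cov

theorem wv_all : S_WV := Pool.Agent.Q53.CR.wv sia_all Pool.Agent.Q95.CR.cov

theorem mje_all : S_MJE := Pool.Agent.Q285.CR.mje Pool.Agent.Q162.CR.gal

theorem eng_all : S_ENG := Pool.Agent.Q111.CR.eng mje_all Pool.Agent.Q24.CR.mul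

theorem ob_all : S_OB := Pool.Agent.Q297.CR.ob eng_all

theorem pol_all : S_POL := Pool.Agent.Q24.CR.pol Pool.Agent.Q285.CR.fnd

end Pool.Agent.Q236.CR
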