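import Pool.Agent.Q236.CR.MainAll

/-! Project CR: families of weights. -/

set_option autoImplicit false

namespace Pool.Agent.Q236.CR

open Finset Filter
open Pool.Agent.H373R2.T7 (pz Vz lamz)

open Classical in
/-- families of at most `(log H)^A` weights bounded by `(log H)^A` -/
theorem main_fam (k : ℕ) (s : Fin k → ℕ) (A : ℕ) :
    ∃ E0 B : ℕ, ∀ E : ℕ, E0 ≤ E → ∃ H0 : ℕ, ∀ H : ℕ, H0 ≤ H →
    ∀ (t : Fin k → Fin 3) (g : Fin k → ℕ → ℤ) (W : Finset (ℕ → ℂ)),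
    (∀ i, ∀ n : ℕ, 1 ≤ n → n ≤ H → |g i n| ≤ H * (n : ℤ) ^ (s i + 1)) →
    (W.card : ℝ) ≤ Real.log H ^ A → (∀ w ∈ W, ∀ n : ℕ, 1 ≤ n → n ≤ H → ‖w n‖ ≤ Real.log H ^ A) →
    ((((SB k s H).filter (fun c => ∃ w ∈ W, ∃ K : ℕ, Real.log H ^ B ≤ K ∧ (K : ℝ) * Real.log H ^ B ≤ H ∧
      (K : ℝ) / Real.log H ^ A < ‖∑ n ∈ Icc 1 K, w n * (∏ i, FT (t i) (pv (s i) (g i) (c i) n).natAbs -
        ∏ i, MT (t i) ⌊Real.log H ^ E⌋₊ (pv (s i) (g i) (c i) n).natAbs)‖)).card : ℕ) : ℝ) ≤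
      (SB k s H).card / Real.log H ^ A := by
  obtain ⟨E0, B, h⟩ := main_all k s (2 * A)
  refine ⟨E0, B, fun E hE => ?_⟩
  obtain ⟨H0, h⟩ := h E hE
  obtain ⟨H1, h1⟩ := evL _ (eventually_ge_atTop (3 : ℝ))
  refine ⟨max H0 H1, fun H hH t g W hg hW hw => ?_⟩
  have hL3 := h1 H (by omega)
  set L := Real.log H with hL
  have hL0 : 0 < L := by linarith
  have hL1 : 1 ≤ L := by linarith
  have hLA : 0 < L ^ A := by positivity
  have h2 := h H (by omega) t g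
  -- the scaled weights
  have key : ((SB k s H).filter (fun c => ∃ w ∈ W, ∃ K : ℕ, L ^ B ≤ K ∧ (K : ℝ) * L ^ B ≤ H ∧
      (K : ℝ) / L ^ A < ‖∑ n ∈ Icc 1 K, w n * (∏ i, FT (t i) (pv (s i) (g i) (c i) n).natAbs -
        ∏ i, MT (t i) ⌊L ^ E⌋₊ (pv (s i) (g i) (c i) n).natAbs)‖)) ⊆
      W.biUnion (fun w => (SB k s H).filter (fun c => ∃ K : ℕ, L ^ B ≤ K ∧ (K : ℝ) * L ^ B ≤ H ∧
      (K : ℝ) / L ^ (2 * A) < ‖∑ n ∈ Icc 1 K, (if n ≤ H then w n / (L : ℂ) ^ A else 0) *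
        (∏ i, FT (t i) (pv (s i) (g i) (c i) n).natAbs -
        ∏ i, MT (t i) ⌊L ^ E⌋₊ (pv (s i) (g i) (c i) n).natAbs)‖)) := by
    intro c hc
    rw [mem_filter] at hc
    obtain ⟨hc, w, hwW, K, hK1, hK2, hK3⟩ := hc
    rw [mem_biUnion]
    refine ⟨w, hwW, ?_⟩
    rw [mem_filter]
    refine ⟨hc, K, hK1, hK2, ?_⟩
    have hKH : K ≤ H := by
      have h3 : (K : ℝ) ≤ H := by
        calc (K : ℝ) = K * 1 := by ring
          _ ≤ K * L ^ B := by gcongr; exact one_le_pow₀ hL1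
          _ ≤ H := hK2
      exact_mod_cast h3
    have h4 : ∑ n ∈ Icc 1 K, (if n ≤ H then w n / (L : ℂ) ^ A else 0) *
        (∏ i, FT (t i) (pv (s i) (g i) (c i) n).natAbs -
        ∏ i, MT (t i) ⌊L ^ E⌋₊ (pv (s i) (g i) (c i) n).natAbs) =
        (∑ n ∈ Icc 1 K, w n * (∏ i, FT (t i) (pv (s i) (g i) (c i) n).natAbs -
        ∏ i, MT (t i) ⌊L ^ E⌋₊ (pv (s i) (g i) (c i) n).natAbs)) / (L : ℂ) ^ A := by
      rw [sum_div]
      refine sum_congr rfl fun n hn => ?_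
      rw [mem_Icc] at hn
      rw [if_pos (hn.2.trans hKH)]
      ring
    rw [h4, norm_div]
    have h5 : ‖(L : ℂ) ^ A‖ = L ^ A := by
      rw [norm_pow, Complex.norm_real, Real.norm_of_nonneg hL0.le]
    rw [h5, lt_div_iff₀ hLA]
    calc (K : ℝ) / L ^ (2 * A) * L ^ A = K / L ^ A := by
          rw [two_mul, pow_add]
          field_simp
      _ < _ := hK3
  have h6 : ∀ w ∈ W, ((((SB k s H).filter (fun c => ∃ K : ℕ, L ^ B ≤ K ∧ (K : ℝ) * L ^ B ≤ H ∧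
      (K : ℝ) / L ^ (2 * A) < ‖∑ n ∈ Icc 1 K, (if n ≤ H then w n / (L : ℂ) ^ A else 0) *
        (∏ i, FT (t i) (pv (s i) (g i) (c i) n).natAbs -
        ∏ i, MT (t i) ⌊L ^ E⌋₊ (pv (s i) (g i) (c i) n).natAbs)‖)).card : ℕ) : ℝ) ≤
      (SB k s H).card / L ^ (2 * A) := by
    intro w hwW
    have h7 := h2 (fun n => if 1 ≤ n ∧ n ≤ H then w n / (L : ℂ) ^ A else 0) hg ?_
    · refine le_trans ?_ h7
      have h8 : ((SB k s H).filter (fun c => ∃ K : ℕ, L ^ B ≤ K ∧ (K : ℝ) * L ^ B ≤ H ∧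
      (K : ℝ) / L ^ (2 * A) < ‖∑ n ∈ Icc 1 K, (if n ≤ H then w n / (L : ℂ) ^ A else 0) *
        (∏ i, FT (t i) (pv (s i) (g i) (c i) n).natAbs -
        ∏ i, MT (t i) ⌊L ^ E⌋₊ (pv (s i) (g i) (c i) n).natAbs)‖)) =
        ((SB k s H).filter (fun c => ∃ K : ℕ, L ^ B ≤ K ∧ (K : ℝ) * L ^ B ≤ H ∧
      (K : ℝ) / L ^ (2 * A) < ‖∑ n ∈ Icc 1 K, (fun n => if 1 ≤ n ∧ n ≤ H then w n / (L : ℂ) ^ A else 0) n *
        (∏ i, FT (t i) (pv (s i) (g i) (c i) n).natAbs -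
        ∏ i, MT (t i) ⌊L ^ E⌋₊ (pv (s i) (g i) (c i) n).natAbs)‖)) := by
        apply filter_congr
        intro c _
        refine exists_congr fun K => and_congr_right fun _ => and_congr_right fun _ => ?_
        have h9 : ∑ n ∈ Icc 1 K, (if n ≤ H then w n / (L : ℂ) ^ A else 0) *
          (∏ i, FT (t i) (pv (s i) (g i) (c i) n).natAbs -
          ∏ i, MT (t i) ⌊L ^ E⌋₊ (pv (s i) (g i) (c i) n).natAbs) =
          ∑ n ∈ Icc 1 K, (fun n => if 1 ≤ n ∧ n ≤ H then w n / (L : ℂ) ^ A else 0) n *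
          (∏ i, FT (t i) (pv (s i) (g i) (c i) n).natAbs -
          ∏ i, MT (t i) ⌊L ^ E⌋₊ (pv (s i) (g i) (c i) n).natAbs) := by
          refine sum_congr rfl fun n hn => ?_
          rw [mem_Icc] at hn
          simp only [hn.1, true_and]
        rw [h9]
      rw [h8]
    · intro n
      show ‖(if 1 ≤ n ∧ n ≤ H then w n / (L : ℂ) ^ A else 0)‖ ≤ 1
      split_ifs with h8
      · rw [norm_div, norm_pow, Complex.norm_real, Real.norm_of_nonneg hL0.le, div_le_one hLA]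
        exact hw w hwW n h8.1 h8.2
      · simp
  have h7 := (card_le_card key).trans card_biUnion_le
  have h8 : ((((SB k s H).filter (fun c => ∃ w ∈ W, ∃ K : ℕ, L ^ B ≤ K ∧ (K : ℝ) * L ^ B ≤ H ∧
      (K : ℝ) / L ^ A < ‖∑ n ∈ Icc 1 K, w n * (∏ i, FT (t i) (pv (s i) (g i) (c i) n).natAbs -
        ∏ i, MT (t i) ⌊L ^ E⌋₊ (pv (s i) (g i) (c i) n).natAbs)‖)).card : ℕ) : ℝ) ≤
      ∑ w ∈ W, ((SB k s H).card / L ^ (2 * A) : ℝ) := by
    refine (Nat.cast_le.2 h7).trans ?_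
    rw [Nat.cast_sum]
    exact sum_le_sum h6
  refine h8.trans ?_
  rw [sum_const, nsmul_eq_mul]
  have h9 : (0 : ℝ) ≤ (SB k s H).card / L ^ (2 * A) := by positivity
  calc (W.card : ℝ) * ((SB k s H).card / L ^ (2 * A)) ≤ L ^ A * ((SB k s H).card / L ^ (2 * A)) :=
        mul_le_mul_of_nonneg_right hW h9
    _ = (SB k s H).card / L ^ A := by
        rw [two_mul, pow_add]
        field_simp

end Pool.Agent.Q236.CR
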