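import Mathlib
import Pool.Agent.Q236.CR.Stm4

/-!
# Project CR (helper236), part 5: statements

Weights: aperiodic weights are orthogonal to the sieve by small primes along almost all systems, and the passage from von Mangoldt
weights to prime values with a weight.
-/

set_option autoImplicit false

namespace Pool.Agent.Q236.CR

open Finset Filter Polynomial
open Pool.Agent.H373R2.T7 (pz Vz lamz)

open Classical in
/-- **CNTW** (from TV; adapt `Pool/Agent/Q14/CR/Cnt.lean`, theorem `Pool.Agent.Q14.CR.cnt`): the same with a weight `v`. Proof: replace in that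
file `a n` by `v n * ∏ Λ`, `u n` by `v n` times the indicator function, `t n` by `v n * t n`, and `a m - S` by `a m - S * v m`; since
`0 ≤ v ≤ 1` all pointwise bounds stay true. For `n < K1` the partial sums `∑_{m ≤ n} (a m - S v m)` are at most `K1 (((D+3) L)^k + L^(k+1))`.
`A' = A + k + 3` should work. -/
def S_CNTW : Prop := ∀ k D A : ℕ, ∃ A' H0 : ℕ, ∀ H : ℕ, H0 ≤ H → ∀ (P : Fin k → ℤ[X]) (K K1 : ℕ) (S : ℝ) (v : ℕ → ℝ),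
  (∀ i, (P i).natDegree ≤ D) → (∀ i, ∀ n : ℕ, 1 ≤ n → n ≤ K → ((P i).eval (n : ℤ)).natAbs ≤ H ^ (D + 3)) → 0 ≤ S →
  S ≤ Real.log H ^ (k + 1) → 1 ≤ K1 → (K1 : ℝ) * Real.log H ^ (A' + k + 4) ≤ K → K ≤ H → (∀ n, 0 ≤ v n ∧ v n ≤ 1) →
  (∀ K' : ℕ, K1 ≤ K' → K' ≤ K →
    |∑ n ∈ Finset.Icc 1 K', v n * ∏ i, ArithmeticFunction.vonMangoldt ((P i).eval (n : ℤ)).natAbs -
      S * ∑ n ∈ Finset.Icc 1 K', v n| ≤ K' / Real.log H ^ A') →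
  ((((Finset.Icc 1 K).filter (fun n : ℕ => ∃ i, ((P i).eval (n : ℤ)).natAbs ^ 2 ≤ H ∨
    ∃ a m : ℕ, 2 ≤ m ∧ a ^ m = ((P i).eval (n : ℤ)).natAbs)).card : ℕ) : ℝ) ≤ K / Real.log H ^ A' →
  |∑ n ∈ (Finset.Icc 1 K).filter (fun n : ℕ => ∀ i, ((P i).eval (n : ℤ)).natAbs.Prime), v n -
    S * ∑ n ∈ (Finset.Icc 1 K).filter (fun n : ℕ => ∀ i, 2 ≤ |(P i).eval (n : ℤ)|),
      v n * ∏ i, (1 / Real.log |(((P i).eval (n : ℤ) : ℤ) : ℝ)|)| ≤ K / Real.log H ^ A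

open Classical in
/-- **WAP** (from EQD and ER; adapt `Pool/Agent/Q224/CR/Varp.lean` and the end of `Mtp.lean`): aperiodic weights. Proof. `L = log H`,
`z = ⌊L^E⌋`, `P = pz z`, `r = ⌈(7 k E + U + 8) log L⌉₊ + 1` as in MT. By Bonferroni (`bonf_ind` multiplied by `w n`, in absolute value
`≤ 1`) the sum over the `n` without hits differs from `∑_{T ⊂ P, |T| < r} (-1)^{|T|} ∑_{n ≤ K} w n xi T n` by at most
`∑_{n ≤ K} e_r(n)`, `e_r(n) = ∑_{|T| = r} xi T n` (or `r + 1`). So its square is at most `2 (∑_T ± ∑_n w n xi T n)² + 2 K ∑_n e_r(n)²`.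
The second term: ER, exactly as in MT. The first: `Pool.Agent.Q224.CR.quad` and `Pool.Agent.Q224.CR.main_form` with `I = Icc 1 K`, `ν = w`,
`ε T = (-1)^{|T|}`, `δ = dk k`, and
`V W = ∑_{n, n' ≤ K, n ≡ n' (mod all p ∈ W)} w n w n' = ∑_{a < q} (∑_{n ≤ K, n ≡ a (q)} w n)²`, `q = ∏_W p` (`Pool.Agent.Q224.CR.modEq_prod`).
(i) if `q ≤ Q0 = L^{C2}`: `V W ≤ Q0 (K / L^{A'})²`; (ii) if `q > Q0`: `V W ≤ (K / q + 1) K ≤ K²/Q0 + K`, and `K ≥ L^B`.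
So by `prod_dk` (`(∏_P (1 + δ_p))² ≤ (3z)^{3k}`) and `∑_{W ⊂ P} ∏_W δ_p = ∏_P (1 + δ_p)` the main form is at most
`(3z)^{6k} (Q0 K² L^{-2A'} + K²/Q0 + K) ≤ K² / (4 L^U)` for `C2 = 6 k E + U + 10`, `A' = C2 + 6 k E + U + 10`, `B = A' + C2`, `H` large. The
error term of `quad` is at most `|SB| C (z+1)^{4r} K² / H`, negligible as `(z+1)^{4r} ≤ exp (c (log L)²) ≤ H^{1/2}`. -/
def S_WAP : Prop := ∀ (k : ℕ) (s : Fin k → ℕ) (E U : ℕ), ∃ A' B H0 : ℕ, ∀ H : ℕ, H0 ≤ H → ∀ (G : Fin k → ℤ[X]) (K : ℕ)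
  (w : ℕ → ℝ), Real.log H ^ B ≤ K → K ≤ H → (∀ n, |w n| ≤ 1) →
  (∀ q : ℕ, 1 ≤ q → (q : ℝ) ≤ Real.log H ^ A' → ∀ a : ℕ,
    |∑ n ∈ (Finset.Icc 1 K).filter (fun n => n ≡ a [MOD q]), w n| ≤ K / Real.log H ^ A') →
  ∑ c ∈ SB k s H, (∑ n ∈ (Finset.Icc 1 K).filter (fun n : ℕ => ∀ p ∈ pz ⌊Real.log H ^ E⌋₊, ¬ hit s G c p n), w n) ^ 2 ≤
    (SB k s H).card * ((K : ℝ) ^ 2 / Real.log H ^ U)

end Pool.Agent.Q236.CR
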