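import Mathlib
import Pool.Agent.Q236.CR.Stm2
import Pool.Agent.H373R2.T7.Fund

/-! Project CR: one random polynomial, for the von Mangoldt function, the Moebius function and the Liouville function. -/

set_option autoImplicit false

namespace Pool.Agent.Q236.CR

open Finset Filter
open Pool.Agent.H373R2.T7 (pz Vz lamz)

/-- `Λ`, `μ`, `λ` -/
noncomputable def FT (t : Fin 3) (n : ℕ) : ℂ :=
  if t = 0 then ((ArithmeticFunction.vonMangoldt n : ℝ) : ℂ) else if t = 1 then fM n else fV n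

/-- the models `Λ_z`, `0`, `0` -/
noncomputable def MT (t : Fin 3) (z n : ℕ) : ℂ := if t = 0 then ((lamz z n : ℝ) : ℂ) else 0

lemma FM0 (z n : ℕ) : FT 0 n - MT 0 z n = fL z n := by
  unfold FT MT fL
  simp

lemma FM1 (z n : ℕ) : FT 1 n - MT 1 z n = fM n := by
  unfold FT MT
  simp

lemma FM2 (z n : ℕ) : FT 2 n - MT 2 z n = fV n := by
  unfold FT MT
  have h1 : (2 : Fin 3) ≠ 0 := by decide
  have h2 : (2 : Fin 3) ≠ 1 := by decide
  simp [h1, h2]

/-- eventually along naturals for statements in `log H` -/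
lemma evL (P : ℝ → Prop) (h : ∀ᶠ l : ℝ in atTop, P l) : ∃ H0 : ℕ, ∀ H : ℕ, H0 ≤ H → P (Real.log H) := by
  have h1 : Tendsto (fun n : ℕ => Real.log (n : ℝ)) atTop atTop :=
    Real.tendsto_log_atTop.comp tendsto_natCast_atTop_atTop
  exact eventually_atTop.mp (h1.eventually h)

lemma log_pow_small (C : ℕ) (a : ℝ) : ∀ᶠ l : ℝ in atTop, (a * Real.log l) ^ C ≤ l := by
  have h1 : Tendsto (fun l : ℝ => (a ^ C) * (Real.log l ^ C / l)) atTop (nhds (a ^ C * 0)) := by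
    apply Tendsto.const_mul
    have := Real.tendsto_pow_log_div_mul_add_atTop 1 0 C one_ne_zero
    simpa using this
  rw [mul_zero] at h1
  have h2 := h1.eventually (gt_mem_nhds (show (0 : ℝ) < 1 by norm_num))
  filter_upwards [h2, eventually_gt_atTop 0] with l hl hl0
  rw [mul_pow]
  have h3 : a ^ C * (Real.log l ^ C / l) = (a ^ C * Real.log l ^ C) / l := by ring
  rw [h3, div_lt_one hl0] at hl
  exact hl.le

/-- the inverse of `Vz` is at most `log H` -/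
lemma Vz_inv (E : ℕ) : ∃ H0 : ℕ, ∀ H : ℕ, H0 ≤ H → ∀ z : ℕ, 1 ≤ z → (z : ℝ) ≤ Real.log H ^ E →
    0 < Vz z ∧ (Vz z)⁻¹ ≤ Real.log H := by
  obtain ⟨C, N0, hV⟩ := Pool.Agent.H373R2.T7.Vz_low
  obtain ⟨H1, h1⟩ := evL _ ((log_pow_small C E).and ((eventually_ge_atTop (N0 + 3 : ℝ))))
  refine ⟨H1, fun H hH z hz hzE => ?_⟩
  obtain ⟨a1, a2⟩ := h1 H hH
  set L := Real.log H with hL
  have hL3 : (3 : ℝ) ≤ L := by
    have : (0 : ℝ) ≤ (N0 : ℝ) := Nat.cast_nonneg _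
    linarith
  have hz0 : (0 : ℝ) < z := by exact_mod_cast hz
  have hpos : 0 < Vz z := lt_of_lt_of_le (by positivity) (Pool.Agent.H373R2.T7.Vz_ge z hz)
  refine ⟨hpos, ?_⟩
  rcases le_or_gt N0 z with h | h
  · rcases Nat.lt_or_ge 1 z with h2 | h2
    · have hlz : 0 < Real.log z := Real.log_pos (by exact_mod_cast h2)
      have h3 := hV z h
      have h4 : (Vz z)⁻¹ ≤ Real.log z ^ C := by
        rw [inv_le_comm₀ hpos (by positivity)]
        simpa using h3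
      have h5 : Real.log z ≤ E * Real.log L := by
        calc Real.log z ≤ Real.log (L ^ E) := Real.log_le_log hz0 hzE
          _ = _ := Real.log_pow _ _
      calc (Vz z)⁻¹ ≤ Real.log z ^ C := h4
        _ ≤ (E * Real.log L) ^ C := by gcongr
        _ ≤ L := a1
    · have h3 : z = 1 := by omega
      have h4 := Pool.Agent.H373R2.T7.Vz_ge z hz
      rw [h3] at h4 ⊢
      have h5 : (1 : ℝ) ≤ Vz 1 := by simpa using h4
      have h6 : (Vz 1)⁻¹ ≤ 1 := inv_le_one_of_one_le₀ h5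
      linarith
  · have h4 := Pool.Agent.H373R2.T7.Vz_ge z hz
    have h5 : (Vz z)⁻¹ ≤ z := by
      rw [inv_le_comm₀ hpos hz0]
      simpa using h4
    have h6 : (z : ℝ) ≤ N0 := by exact_mod_cast h.le
    linarith

lemma lamz_bd {z : ℕ} (hV : 0 < Vz z) (n : ℕ) : 0 ≤ lamz z n ∧ lamz z n ≤ (Vz z)⁻¹ := by
  unfold lamz
  have : 0 < (Vz z)⁻¹ := inv_pos.mpr hV
  split_ifs <;> constructor <;> linarith

lemma fM_bd (n : ℕ) : ‖fM n‖ ≤ 1 := by
  unfold fM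
  rw [Complex.norm_intCast]
  exact_mod_cast ArithmeticFunction.abs_moebius_le_one

lemma fV_bd (n : ℕ) : ‖fV n‖ ≤ 1 := by
  unfold fV
  rw [Complex.norm_intCast]
  rcases Nat.eq_zero_or_pos n with h | h
  · rw [h]; simp
  · rw [ArithmeticFunction.liouville_apply (by omega)]
    simp

lemma FT_bd (t : Fin 3) (n : ℕ) (l : ℝ) (hl : 1 ≤ l) (h : Real.log n ≤ l) : ‖FT t n‖ ≤ l := by
  unfold FT
  split_ifs
  · rw [Complex.norm_real, Real.norm_eq_abs, abs_of_nonneg ArithmeticFunction.vonMangoldt_nonneg]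
    exact ArithmeticFunction.vonMangoldt_le_log.trans h
  · exact (fM_bd n).trans hl
  · exact (fV_bd n).trans hl

lemma MT_bd (t : Fin 3) (z n : ℕ) (l : ℝ) (hV : 0 < Vz z) (hl : (Vz z)⁻¹ ≤ l) : ‖MT t z n‖ ≤ l := by
  have h0 : 0 < (Vz z)⁻¹ := inv_pos.mpr hV
  unfold MT
  split_ifs
  · rw [Complex.norm_real, Real.norm_eq_abs, abs_of_nonneg (lamz_bd hV n).1]
    exact (lamz_bd hV n).2.trans hl
  · rw [norm_zero]; linarith

lemma fL_bd (z n : ℕ) (l : ℝ) (hV : 0 < Vz z) (hl : (Vz z)⁻¹ ≤ l) (h : Real.log n ≤ l) : ‖fL z n‖ ≤ l := by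
  unfold fL
  rw [Complex.norm_real, Real.norm_eq_abs, abs_le]
  have h1 := lamz_bd hV n
  have h2 := ArithmeticFunction.vonMangoldt_nonneg (n := n)
  have h3 := (ArithmeticFunction.vonMangoldt_le_log (n := n)).trans h
  constructor <;> linarith

/-- elementary facts on `XX` -/
lemma XX_facts (s : ℕ) (H K : ℕ) (hH : 4 * (s + 3) ≤ H) (hK : 1 ≤ K) (hKH : K ≤ H) :
    H ≤ XX s H K ∧ XX s H K ≤ H ^ (s + 3) := by
  unfold XX
  constructor
  · calc H = 1 * H * 1 := by ring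
      _ ≤ 4 * (s + 3) * H * K ^ (s + 1) := by
        gcongr
        · omega
        · exact Nat.one_le_pow _ _ hK
  · calc 4 * (s + 3) * H * K ^ (s + 1) ≤ H * H * H ^ (s + 1) := by gcongr
      _ = _ := by ring

/-- **ONE** -/
theorem one (hOB : S_OB) (hWL : S_WL) (hWM : S_WM) (hWV : S_WV) (s U : ℕ) (t : Fin 3) :
    ∃ E0 B : ℕ, ∀ E : ℕ, E0 ≤ E → ∃ H0 : ℕ, ∀ H : ℕ, H0 ≤ H → ∀ K : ℕ, Real.log H ^ B ≤ K →
    (K : ℝ) * Real.log H ^ B ≤ H → ∀ (g : ℕ → ℤ) (w : ℕ → ℂ), (∀ n ∈ Icc 1 K, |g n| ≤ H * K ^ (s + 1)) →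
    (∀ n, ‖w n‖ ≤ 1) →
    ∑ c ∈ BX s H, ‖∑ n ∈ Icc 1 K, w n * (FT t (pv s g c n).natAbs - MT t ⌊Real.log H ^ E⌋₊ (pv s g c n).natAbs)‖ ^ 2 ≤
      (2 * (H : ℝ) + 1) ^ (s + 2) * ((K : ℝ) ^ 2 / Real.log H ^ U) := by
  obtain ⟨E1, U1, hOB1⟩ := hOB s U
  -- common facts
  have hcom : ∀ x0 : ℕ, ∃ H1 : ℕ, ∀ H : ℕ, H1 ≤ H → ∀ K : ℕ, 1 ≤ Real.log H ∧ (1 ≤ K → K ≤ H → x0 ≤ XX s H K ∧
      Real.log H ≤ Real.log (XX s H K) ∧ Real.log (XX s H K) ≤ (s + 3) * Real.log H) := by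
    intro x0
    obtain ⟨H1, h1⟩ := evL _ (eventually_ge_atTop (1 : ℝ))
    refine ⟨max (max H1 x0) (4 * (s + 3)), fun H hH K => ⟨h1 H (by omega), fun hK hKH => ?_⟩⟩
    have hHpos : (0 : ℝ) < H := by exact_mod_cast (by omega : 0 < H)
    obtain ⟨a1, a2⟩ := XX_facts s H K (by omega) hK hKH
    refine ⟨by omega, Real.log_le_log hHpos (by exact_mod_cast a1), ?_⟩
    calc Real.log (XX s H K) ≤ Real.log ((H : ℝ) ^ (s + 3)) := by
          apply Real.log_le_log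
          · exact_mod_cast (by omega : 0 < XX s H K)
          · exact_mod_cast a2
      _ = _ := by rw [Real.log_pow]; push_cast; ring
  have hK1 : ∀ (B H K : ℕ), 1 ≤ Real.log H → Real.log H ^ B ≤ K → (K : ℝ) * Real.log H ^ B ≤ H → 1 ≤ K ∧ K ≤ H := by
    intro B H K hL h1 h2
    have h3 : (1 : ℝ) ≤ Real.log H ^ B := one_le_pow₀ hL
    constructor
    · exact_mod_cast h3.trans h1
    · have : (K : ℝ) ≤ H := by
        calc (K : ℝ) = K * 1 := by ring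
          _ ≤ K * Real.log H ^ B := by gcongr
          _ ≤ H := h2
      exact_mod_cast this
  have ht : t = 0 ∨ t = 1 ∨ t = 2 := by
    fin_cases t <;> simp
  rcases ht with rfl | rfl | rfl
  · -- von Mangoldt
    obtain ⟨C, hWL1⟩ := hWL E1 U1
    obtain ⟨B, H2, hOB2⟩ := hOB1 C
    refine ⟨E1 + 1, B, fun E hE => ?_⟩
    obtain ⟨x0, hW⟩ := hWL1 E
    obtain ⟨H1, h1⟩ := hcom x0
    obtain ⟨H3, h3⟩ := Vz_inv E
    obtain ⟨H4, h4⟩ := evL _ (eventually_ge_atTop (2 * ((s : ℝ) + 3) ^ E1 + 3))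
    refine ⟨max (max H1 H2) (max H3 H4), fun H hH K hKB hKH g w hg hw => ?_⟩
    obtain ⟨hL1, hX⟩ := h1 H (by omega) K
    obtain ⟨hK, hKH'⟩ := hK1 B H K hL1 hKB hKH
    obtain ⟨hx0, hLX, hLX2⟩ := hX hK hKH'
    have hL4 := h4 H (by omega)
    set L := Real.log H with hL
    have hs0 : (0 : ℝ) ≤ (s : ℝ) := Nat.cast_nonneg s
    have hpw : (1 : ℝ) ≤ ((s : ℝ) + 3) ^ E1 := one_le_pow₀ (by linarith)
    have hL0 : 0 < L := by linarith
    set z := ⌊L ^ E⌋₊ with hz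
    have hzle : (z : ℝ) ≤ L ^ E := Nat.floor_le (by positivity)
    have hLE : L ≤ L ^ E := by
      calc L = L ^ 1 := (pow_one L).symm
        _ ≤ L ^ E := pow_le_pow_right₀ hL1 (by omega)
    have hz2 : 2 ≤ z := Nat.le_floor (by push_cast; linarith)
    obtain ⟨hV, hVi⟩ := h3 H (by omega) z (by omega) hzle
    have hzge : Real.log (XX s H K) ^ E1 ≤ z := by
      have h5 : L ^ (E1 + 1) - 1 ≤ z := by
        have h6 : L ^ E - 1 < z := Nat.sub_one_lt_floor _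
        have h7 : L ^ (E1 + 1) ≤ L ^ E := pow_le_pow_right₀ hL1 hE
        linarith
      have h8 : Real.log (XX s H K) ^ E1 ≤ (((s : ℝ) + 3) * L) ^ E1 := by
        apply pow_le_pow_left₀ (by linarith) hLX2
      have h9 : (((s : ℝ) + 3) * L) ^ E1 = ((s : ℝ) + 3) ^ E1 * L ^ E1 := mul_pow _ _ _
      have h10 : 1 ≤ L ^ E1 := one_le_pow₀ hL1
      have h11 : L ^ (E1 + 1) = L ^ E1 * L := pow_succ _ _
      have h12 : (((s : ℝ) + 3) ^ E1 * 2 + 3) * L ^ E1 ≤ L ^ E1 * L := by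
        rw [mul_comm]
        apply mul_le_mul_of_nonneg_left _ (by positivity)
        linarith
      nlinarith
    have hcongr : ∀ c n, FT 0 (pv s g c n).natAbs - MT 0 z (pv s g c n).natAbs = fL z (pv s g c n).natAbs :=
      fun c n => FM0 _ _
    simp only [hcongr]
    refine hOB2 H (by omega) K hKB hKH (fL z) ?_ (hW _ hx0 z hzge ?_) ?_ g w hg hw
    · unfold fL lamz
      have h5 : ¬ ∀ p ∈ pz z, ¬ p ∣ 0 := by
        push Not
        exact ⟨2, by rw [Pool.Agent.H373R2.T7.mem_pz]; exact ⟨hz2, Nat.prime_two⟩, dvd_zero _⟩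
      rw [if_neg h5]
      simp
    · exact hzle.trans (pow_le_pow_left₀ hL0.le hLX _)
    · intro n hn
      apply fL_bd z n _ hV (hVi.trans hLX)
      rcases Nat.eq_zero_or_pos n with h | h
      · rw [h]; simp; linarith
      · exact Real.log_le_log (by exact_mod_cast h) (by exact_mod_cast hn)
  · obtain ⟨C, x0, hW⟩ := hWM E1 U1
    obtain ⟨B, H2, hOB2⟩ := hOB1 C
    refine ⟨0, B, fun E hE => ?_⟩
    obtain ⟨H1, h1⟩ := hcom x0
    refine ⟨max H1 H2, fun H hH K hKB hKH g w hg hw => ?_⟩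
    obtain ⟨hL1, hX⟩ := h1 H (by omega) K
    obtain ⟨hK, hKH'⟩ := hK1 B H K hL1 hKB hKH
    obtain ⟨hx0, hLX, hLX2⟩ := hX hK hKH'
    have hcongr : ∀ c n, FT 1 (pv s g c n).natAbs - MT 1 ⌊Real.log H ^ E⌋₊ (pv s g c n).natAbs = fM (pv s g c n).natAbs :=
      fun c n => FM1 _ _
    simp only [hcongr]
    refine hOB2 H (by omega) K hKB hKH fM ?_ (hW _ hx0) ?_ g w hg hw
    · unfold fM; simp
    · intro n hn
      exact (fM_bd n).trans (hL1.trans hLX)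
  · obtain ⟨C, x0, hW⟩ := hWV E1 U1
    obtain ⟨B, H2, hOB2⟩ := hOB1 C
    refine ⟨0, B, fun E hE => ?_⟩
    obtain ⟨H1, h1⟩ := hcom x0
    refine ⟨max H1 H2, fun H hH K hKB hKH g w hg hw => ?_⟩
    obtain ⟨hL1, hX⟩ := h1 H (by omega) K
    obtain ⟨hK, hKH'⟩ := hK1 B H K hL1 hKB hKH
    obtain ⟨hx0, hLX, hLX2⟩ := hX hK hKH'
    have hcongr : ∀ c n, FT 2 (pv s g c n).natAbs - MT 2 ⌊Real.log H ^ E⌋₊ (pv s g c n).natAbs = fV (pv s g c n).natAbs :=
      fun c n => FM2 _ _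
    simp only [hcongr]
    refine hOB2 H (by omega) K hKB hKH fV ?_ (hW _ hx0) ?_ g w hg hw
    · unfold fV; simp
    · intro n hn
      exact (fV_bd n).trans (hL1.trans hLX)

end Pool.Agent.Q236.CR
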