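import Mathlib
import Pool.Agent.Q236.CR.Stm4
import Pool.Agent.Q236.CR.One
import Pool.Agent.Q151.CR.T3M
import Pool.Agent.Q285.CR.FND
import Pool.Agent.Q224.CR.T3a

/-! Project CR: the equation `a p - b q = c` for almost all triples. -/

set_option autoImplicit false

namespace Pool.Agent.Q236.CR.Tri

open Finset Filter
open Pool.Agent.H373R2.T7 (pz Vz lamz)
open Pool.Agent.Q236.CR

/-- the solutions of `a m - b n = c`, `1 ≤ m, n ≤ X` -/
def Sol (X a b : ℕ) (c : ℤ) : Finset (ℕ × ℕ) :=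
  (Icc 1 X ×ˢ Icc 1 X).filter (fun t : ℕ × ℕ => (a : ℤ) * t.1 - b * t.2 = c)

/-- the weighted number of solutions -/
noncomputable def rS (F G : ℕ → ℝ) (X a b : ℕ) (c : ℤ) : ℝ := ∑ t ∈ Sol X a b c, F t.1 * G t.2

/-- `log p` at primes `p`, else `0` -/
noncomputable def tht (n : ℕ) : ℝ := if n.Prime then Real.log n else 0

lemma SS_real (F G : ℕ → ℝ) (X a b : ℕ) (c : ℤ) :
    SS (fun n => (F n : ℂ)) (fun n => (G n : ℂ)) X a b c = ((rS F G X a b c : ℝ) : ℂ) := by
  unfold SS rS Sol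
  push_cast
  refine sum_congr ?_ fun _ _ => rfl
  apply filter_congr
  intro t _
  exact Iff.rfl

lemma SS_congr (F F' G G' : ℕ → ℂ) (X a b : ℕ) (c : ℤ) (hF : ∀ n, 1 ≤ n → n ≤ X → F n = F' n)
    (hG : ∀ n, 1 ≤ n → n ≤ X → G n = G' n) : SS F G X a b c = SS F' G' X a b c := by
  unfold SS
  refine sum_congr rfl fun t ht => ?_
  rw [mem_filter, mem_product, mem_Icc, mem_Icc] at ht
  rw [hF _ ht.1.1.1 ht.1.1.2, hG _ ht.1.2.1 ht.1.2.2]

lemma rS_swap (F G : ℕ → ℝ) (X a b : ℕ) (c : ℤ) : rS F G X a b c = rS G F X b a (-c) := by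
  unfold rS
  refine sum_bij' (fun t _ => (t.2, t.1)) (fun t _ => (t.2, t.1)) ?_ ?_ ?_ ?_ ?_
  · intro t ht
    unfold Sol at ht ⊢
    rw [mem_filter, mem_product] at ht ⊢
    refine ⟨⟨ht.1.2, ht.1.1⟩, ?_⟩
    have := ht.2
    simp only
    linarith
  · intro t ht
    unfold Sol at ht ⊢
    rw [mem_filter, mem_product] at ht ⊢
    refine ⟨⟨ht.1.2, ht.1.1⟩, ?_⟩
    have := ht.2
    simp only
    linarith
  · intro t _; rfl
  · intro t _; rfl
  · intro t _
    exact mul_comm _ _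

lemma rS_split (F M : ℕ → ℝ) (X a b : ℕ) (c : ℤ) : rS F F X a b c - rS M M X a b c =
    rS (fun n => F n - M n) F X a b c + rS (fun n => F n - M n) M X b a (-c) := by
  rw [← rS_swap M (fun n => F n - M n)]
  unfold rS
  rw [← sum_sub_distrib, ← sum_add_distrib]
  refine sum_congr rfl fun t _ => ?_
  ring

/-- the sum over all right-hand sides -/
lemma rS_sum (F G : ℕ → ℝ) (hF : ∀ n, 0 ≤ F n) (hG : ∀ n, 0 ≤ G n) (X a b : ℕ) (S : Finset ℤ) :
    ∑ c ∈ S, rS F G X a b c ≤ (∑ m ∈ Icc 1 X, F m) * ∑ n ∈ Icc 1 X, G n := by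
  classical
  unfold rS Sol
  rw [Finset.sum_mul_sum, ← Finset.sum_product' (f := fun m n => F m * G n)]
  have h1 : ∀ c ∈ S, ∑ t ∈ (Icc 1 X ×ˢ Icc 1 X).filter (fun t : ℕ × ℕ => (a : ℤ) * t.1 - b * t.2 = c), F t.1 * G t.2 =
      ∑ t ∈ Icc 1 X ×ˢ Icc 1 X, if (a : ℤ) * t.1 - b * t.2 = c then F t.1 * G t.2 else 0 := by
    intro c _
    rw [sum_filter]
  rw [sum_congr rfl h1, sum_comm]
  refine sum_le_sum fun t _ => ?_
  rw [sum_ite_eq]
  split_ifs
  · exact le_rfl
  · exact mul_nonneg (hF _) (hG _)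

lemma tht_le (n : ℕ) : 0 ≤ tht n ∧ tht n ≤ ArithmeticFunction.vonMangoldt n := by
  unfold tht
  split_ifs with h
  · rw [ArithmeticFunction.vonMangoldt_apply_prime h]
    exact ⟨Real.log_natCast_nonneg _, le_rfl⟩
  · exact ⟨le_rfl, ArithmeticFunction.vonMangoldt_nonneg⟩

lemma pp_sum (X : ℕ) (hX : 1 ≤ X) : ∑ n ∈ Icc 1 X, (ArithmeticFunction.vonMangoldt n - tht n) ≤
    2 * √(X : ℝ) * Real.log X := by
  have h1 := Chebyshev.psi_sub_theta_le (x := (X : ℝ)) (by exact_mod_cast hX)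
  have h2 : Chebyshev.psi (X : ℝ) = ∑ n ∈ Icc 1 X, ArithmeticFunction.vonMangoldt n := by
    unfold Chebyshev.psi
    rw [Nat.floor_natCast]
    refine sum_congr ?_ fun _ _ => rfl
    ext n
    simp only [mem_Ioc, mem_Icc]
    omega
  have h3 : Chebyshev.theta (X : ℝ) = ∑ n ∈ Icc 1 X, tht n := by
    unfold Chebyshev.theta tht
    rw [Nat.floor_natCast, sum_filter]
    refine sum_congr ?_ fun _ _ => rfl
    ext n
    simp only [mem_Ioc, mem_Icc]
    omega
  rw [sum_sub_distrib, ← h2, ← h3]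
  exact h1

lemma prod_le_card (s : Finset ℕ) (h : ∀ p ∈ s, 3 ≤ p) : ∏ p ∈ s, ((p : ℝ) - 1) / ((p : ℝ) - 2) ≤ s.card + 1 := by
  induction s using Finset.induction_on_max with
  | empty => simp
  | insert a s hs ih =>
    have ha : a ∉ s := fun h1 => lt_irrefl _ (hs a h1)
    rw [prod_insert ha, card_insert_of_notMem ha]
    have h3 : ∀ p ∈ s, 3 ≤ p := fun p hp => h p (mem_insert_of_mem hp)
    have hsub : s ⊆ Finset.Ico 3 a := by
      intro p hp
      rw [mem_Ico]
      exact ⟨h3 p hp, hs p hp⟩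
    have hc := card_le_card hsub
    rw [Nat.card_Ico] at hc
    have ha3 : 3 ≤ a := h a (mem_insert_self _ _)
    have hcr : (s.card : ℝ) + 3 ≤ a := by
      have : s.card + 3 ≤ a := by omega
      exact_mod_cast this
    have hcn : (0 : ℝ) ≤ s.card := Nat.cast_nonneg _
    have h4 : ((a : ℝ) - 1) / ((a : ℝ) - 2) ≤ (s.card + 2) / (s.card + 1) := by
      rw [div_le_div_iff₀ (by linarith) (by linarith)]
      nlinarith
    have h5 : 0 ≤ ((a : ℝ) - 1) / ((a : ℝ) - 2) := by apply div_nonneg <;> linarith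
    calc ((a : ℝ) - 1) / ((a : ℝ) - 2) * ∏ p ∈ s, ((p : ℝ) - 1) / ((p : ℝ) - 2)
        ≤ (s.card + 2) / (s.card + 1) * (s.card + 1) := by
          apply mul_le_mul h4 (ih h3) _ (by positivity)
          apply prod_nonneg
          intro p hp
          have : (3 : ℝ) ≤ p := by exact_mod_cast h3 p hp
          apply div_nonneg <;> linarith
      _ = ((s.card + 1 : ℕ) : ℝ) + 1 := by
          push_cast
          field_simp
          ring

lemma S2_low (N : ℕ) : 1 ≤ S2 N := by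
  have h1 : (1 : ℝ) / 2 ≤ C2 := by
    refine le_trans ?_ (Pool.Agent.Q151.CR.TM.le_C2 8 (by norm_num))
    unfold Pool.Agent.Q151.CR.TM.Dz
    have h2 : (Finset.Icc 3 8).filter Nat.Prime = {3, 5, 7} := by decide
    rw [h2]
    rw [prod_insert (by decide), prod_insert (by decide), prod_singleton]
    norm_num
  have h2 : (1 : ℝ) ≤ ∏ p ∈ N.primeFactors.filter (fun p => 2 < p), ((p : ℝ) - 1) / ((p : ℝ) - 2) := by
    calc (1 : ℝ) = ∏ _p ∈ N.primeFactors.filter (fun p => 2 < p), (1 : ℝ) := by rw [prod_const_one]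
      _ ≤ _ := by
        apply prod_le_prod (fun _ _ => zero_le_one)
        intro p hp
        rw [mem_filter] at hp
        have : (3 : ℝ) ≤ p := by exact_mod_cast hp.2
        rw [le_div_iff₀ (by linarith)]
        linarith
  unfold S2
  nlinarith

lemma S2_up (N : ℕ) (L : ℝ) (hN : N ≠ 0) (hNL : Real.log N ≤ 4 * L) : S2 N ≤ 2 * (8 * L + 1) := by
  set F' := N.primeFactors.filter (fun p => 2 < p) with hF'
  have hcard : (F'.card : ℝ) ≤ 8 * L := by
    have h2 : 2 ^ F'.card ≤ N := by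
      calc 2 ^ F'.card ≤ ∏ p ∈ F', p := by
            apply Finset.pow_card_le_prod
            intro p hp
            rw [hF', mem_filter] at hp
            omega
        _ ≤ ∏ p ∈ N.primeFactors, p := by
            apply Nat.le_of_dvd
            · exact prod_pos fun p hp => (Nat.prime_of_mem_primeFactors hp).pos
            · apply prod_dvd_prod_of_subset
              exact filter_subset _ _
        _ ≤ N := Nat.le_of_dvd (Nat.pos_of_ne_zero hN) (Nat.prod_primeFactors_dvd N)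
    have h3 : (2 : ℝ) ^ F'.card ≤ N := by exact_mod_cast h2
    have h4 := Real.log_le_log (by positivity) h3
    rw [Real.log_pow] at h4
    have h5 : (1 / 2 : ℝ) ≤ Real.log 2 := by linarith [Real.log_two_gt_d9]
    have h6 : (F'.card : ℝ) * (1 / 2) ≤ F'.card * Real.log 2 := mul_le_mul_of_nonneg_left h5 (Nat.cast_nonneg _)
    linarith
  have hC : C2 ≤ 1 := by
    refine (Pool.Agent.Q151.CR.TM.C2_le 0).trans ?_
    unfold Pool.Agent.Q151.CR.TM.Dz
    simp
  have hC0 : 0 ≤ C2 := by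
    refine le_trans ?_ (Pool.Agent.Q151.CR.TM.le_C2 8 (by norm_num))
    have := Pool.Agent.Q151.CR.TM.Dz_pos 8
    have h1 : (0 : ℝ) ≤ 1 - 2 / ((8 : ℕ) : ℝ) := by norm_num
    positivity
  have h1 := prod_le_card F' (fun p hp => by rw [hF', mem_filter] at hp; omega)
  unfold S2
  rw [← hF']
  have h2 : 0 ≤ ∏ p ∈ F', ((p : ℝ) - 1) / ((p : ℝ) - 2) := by
    apply prod_nonneg
    intro p hp
    rw [hF', mem_filter] at hp
    have : (3 : ℝ) ≤ p := by exact_mod_cast hp.2
    apply div_nonneg <;> linarith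
  calc 2 * C2 * ∏ p ∈ F', ((p : ℝ) - 1) / ((p : ℝ) - 2) ≤ 2 * 1 * (F'.card + 1) := by
        apply mul_le_mul _ h1 h2 (by norm_num)
        linarith
    _ ≤ 2 * (8 * L + 1) := by linarith

end Pool.Agent.Q236.CR.Tri
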