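import Pool.Agent.Q236.CR.BHAll
import Pool.Agent.Q236.CR.Cor
import Pool.Agent.Q236.CR.Tri
import Pool.Agent.Q236.CR.Stm5
import Pool.Agent.Q224.CR.Mtp
import Pool.Agent.Q224.CR.Varp
import Pool.Agent.Q285.CR.Cntw
import Pool.Agent.H373R2.T7.LamMaj

/-! Project CR: systems of random polynomials at prime arguments. -/

set_option autoImplicit false

namespace Pool.Agent.Q236.CR

open Finset Filter Polynomial
open Pool.Agent.H373R2.T7 (pz Vz lamz)
open Pool.Agent.Q236.CR.Tri (tht tht_le pp_sum)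

theorem mtp_all : S_MTP := Pool.Agent.Q224.CR.mtp (Pool.Agent.Q224.CR.varp Pool.Agent.Q14.CR.eqd)
  (Pool.Agent.Q154.CR.er Pool.Agent.Q14.CR.eqd)

open Classical in
/-- the number of residues `n` modulo `p`, prime to `p`, at which some polynomial of the system vanishes -/
noncomputable def omP {k : ℕ} (P : Fin k → ℤ[X]) (p : ℕ) : ℕ :=
  ((Finset.range p).filter (fun n : ℕ => ¬ p ∣ n ∧ ∃ i, (p : ℤ) ∣ (P i).eval (n : ℤ))).card

/-- the truncated constant for prime arguments -/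
noncomputable def singP {k : ℕ} (P : Fin k → ℤ[X]) (z : ℕ) : ℝ :=
  ∏ p ∈ pz z, (1 - (omP P p : ℝ) / ((p : ℝ) - 1)) / (1 - 1 / (p : ℝ)) ^ k

lemma omP_PL {k : ℕ} (s : Fin k → ℕ) (G : Fin k → ℤ[X]) (c : (i : Fin k) → Fin (s i + 2) → ℤ) (p : ℕ) :
    omP (fun i => PL (s i) (G i) (c i)) p = omp s G c p := by
  classical
  have h : ∀ n : ℕ, (∃ i, (p : ℤ) ∣ (PL (s i) (G i) (c i)).eval (n : ℤ)) ↔ hit s G c p n := by
    intro n
    unfold hit
    simp only [PL_eval]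
  unfold omP omp
  simp only [h]

lemma singP_PL {k : ℕ} (s : Fin k → ℕ) (G : Fin k → ℤ[X]) (c : (i : Fin k) → Fin (s i + 2) → ℤ) (z : ℕ) :
    singP (fun i => PL (s i) (G i) (c i)) z = (Vz z)⁻¹ ^ k * ∏ p ∈ pz z, (1 - (omp s G c p : ℝ) / ((p : ℝ) - 1)) := by
  unfold singP Vz
  rw [prod_div_distrib, prod_pow]
  have h : ∀ p ∈ pz z, (1 - (omP (fun i => PL (s i) (G i) (c i)) p : ℝ) / ((p : ℝ) - 1)) = 1 - (omp s G c p : ℝ) / ((p : ℝ) - 1) := by
    intro p _
    rw [omP_PL]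
  rw [prod_congr rfl h, inv_pow]
  field_simp

lemma omp_le {k : ℕ} (s : Fin k → ℕ) (G : Fin k → ℤ[X]) (c : (i : Fin k) → Fin (s i + 2) → ℤ) (p : ℕ) (hp : 1 ≤ p) :
    omp s G c p ≤ p - 1 := by
  classical
  unfold omp
  calc ((Finset.range p).filter (fun n => ¬ p ∣ n ∧ hit s G c p n)).card ≤ ((Finset.range p).erase 0).card := by
        apply card_le_card
        intro n hn
        rw [mem_filter] at hn
        rw [mem_erase]
        refine ⟨?_, hn.1⟩
        rintro rfl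
        exact hn.2.1 (dvd_zero _)
    _ = p - 1 := by
        rw [card_erase_of_mem (mem_range.2 (by omega)), card_range]

lemma prod_omp {k : ℕ} (s : Fin k → ℕ) (G : Fin k → ℤ[X]) (c : (i : Fin k) → Fin (s i + 2) → ℤ) (z : ℕ) :
    0 ≤ ∏ p ∈ pz z, (1 - (omp s G c p : ℝ) / ((p : ℝ) - 1)) ∧ ∏ p ∈ pz z, (1 - (omp s G c p : ℝ) / ((p : ℝ) - 1)) ≤ 1 := by
  have h : ∀ p ∈ pz z, 0 ≤ 1 - (omp s G c p : ℝ) / ((p : ℝ) - 1) ∧ 1 - (omp s G c p : ℝ) / ((p : ℝ) - 1) ≤ 1 := by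
    intro p hp
    have hp2 := (Pool.Agent.H373R2.T7.mem_pz.1 hp).2.two_le
    have hp0 : (0 : ℝ) < (p : ℝ) - 1 := by
      have : (2 : ℝ) ≤ p := by exact_mod_cast hp2
      linarith
    have h1 : (omp s G c p : ℝ) ≤ (p : ℝ) - 1 := by
      have h3 : omp s G c p + 1 ≤ p := by have := omp_le s G c p (by omega); omega
      have : (omp s G c p : ℝ) + 1 ≤ p := by exact_mod_cast h3
      linarith
    have h2 : (omp s G c p : ℝ) / ((p : ℝ) - 1) ≤ 1 := by rw [div_le_one hp0]; exact h1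
    have h3 : 0 ≤ (omp s G c p : ℝ) / ((p : ℝ) - 1) := by positivity
    constructor <;> linarith
  exact ⟨prod_nonneg fun p hp => (h p hp).1, prod_le_one (fun p hp => (h p hp).1) (fun p hp => (h p hp).2)⟩

/-- the weighted sum of the model is a sieved sum -/
lemma sum_lamzP {k : ℕ} (s : Fin k → ℕ) (G : Fin k → ℤ[X]) (c : (i : Fin k) → Fin (s i + 2) → ℤ) (z K : ℕ) (v : ℕ → ℝ) :
    by classical exact ∑ n ∈ Icc 1 K, v n * ∏ i, lamz z (pw (s i) (G i) (c i) n).natAbs =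
      (Vz z)⁻¹ ^ k * ∑ n ∈ (Icc 1 K).filter (fun n : ℕ => ∀ p ∈ pz z, ¬ hit s G c p n), v n := by
  classical
  have h1 : ∀ n : ℕ, v n * ∏ i, lamz z (pw (s i) (G i) (c i) n).natAbs =
      (Vz z)⁻¹ ^ k * (if ∀ p ∈ pz z, ¬ hit s G c p n then v n else 0) := by
    intro n
    by_cases h : ∀ p ∈ pz z, ¬ hit s G c p n
    · rw [if_pos h]
      have h2 : ∀ i ∈ (univ : Finset (Fin k)), lamz z (pw (s i) (G i) (c i) n).natAbs = (Vz z)⁻¹ := by
        intro i _
        unfold lamz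
        rw [if_pos]
        intro p hp hd
        exact h p hp ⟨i, Int.natCast_dvd.mpr hd⟩
      rw [prod_congr rfl h2, prod_const, card_univ, Fintype.card_fin, mul_comm]
    · rw [if_neg h, mul_zero]
      push Not at h
      obtain ⟨p, hp, i, hi⟩ := h
      have h3 : ∏ i, lamz z (pw (s i) (G i) (c i) n).natAbs = 0 := by
        apply prod_eq_zero (mem_univ i)
        unfold lamz
        rw [if_neg]
        intro h3
        exact h3 p hp (Int.natCast_dvd.mp hi)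
      rw [h3, mul_zero]
  rw [sum_congr rfl (fun n _ => h1 n), ← mul_sum, sum_filter]

open Classical in
/-- the main term at prime arguments for all `K` at once -/
theorem arg_term (k : ℕ) (s : Fin k → ℕ) (ε : ℝ) (hε : 0 < ε) (E A : ℕ) :
    ∃ H0 : ℕ, ∀ H : ℕ, H0 ≤ H → ∀ G : Fin k → ℤ[X],
    ((((SB k s H).filter (fun c => ∃ K : ℕ, 4 * Real.exp (Real.log H ^ ε) ≤ K ∧ K ≤ H ∧
      (K : ℝ) / Real.log H ^ A < |∑ n ∈ Icc 1 K, ArithmeticFunction.vonMangoldt n *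
        ∏ i, lamz ⌊Real.log H ^ E⌋₊ (pw (s i) (G i) (c i) n).natAbs -
        K * singP (fun i => PL (s i) (G i) (c i)) ⌊Real.log H ^ E⌋₊|)).card : ℕ) : ℝ) ≤
      (SB k s H).card / Real.log H ^ A := by
  obtain ⟨U, B0, H0, hG⟩ := Pool.Agent.Q24.CR.grd A (k + 2)
  obtain ⟨H1, hM⟩ := mtp_all k s ε E (U + 2 * k) hε
  obtain ⟨H2, h2⟩ := Vz_inv E
  obtain ⟨H3, h3⟩ := evL _ (eventually_ge_atTop (4 : ℝ))
  obtain ⟨H4, h4⟩ := evL (fun l => l ^ B0 ≤ Real.exp (l ^ ε)) (by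
    have h5 : Tendsto (fun l : ℝ => l ^ ε) atTop atTop := tendsto_rpow_atTop hε
    have h6 := (Real.isLittleO_pow_exp_atTop (n := ⌈(B0 : ℝ) / ε⌉₊)).comp_tendsto h5
    have h7 := h6.bound (show (0 : ℝ) < 1 by norm_num)
    filter_upwards [h7, eventually_ge_atTop 1] with l hl hl1
    simp only [Function.comp, Real.norm_eq_abs, one_mul] at hl
    rw [abs_of_pos (Real.exp_pos _)] at hl
    refine le_trans ?_ ((le_abs_self _).trans hl)
    rw [← Real.rpow_natCast l B0, ← Real.rpow_natCast (l ^ ε), ← Real.rpow_mul (by linarith)]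
    apply Real.rpow_le_rpow_of_exponent_le hl1
    calc (B0 : ℝ) = ε * ((B0 : ℝ) / ε) := by field_simp
      _ ≤ ε * ⌈(B0 : ℝ) / ε⌉₊ := by gcongr; exact Nat.le_ceil _)
  refine ⟨max (max H0 H1) (max H2 (max H3 (max H4 3))), fun H hH G => ?_⟩
  have hL4 := h3 H (by omega)
  have h4' := h4 H (by omega)
  have h2' := h2 H (by omega)
  have hM' := hM H (by omega) G
  have hG' := hG H (by omega)
  have hH3 : 3 ≤ H := by omega
  set L := Real.log H with hL
  have hL1 : 1 ≤ L := by linarith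
  have hL0 : 0 < L := by linarith
  have hLp : ∀ n : ℕ, 1 ≤ L ^ n := fun n => one_le_pow₀ hL1
  have hLmono : ∀ m n : ℕ, m ≤ n → L ^ m ≤ L ^ n := fun m n h => pow_le_pow_right₀ hL1 h
  set z := ⌊L ^ E⌋₊ with hz
  have hz1 : 1 ≤ z := Nat.le_floor (by simpa using hLp E)
  obtain ⟨hV, hVi⟩ := h2' z hz1 (Nat.floor_le (by positivity))
  have hVk : (Vz z)⁻¹ ^ k ≤ L ^ k := pow_le_pow_left₀ (inv_nonneg.mpr hV.le) hVi k
  have hVk0 : 0 ≤ (Vz z)⁻¹ ^ k := pow_nonneg (inv_nonneg.mpr hV.le) k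
  set K0 := ⌈Real.exp (L ^ ε)⌉₊ with hK0
  have hK0ge : Real.exp (L ^ ε) ≤ K0 := Nat.le_ceil _
  set a : ((i : Fin k) → Fin (s i + 2) → ℤ) → ℕ → ℂ := fun c n =>
    ((ArithmeticFunction.vonMangoldt n * ∏ i, lamz z (pw (s i) (G i) (c i) n).natAbs -
      singP (fun i => PL (s i) (G i) (c i)) z : ℝ) : ℂ) with ha
  have hsum : ∀ c K, ∑ n ∈ Icc 1 K, a c n =
      ((∑ n ∈ Icc 1 K, ArithmeticFunction.vonMangoldt n * ∏ i, lamz z (pw (s i) (G i) (c i) n).natAbs -
        K * singP (fun i => PL (s i) (G i) (c i)) z : ℝ) : ℂ) := by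
    intro c K
    rw [ha]
    simp only
    rw [← Complex.ofReal_sum, sum_sub_distrib, sum_const, Nat.card_Icc, nsmul_eq_mul]
    simp
  have hGG := hG' _ (SB k s H) a K0 H (h4'.trans hK0ge) le_rfl (by
      intro c _ n hn
      rw [mem_Icc] at hn
      rw [ha]
      simp only
      rw [Complex.norm_real, Real.norm_eq_abs]
      have h5 : 0 ≤ ∏ i, lamz z (pw (s i) (G i) (c i) n).natAbs := prod_nonneg fun i _ => (lamz_bd hV _).1
      have h6 : ∏ i, lamz z (pw (s i) (G i) (c i) n).natAbs ≤ L ^ k := by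
        calc ∏ i, lamz z (pw (s i) (G i) (c i) n).natAbs ≤ ∏ _i : Fin k, L :=
              prod_le_prod (fun i _ => (lamz_bd hV _).1) (fun i _ => (lamz_bd hV _).2.trans hVi)
          _ = L ^ k := by rw [prod_const, card_univ, Fintype.card_fin]
      have hv0 : 0 ≤ ArithmeticFunction.vonMangoldt n := ArithmeticFunction.vonMangoldt_nonneg
      have hv : ArithmeticFunction.vonMangoldt n ≤ L := ArithmeticFunction.vonMangoldt_le_log.trans
        (Real.log_le_log (by exact_mod_cast hn.1) (by exact_mod_cast hn.2))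
      have h6' : ArithmeticFunction.vonMangoldt n * ∏ i, lamz z (pw (s i) (G i) (c i) n).natAbs ≤ L ^ (k + 1) := by
        calc _ ≤ L * L ^ k := mul_le_mul hv h6 h5 hL0.le
          _ = L ^ (k + 1) := by ring
      have h7 : 0 ≤ singP (fun i => PL (s i) (G i) (c i)) z := by
        rw [singP_PL]; exact mul_nonneg hVk0 (prod_omp s G c z).1
      have h8 : singP (fun i => PL (s i) (G i) (c i)) z ≤ L ^ k := by
        rw [singP_PL]
        calc (Vz z)⁻¹ ^ k * _ ≤ L ^ k * 1 := mul_le_mul hVk (prod_omp s G c z).2 (prod_omp s G c z).1 (by positivity)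
          _ = L ^ k := mul_one _
      have h9 : L ^ k ≤ L ^ (k + 2) := hLmono _ _ (by omega)
      have h9' : L ^ (k + 1) ≤ L ^ (k + 2) := hLmono _ _ (by omega)
      have h10 := mul_nonneg hv0 h5
      rw [abs_le]
      constructor <;> linarith) (by
      intro K hKK0 hKH
      have hKL : Real.exp (L ^ ε) ≤ K := hK0ge.trans (by exact_mod_cast hKK0)
      have hMK := hM' K hKL hKH
      have h5 : ∀ c ∈ SB k s H, ‖∑ n ∈ Icc 1 K, a c n‖ ^ 2 ≤ L ^ (2 * k) *
          (∑ n ∈ (Finset.Icc 1 K).filter (fun n : ℕ => ∀ p ∈ pz z, ¬ hit s G c p n), ArithmeticFunction.vonMangoldt n -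
            K * ∏ p ∈ pz z, (1 - (omp s G c p : ℝ) / ((p : ℝ) - 1))) ^ 2 := by
        intro c _
        rw [hsum, Complex.norm_real, Real.norm_eq_abs, sq_abs, sum_lamzP, singP_PL]
        have h6 : (Vz z)⁻¹ ^ k * ∑ n ∈ (Icc 1 K).filter (fun n : ℕ => ∀ p ∈ pz z, ¬ hit s G c p n), ArithmeticFunction.vonMangoldt n -
            K * ((Vz z)⁻¹ ^ k * ∏ p ∈ pz z, (1 - (omp s G c p : ℝ) / ((p : ℝ) - 1))) = (Vz z)⁻¹ ^ k *
            (∑ n ∈ (Icc 1 K).filter (fun n : ℕ => ∀ p ∈ pz z, ¬ hit s G c p n), ArithmeticFunction.vonMangoldt n -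
            K * ∏ p ∈ pz z, (1 - (omp s G c p : ℝ) / ((p : ℝ) - 1))) := by ring
        rw [h6, mul_pow]
        apply mul_le_mul_of_nonneg_right _ (sq_nonneg _)
        calc ((Vz z)⁻¹ ^ k) ^ 2 ≤ (L ^ k) ^ 2 := pow_le_pow_left₀ hVk0 hVk 2
          _ = L ^ (2 * k) := by rw [← pow_mul]; congr 1; ring
      refine (sum_le_sum h5).trans ?_
      rw [← mul_sum]
      calc L ^ (2 * k) * _ ≤ L ^ (2 * k) * ((SB k s H).card * ((K : ℝ) ^ 2 / L ^ (U + 2 * k))) := by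
            gcongr
        _ = _ := by
            rw [pow_add L U (2 * k)]
            field_simp)
  refine le_trans ?_ hGG
  have hsub : ((SB k s H).filter (fun c => ∃ K : ℕ, 4 * Real.exp (L ^ ε) ≤ K ∧ K ≤ H ∧
      (K : ℝ) / L ^ A < |∑ n ∈ Icc 1 K, ArithmeticFunction.vonMangoldt n * ∏ i, lamz z (pw (s i) (G i) (c i) n).natAbs -
        K * singP (fun i => PL (s i) (G i) (c i)) z|)) ⊆
      (SB k s H).filter (fun c => ∃ K : ℕ, 2 * K0 ≤ K ∧ K ≤ H ∧ (K : ℝ) / L ^ A < ‖∑ n ∈ Icc 1 K, a c n‖) := by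
    intro c hc
    rw [mem_filter] at hc ⊢
    obtain ⟨h5, K, h6, h7, h8⟩ := hc
    refine ⟨h5, K, ?_, h7, ?_⟩
    · have h9 : (K0 : ℝ) < Real.exp (L ^ ε) + 1 := Nat.ceil_lt_add_one (Real.exp_pos _).le
      have h10 : 2 * (K0 : ℝ) ≤ K := by
        have h12 : 1 ≤ Real.exp (L ^ ε) := Real.one_le_exp (by positivity)
        nlinarith
      exact_mod_cast h10
    · rw [hsum, Complex.norm_real, Real.norm_eq_abs]
      exact h8
  exact_mod_cast card_le_card hsub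

end Pool.Agent.Q236.CR
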