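import Pool.Agent.Q236.CR.Tri2

/-! Project CR: the equation `a p - b q = c` for almost all triples, the theorem. -/

set_option autoImplicit false

namespace Pool.Agent.Q236.CR.Tri

open Finset Filter
open Pool.Agent.H373R2.T7 (pz Vz lamz)
open Pool.Agent.Q236.CR

lemma rS_nonneg (F G : ℕ → ℝ) (hF : ∀ n, 0 ≤ F n) (hG : ∀ n, 0 ≤ G n) (X a b : ℕ) (c : ℤ) : 0 ≤ rS F G X a b c :=
  sum_nonneg fun t _ => mul_nonneg (hF _) (hG _)

lemma rS_tht_le (X a b : ℕ) (c : ℤ) : rS tht tht X a b c ≤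
    rS ArithmeticFunction.vonMangoldt ArithmeticFunction.vonMangoldt X a b c :=
  sum_le_sum fun t _ => mul_le_mul (tht_le _).2 (tht_le _).2 (tht_le _).1 ArithmeticFunction.vonMangoldt_nonneg

/-- eventually in `log X`, and `X^(1/2)` beats powers of the logarithm -/
lemma evX (k : ℕ) (M : ℝ) : ∃ X0 : ℕ, ∀ X : ℕ, X0 ≤ X → M * Real.log X ^ k ≤ √(X : ℝ) := by
  have h1 : Tendsto (fun x : ℝ => Real.log x ^ k / √x) atTop (nhds 0) := by
    have h2 := isLittleO_log_rpow_rpow_atTop (k : ℝ) (show (0 : ℝ) < 1 / 2 by norm_num)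
    have h3 := h2.tendsto_div_nhds_zero
    refine h3.congr' ?_
    filter_upwards [eventually_gt_atTop 0] with x hx
    rw [Real.rpow_natCast, Real.sqrt_eq_rpow]
  have h2 : Tendsto (fun n : ℕ => M * (Real.log (n : ℝ) ^ k / √(n : ℝ))) atTop (nhds (M * 0)) :=
    (h1.comp tendsto_natCast_atTop_atTop).const_mul M
  rw [mul_zero] at h2
  obtain ⟨X0, h3⟩ := eventually_atTop.mp (h2.eventually (gt_mem_nhds (show (0 : ℝ) < 1 by norm_num)))
  refine ⟨max X0 1, fun X hX => ?_⟩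
  have h4 := h3 X (by omega)
  have h5 : (0 : ℝ) < √(X : ℝ) := Real.sqrt_pos.2 (by exact_mod_cast (show 0 < X by omega))
  rw [← mul_div_assoc, div_lt_one h5] at h4
  exact h4.le

/-- the choice of the parameter of the fundamental lemma -/
lemma param (C0 E B U : ℕ) (hC0 : 1 ≤ C0) (hE : 1 ≤ E) (hB : 2 * (U + 4) + 2 * C0 * C0 * E ≤ B) (L Y T : ℝ) (z : ℕ)
    (hL : Real.exp 1 ≤ L) (hz1 : 2 ≤ z) (hz : (z : ℝ) ≤ L ^ E) (hY : L ^ B ≤ Y) (hT : Y / L ^ (U + 4) ≤ T) :
    ∃ b' : ℕ, C0 ≤ b' ∧ (z : ℝ) ^ (C0 * b') ≤ T ∧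
      (1 / 2 : ℝ) ^ b' ≤ Real.exp (-(Real.log 2 / (4 * C0 * E)) * Real.log Y / Real.log L) := by
  have he : 2 ≤ Real.exp 1 := by have := Real.add_one_le_exp (1 : ℝ); linarith
  have hL0 : 0 < L := by linarith
  have hLL : 1 ≤ Real.log L := (Real.le_log_iff_exp_le hL0).2 hL
  have hLL0 : 0 < Real.log L := by linarith
  have hY0 : 0 < Y := lt_of_lt_of_le (by positivity) hY
  have hT0 : 0 < T := lt_of_lt_of_le (by positivity) hT
  have hz0 : (0 : ℝ) < z := by exact_mod_cast (show 0 < z by omega)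
  have hlz0 : 0 < Real.log z := Real.log_pos (by exact_mod_cast (show 1 < z by omega))
  have hlz : Real.log z ≤ E * Real.log L := by
    have := Real.log_le_log hz0 hz
    rwa [Real.log_pow] at this
  have hlY : B * Real.log L ≤ Real.log Y := by
    have := Real.log_le_log (by positivity) hY
    rwa [Real.log_pow] at this
  have hlT : Real.log Y - (U + 4) * Real.log L ≤ Real.log T := by
    have := Real.log_le_log (by positivity) hT
    rw [Real.log_div hY0.ne' (by positivity), Real.log_pow] at this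
    push_cast at this
    exact this
  have hBr : 2 * ((U : ℝ) + 4) + 2 * C0 * C0 * E ≤ B := by exact_mod_cast hB
  have hC1 : (1 : ℝ) ≤ C0 := by exact_mod_cast hC0
  have hE1 : (1 : ℝ) ≤ E := by exact_mod_cast hE
  have hU0 : (0 : ℝ) ≤ U := Nat.cast_nonneg _
  have hlY2 : (2 * ((U : ℝ) + 4) + 2 * C0 * C0 * E) * Real.log L ≤ Real.log Y :=
    (mul_le_mul_of_nonneg_right hBr hLL0.le).trans hlY
  -- `log T ≥ (1/2) log Y`
  have hlT2 : Real.log Y / 2 ≤ Real.log T := by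
    have h1 : 0 ≤ 2 * (C0 : ℝ) * C0 * E * Real.log L := by positivity
    have h2 : 2 * ((U : ℝ) + 4) * Real.log L ≤ Real.log Y := by nlinarith
    linarith
  have hlT3 : (C0 : ℝ) * C0 * E * Real.log L ≤ Real.log T := by
    have h1 : 0 ≤ ((U : ℝ) + 4) * Real.log L := by positivity
    have h2 : (2 * ((U : ℝ) + 4) + 2 * C0 * C0 * E) * Real.log L = 2 * (((U : ℝ) + 4) * Real.log L) + 2 * (C0 * C0 * E * Real.log L) := by ring
    have h3 : 0 ≤ (C0 : ℝ) * C0 * E * Real.log L := by positivity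
    linarith
  set x0 := Real.log T / (C0 * Real.log z) with hx0
  have hden : 0 < (C0 : ℝ) * Real.log z := by positivity
  have hx1 : (C0 : ℝ) ≤ x0 := by
    rw [hx0, le_div_iff₀ hden]
    calc (C0 : ℝ) * (C0 * Real.log z) ≤ C0 * (C0 * (E * Real.log L)) := by gcongr
      _ = C0 * C0 * E * Real.log L := by ring
      _ ≤ _ := hlT3
  have hx2 : Real.log Y / (2 * (C0 * E * Real.log L)) ≤ x0 := by
    rw [hx0, div_le_div_iff₀ (by positivity) hden]
    have h0 : 0 ≤ Real.log Y := le_trans (by positivity) hlY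
    calc Real.log Y * (C0 * Real.log z) ≤ Real.log Y * (C0 * (E * Real.log L)) := by gcongr
      _ = (Real.log Y / 2) * (2 * (C0 * E * Real.log L)) := by ring
      _ ≤ Real.log T * (2 * (C0 * E * Real.log L)) := by gcongr
  have hx00 : 0 ≤ x0 := by linarith
  refine ⟨⌊x0⌋₊, Nat.le_floor hx1, ?_, ?_⟩
  · have h1 : ((⌊x0⌋₊ : ℕ) : ℝ) ≤ x0 := Nat.floor_le hx00
    rw [← Real.log_le_log_iff (by positivity) hT0, Real.log_pow]
    push_cast
    calc (C0 : ℝ) * ⌊x0⌋₊ * Real.log z ≤ C0 * x0 * Real.log z := by gcongr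
      _ = x0 * (C0 * Real.log z) := by ring
      _ = Real.log T := by rw [hx0]; field_simp
  · have h1 : x0 / 2 ≤ (⌊x0⌋₊ : ℝ) := by
      have h2 := Nat.lt_floor_add_one x0
      have h3 : (1 : ℝ) ≤ (⌊x0⌋₊ : ℝ) := by
        have : 1 ≤ ⌊x0⌋₊ := Nat.le_floor (by push_cast; linarith)
        exact_mod_cast this
      linarith
    have hl2 : 0 < Real.log 2 := Real.log_pos (by norm_num)
    have h4 : (1 / 2 : ℝ) ^ ⌊x0⌋₊ = Real.exp (-(Real.log 2) * ⌊x0⌋₊) := by
      rw [← Real.rpow_natCast, Real.rpow_def_of_pos (by norm_num)]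
      congr 2
      rw [one_div, Real.log_inv]
    rw [h4]
    apply Real.exp_le_exp.2
    have h5 : Real.log 2 * (Real.log Y / (2 * (C0 * E * Real.log L)) / 2) ≤ Real.log 2 * ⌊x0⌋₊ := by
      apply mul_le_mul_of_nonneg_left _ hl2.le
      linarith
    have h6 : Real.log 2 * (Real.log Y / (2 * (C0 * E * Real.log L)) / 2) =
        Real.log 2 / (4 * C0 * E) * Real.log Y / Real.log L := by
      field_simp
      ring
    rw [h6] at h5
    have h7 : -(Real.log 2 / (4 * C0 * E)) * Real.log Y / Real.log L =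
        -(Real.log 2 / (4 * C0 * E) * Real.log Y / Real.log L) := by ring
    rw [h7]
    linarith

theorem tri (U : ℕ) : ∃ (B : ℕ) (κ : ℝ) (X0 : ℕ), 0 < κ ∧ ∀ X : ℕ, X0 ≤ X → 40 ≤ Real.log X ∧ ∀ A : ℕ, 1 ≤ A →
    (A : ℝ) * Real.log X ^ B ≤ X → Real.exp (-κ * Real.log (X / A) / Real.log (Real.log X)) ≤ (1 / 2) ^ U ∧ ∃ Bad ⊆ Tr A X, (Bad.card : ℝ) ≤ (A : ℝ) ^ 3 * X / Real.log X ^ U ∧
    ∀ x ∈ Tr A X, x ∉ Bad → x.2.2 ≠ 0 → x.1.Coprime x.2.1 → x.1.Coprime x.2.2.natAbs → x.2.1.Coprime x.2.2.natAbs →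
      2 ∣ x.1 * x.2.1 * x.2.2.natAbs →
      |rS tht tht X x.1 x.2.1 x.2.2 - S2 (x.1 * x.2.1 * x.2.2.natAbs) * (Sol X x.1 x.2.1 x.2.2).card| ≤
        (Real.exp (-κ * Real.log (X / A) / Real.log (Real.log X)) + 1 / Real.log X ^ U) *
          (S2 (x.1 * x.2.1 * x.2.2.natAbs) * (Sol X x.1 x.2.1 x.2.2).card) + (X / A) / Real.log X ^ U := by
  obtain ⟨E0, B1, hms⟩ := ms (3 * U + 7)
  obtain ⟨C0, X1, hC0, ht3⟩ := Pool.Agent.Q151.CR.TM.t3m Pool.Agent.Q285.CR.fnd (U + 2) (E0 + U + 7)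
  obtain ⟨X2, hms⟩ := hms (E0 + U + 7)
  obtain ⟨X3, hV⟩ := Vz_inv (E0 + U + 7)
  obtain ⟨X4, h4⟩ := evL _ (eventually_ge_atTop (40 : ℝ))
  obtain ⟨X5, h5⟩ := evX (2 * U + 4) 8
  set E := E0 + U + 7 with hE
  set B := B1 + (2 * (U + 4) + 2 * C0 * C0 * E) + 4 * U + 20 + 4 * C0 * E * U with hB
  have hC0r : (1 : ℝ) ≤ C0 := by exact_mod_cast hC0
  have hEr : (1 : ℝ) ≤ E := by exact_mod_cast (show 1 ≤ E by omega)
  have hl2 : 0 < Real.log 2 := Real.log_pos (by norm_num)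
  refine ⟨B, Real.log 2 / (4 * C0 * E), max (max X1 X2) (max X3 (max X4 (max X5 2))), by positivity, fun X hX =>
    ⟨h4 X (by omega), fun A hA hAX => ?_⟩⟩
  have hL40 := h4 X (by omega)
  have hsq := h5 X (by omega)
  have hms := hms X (by omega)
  have ht3 := ht3 X (by omega)
  have hV := hV X (by omega)
  have hX2 : 2 ≤ X := by omega
  clear h4 h5
  set L := Real.log X with hL
  have hL0 : 0 < L := by linarith
  have hL1 : 1 ≤ L := by linarith
  have hLp : ∀ m n : ℕ, m ≤ n → L ^ m ≤ L ^ n := fun m n h => pow_le_pow_right₀ hL1 h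
  have hX0 : (0 : ℝ) < X := by exact_mod_cast (show 0 < X by omega)
  have hA0 : (0 : ℝ) < A := by exact_mod_cast hA
  -- the parameter `z`
  obtain ⟨z, hz⟩ : ∃ z : ℕ, z = ⌊L ^ E⌋₊ := ⟨_, rfl⟩
  have hzE : (z : ℝ) ≤ L ^ E := by rw [hz]; exact Nat.floor_le (by positivity)
  have hzlow : ∀ m : ℕ, m + 1 ≤ E → L ^ m ≤ z := by
    intro m hm
    have h6 := Nat.lt_floor_add_one (L ^ E)
    rw [← hz] at h6
    have h7 : 2 * L ^ m ≤ L ^ E := by
      calc 2 * L ^ m ≤ L * L ^ m := by gcongr; linarith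
        _ = L ^ (m + 1) := by ring
        _ ≤ L ^ E := hLp _ _ hm
    have h8 : 1 ≤ L ^ m := one_le_pow₀ hL1
    linarith
  have hz1 : L ^ E0 ≤ z := hzlow E0 (by omega)
  have hz2 : L ^ (U + 2 + 4) ≤ z := hzlow _ (by omega)
  have hz40 : (2 : ℝ) ≤ z := by
    have h6 := hzlow 1 (by omega)
    rw [pow_one] at h6
    linarith
  have hz3 : 2 ≤ z := by exact_mod_cast hz40
  obtain ⟨hV0, hVi⟩ := hV z (by omega) hzE
  have hlz := lamz_bd z L hV0 hVi
  have hAX1 : (A : ℝ) * L ^ B1 ≤ X := by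
    refine le_trans ?_ hAX
    gcongr
    omega
  have hmsz := hms z hz1 hzE A hA hAX1
  have ht3z := ht3 z hz2 hzE
  clear hms ht3 hV
  have hAXle : (A : ℝ) ≤ X := by
    calc (A : ℝ) = A * 1 := by ring
      _ ≤ A * L ^ B := by gcongr; exact one_le_pow₀ hL1
      _ ≤ X := hAX
  have hAXn : A ≤ X := by exact_mod_cast hAXle
  set Y := (X : ℝ) / A with hY
  have hY0 : 0 < Y := by positivity
  have hYB : L ^ B ≤ Y := by
    rw [hY, le_div_iff₀ hA0]
    linarith
  refine ⟨?_, ?_⟩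
  · have hLL : 0 < Real.log L := Real.log_pos (by linarith)
    have h6 : B * Real.log L ≤ Real.log Y := by
      have := Real.log_le_log (by positivity) hYB
      rwa [Real.log_pow] at this
    have h7 : (4 * C0 * E * U : ℝ) ≤ B := by
      have : 4 * C0 * E * U ≤ B := by omega
      exact_mod_cast this
    have h8 : (1 / 2 : ℝ) ^ U = Real.exp (-(Real.log 2) * U) := by
      rw [← Real.rpow_natCast, Real.rpow_def_of_pos (by norm_num)]
      congr 2
      rw [one_div, Real.log_inv]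
    rw [h8]
    apply Real.exp_le_exp.2
    have h9 : Real.log 2 * U ≤ Real.log 2 / (4 * C0 * E) * Real.log Y / Real.log L := by
      rw [le_div_iff₀ hLL]
      calc Real.log 2 * U * Real.log L = Real.log 2 / (4 * C0 * E) * ((4 * C0 * E * U) * Real.log L) := by field_simp
        _ ≤ Real.log 2 / (4 * C0 * E) * (B * Real.log L) := by gcongr
        _ ≤ Real.log 2 / (4 * C0 * E) * Real.log Y := by gcongr
    have h10 : -(Real.log 2 / (4 * C0 * E)) * Real.log Y / Real.log L =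
        -(Real.log 2 / (4 * C0 * E) * Real.log Y / Real.log L) := by ring
    rw [h10]
    linarith
  obtain ⟨τ, hτ⟩ : ∃ τ : ℝ, τ = Y / L ^ (U + 2) := ⟨_, rfl⟩
  have hτ0 : 0 < τ := by rw [hτ]; positivity
  obtain ⟨f1, hf1⟩ : ∃ f1 : ℕ × ℕ × ℤ → ℝ, f1 = fun x =>
    rS ArithmeticFunction.vonMangoldt ArithmeticFunction.vonMangoldt X x.1 x.2.1 x.2.2 -
      rS (lamz z) (lamz z) X x.1 x.2.1 x.2.2 := ⟨_, rfl⟩
  obtain ⟨f2, hf2⟩ : ∃ f2 : ℕ × ℕ × ℤ → ℝ, f2 = fun x =>
    rS ArithmeticFunction.vonMangoldt ArithmeticFunction.vonMangoldt X x.1 x.2.1 x.2.2 -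
      rS tht tht X x.1 x.2.1 x.2.2 := ⟨_, rfl⟩
  have hf20 : ∀ x, 0 ≤ f2 x := fun x => by
    rw [hf2]
    exact sub_nonneg.2 (rS_tht_le _ _ _ _)
  refine ⟨(Tr A X).filter (fun x => τ < |f1 x|) ∪ (Tr A X).filter (fun x => τ < f2 x), ?_, ?_, ?_⟩
  · exact union_subset (filter_subset _ _) (filter_subset _ _)
  · have c1 := cheb (Tr A X) f1 τ (4 * (A * (X : ℝ) ^ 3 / L ^ (3 * U + 7))) hτ0 (by rw [hf1]; exact hmsz)
    have c2 := mark (Tr A X) f2 hf20 τ (4 * (A : ℝ) ^ 2 * (X * √(X : ℝ) * L ^ 2)) hτ0 (by rw [hf2]; exact pp A X (by omega))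
    have c3 : 4 * (A * (X : ℝ) ^ 3 / L ^ (3 * U + 7)) / τ ^ 2 ≤ (A : ℝ) ^ 3 * X / L ^ U / 2 := by
      rw [hτ, hY]
      have e1 : 4 * (A * (X : ℝ) ^ 3 / L ^ (3 * U + 7)) / ((X : ℝ) / A / L ^ (U + 2)) ^ 2 =
          (A : ℝ) ^ 3 * X * (4 * (L ^ (U + 2)) ^ 2 / L ^ (3 * U + 7)) := by
        field_simp
      rw [e1]
      have e2 : (A : ℝ) ^ 3 * X / L ^ U / 2 = (A : ℝ) ^ 3 * X * (1 / (2 * L ^ U)) := by field_simp
      rw [e2]
      apply mul_le_mul_of_nonneg_left _ (by positivity)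
      rw [div_le_div_iff₀ (by positivity) (by positivity), one_mul]
      calc 4 * (L ^ (U + 2)) ^ 2 * (2 * L ^ U) = 8 * L ^ (3 * U + 4) := by ring
        _ ≤ L * L ^ (3 * U + 4) := by gcongr; linarith
        _ = L ^ (3 * U + 5) := by ring
        _ ≤ L ^ (3 * U + 7) := hLp _ _ (by omega)
    have c4 : 4 * (A : ℝ) ^ 2 * (X * √(X : ℝ) * L ^ 2) / τ ≤ (A : ℝ) ^ 3 * X / L ^ U / 2 := by
      rw [hτ, hY]
      have e0 : (X : ℝ) = √(X : ℝ) * √(X : ℝ) := (Real.mul_self_sqrt hX0.le).symm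
      have hs0 : 0 < √(X : ℝ) := Real.sqrt_pos.2 hX0
      have e1 : 4 * (A : ℝ) ^ 2 * (X * √(X : ℝ) * L ^ 2) / ((X : ℝ) / A / L ^ (U + 2)) =
          (A : ℝ) ^ 3 * (√(X : ℝ) * (4 * L ^ (U + 4))) := by
        field_simp
        ring
      rw [e1]
      have e2 : (A : ℝ) ^ 3 * X / L ^ U / 2 = (A : ℝ) ^ 3 * (X / (2 * L ^ U)) := by field_simp
      rw [e2]
      apply mul_le_mul_of_nonneg_left _ (by positivity)
      rw [le_div_iff₀ (by positivity)]
      calc √(X : ℝ) * (4 * L ^ (U + 4)) * (2 * L ^ U) = √(X : ℝ) * (8 * L ^ (2 * U + 4)) := by ring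
        _ ≤ √(X : ℝ) * √(X : ℝ) := by gcongr
        _ = X := e0.symm
    calc ((((Tr A X).filter (fun x => τ < |f1 x|) ∪ (Tr A X).filter (fun x => τ < f2 x)).card : ℕ) : ℝ) ≤
        (((Tr A X).filter (fun x => τ < |f1 x|)).card : ℕ) + (((Tr A X).filter (fun x => τ < f2 x)).card : ℕ) := by
          exact_mod_cast card_union_le _ _
      _ ≤ _ := by linarith
  · rintro ⟨a, b, c⟩ hx hxb hc0 hab hac hbc h2
    simp only at hc0 hab hac hbc h2 ⊢
    rw [mem_union, mem_filter, mem_filter, not_or, not_and, not_and] at hxb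
    have g1 := not_lt.1 (hxb.1 hx)
    have g2 := not_lt.1 (hxb.2 hx)
    rw [hf1] at g1
    rw [hf2] at g2
    simp only at g1 g2
    unfold Tr at hx
    rw [mem_product, mem_product, mem_Icc, mem_Icc, mem_Icc] at hx
    obtain ⟨⟨ha1, ha2⟩, ⟨hb1, hb2⟩, hc1, hc2⟩ := hx
    simp only at ha1 ha2 hb1 hb2 hc1 hc2
    set T := (Sol X a b c).card with hT
    set N := a * b * c.natAbs with hN
    have hT1 : SS (fun _ => 1) (fun _ => 1) X a b c = T := by
      have h6 := SS_real (fun _ => 1) (fun _ => 1) X a b c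
      simp only [Complex.ofReal_one] at h6
      rw [h6]
      unfold rS
      simp [hT]
    have hcn : 0 < c.natAbs := Int.natAbs_pos.2 hc0
    have hcabs : |c| ≤ (A : ℤ) * X := abs_le.2 ⟨by linarith, hc2⟩
    have hAXz : (A : ℤ) * X ≤ (X : ℤ) ^ 2 := by
      rw [pow_two]
      exact mul_le_mul_of_nonneg_right (by exact_mod_cast hAXn) (by positivity)
    have hN0 : N ≠ 0 := by
      rw [hN]
      positivity
    have hNL : Real.log N ≤ 4 * L := by
      have h6 : (N : ℝ) ≤ (X : ℝ) ^ 4 := by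
        have h7 : (c.natAbs : ℝ) ≤ (X : ℝ) ^ 2 := by
          have h8 : ((c.natAbs : ℕ) : ℤ) ≤ (X : ℤ) ^ 2 := by
            rw [Int.natCast_natAbs]
            exact hcabs.trans hAXz
          exact_mod_cast h8
        have ha' : (a : ℝ) ≤ X := by exact_mod_cast ha2.trans hAXn
        have hb' : (b : ℝ) ≤ X := by exact_mod_cast hb2.trans hAXn
        rw [hN, Nat.cast_mul, Nat.cast_mul]
        have h9 : (0 : ℝ) ≤ a := Nat.cast_nonneg _
        have h10 : (0 : ℝ) ≤ b := Nat.cast_nonneg _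
        calc (a : ℝ) * b * (c.natAbs : ℝ) ≤ X * X * (X : ℝ) ^ 2 :=
              mul_le_mul (mul_le_mul ha' hb' h10 (by positivity)) h7 (Nat.cast_nonneg _) (by positivity)
          _ = (X : ℝ) ^ 4 := by ring
      have h7 := Real.log_le_log (by exact_mod_cast Nat.pos_of_ne_zero hN0) h6
      rw [Real.log_pow] at h7
      push_cast at h7
      exact h7
    have hS1 := S2_low N
    have hS2 := S2_up N L hN0 hNL
    have hS0 : 0 < S2 N := by linarith
    have hTn : (0 : ℝ) ≤ T := Nat.cast_nonneg _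
    have hST0 : 0 ≤ S2 N * T := by positivity
    have hexp0 := Real.exp_pos (-(Real.log 2 / (4 * C0 * E)) * Real.log Y / Real.log L)
    set ex := Real.exp (-(Real.log 2 / (4 * C0 * E)) * Real.log Y / Real.log L) with hex
    have hLU2 : (0 : ℝ) < L ^ (U + 2) := by positivity
    -- the main term
    have hmain : |rS (lamz z) (lamz z) X a b c - S2 N * T| ≤ (ex + 2 / L ^ (U + 2)) * (S2 N * T) + Y / L ^ (U + 2) := by
      by_cases hcase : (T : ℝ) < Y / L ^ (U + 4)
      · -- few solutions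
        have h6 : rS (lamz z) (lamz z) X a b c ≤ T * L ^ 2 := by
          unfold rS
          calc ∑ t ∈ Sol X a b c, lamz z t.1 * lamz z t.2 ≤ ∑ t ∈ Sol X a b c, L ^ 2 := by
                refine sum_le_sum fun t _ => ?_
                rw [pow_two]
                exact mul_le_mul (hlz _).2 (hlz _).2 (hlz _).1 hL0.le
            _ = T * L ^ 2 := by rw [sum_const, nsmul_eq_mul]
        have h7 : 0 ≤ rS (lamz z) (lamz z) X a b c := rS_nonneg _ _ (fun n => (hlz n).1) (fun n => (hlz n).1) _ _ _ _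
        have h8 : (T : ℝ) * L ^ 2 ≤ Y / L ^ (U + 2) := by
          rw [le_div_iff₀ hLU2]
          rw [lt_div_iff₀ (by positivity)] at hcase
          calc (T : ℝ) * L ^ 2 * L ^ (U + 2) = T * L ^ (U + 4) := by ring
            _ ≤ Y := hcase.le
        have h9 : S2 N * T ≤ T * L ^ 2 := by
          rw [mul_comm]
          apply mul_le_mul_of_nonneg_left _ hTn
          nlinarith
        have h10 : 0 ≤ (ex + 2 / L ^ (U + 2)) * (S2 N * T) := by positivity
        rw [abs_le]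
        constructor <;> linarith
      · push Not at hcase
        obtain ⟨b', hb1', hb2', hb3'⟩ := param C0 E B U hC0 (by omega) (by omega) L Y T z (by
          have := Real.exp_one_lt_d9
          linarith) hz3 hzE hYB hcase
        have h6 := ht3z a b c ha1 hb1 (ha2.trans hAXn) (hb2.trans hAXn) hc0 (hcabs.trans hAXz) hab hac hbc h2 T hT1 b' hb1' (by
          exact_mod_cast hb2')
        have h7 : SS (fun n => (lamz z n : ℂ)) (fun n => (lamz z n : ℂ)) X a b c - S2 (a * b * c.natAbs) * T =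
            ((rS (lamz z) (lamz z) X a b c - S2 N * T : ℝ) : ℂ) := by
          rw [SS_real]
          push_cast
          rfl
        rw [h7, Complex.norm_real, Real.norm_eq_abs] at h6
        refine h6.trans ?_
        have hT0 : (0 : ℝ) < T := lt_of_lt_of_le (by positivity) hcase
        have h8 : L ^ 2 * √(T : ℝ) ≤ 1 / L ^ (U + 2) * (S2 N * T) := by
          have h9 : L ^ (U + 4) ≤ √(T : ℝ) := by
            apply Real.le_sqrt_of_sq_le
            refine le_trans ?_ hcase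
            rw [le_div_iff₀ (by positivity)]
            calc (L ^ (U + 4)) ^ 2 * L ^ (U + 4) = L ^ (3 * (U + 4)) := by ring
              _ ≤ L ^ B := hLp _ _ (by omega)
              _ ≤ Y := hYB
          have h10 : √(T : ℝ) * √(T : ℝ) = T := Real.mul_self_sqrt hTn
          rw [one_div, le_inv_mul_iff₀ hLU2]
          calc L ^ (U + 2) * (L ^ 2 * √(T : ℝ)) = L ^ (U + 4) * √(T : ℝ) := by ring
            _ ≤ √(T : ℝ) * √(T : ℝ) := by gcongr
            _ = 1 * T := by rw [h10, one_mul]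
            _ ≤ S2 N * T := by gcongr
        have h9 : ((1 / 2 : ℝ) ^ b' + 1 / L ^ (U + 2)) * (S2 N * T) ≤ (ex + 1 / L ^ (U + 2)) * (S2 N * T) := by
          apply mul_le_mul_of_nonneg_right _ hST0
          linarith
        have h10 : (ex + 2 / L ^ (U + 2)) * (S2 N * T) = (ex + 1 / L ^ (U + 2)) * (S2 N * T) + 1 / L ^ (U + 2) * (S2 N * T) := by ring
        have h11 : 0 ≤ Y / L ^ (U + 2) := by positivity
        rw [h10]
        linarith
    have hfin : |rS tht tht X a b c - S2 N * T| ≤ (ex + 2 / L ^ (U + 2)) * (S2 N * T) + 3 * (Y / L ^ (U + 2)) := by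
      have g2' := rS_tht_le X a b c
      rw [hτ] at g1 g2
      rw [abs_le] at g1 hmain ⊢
      constructor <;> linarith [g1.1, g1.2, hmain.1, hmain.2]
    refine hfin.trans ?_
    have h6 : 2 / L ^ (U + 2) ≤ 1 / L ^ U := by
      rw [div_le_div_iff₀ hLU2 (by positivity), one_mul]
      calc 2 * L ^ U ≤ (L * L) * L ^ U := by gcongr; nlinarith
        _ = L ^ (U + 2) := by ring
    have h7 : 3 * (Y / L ^ (U + 2)) ≤ Y / L ^ U := by
      rw [← mul_div_assoc, div_le_div_iff₀ hLU2 (by positivity)]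
      calc 3 * Y * L ^ U = Y * (3 * L ^ U) := by ring
        _ ≤ Y * ((L * L) * L ^ U) := by gcongr; nlinarith
        _ = Y * L ^ (U + 2) := by ring
    have h8 : (ex + 2 / L ^ (U + 2)) * (S2 N * T) ≤ (ex + 1 / L ^ U) * (S2 N * T) := by
      apply mul_le_mul_of_nonneg_right _ hST0
      linarith
    linarith

end Pool.Agent.Q236.CR.Tri
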