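import Mathlib
import Pool.Agent.Q236.CR.Arg
import Pool.Agent.Q236.CR.Tri3
import Pool.Agent.Q14.CR.Cnt
import Pool.Agent.Q285.CR.Cntw

/-! Project CR: systems of random polynomials at prime arguments, auxiliary statements. -/

set_option autoImplicit false

namespace Pool.Agent.Q236.CR

open Finset Filter Polynomial
open Pool.Agent.H373R2.T7 (pz Vz lamz)
open Pool.Agent.Q236.CR.Tri (tht tht_le pp_sum evX)

/-- the system with the polynomial `X` added -/
noncomputable def ext {k : ℕ} (P : Fin k → ℤ[X]) : Fin (k + 1) → ℤ[X] := Fin.cons X P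

lemma ext_hit {k : ℕ} (P : Fin k → ℤ[X]) (p n : ℕ) :
    (∃ i, (p : ℤ) ∣ (ext P i).eval (n : ℤ)) ↔ (p ∣ n ∨ ∃ i, (p : ℤ) ∣ (P i).eval (n : ℤ)) := by
  unfold ext
  rw [Fin.exists_fin_succ]
  simp only [Fin.cons_zero, Fin.cons_succ, eval_X]
  rw [Int.natCast_dvd_natCast]

lemma om_ext {k : ℕ} (P : Fin k → ℤ[X]) (p : ℕ) (hp : p.Prime) : om (ext P) p = omP P p + 1 := by
  classical
  unfold om omP
  simp only [ext_hit]
  have h0 : (0 : ℕ) ∉ (Finset.range p).filter (fun n : ℕ => ¬ p ∣ n ∧ ∃ i, (p : ℤ) ∣ (P i).eval (n : ℤ)) := by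
    rw [mem_filter]
    rintro ⟨_, h, _⟩
    exact h (dvd_zero _)
  have h1 : (Finset.range p).filter (fun n : ℕ => p ∣ n ∨ ∃ i, (p : ℤ) ∣ (P i).eval (n : ℤ)) =
      insert 0 ((Finset.range p).filter (fun n : ℕ => ¬ p ∣ n ∧ ∃ i, (p : ℤ) ∣ (P i).eval (n : ℤ))) := by
    ext n
    rw [mem_insert, mem_filter, mem_filter, mem_range]
    constructor
    · rintro ⟨h1, h2⟩
      by_cases h3 : p ∣ n
      · left
        exact Nat.eq_zero_of_dvd_of_lt h3 h1
      · right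
        exact ⟨h1, h3, h2.resolve_left h3⟩
    · rintro (rfl | ⟨h1, h2, h3⟩)
      · exact ⟨hp.pos, Or.inl (dvd_zero _)⟩
      · exact ⟨h1, Or.inr h3⟩
  rw [h1, card_insert_of_notMem h0]

lemma sing_ext {k : ℕ} (P : Fin k → ℤ[X]) (z : ℕ) : sing (ext P) z = singP P z := by
  unfold sing singP
  refine prod_congr rfl fun p hp => ?_
  have hpp := (Pool.Agent.H373R2.T7.mem_pz.1 hp).2
  rw [om_ext P p hpp]
  have hp2 : (2 : ℝ) ≤ p := by exact_mod_cast hpp.two_le
  have h1 : (p : ℝ) - 1 ≠ 0 := by linarith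
  have h2 : (p : ℝ) ≠ 0 := by linarith
  have h3 : (1 - 1 / (p : ℝ)) ≠ 0 := by
    rw [sub_ne_zero, ne_comm, Ne, div_eq_iff h2]
    intro h
    linarith
  have h4 : (1 - ((omP P p + 1 : ℕ) : ℝ) / p) = (1 - (omP P p : ℝ) / ((p : ℝ) - 1)) * (1 - 1 / (p : ℝ)) := by
    push_cast
    field_simp
    ring
  rw [h4, pow_succ, mul_div_mul_right _ _ h3]

lemma rpow_small (a b c : ℝ) (hab : a < b) (hc : 0 < c) : ∀ᶠ l : ℝ in atTop, l ^ a ≤ c * l ^ b := by
  have h1 : Tendsto (fun l : ℝ => l ^ (b - a)) atTop atTop := tendsto_rpow_atTop (by linarith)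
  filter_upwards [h1.eventually_ge_atTop (1 / c), eventually_gt_atTop 0] with l h2 h3
  have h4 : l ^ b = l ^ a * l ^ (b - a) := by rw [← Real.rpow_add h3]; congr 1; ring
  rw [h4]
  have h5 : 0 ≤ l ^ a := Real.rpow_nonneg h3.le _
  calc l ^ a = c * (l ^ a * (1 / c)) := by field_simp
    _ ≤ c * (l ^ a * l ^ (b - a)) := by gcongr

lemma exp_gap (a b : ℝ) (ha : 0 < a) (hab : a < b) (m : ℕ) :
    ∀ᶠ l : ℝ in atTop, 8 * Real.exp (l ^ a) * l ^ m ≤ Real.exp (l ^ b) := by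
  have hb : 0 < b := ha.trans hab
  have h1 := rpow_small a b (1 / 3) hab (by norm_num)
  have h2 : ∀ᶠ l : ℝ in atTop, m * Real.log l ≤ 1 / 3 * l ^ b := by
    have h3 := (isLittleO_log_rpow_atTop hb).bound (show (0 : ℝ) < 1 / (3 * (m + 1)) by positivity)
    filter_upwards [h3, eventually_ge_atTop 1] with l hl h0
    have hl0 : 0 ≤ Real.log l := Real.log_nonneg h0
    rw [Real.norm_of_nonneg hl0, Real.norm_of_nonneg (Real.rpow_nonneg (by linarith) _)] at hl
    calc (m : ℝ) * Real.log l ≤ (m + 1) * Real.log l := by gcongr; linarith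
      _ ≤ (m + 1) * (1 / (3 * (m + 1)) * l ^ b) := by gcongr
      _ = 1 / 3 * l ^ b := by field_simp
  have h3 : ∀ᶠ l : ℝ in atTop, Real.log 8 ≤ 1 / 3 * l ^ b := by
    have h4 : Tendsto (fun l : ℝ => 1 / 3 * l ^ b) atTop atTop := (tendsto_rpow_atTop hb).const_mul_atTop (by norm_num)
    exact h4.eventually_ge_atTop _
  filter_upwards [h1, h2, h3, eventually_gt_atTop 0] with l g1 g2 g3 g4
  calc 8 * Real.exp (l ^ a) * l ^ m = Real.exp (Real.log 8 + l ^ a + m * Real.log l) := by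
        rw [Real.exp_add, Real.exp_add, Real.exp_log (by norm_num), ← Real.log_pow, Real.exp_log (by positivity)]
    _ ≤ Real.exp (l ^ b) := Real.exp_le_exp.2 (by linarith)

/-- the prime number theorem, the error in terms of a larger number -/
lemma theta_lem (U : ℕ) (ε : ℝ) (hε : 0 < ε) : ∃ H0 : ℕ, ∀ H : ℕ, H0 ≤ H → ∀ K : ℕ, Real.exp (Real.log H ^ ε) ≤ K → K ≤ H →
    |∑ n ∈ Icc 1 K, tht n - K| ≤ K / Real.log H ^ U ∧
    ∑ n ∈ Icc 1 K, (ArithmeticFunction.vonMangoldt n - tht n) ≤ K / Real.log H ^ U := by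
  obtain ⟨N0, hN⟩ := Pool.Agent.H373R2.T7.lam_ap 0 ⌈((U : ℝ) + 1) / ε⌉₊
  obtain ⟨H1, h1⟩ := evL (fun l => (N0 : ℝ) ≤ Real.exp (l ^ ε)) (by
    have h5 : Tendsto (fun l : ℝ => Real.exp (l ^ ε)) atTop atTop := Real.tendsto_exp_atTop.comp (tendsto_rpow_atTop hε)
    exact h5.eventually_ge_atTop _)
  obtain ⟨H2, h2⟩ := evL _ (exp_gap (ε / 4) (ε / 2) (by linarith) (by linarith) (U + 3))
  obtain ⟨H3, h3⟩ := evL _ (eventually_ge_atTop (8 : ℝ))
  obtain ⟨H4, h4⟩ := evL _ (rpow_small (ε / 2) ε (1 / 2) (by linarith) (by norm_num))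
  refine ⟨max (max H1 H2) (max H3 H4), fun H hH K hK hKH => ?_⟩
  have h1 := h1 H (by omega)
  have h2 := h2 H (by omega)
  have h3 := h3 H (by omega)
  have h4 := h4 H (by omega)
  set L := Real.log H with hL
  have hL1 : 1 ≤ L := by linarith
  have hL0 : 0 < L := by linarith
  have hK0 : (0 : ℝ) < K := (Real.exp_pos _).trans_le hK
  have hK1 : 1 ≤ K := by
    have : 0 < K := by exact_mod_cast hK0
    omega
  have hNK : N0 ≤ K := by exact_mod_cast h1.trans hK
  have hlogK : L ^ ε ≤ Real.log K := by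
    rw [Real.le_log_iff_exp_le hK0]
    exact hK
  have hsq : Real.exp (L ^ (ε / 2)) ≤ √(K : ℝ) := by
    apply Real.le_sqrt_of_sq_le
    rw [← Real.exp_nat_mul]
    refine le_trans (Real.exp_le_exp.2 ?_) hK
    push_cast
    linarith
  have hlogKL : Real.log K ≤ L := Real.log_le_log hK0 (by exact_mod_cast hKH)
  have hlogK0 : 0 ≤ Real.log K := Real.log_natCast_nonneg _
  have h5 := hN K hNK 1 le_rfl (by simp) 0 K le_rfl
  have h6 : (Icc 1 K).filter (fun n => n ≡ 0 [MOD 1]) = Icc 1 K := by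
    apply filter_true_of_mem
    intro n _
    exact Nat.modEq_one
  rw [h6, if_pos (Nat.coprime_one_right 0), Nat.totient_one, Nat.cast_one, div_one] at h5
  have h7 : (K : ℝ) / Real.log K ^ ⌈((U : ℝ) + 1) / ε⌉₊ ≤ K / L ^ (U + 1) := by
    apply div_le_div_of_nonneg_left hK0.le (by positivity)
    calc L ^ (U + 1) = L ^ ((U : ℝ) + 1) := by
          rw [← Real.rpow_natCast]; push_cast; ring_nf
      _ = (L ^ ε) ^ (((U : ℝ) + 1) / ε) := by
          rw [← Real.rpow_mul hL0.le]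
          congr 1
          field_simp
      _ ≤ (L ^ ε) ^ ((⌈((U : ℝ) + 1) / ε⌉₊ : ℕ) : ℝ) := by
          apply Real.rpow_le_rpow_of_exponent_le (Real.one_le_rpow hL1 hε.le) (Nat.le_ceil _)
      _ = (L ^ ε) ^ ⌈((U : ℝ) + 1) / ε⌉₊ := Real.rpow_natCast _ _
      _ ≤ Real.log K ^ ⌈((U : ℝ) + 1) / ε⌉₊ := by
          apply pow_le_pow_left₀ (by positivity) hlogK
  have h8 : 2 * √(K : ℝ) * Real.log K ≤ K / L ^ (U + 1) := by
    rw [le_div_iff₀ (by positivity)]
    have h9 : √(K : ℝ) * √(K : ℝ) = K := Real.mul_self_sqrt hK0.le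
    have h10 : 8 * L ^ (U + 3) ≤ √(K : ℝ) := by
      refine le_trans ?_ (h2.trans hsq)
      have h11 : 1 ≤ Real.exp (L ^ (ε / 4)) := Real.one_le_exp (Real.rpow_nonneg hL0.le _)
      calc 8 * L ^ (U + 3) = 8 * 1 * L ^ (U + 3) := by ring
        _ ≤ 8 * Real.exp (L ^ (ε / 4)) * L ^ (U + 3) := by gcongr
    calc 2 * √(K : ℝ) * Real.log K * L ^ (U + 1) ≤ 2 * √(K : ℝ) * L * L ^ (U + 1) := by gcongr
      _ = √(K : ℝ) * (2 * L ^ (U + 2)) := by ring
      _ ≤ √(K : ℝ) * (8 * L ^ (U + 3)) := by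
          have h12 : L ^ (U + 2) ≤ L ^ (U + 3) := pow_le_pow_right₀ hL1 (by omega)
          have h13 : (0 : ℝ) ≤ L ^ (U + 2) := by positivity
          apply mul_le_mul_of_nonneg_left _ (Real.sqrt_nonneg _)
          linarith
      _ ≤ √(K : ℝ) * √(K : ℝ) := by gcongr
      _ = K := h9
  have h9 := (pp_sum K hK1).trans h8
  have h10 : 0 ≤ ∑ n ∈ Icc 1 K, (ArithmeticFunction.vonMangoldt n - tht n) :=
    sum_nonneg fun n _ => sub_nonneg.2 (tht_le n).2
  have h11 : 2 * ((K : ℝ) / L ^ (U + 1)) ≤ K / L ^ U := by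
    rw [← mul_div_assoc, div_le_div_iff₀ (by positivity) (by positivity)]
    calc 2 * (K : ℝ) * L ^ U ≤ L * K * L ^ U := by gcongr; linarith
      _ = K * L ^ (U + 1) := by ring
  have h12 : 0 ≤ (K : ℝ) / L ^ (U + 1) := by positivity
  refine ⟨?_, h9.trans (by linarith)⟩
  rw [sum_sub_distrib] at h9 h10
  have h13 := abs_le.1 (h5.trans h7)
  rw [abs_le]
  constructor <;> linarith [h13.1, h13.2]

/-- from the weights `log q` to the weights `1` -/
lemma to_one (f : ℕ → ℝ) (K : ℕ) (hK : 1 ≤ K) (M : ℝ) (hM : 0 ≤ M) (h : ∀ n, 1 ≤ n → n ≤ K → |∑ m ∈ Icc 1 n, tht m * f m| ≤ M) :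
    |∑ n ∈ Icc 1 K, (if n.Prime then 1 else 0) * f n| ≤ 3 * M := by
  have hl2 : 0 < Real.log 2 := Real.log_pos (by norm_num)
  have hl2' := Real.log_two_gt_d9
  have hpos : ∀ n : ℕ, Real.log 2 ≤ Real.log (max n 2 : ℕ) := fun n =>
    Real.log_le_log (by norm_num) (by exact_mod_cast le_max_right n 2)
  set φ : ℕ → ℝ := fun n => Real.log 2 / Real.log (max n 2 : ℕ) with hφ
  have hφ0 : ∀ n, 0 ≤ φ n := fun n => div_nonneg hl2.le (hl2.le.trans (hpos n))
  have hφ1 : ∀ n, φ n ≤ 1 := fun n => by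
    rw [hφ]
    simp only
    rw [div_le_one (hl2.trans_le (hpos n))]
    exact hpos n
  have hanti : ∀ n, φ (n + 1) ≤ φ n := fun n => by
    rw [hφ]
    simp only
    apply div_le_div_of_nonneg_left hl2.le (hl2.trans_le (hpos n))
    apply Real.log_le_log
    · have : 0 < max n 2 := by omega
      exact_mod_cast this
    · exact_mod_cast max_le_max (Nat.le_succ n) le_rfl
  have h1 := Pool.Agent.Q14.CR.abel_le φ (fun n => tht n * f n) K hK M 1 hM (by rw [abs_of_nonneg (hφ0 K)]; exact hφ1 K) h (by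
    have h2 : ∀ n, |φ (n + 1) - φ n| = φ n - φ (n + 1) := fun n => by
      rw [abs_of_nonpos (by linarith [hanti n])]
      ring
    rw [sum_congr rfl (fun n _ => h2 n)]
    have h3 : ∑ n ∈ Ico 1 K, (φ n - φ (n + 1)) = φ 1 - φ K := by
      clear h
      induction K, hK using Nat.le_induction with
      | base => simp
      | succ K hK ih =>
        rw [sum_Ico_succ_top hK, ih]
        ring
    rw [h3]
    linarith [hφ0 K, hφ1 1])
  have h2 : ∑ n ∈ Icc 1 K, φ n * (tht n * f n) = Real.log 2 * ∑ n ∈ Icc 1 K, (if n.Prime then 1 else 0) * f n := by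
    rw [mul_sum]
    refine sum_congr rfl fun n _ => ?_
    unfold tht
    split_ifs with hp
    · rw [hφ]
      simp only
      rw [max_eq_left hp.two_le]
      have h3 : Real.log n ≠ 0 := by
        have := hpos n
        rw [max_eq_left hp.two_le] at this
        linarith
      field_simp
    · simp
  rw [h2, abs_mul, abs_of_pos hl2] at h1
  have h3 := abs_nonneg (∑ n ∈ Icc 1 K, (if n.Prime then 1 else 0) * f n)
  nlinarith

end Pool.Agent.Q236.CR
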