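import Mathlib
import Pool.Agent.Q236.CR.Arg2
import Pool.Agent.Q251.CR.Wap
import Pool.Agent.H373R2.T7.SupLiou

/-! Project CR: aperiodic weights do not correlate with the primes of almost all systems. -/

set_option autoImplicit false

namespace Pool.Agent.Q236.CR

open Finset Filter Polynomial
open Pool.Agent.H373R2.T7 (pz Vz lamz)

theorem wap_all : S_WAP := Pool.Agent.Q251.CR.wap Pool.Agent.Q14.CR.eqd (Pool.Agent.Q154.CR.er Pool.Agent.Q14.CR.eqd)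

/-- `w` has small sums over all progressions with difference at most `(log H)^U`, from `K0` on -/
def Aper (U H K0 : ℕ) (w : ℕ → ℝ) : Prop := ∀ K : ℕ, K0 ≤ K → K ≤ H → ∀ q : ℕ, 1 ≤ q → (q : ℝ) ≤ Real.log H ^ U → ∀ a : ℕ,
  |∑ n ∈ (Icc 1 K).filter (fun n => n ≡ a [MOD q]), w n| ≤ K / Real.log H ^ U

open Classical in
theorem aper (k : ℕ) (s : Fin k → ℕ) (A : ℕ) :
    ∃ U B H0 : ℕ, ∀ H : ℕ, H0 ≤ H → ∀ G : Fin k → ℤ[X],
    (∀ i, ∀ n : ℕ, 1 ≤ n → n ≤ H → |(G i).eval (n : ℤ)| ≤ H * (n : ℤ) ^ (s i + 1)) →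
    ∀ (W : Finset (ℕ → ℝ)) (K0 : ℕ), (W.card : ℝ) ≤ Real.log H ^ A → (∀ w ∈ W, ∀ n, |w n| ≤ 1) → Real.log H ^ B ≤ K0 →
    (∀ w ∈ W, Aper U H K0 w) →
    ((((SB k s H).filter (fun c => ∃ w ∈ W, ∃ K : ℕ, 2 * K0 ≤ K ∧ (K : ℝ) * Real.log H ^ B ≤ H ∧
      (K : ℝ) / Real.log H ^ A < |∑ n ∈ Icc 1 K, w n *
        ∏ i, ArithmeticFunction.vonMangoldt (pw (s i) (G i) (c i) n).natAbs|)).card : ℕ) : ℝ) ≤
      (SB k s H).card / Real.log H ^ A := by
  set A1 := 2 * A + 2 with hA1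
  obtain ⟨E, B1, hmain⟩ := main_fam k s A1
  obtain ⟨H1, hmain⟩ := hmain E le_rfl
  obtain ⟨U0, B0, H2, hG⟩ := Pool.Agent.Q24.CR.grd A1 k
  obtain ⟨U, B2, H3, hW⟩ := wap_all k s E (U0 + 2 * k)
  obtain ⟨H4, h4⟩ := Vz_inv E
  obtain ⟨H5, h5⟩ := evL _ (eventually_ge_atTop (4 : ℝ))
  refine ⟨U, B1 + B0 + B2, max (max H1 H2) (max H3 (max H4 (max H5 3))), fun H hH G hg W K0 hWc hWb hK0 hap => ?_⟩
  have hmainH := hmain H (by omega) (fun _ => 0) (fun i n => (G i).eval (n : ℤ)) (W.image (fun w n => ((w n : ℝ) : ℂ))) hg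
  have hGH := hG H (by omega)
  have hWH := hW H (by omega) G
  have h4 := h4 H (by omega)
  have h5 := h5 H (by omega)
  clear hmain hG hW
  set L := Real.log H with hL
  have hL1 : 1 ≤ L := by linarith
  have hL0 : 0 < L := by linarith
  have hLp : ∀ n : ℕ, 1 ≤ L ^ n := fun n => one_le_pow₀ hL1
  have hLp0 : ∀ n : ℕ, 0 < L ^ n := fun n => by positivity
  have hLmono : ∀ m n : ℕ, m ≤ n → L ^ m ≤ L ^ n := fun m n h => pow_le_pow_right₀ hL1 h
  obtain ⟨z, hz⟩ : ∃ z : ℕ, z = ⌊L ^ E⌋₊ := ⟨_, rfl⟩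
  rw [← hz] at hmainH hWH
  have hz1 : 1 ≤ z := by
    rw [hz]
    exact Nat.le_floor (by simpa using hLp E)
  obtain ⟨hV, hVi⟩ := h4 z hz1 (by rw [hz]; exact Nat.floor_le (by positivity))
  have hVk : (Vz z)⁻¹ ^ k ≤ L ^ k := pow_le_pow_left₀ (inv_nonneg.mpr hV.le) hVi k
  have hVk0 : 0 ≤ (Vz z)⁻¹ ^ k := pow_nonneg (inv_nonneg.mpr hV.le) k
  have hmainH := hmainH (by
      calc ((W.image (fun w n => ((w n : ℝ) : ℂ))).card : ℝ) ≤ W.card := by exact_mod_cast card_image_le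
        _ ≤ L ^ A := hWc
        _ ≤ L ^ A1 := hLmono _ _ (by omega)) (by
      intro w hw n _ _
      rw [mem_image] at hw
      obtain ⟨v, hv, rfl⟩ := hw
      simp only
      rw [Complex.norm_real, Real.norm_eq_abs]
      exact (hWb v hv n).trans (hLp _))
  -- the model for one weight
  have hone : ∀ w ∈ W, ((((SB k s H).filter (fun c => ∃ K : ℕ, 2 * K0 ≤ K ∧ K ≤ H ∧
      (K : ℝ) / L ^ A1 < |∑ n ∈ Icc 1 K, w n * ∏ i, lamz z (pw (s i) (G i) (c i) n).natAbs|)).card : ℕ) : ℝ) ≤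
      (SB k s H).card / L ^ A1 := by
    intro w hw
    have hsum : ∀ (c : (i : Fin k) → Fin (s i + 2) → ℤ) (K : ℕ), ∑ n ∈ Icc 1 K, ((w n * ∏ i, lamz z (pw (s i) (G i) (c i) n).natAbs : ℝ) : ℂ) =
      ((∑ n ∈ Icc 1 K, w n * ∏ i, lamz z (pw (s i) (G i) (c i) n).natAbs : ℝ) : ℂ) := by
      intro c K
      push_cast
      rfl
    have h6 := hGH _ (SB k s H) (fun c n => ((w n * ∏ i, lamz z (pw (s i) (G i) (c i) n).natAbs : ℝ) : ℂ)) K0 H
      ((hLmono _ _ (by omega)).trans hK0) le_rfl (by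
        intro c _ n hn
        rw [Complex.norm_real, Real.norm_eq_abs, abs_mul]
        have h7 : 0 ≤ ∏ i, lamz z (pw (s i) (G i) (c i) n).natAbs := prod_nonneg fun i _ => (lamz_bd hV _).1
        have h8 : ∏ i, lamz z (pw (s i) (G i) (c i) n).natAbs ≤ L ^ k := by
          calc ∏ i, lamz z (pw (s i) (G i) (c i) n).natAbs ≤ ∏ _i : Fin k, L :=
                prod_le_prod (fun i _ => (lamz_bd hV _).1) (fun i _ => (lamz_bd hV _).2.trans hVi)
            _ = L ^ k := by rw [prod_const, card_univ, Fintype.card_fin]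
        rw [abs_of_nonneg h7]
        calc |w n| * ∏ i, lamz z (pw (s i) (G i) (c i) n).natAbs ≤ 1 * L ^ k :=
              mul_le_mul (hWb w hw n) h8 h7 zero_le_one
          _ = L ^ k := one_mul _) (by
        intro K hK1 hK2
        have hapw := hap w hw
        unfold Aper at hapw
        have h7 := hWH K w (((hLmono _ _ (by omega)).trans hK0).trans (by exact_mod_cast hK1)) hK2 (hWb w hw)
          (fun q hq1 hq2 a => hapw K hK1 hK2 q hq1 hq2 a)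
        have h8 : ∀ c ∈ SB k s H, ‖∑ n ∈ Icc 1 K, ((w n * ∏ i, lamz z (pw (s i) (G i) (c i) n).natAbs : ℝ) : ℂ)‖ ^ 2 ≤
            L ^ (2 * k) * (∑ n ∈ (Finset.Icc 1 K).filter (fun n : ℕ => ∀ p ∈ pz z, ¬ hit s G c p n), w n) ^ 2 := by
          intro c _
          rw [hsum, Complex.norm_real, Real.norm_eq_abs, sq_abs, sum_lamzP, mul_pow]
          apply mul_le_mul_of_nonneg_right _ (sq_nonneg _)
          calc ((Vz z)⁻¹ ^ k) ^ 2 ≤ (L ^ k) ^ 2 := pow_le_pow_left₀ hVk0 hVk 2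
            _ = L ^ (2 * k) := by rw [← pow_mul]; congr 1; ring
        refine (sum_le_sum h8).trans ?_
        rw [← mul_sum]
        calc L ^ (2 * k) * _ ≤ L ^ (2 * k) * ((SB k s H).card * ((K : ℝ) ^ 2 / L ^ (U0 + 2 * k))) := by
              gcongr
          _ = _ := by
              rw [pow_add L U0 (2 * k)]
              field_simp)
    refine le_trans ?_ h6
    have h9 : ((SB k s H).filter (fun c => ∃ K : ℕ, 2 * K0 ≤ K ∧ K ≤ H ∧
      (K : ℝ) / L ^ A1 < |∑ n ∈ Icc 1 K, w n * ∏ i, lamz z (pw (s i) (G i) (c i) n).natAbs|)) =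
      ((SB k s H).filter (fun c => ∃ K : ℕ, 2 * K0 ≤ K ∧ K ≤ H ∧ (K : ℝ) / L ^ A1 <
        ‖∑ n ∈ Icc 1 K, ((w n * ∏ i, lamz z (pw (s i) (G i) (c i) n).natAbs : ℝ) : ℂ)‖)) := by
      apply filter_congr
      intro c _
      simp only [hsum, Complex.norm_real, Real.norm_eq_abs]
    rw [h9]
  -- the union
  obtain ⟨Q, hQ⟩ : ∃ Q : ((i : Fin k) → Fin (s i + 2) → ℤ) → Prop, Q = fun c =>
      ∃ w ∈ W.image (fun w n => ((w n : ℝ) : ℂ)), ∃ K : ℕ, L ^ B1 ≤ K ∧ (K : ℝ) * L ^ B1 ≤ H ∧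
      (K : ℝ) / L ^ A1 < ‖∑ n ∈ Icc 1 K, w n * (∏ i, FT ((fun _ => 0) i) (pv (s i) ((fun i (n : ℕ) => (G i).eval (n : ℤ)) i) (c i) n).natAbs -
        ∏ i, MT ((fun _ => 0) i) z (pv (s i) ((fun i (n : ℕ) => (G i).eval (n : ℤ)) i) (c i) n).natAbs)‖ := ⟨_, rfl⟩
  obtain ⟨X1, hX1⟩ : ∃ X1 : Finset ((i : Fin k) → Fin (s i + 2) → ℤ), X1 = (SB k s H).filter Q := ⟨_, rfl⟩
  have c0 : (X1.card : ℝ) ≤ (SB k s H).card / L ^ A1 := by
    rw [hX1, hQ]
    refine le_trans (le_of_eq ?_) hmainH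
    congr!
  have hsub : ((SB k s H).filter (fun c => ∃ w ∈ W, ∃ K : ℕ, 2 * K0 ≤ K ∧ (K : ℝ) * L ^ (B1 + B0 + B2) ≤ H ∧
      (K : ℝ) / L ^ A < |∑ n ∈ Icc 1 K, w n *
        ∏ i, ArithmeticFunction.vonMangoldt (pw (s i) (G i) (c i) n).natAbs|)) ⊆
      X1 ∪
      W.biUnion (fun w => (SB k s H).filter (fun c => ∃ K : ℕ, 2 * K0 ≤ K ∧ K ≤ H ∧
        (K : ℝ) / L ^ A1 < |∑ n ∈ Icc 1 K, w n * ∏ i, lamz z (pw (s i) (G i) (c i) n).natAbs|)) := by
    intro c hc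
    rw [mem_filter] at hc
    obtain ⟨hc, w, hw, K, hK1, hK2, hK3⟩ := hc
    rw [mem_union, mem_biUnion]
    by_contra hcon
    rw [not_or] at hcon
    obtain ⟨n1, n2⟩ := hcon
    push Not at n2
    have n2 := n2 w hw
    have hK0' : L ^ (B1 + B0 + B2) ≤ K := hK0.trans (by
      have : K0 ≤ K := by omega
      exact_mod_cast this)
    have hKpos : (0 : ℝ) < K := (hLp0 _).trans_le hK0'
    have hKHr : (K : ℝ) ≤ H := by
      calc (K : ℝ) = K * 1 := by ring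
        _ ≤ K * L ^ (B1 + B0 + B2) := by gcongr; exact hLp _
        _ ≤ H := hK2
    have hKH : K ≤ H := by exact_mod_cast hKHr
    have e1 : |∑ n ∈ Icc 1 K, w n * (∏ i, ArithmeticFunction.vonMangoldt (pw (s i) (G i) (c i) n).natAbs -
        ∏ i, lamz z (pw (s i) (G i) (c i) n).natAbs)| ≤ K / L ^ A1 := by
      by_contra hcon
      push Not at hcon
      apply n1
      rw [hX1, mem_filter, hQ]
      refine ⟨hc, _, mem_image_of_mem _ hw, K, (hLmono _ _ (by omega)).trans hK0', ?_, ?_⟩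
      · calc (K : ℝ) * L ^ B1 ≤ K * L ^ (B1 + B0 + B2) := by
              have := hLmono B1 (B1 + B0 + B2) (by omega)
              gcongr
          _ ≤ H := hK2
      · have h9 : ∑ n ∈ Icc 1 K, (fun n => ((w n : ℝ) : ℂ)) n * (∏ i, FT ((fun _ => 0) i) (pv (s i) ((fun i (n : ℕ) => (G i).eval (n : ℤ)) i) (c i) n).natAbs -
          ∏ i, MT ((fun _ => 0) i) z (pv (s i) ((fun i (n : ℕ) => (G i).eval (n : ℤ)) i) (c i) n).natAbs) =
          ((∑ n ∈ Icc 1 K, w n * (∏ i, ArithmeticFunction.vonMangoldt (pw (s i) (G i) (c i) n).natAbs -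
            ∏ i, lamz z (pw (s i) (G i) (c i) n).natAbs) : ℝ) : ℂ) := by
          push_cast
          refine sum_congr rfl fun n _ => ?_
          congr 2
        rw [h9, Complex.norm_real, Real.norm_eq_abs]
        exact hcon
    have e2 : |∑ n ∈ Icc 1 K, w n * ∏ i, lamz z (pw (s i) (G i) (c i) n).natAbs| ≤ K / L ^ A1 := by
      by_contra hcon
      push Not at hcon
      apply n2
      rw [mem_filter]
      exact ⟨hc, K, hK1, hKH, hcon⟩
    have e3 : ∑ n ∈ Icc 1 K, w n * ∏ i, ArithmeticFunction.vonMangoldt (pw (s i) (G i) (c i) n).natAbs =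
        ∑ n ∈ Icc 1 K, w n * (∏ i, ArithmeticFunction.vonMangoldt (pw (s i) (G i) (c i) n).natAbs -
        ∏ i, lamz z (pw (s i) (G i) (c i) n).natAbs) + ∑ n ∈ Icc 1 K, w n * ∏ i, lamz z (pw (s i) (G i) (c i) n).natAbs := by
      rw [← sum_add_distrib]
      refine sum_congr rfl fun n _ => ?_
      ring
    rw [e3] at hK3
    have e4 := (abs_add_le _ _).trans (add_le_add e1 e2)
    have e5 : (K : ℝ) / L ^ A1 + K / L ^ A1 ≤ K / L ^ A := by
      rw [← two_mul, ← mul_div_assoc, div_le_div_iff₀ (hLp0 _) (hLp0 _)]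
      calc 2 * (K : ℝ) * L ^ A ≤ L * K * L ^ A := by gcongr; linarith
        _ = K * L ^ (A + 1) := by ring
        _ ≤ K * L ^ A1 := by
            have := hLmono (A + 1) A1 (by omega)
            gcongr
    linarith
  have hSB0 : (0 : ℝ) ≤ (SB k s H).card := Nat.cast_nonneg _
  have c1 := card_le_card hsub
  have c2 := c1.trans ((card_union_le _ _).trans (add_le_add le_rfl card_biUnion_le))
  have c3 : ((((SB k s H).filter (fun c => ∃ w ∈ W, ∃ K : ℕ, 2 * K0 ≤ K ∧ (K : ℝ) * L ^ (B1 + B0 + B2) ≤ H ∧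
      (K : ℝ) / L ^ A < |∑ n ∈ Icc 1 K, w n *
        ∏ i, ArithmeticFunction.vonMangoldt (pw (s i) (G i) (c i) n).natAbs|)).card : ℕ) : ℝ) ≤
      (SB k s H).card / L ^ A1 + ∑ w ∈ W, (SB k s H).card / L ^ A1 := by
    refine (Nat.cast_le.2 c2).trans ?_
    push_cast
    exact add_le_add c0 (sum_le_sum hone)
  refine c3.trans ?_
  rw [sum_const, nsmul_eq_mul]
  have h6 : (1 + (W.card : ℝ)) ≤ L ^ (A + 1) := by
    calc (1 + (W.card : ℝ)) ≤ L ^ A + L ^ A := add_le_add (hLp A) hWc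
      _ = 2 * L ^ A := by ring
      _ ≤ L * L ^ A := by gcongr; linarith
      _ = L ^ (A + 1) := by ring
  calc ((SB k s H).card : ℝ) / L ^ A1 + W.card * ((SB k s H).card / L ^ A1) =
        (1 + (W.card : ℝ)) * ((SB k s H).card / L ^ A1) := by ring
    _ ≤ L ^ (A + 1) * ((SB k s H).card / L ^ A1) := by gcongr
    _ = (SB k s H).card * (L ^ (A + 1) / L ^ A1) := by ring
    _ ≤ (SB k s H).card * (1 / L ^ A) := by
        apply mul_le_mul_of_nonneg_left _ hSB0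
        rw [div_le_div_iff₀ (hLp0 _) (hLp0 _), one_mul, ← pow_add]
        exact hLmono _ _ (by omega)
    _ = _ := by ring

end Pool.Agent.Q236.CR
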