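import Mathlib
import Pool.Agent.Q236.CR.One

/-! Project CR: systems of random polynomials in the complete range, with arbitrary weights and arbitrary functions. -/

set_option autoImplicit false

namespace Pool.Agent.Q236.CR

open Finset Filter
open Pool.Agent.H373R2.T7 (pz Vz lamz)

lemma pv_bd (s H K : ℕ) (g : ℕ → ℤ) (hg : ∀ n : ℕ, 1 ≤ n → n ≤ K → |g n| ≤ H * (n : ℤ) ^ (s + 1)) (c : Fin (s + 2) → ℤ)
    (hc : c ∈ BX s H) (n : ℕ) (hn : n ∈ Icc 1 K) : (pv s g c n).natAbs ≤ XX s H K := by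
  rw [mem_Icc] at hn
  have hc' : ∀ l, |c l| ≤ H := by
    intro l
    unfold BX at hc
    rw [Fintype.mem_piFinset] at hc
    have := hc l
    rw [mem_Icc] at this
    exact abs_le.mpr this
  have hnK : (n : ℤ) ^ (s + 1) ≤ (K : ℤ) ^ (s + 1) := by
    apply pow_le_pow_left₀ (by positivity)
    exact_mod_cast hn.2
  have h1 : |pv s g c n| ≤ H * (K : ℤ) ^ (s + 1) + (s + 2) * (H * (K : ℤ) ^ (s + 1)) := by
    unfold pv
    refine (abs_add_le _ _).trans ?_
    apply add_le_add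
    · exact (hg n hn.1 hn.2).trans (mul_le_mul_of_nonneg_left hnK (by positivity))
    · refine (abs_sum_le_sum_abs _ _).trans ?_
      have h2 : ∀ l ∈ (univ : Finset (Fin (s + 2))), |c l * (n : ℤ) ^ (l : ℕ)| ≤ H * (K : ℤ) ^ (s + 1) := by
        intro l _
        rw [abs_mul, abs_pow, Nat.abs_cast]
        have h3 : (n : ℤ) ^ (l : ℕ) ≤ (K : ℤ) ^ (s + 1) := by
          refine le_trans ?_ hnK
          apply pow_le_pow_right₀ (by exact_mod_cast hn.1)
          have := l.2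
          omega
        exact mul_le_mul (hc' l) h3 (by positivity) (by positivity)
      refine (sum_le_sum h2).trans ?_
      rw [sum_const, card_univ, Fintype.card_fin, nsmul_eq_mul]
      push_cast
      exact le_rfl
  have h4 : ((pv s g c n).natAbs : ℤ) ≤ (XX s H K : ℕ) := by
    rw [Int.natCast_natAbs]
    refine h1.trans ?_
    unfold XX
    push_cast
    have h5 : (0 : ℤ) ≤ H * (K : ℤ) ^ (s + 1) := by positivity
    have h6 : (0 : ℤ) ≤ (s : ℤ) := by positivity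
    nlinarith
  exact_mod_cast h4

open Classical in
/-- **MAIN** -/
theorem main_of (hOB : S_OB) (hWL : S_WL) (hWM : S_WM) (hWV : S_WV) (hTEL : S_TEL) (hGRD : S_GRD)
    (k : ℕ) (s : Fin k → ℕ) (A : ℕ) :
    ∃ E0 B : ℕ, ∀ E : ℕ, E0 ≤ E → ∃ H0 : ℕ, ∀ H : ℕ, H0 ≤ H →
    ∀ (t : Fin k → Fin 3) (g : Fin k → ℕ → ℤ) (w : ℕ → ℂ),
    (∀ i, ∀ n : ℕ, 1 ≤ n → n ≤ H → |g i n| ≤ H * (n : ℤ) ^ (s i + 1)) → (∀ n, ‖w n‖ ≤ 1) →
    ((((SB k s H).filter (fun c => ∃ K : ℕ, Real.log H ^ B ≤ K ∧ (K : ℝ) * Real.log H ^ B ≤ H ∧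
      (K : ℝ) / Real.log H ^ A < ‖∑ n ∈ Icc 1 K, w n * (∏ i, FT (t i) (pv (s i) (g i) (c i) n).natAbs -
        ∏ i, MT (t i) ⌊Real.log H ^ E⌋₊ (pv (s i) (g i) (c i) n).natAbs)‖)).card : ℕ) : ℝ) ≤
      (SB k s H).card / Real.log H ^ A := by
  obtain ⟨U, B0, H0, hG⟩ := hGRD A (4 * k + 1)
  have hone := fun i : Fin k => fun t : Fin 3 => one hOB hWL hWM hWV (s i) (U + 4 * k + 2) t
  choose E0 B1 hone using hone
  set EE := ∑ i, ∑ t, E0 i t with hEE
  set B2 := ∑ i, ∑ t, B1 i t with hB2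
  have hE0 : ∀ i t, E0 i t ≤ EE := by
    intro i t
    calc E0 i t ≤ ∑ t, E0 i t := single_le_sum (fun _ _ => Nat.zero_le _) (mem_univ t)
      _ ≤ EE := single_le_sum (f := fun i => ∑ t, E0 i t) (fun _ _ => Nat.zero_le _) (mem_univ i)
  have hB1 : ∀ i t, B1 i t ≤ B2 := by
    intro i t
    calc B1 i t ≤ ∑ t, B1 i t := single_le_sum (fun _ _ => Nat.zero_le _) (mem_univ t)
      _ ≤ B2 := single_le_sum (f := fun i => ∑ t, B1 i t) (fun _ _ => Nat.zero_le _) (mem_univ i)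
  refine ⟨EE, B0 + B2 + 2, fun E hE => ?_⟩
  have hone' := fun i : Fin k => fun t : Fin 3 => hone i t E ((hE0 i t).trans hE)
  choose H1 hone' using hone'
  set H2 := ∑ i, ∑ t, H1 i t with hH2
  have hH1 : ∀ i t, H1 i t ≤ H2 := by
    intro i t
    calc H1 i t ≤ ∑ t, H1 i t := single_le_sum (fun _ _ => Nat.zero_le _) (mem_univ t)
      _ ≤ H2 := single_le_sum (f := fun i => ∑ t, H1 i t) (fun _ _ => Nat.zero_le _) (mem_univ i)
  set ss := ∑ i, s i with hss
  have hsi : ∀ i, s i ≤ ss := fun i => single_le_sum (fun _ _ => Nat.zero_le _) (mem_univ i)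
  obtain ⟨H3, h3⟩ := evL _ (eventually_ge_atTop ((ss : ℝ) + 3 + (k : ℝ) ^ 2 + 4))
  obtain ⟨H4, h4⟩ := Vz_inv E
  refine ⟨max (max H0 H2) (max (max H3 H4) (4 * (ss + 3))), fun H hH t g w hg hw => ?_⟩
  have hHH0 : H0 ≤ H := by omega
  have hHH2 : H2 ≤ H := by omega
  have hHH4 : H4 ≤ H := by omega
  have hHss : 4 * (ss + 3) ≤ H := by omega
  have hL3 := h3 H (by omega)
  set L := Real.log H with hL
  have hss0 : (0 : ℝ) ≤ (ss : ℝ) := Nat.cast_nonneg ss
  have hk0 : (0 : ℝ) ≤ (k : ℝ) ^ 2 := by positivity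
  have hL1 : 1 ≤ L := by linarith
  have hL4 : 4 ≤ L := by linarith
  have hL0 : 0 < L := by linarith
  have hLp : ∀ n : ℕ, 1 ≤ L ^ n := fun n => one_le_pow₀ hL1
  have hLmono : ∀ m n : ℕ, m ≤ n → L ^ m ≤ L ^ n := fun m n h => pow_le_pow_right₀ hL1 h
  set z := ⌊L ^ E⌋₊ with hz
  have hz1 : 1 ≤ z := Nat.le_floor (by simpa using hLp E)
  obtain ⟨hV, hVi⟩ := h4 H hHH4 z hz1 (Nat.floor_le (by positivity))
  set K0 := ⌈L ^ (B0 + B2)⌉₊ with hK0
  set K1 := ⌊(H : ℝ) / L ^ (B0 + B2 + 2)⌋₊ with hK1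
  have hK0ge : L ^ (B0 + B2) ≤ K0 := Nat.le_ceil _
  have hK1le : (K1 : ℝ) * L ^ (B0 + B2 + 2) ≤ H := by
    have := Nat.floor_le (show 0 ≤ (H : ℝ) / L ^ (B0 + B2 + 2) by positivity)
    rwa [le_div_iff₀ (by positivity)] at this
  have hK1H : K1 ≤ H := by
    have : (K1 : ℝ) ≤ H := by
      calc (K1 : ℝ) = K1 * 1 := by ring
        _ ≤ K1 * L ^ (B0 + B2 + 2) := by gcongr; exact hLp _
        _ ≤ H := hK1le
    exact_mod_cast this
  -- the bound for the factors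
  have hbd : ∀ K : ℕ, 1 ≤ K → K ≤ H → ∀ i, ∀ c ∈ BX (s i) H, ∀ n ∈ Icc 1 K,
      ‖FT (t i) (pv (s i) (g i) c n).natAbs‖ ≤ L ^ 2 ∧ ‖MT (t i) z (pv (s i) (g i) c n).natAbs‖ ≤ L ^ 2 := by
    intro K hK hKH i c hc n hn
    have h5 := pv_bd (s i) H K (g i) (fun n h1 h2 => hg i n h1 (h2.trans hKH)) c hc n hn
    obtain ⟨-, h6⟩ := XX_facts (s i) H K (by have := hsi i; omega) hK hKH
    have h7 : Real.log ((pv (s i) (g i) c n).natAbs : ℕ) ≤ L ^ 2 := by
      rcases Nat.eq_zero_or_pos (pv (s i) (g i) c n).natAbs with h | h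
      · rw [h]; simp; positivity
      · calc Real.log ((pv (s i) (g i) c n).natAbs : ℕ) ≤ Real.log ((H : ℝ) ^ (s i + 3)) := by
              apply Real.log_le_log (by exact_mod_cast h)
              exact_mod_cast h5.trans h6
          _ = (s i + 3) * L := by rw [Real.log_pow]; push_cast; ring
          _ ≤ L * L := by
              gcongr
              have : (s i : ℝ) ≤ ss := by exact_mod_cast hsi i
              linarith
          _ = L ^ 2 := by ring
    refine ⟨FT_bd _ _ _ (hLp 2) h7, MT_bd _ _ _ _ hV (hVi.trans ?_)⟩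
    calc L = L ^ 1 := (pow_one L).symm
      _ ≤ L ^ 2 := hLmono _ _ (by norm_num)
  set a : ((i : Fin k) → Fin (s i + 2) → ℤ) → ℕ → ℂ := fun c n =>
    w n * (∏ i, FT (t i) (pv (s i) (g i) (c i) n).natAbs - ∏ i, MT (t i) z (pv (s i) (g i) (c i) n).natAbs) with ha
  have hGG := hG H hHH0 _ (SB k s H) a K0 K1 ((hLmono _ _ (by omega)).trans hK0ge) hK1H (by
      intro c hc n hn
      have hn' := mem_Icc.mp hn
      have hc' : ∀ i, c i ∈ BX (s i) H := fun i => (Fintype.mem_piFinset.mp hc) i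
      rw [ha]
      simp only
      rw [norm_mul]
      have h5 : ‖∏ i, FT (t i) (pv (s i) (g i) (c i) n).natAbs‖ ≤ L ^ (2 * k) := by
        rw [norm_prod]
        calc ∏ i, ‖FT (t i) (pv (s i) (g i) (c i) n).natAbs‖ ≤ ∏ _i : Fin k, L ^ 2 :=
              prod_le_prod (fun _ _ => norm_nonneg _) (fun i _ => (hbd K1 (by omega) hK1H i (c i) (hc' i) n hn).1)
          _ = L ^ (2 * k) := by rw [prod_const, card_univ, Fintype.card_fin, ← pow_mul]
      have h6 : ‖∏ i, MT (t i) z (pv (s i) (g i) (c i) n).natAbs‖ ≤ L ^ (2 * k) := by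
        rw [norm_prod]
        calc ∏ i, ‖MT (t i) z (pv (s i) (g i) (c i) n).natAbs‖ ≤ ∏ _i : Fin k, L ^ 2 :=
              prod_le_prod (fun _ _ => norm_nonneg _) (fun i _ => (hbd K1 (by omega) hK1H i (c i) (hc' i) n hn).2)
          _ = L ^ (2 * k) := by rw [prod_const, card_univ, Fintype.card_fin, ← pow_mul]
      have h7 := norm_sub_le (∏ i, FT (t i) (pv (s i) (g i) (c i) n).natAbs) (∏ i, MT (t i) z (pv (s i) (g i) (c i) n).natAbs)
      calc ‖w n‖ * _ ≤ 1 * (2 * L ^ (2 * k)) := by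
            apply mul_le_mul (hw n) (by linarith) (norm_nonneg _) zero_le_one
        _ ≤ L * L ^ (2 * k) := by
            rw [one_mul]; gcongr; linarith
        _ = L ^ (2 * k + 1) := by rw [pow_succ]; ring
        _ ≤ L ^ (4 * k + 1) := hLmono _ _ (by omega)) (by
      intro K hKK0 hKK1
      have hKL : L ^ (B0 + B2) ≤ K := hK0ge.trans (by exact_mod_cast hKK0)
      have hKpos : 1 ≤ K := by
        have : (1 : ℝ) ≤ K := (hLp _).trans hKL
        exact_mod_cast this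
      have hKH : K ≤ H := hKK1.trans hK1H
      have hKLH : (K : ℝ) * L ^ (B0 + B2 + 2) ≤ H := by
        refine le_trans ?_ hK1le
        gcongr
      have htel := hTEL k s H K g w (fun i => FT (t i)) (fun i => MT (t i) z) (L ^ 2) ((K : ℝ) ^ 2 / L ^ (U + 4 * k + 2))
        (hLp 2) (by positivity) hw (hbd K hKpos hKH) (by
          intro i w' hw'
          refine hone' i (t i) H ((hH1 i (t i)).trans hHH2) K ((hLmono _ _ (by have := hB1 i (t i); omega)).trans hKL) ?_ (g i) w' ?_ hw'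
          · refine le_trans ?_ hKLH
            have h5 := hLmono (B1 i (t i)) (B0 + B2 + 2) (by have := hB1 i (t i); omega)
            gcongr
          · intro n hn
            rw [mem_Icc] at hn
            refine (hg i n hn.1 (hn.2.trans hKH)).trans ?_
            apply mul_le_mul_of_nonneg_left _ (by positivity)
            apply pow_le_pow_left₀ (by positivity)
            exact_mod_cast hn.2)
      refine htel.trans ?_
      apply mul_le_mul_of_nonneg_left _ (Nat.cast_nonneg _)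
      calc (k : ℝ) ^ 2 * (L ^ 2) ^ (2 * k) * ((K : ℝ) ^ 2 / L ^ (U + 4 * k + 2)) ≤
            L ^ 2 * (L ^ 2) ^ (2 * k) * ((K : ℝ) ^ 2 / L ^ (U + 4 * k + 2)) := by
            gcongr
            nlinarith
        _ = (K : ℝ) ^ 2 / L ^ U := by
            rw [← pow_mul, show 2 * (2 * k) = 4 * k by ring, show U + 4 * k + 2 = U + (4 * k + 2) by ring, pow_add L U, pow_add L (4 * k) 2]
            field_simp)
  refine le_trans ?_ hGG
  have hsub : ((SB k s H).filter (fun c => ∃ K : ℕ, L ^ (B0 + B2 + 2) ≤ K ∧ (K : ℝ) * L ^ (B0 + B2 + 2) ≤ H ∧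
      (K : ℝ) / L ^ A < ‖∑ n ∈ Icc 1 K, a c n‖)) ⊆
      (SB k s H).filter (fun c => ∃ K : ℕ, 2 * K0 ≤ K ∧ K ≤ K1 ∧ (K : ℝ) / L ^ A < ‖∑ n ∈ Icc 1 K, a c n‖) := by
    intro c hc
    rw [mem_filter] at hc ⊢
    obtain ⟨h5, K, h6, h7, h8⟩ := hc
    refine ⟨h5, K, ?_, ?_, h8⟩
    · have h9 : (K0 : ℝ) < L ^ (B0 + B2) + 1 := Nat.ceil_lt_add_one (by positivity)
      have h10 : 2 * (K0 : ℝ) ≤ K := by
        have h11 : L ^ (B0 + B2 + 2) = L ^ (B0 + B2) * L ^ 2 := pow_add _ _ _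
        have h12 : 1 ≤ L ^ (B0 + B2) := hLp _
        have h13 : 4 ≤ L ^ 2 := by nlinarith
        nlinarith
      exact_mod_cast h10
    · apply Nat.le_floor
      rwa [le_div_iff₀ (by positivity)]
  exact_mod_cast card_le_card hsub

end Pool.Agent.Q236.CR
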