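import Mathlib
import Pool.Agent.Q236.CR.Main
import Pool.Agent.Q236.CR.Stm3
import Pool.Agent.Q91.BX.Irr

/-! Project CR: the formula of Bateman and Horn for almost all systems, complete range. -/

set_option autoImplicit false

namespace Pool.Agent.Q236.CR

open Finset Filter Polynomial
open Pool.Agent.H373R2.T7 (pz Vz lamz)

/-- the polynomial `G + ∑ c_l X^l` -/
noncomputable def PL (s : ℕ) (G : ℤ[X]) (c : Fin (s + 2) → ℤ) : ℤ[X] := G + ∑ l : Fin (s + 2), C (c l) * X ^ (l : ℕ)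

lemma PL_eval (s : ℕ) (G : ℤ[X]) (c : Fin (s + 2) → ℤ) (n : ℕ) : (PL s G c).eval (n : ℤ) = pw s G c n := by
  unfold PL pw pv
  rw [eval_add, eval_finset_sum]
  congr 1
  refine sum_congr rfl fun l _ => ?_
  simp

lemma PL_natDegree (s : ℕ) (G : ℤ[X]) (c : Fin (s + 2) → ℤ) (D : ℕ) (hG : G.natDegree ≤ D) :
    (PL s G c).natDegree ≤ D + s + 1 := by
  unfold PL
  refine (natDegree_add_le _ _).trans (max_le (by omega) ?_)
  apply natDegree_sum_le_of_forall_le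
  intro l _
  refine (natDegree_C_mul_X_pow_le _ _).trans ?_
  have := l.2
  omega

lemma om_PL {k : ℕ} (s : Fin k → ℕ) (G : Fin k → ℤ[X]) (c : (i : Fin k) → Fin (s i + 2) → ℤ) (p : ℕ) :
    om (fun i => PL (s i) (G i) (c i)) p = omc s G c p := by
  classical
  have h : ∀ n : ℕ, (∃ i, (p : ℤ) ∣ (PL (s i) (G i) (c i)).eval (n : ℤ)) ↔ hit s G c p n := by
    intro n
    unfold hit
    simp only [PL_eval]
  unfold om omc
  simp only [h]

/-- the sum of the model is a sieved count -/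
lemma sum_lamz {k : ℕ} (s : Fin k → ℕ) (G : Fin k → ℤ[X]) (c : (i : Fin k) → Fin (s i + 2) → ℤ) (z K : ℕ) :
    by classical exact ∑ n ∈ Icc 1 K, ∏ i, lamz z (pw (s i) (G i) (c i) n).natAbs =
      (Vz z)⁻¹ ^ k * ((((Icc 1 K).filter (fun n : ℕ => ∀ p ∈ pz z, ¬ hit s G c p n)).card : ℕ) : ℝ) := by
  classical
  have h1 : ∀ n : ℕ, ∏ i, lamz z (pw (s i) (G i) (c i) n).natAbs =
      (Vz z)⁻¹ ^ k * (if ∀ p ∈ pz z, ¬ hit s G c p n then (1 : ℝ) else 0) := by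
    intro n
    by_cases h : ∀ p ∈ pz z, ¬ hit s G c p n
    · rw [if_pos h, mul_one]
      have h2 : ∀ i ∈ (univ : Finset (Fin k)), lamz z (pw (s i) (G i) (c i) n).natAbs = (Vz z)⁻¹ := by
        intro i _
        unfold lamz
        rw [if_pos]
        intro p hp hd
        exact h p hp ⟨i, Int.natCast_dvd.mpr hd⟩
      rw [prod_congr rfl h2, prod_const, card_univ, Fintype.card_fin]
    · rw [if_neg h, mul_zero]
      push Not at h
      obtain ⟨p, hp, i, hi⟩ := h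
      apply prod_eq_zero (mem_univ i)
      unfold lamz
      rw [if_neg]
      intro h3
      exact h3 p hp (Int.natCast_dvd.mp hi)
  rw [sum_congr rfl (fun n _ => h1 n), ← mul_sum, card_filter]
  push_cast
  rfl

lemma sing_PL {k : ℕ} (s : Fin k → ℕ) (G : Fin k → ℤ[X]) (c : (i : Fin k) → Fin (s i + 2) → ℤ) (z : ℕ) :
    sing (fun i => PL (s i) (G i) (c i)) z = (Vz z)⁻¹ ^ k * ∏ p ∈ pz z, (1 - (omc s G c p : ℝ) / p) := by
  unfold sing Vz
  rw [prod_div_distrib, prod_pow]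
  have h : ∀ p ∈ pz z, (1 - (om (fun i => PL (s i) (G i) (c i)) p : ℝ) / p) = 1 - (omc s G c p : ℝ) / p := by
    intro p _
    rw [om_PL]
  rw [prod_congr rfl h, inv_pow]
  field_simp

lemma omc_le {k : ℕ} (s : Fin k → ℕ) (G : Fin k → ℤ[X]) (c : (i : Fin k) → Fin (s i + 2) → ℤ) (p : ℕ) :
    omc s G c p ≤ p := by
  classical
  unfold omc
  exact (card_filter_le _ _).trans (by simp)

lemma prod_omc {k : ℕ} (s : Fin k → ℕ) (G : Fin k → ℤ[X]) (c : (i : Fin k) → Fin (s i + 2) → ℤ) (z : ℕ) :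
    0 ≤ ∏ p ∈ pz z, (1 - (omc s G c p : ℝ) / p) ∧ ∏ p ∈ pz z, (1 - (omc s G c p : ℝ) / p) ≤ 1 := by
  have h : ∀ p ∈ pz z, 0 ≤ 1 - (omc s G c p : ℝ) / p ∧ 1 - (omc s G c p : ℝ) / p ≤ 1 := by
    intro p hp
    have hp0 : (0 : ℝ) < p := by
      have := (Pool.Agent.H373R2.T7.mem_pz.1 hp).2.pos
      exact_mod_cast this
    have h1 : (omc s G c p : ℝ) ≤ p := by exact_mod_cast omc_le s G c p
    have h2 : (omc s G c p : ℝ) / p ≤ 1 := by rw [div_le_one hp0]; exact h1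
    have h3 : 0 ≤ (omc s G c p : ℝ) / p := by positivity
    constructor <;> linarith
  exact ⟨prod_nonneg fun p hp => (h p hp).1, prod_le_one (fun p hp => (h p hp).1) (fun p hp => (h p hp).2)⟩

open Classical in
/-- the main term for all `K` at once -/
theorem main_term (hMT : S_MT) (hGRD : S_GRD) (k : ℕ) (s : Fin k → ℕ) (E A : ℕ) :
    ∃ B H0 : ℕ, ∀ H : ℕ, H0 ≤ H → ∀ G : Fin k → ℤ[X],
    ((((SB k s H).filter (fun c => ∃ K : ℕ, Real.log H ^ B ≤ K ∧ K ≤ H ∧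
      (K : ℝ) / Real.log H ^ A < |∑ n ∈ Icc 1 K, ∏ i, lamz ⌊Real.log H ^ E⌋₊ (pw (s i) (G i) (c i) n).natAbs -
        K * sing (fun i => PL (s i) (G i) (c i)) ⌊Real.log H ^ E⌋₊|)).card : ℕ) : ℝ) ≤
      (SB k s H).card / Real.log H ^ A := by
  obtain ⟨U, B0, H0, hG⟩ := hGRD A (k + 1)
  obtain ⟨B1, H1, hM⟩ := hMT k s E (U + 2 * k)
  obtain ⟨H2, h2⟩ := Vz_inv E
  obtain ⟨H3, h3⟩ := evL _ (eventually_ge_atTop (4 : ℝ))
  refine ⟨B0 + B1 + 2, max (max H0 H1) (max H2 H3), fun H hH G => ?_⟩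
  have hL4 := h3 H (by omega)
  have h2' := h2 H (by omega)
  have hM' := hM H (by omega) G
  have hG' := hG H (by omega)
  set L := Real.log H with hL
  have hL1 : 1 ≤ L := by linarith
  have hL0 : 0 < L := by linarith
  have hLp : ∀ n : ℕ, 1 ≤ L ^ n := fun n => one_le_pow₀ hL1
  have hLmono : ∀ m n : ℕ, m ≤ n → L ^ m ≤ L ^ n := fun m n h => pow_le_pow_right₀ hL1 h
  set z := ⌊L ^ E⌋₊ with hz
  have hz1 : 1 ≤ z := Nat.le_floor (by simpa using hLp E)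
  obtain ⟨hV, hVi⟩ := h2' z hz1 (Nat.floor_le (by positivity))
  have hVk : (Vz z)⁻¹ ^ k ≤ L ^ k := pow_le_pow_left₀ (inv_nonneg.mpr hV.le) hVi k
  have hVk0 : 0 ≤ (Vz z)⁻¹ ^ k := pow_nonneg (inv_nonneg.mpr hV.le) k
  set K0 := ⌈L ^ (B0 + B1)⌉₊ with hK0
  have hK0ge : L ^ (B0 + B1) ≤ K0 := Nat.le_ceil _
  set a : ((i : Fin k) → Fin (s i + 2) → ℤ) → ℕ → ℂ := fun c n =>
    ((∏ i, lamz z (pw (s i) (G i) (c i) n).natAbs - sing (fun i => PL (s i) (G i) (c i)) z : ℝ) : ℂ) with ha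
  have hsum : ∀ c K, ∑ n ∈ Icc 1 K, a c n =
      ((∑ n ∈ Icc 1 K, ∏ i, lamz z (pw (s i) (G i) (c i) n).natAbs - K * sing (fun i => PL (s i) (G i) (c i)) z : ℝ) : ℂ) := by
    intro c K
    rw [ha]
    simp only
    rw [← Complex.ofReal_sum, sum_sub_distrib, sum_const, Nat.card_Icc, nsmul_eq_mul]
    simp
  have hGG := hG' _ (SB k s H) a K0 H ((hLmono _ _ (by omega)).trans hK0ge) le_rfl (by
      intro c _ n _
      rw [ha]
      simp only
      rw [Complex.norm_real, Real.norm_eq_abs]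
      have h5 : 0 ≤ ∏ i, lamz z (pw (s i) (G i) (c i) n).natAbs := prod_nonneg fun i _ => (lamz_bd hV _).1
      have h6 : ∏ i, lamz z (pw (s i) (G i) (c i) n).natAbs ≤ L ^ k := by
        calc ∏ i, lamz z (pw (s i) (G i) (c i) n).natAbs ≤ ∏ _i : Fin k, L :=
              prod_le_prod (fun i _ => (lamz_bd hV _).1) (fun i _ => (lamz_bd hV _).2.trans hVi)
          _ = L ^ k := by rw [prod_const, card_univ, Fintype.card_fin]
      have h7 : 0 ≤ sing (fun i => PL (s i) (G i) (c i)) z := by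
        rw [sing_PL]; exact mul_nonneg hVk0 (prod_omc s G c z).1
      have h8 : sing (fun i => PL (s i) (G i) (c i)) z ≤ L ^ k := by
        rw [sing_PL]
        calc (Vz z)⁻¹ ^ k * _ ≤ L ^ k * 1 := mul_le_mul hVk (prod_omc s G c z).2 (prod_omc s G c z).1 (by positivity)
          _ = L ^ k := mul_one _
      have h9 : L ^ k ≤ L ^ (k + 1) := hLmono _ _ (by omega)
      rw [abs_le]
      constructor <;> linarith) (by
      intro K hKK0 hKH
      have hKL : L ^ (B0 + B1) ≤ K := hK0ge.trans (by exact_mod_cast hKK0)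
      have hMK := hM' K ((hLmono _ _ (by omega)).trans hKL) hKH
      have h5 : ∀ c ∈ SB k s H, ‖∑ n ∈ Icc 1 K, a c n‖ ^ 2 ≤ L ^ (2 * k) *
          (((((Finset.Icc 1 K).filter (fun n : ℕ => ∀ p ∈ pz z, ¬ hit s G c p n)).card : ℕ) : ℝ) -
            K * ∏ p ∈ pz z, (1 - (omc s G c p : ℝ) / p)) ^ 2 := by
        intro c _
        rw [hsum, Complex.norm_real, Real.norm_eq_abs, sq_abs, sum_lamz, sing_PL]
        have h6 : (Vz z)⁻¹ ^ k * ((((Icc 1 K).filter (fun n : ℕ => ∀ p ∈ pz z, ¬ hit s G c p n)).card : ℕ) : ℝ) -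
            K * ((Vz z)⁻¹ ^ k * ∏ p ∈ pz z, (1 - (omc s G c p : ℝ) / p)) = (Vz z)⁻¹ ^ k *
            (((((Icc 1 K).filter (fun n : ℕ => ∀ p ∈ pz z, ¬ hit s G c p n)).card : ℕ) : ℝ) -
            K * ∏ p ∈ pz z, (1 - (omc s G c p : ℝ) / p)) := by ring
        rw [h6, mul_pow]
        apply mul_le_mul_of_nonneg_right _ (sq_nonneg _)
        calc ((Vz z)⁻¹ ^ k) ^ 2 ≤ (L ^ k) ^ 2 := pow_le_pow_left₀ hVk0 hVk 2
          _ = L ^ (2 * k) := by rw [← pow_mul]; congr 1; ring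
      refine (sum_le_sum h5).trans ?_
      rw [← mul_sum]
      calc L ^ (2 * k) * _ ≤ L ^ (2 * k) * ((SB k s H).card * ((K : ℝ) ^ 2 / L ^ (U + 2 * k))) := by gcongr
        _ = _ := by
            rw [pow_add L U (2 * k)]
            field_simp)
  refine le_trans ?_ hGG
  have hsub : ((SB k s H).filter (fun c => ∃ K : ℕ, L ^ (B0 + B1 + 2) ≤ K ∧ K ≤ H ∧
      (K : ℝ) / L ^ A < |∑ n ∈ Icc 1 K, ∏ i, lamz z (pw (s i) (G i) (c i) n).natAbs -
        K * sing (fun i => PL (s i) (G i) (c i)) z|)) ⊆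
      (SB k s H).filter (fun c => ∃ K : ℕ, 2 * K0 ≤ K ∧ K ≤ H ∧ (K : ℝ) / L ^ A < ‖∑ n ∈ Icc 1 K, a c n‖) := by
    intro c hc
    rw [mem_filter] at hc ⊢
    obtain ⟨h5, K, h6, h7, h8⟩ := hc
    refine ⟨h5, K, ?_, h7, ?_⟩
    · have h9 : (K0 : ℝ) < L ^ (B0 + B1) + 1 := Nat.ceil_lt_add_one (by positivity)
      have h10 : 2 * (K0 : ℝ) ≤ K := by
        have h11 : L ^ (B0 + B1 + 2) = L ^ (B0 + B1) * L ^ 2 := pow_add _ _ _
        have h12 : 1 ≤ L ^ (B0 + B1) := hLp _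
        have h13 : 4 ≤ L ^ 2 := by nlinarith
        nlinarith
      exact_mod_cast h10
    · rw [hsum, Complex.norm_real, Real.norm_eq_abs]
      exact h8
  exact_mod_cast card_le_card hsub

end Pool.Agent.Q236.CR
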