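import Mathlib
import Pool.Agent.Q236.CR.BH

/-! Project CR: assembly of the formula of Bateman and Horn for almost all systems. -/

set_option autoImplicit false

namespace Pool.Agent.Q236.CR

open Finset Filter Polynomial
open Pool.Agent.H373R2.T7 (pz Vz lamz)

/-- the sum of the products of von Mangoldt values -/
noncomputable def LP {k : ℕ} (P : Fin k → ℤ[X]) (K : ℕ) : ℝ :=
  ∑ n ∈ Icc 1 K, ∏ i, ArithmeticFunction.vonMangoldt ((P i).eval (n : ℤ)).natAbs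

lemma natAbs_bd (s H D : ℕ) (hD : s ≤ D) (G : ℤ[X]) (hH : 4 * (s + 3) ≤ H)
    (hG : ∀ n : ℕ, 1 ≤ n → n ≤ H → |G.eval (n : ℤ)| ≤ H * (n : ℤ) ^ (s + 1))
    (c : Fin (s + 2) → ℤ) (hc : c ∈ BX s H) (n : ℕ) (h1 : 1 ≤ n) (h2 : n ≤ H) :
    ((PL s G c).eval (n : ℤ)).natAbs ≤ H ^ (D + 3) := by
  rw [PL_eval]
  unfold pw
  have h3 := pv_bd s H n (fun m => G.eval (m : ℤ)) (fun m h4 h5 => hG m h4 (h5.trans h2)) c hc n (by rw [mem_Icc]; omega)
  refine h3.trans ((XX_facts s H n hH h1 h2).2.trans ?_)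
  apply Nat.pow_le_pow_right (by omega) (by omega)

open Classical in
theorem bh_of (hOB : S_OB) (hWL : S_WL) (hWM : S_WM) (hWV : S_WV) (hTEL : S_TEL) (hGRD : S_GRD)
    (hMT : S_MT) (hBAD : S_BAD) (hCNT : S_CNT) (hSLB : S_SLB) (k : ℕ) (s : Fin k → ℕ) (D A : ℕ) :
    ∃ E B H0 : ℕ, ∀ H : ℕ, H0 ≤ H → ∀ G : Fin k → ℤ[X], (∀ i, (G i).natDegree ≤ D) →
    (∀ i, ∀ n : ℕ, 1 ≤ n → n ≤ H → |(G i).eval (n : ℤ)| ≤ H * (n : ℤ) ^ (s i + 1)) →
    ∃ Bad ⊆ SB k s H, (Bad.card : ℝ) ≤ (SB k s H).card / Real.log H ^ A ∧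
    ∀ c ∈ SB k s H, c ∉ Bad → ∀ P : Fin k → ℤ[X], P = (fun i => PL (s i) (G i) (c i)) →
    ∀ K : ℕ, Real.log H ^ B ≤ K → (K : ℝ) * Real.log H ^ B ≤ H →
      |LP P K - K * sing P ⌊Real.log H ^ E⌋₊| ≤ K / Real.log H ^ A ∧
      |(piP P K : ℝ) - sing P ⌊Real.log H ^ E⌋₊ * MP P K| ≤ K / Real.log H ^ A ∧
      ((∀ p : ℕ, p.Prime → om P p < p) →
        |(piP P K : ℝ) - sing P ⌊Real.log H ^ E⌋₊ * MP P K| ≤ sing P ⌊Real.log H ^ E⌋₊ * MP P K / Real.log H ^ A ∧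
        (K : ℝ) / Real.log H ^ (k + 4) ≤ piP P K ∧ ∀ i, 1 ≤ (P i).natDegree → Irreducible (P i)) := by
  -- the degree bound
  set DD := D + ∑ i, (s i + 1) with hDD
  have hsD : ∀ i, s i + 1 ≤ DD - D := by
    intro i
    have h1 : s i + 1 ≤ ∑ i, (s i + 1) := single_le_sum (f := fun i => s i + 1) (fun _ _ => Nat.zero_le _) (mem_univ i)
    omega
  obtain ⟨A', hC1⟩ := hCNT k DD (A + k + 5)
  set A3 := A + A' + 2 with hA3
  obtain ⟨E, B1, hmain⟩ := main_of hOB hWL hWM hWV hTEL hGRD k s A3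
  obtain ⟨H1, hmain⟩ := hmain E le_rfl
  obtain ⟨B2, H2, hmt⟩ := main_term hMT hGRD k s E A3
  obtain ⟨B', H3, hC2⟩ := hC1 (B1 + B2)
  obtain ⟨H4, hbad⟩ := hBAD k s A3
  obtain ⟨H5, hslb⟩ := hSLB k (k * (2 * DD)) E
  obtain ⟨H6, h6⟩ := evL _ (eventually_ge_atTop (2 * ((DD : ℝ) + 3) ^ k + 2 * k * (2 * DD) + 8))
  refine ⟨E, B1 + B2 + B' + A3 + k + 8, max (max (max H1 H2) (max H3 H4)) (max (max H5 H6) (4 * (DD + 3))), fun H hH G hGd hG => ?_⟩
  have hL6 := h6 H (by omega)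
  have hmainH := hmain H (by omega) (fun _ => 0) (fun i n => (G i).eval (n : ℤ)) (fun _ => 1) hG (fun _ => by simp)
  have hmtH := hmt H (by omega) G
  have hbadH := hbad H (by omega) (fun i n => (G i).eval (n : ℤ)) hG
  have hCH := hC2 H (by omega)
  have hslbH := hslb H (by omega)
  have hH4 : 4 * (DD + 3) ≤ H := by omega
  set L := Real.log H with hL
  have hp1 : (0 : ℝ) ≤ 2 * ((DD : ℝ) + 3) ^ k := by positivity
  have hp2 : (0 : ℝ) ≤ 2 * k * (2 * DD) := by positivity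
  have hL8 : 8 ≤ L := by linarith
  have hL0 : 0 < L := by linarith
  have hL1 : 1 ≤ L := by linarith
  have hLp : ∀ n : ℕ, 1 ≤ L ^ n := fun n => one_le_pow₀ hL1
  have hLp0 : ∀ n : ℕ, 0 < L ^ n := fun n => by positivity
  have hLmono : ∀ m n : ℕ, m ≤ n → L ^ m ≤ L ^ n := fun m n h => pow_le_pow_right₀ hL1 h
  set z := ⌊L ^ E⌋₊ with hz
  obtain ⟨X1, hX1⟩ : ∃ X1 : Finset ((i : Fin k) → Fin (s i + 2) → ℤ), X1 = (SB k s H).filter (fun c => ∃ K : ℕ, L ^ B1 ≤ K ∧ (K : ℝ) * L ^ B1 ≤ H ∧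
      (K : ℝ) / L ^ A3 < ‖∑ n ∈ Icc 1 K, (fun _ => (1 : ℂ)) n * (∏ i, FT ((fun _ => 0) i) (pv (s i) ((fun i (n : ℕ) => (G i).eval (n : ℤ)) i) (c i) n).natAbs -
        ∏ i, MT ((fun _ => 0) i) z (pv (s i) ((fun i (n : ℕ) => (G i).eval (n : ℤ)) i) (c i) n).natAbs)‖) := ⟨_, rfl⟩
  obtain ⟨X2, hX2⟩ : ∃ X2 : Finset ((i : Fin k) → Fin (s i + 2) → ℤ), X2 = (SB k s H).filter (fun c => ∃ K : ℕ, L ^ B2 ≤ K ∧ K ≤ H ∧
      (K : ℝ) / L ^ A3 < |∑ n ∈ Icc 1 K, ∏ i, lamz z (pw (s i) (G i) (c i) n).natAbs -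
        K * sing (fun i => PL (s i) (G i) (c i)) z|) := ⟨_, rfl⟩
  obtain ⟨X3, hX3⟩ : ∃ X3 : Finset ((i : Fin k) → Fin (s i + 2) → ℤ), X3 = (SB k s H).filter (fun c => ∃ K : ℕ, 1 ≤ K ∧ K ≤ H ∧ (K : ℝ) / L ^ A3 <
    ((((Finset.Icc 1 K).filter (fun n => BadN s (fun i (n : ℕ) => (G i).eval (n : ℤ)) c H n)).card : ℕ) : ℝ)) := ⟨_, rfl⟩
  have c1 : (X1.card : ℝ) ≤ (SB k s H).card / L ^ A3 := by rw [hX1]; exact_mod_cast hmainH
  have c2 : (X2.card : ℝ) ≤ (SB k s H).card / L ^ A3 := by rw [hX2]; exact_mod_cast hmtH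
  have c3 : (X3.card : ℝ) ≤ (SB k s H).card / L ^ A3 := by rw [hX3]; exact_mod_cast hbadH
  refine ⟨X1 ∪ (X2 ∪ X3), ?_, ?_, ?_⟩
  · apply union_subset
    · rw [hX1]; exact filter_subset _ _
    · apply union_subset
      · rw [hX2]; exact filter_subset _ _
      · rw [hX3]; exact filter_subset _ _
  · have h7 : ((X1 ∪ (X2 ∪ X3)).card : ℝ) ≤ X1.card + (X2.card + X3.card) := by
      have h8 := card_union_le X1 (X2 ∪ X3)
      have h9 := card_union_le X2 X3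
      exact_mod_cast h8.trans (by omega)
    have h8 : (0 : ℝ) ≤ (SB k s H).card := Nat.cast_nonneg _
    calc ((X1 ∪ (X2 ∪ X3)).card : ℝ) ≤ 3 * ((SB k s H).card / L ^ A3) := by linarith
      _ ≤ L * ((SB k s H).card / L ^ A3) := by gcongr; linarith
      _ = (SB k s H).card * (L / L ^ A3) := by ring
      _ ≤ (SB k s H).card * (1 / L ^ A) := by
          apply mul_le_mul_of_nonneg_left _ h8
          rw [div_le_div_iff₀ (hLp0 _) (hLp0 _), one_mul]
          calc L * L ^ A = L ^ (A + 1) := by rw [pow_succ]; ring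
            _ ≤ L ^ A3 := hLmono _ _ (by omega)
      _ = _ := by ring
  intro c hc hcb P hP K hK1 hK2
  rw [mem_union, mem_union, not_or, not_or] at hcb
  obtain ⟨n1, n2, n3⟩ := hcb
  have hc' : ∀ i, c i ∈ BX (s i) H := fun i => (Fintype.mem_piFinset.mp hc) i
  have hLB : L ^ (B1 + B2 + B' + A3 + k + 8) ≤ K := hK1
  have hKpos : (1 : ℝ) ≤ K := (hLp _).trans hLB
  have hK0 : (0 : ℝ) < K := by linarith
  have hKn : 1 ≤ K := by exact_mod_cast hKpos
  have hKHr : (K : ℝ) ≤ H := by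
    calc (K : ℝ) = K * 1 := by ring
      _ ≤ K * L ^ (B1 + B2 + B' + A3 + k + 8) := by gcongr; exact hLp _
      _ ≤ H := hK2
  have hKH : K ≤ H := by exact_mod_cast hKHr
  have hPe : ∀ i (n : ℕ), (P i).eval (n : ℤ) = pw (s i) (G i) (c i) n := by
    intro i n; rw [hP]; exact PL_eval _ _ _ _
  -- the formula with von Mangoldt weights, for all smaller `K'`
  have key : ∀ K' : ℕ, L ^ (B1 + B2) ≤ K' → K' ≤ K → |LP P K' - K' * sing P z| ≤ 2 * (K' / L ^ A3) := by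
    intro K' h7 h8
    have hK'H : (K' : ℝ) * L ^ B1 ≤ H := by
      calc (K' : ℝ) * L ^ B1 ≤ K * L ^ (B1 + B2 + B' + A3 + k + 8) := by
            have h9 := hLmono B1 (B1 + B2 + B' + A3 + k + 8) (by omega)
            gcongr
        _ ≤ H := hK2
    have e1 : |LP P K' - ∑ n ∈ Icc 1 K', ∏ i, lamz z (pw (s i) (G i) (c i) n).natAbs| ≤ K' / L ^ A3 := by
      by_contra hcon
      push Not at hcon
      apply n1
      rw [hX1, mem_filter]
      refine ⟨hc, K', (hLmono _ _ (by omega)).trans h7, hK'H, ?_⟩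
      have h9 : ∑ n ∈ Icc 1 K', (fun _ => (1 : ℂ)) n * (∏ i, FT ((fun _ => 0) i) (pv (s i) ((fun i (n : ℕ) => (G i).eval (n : ℤ)) i) (c i) n).natAbs -
        ∏ i, MT ((fun _ => 0) i) z (pv (s i) ((fun i (n : ℕ) => (G i).eval (n : ℤ)) i) (c i) n).natAbs) =
        ((LP P K' - ∑ n ∈ Icc 1 K', ∏ i, lamz z (pw (s i) (G i) (c i) n).natAbs : ℝ) : ℂ) := by
        unfold LP
        rw [← sum_sub_distrib]
        push_cast
        refine sum_congr rfl fun n _ => ?_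
        rw [one_mul]
        congr 1
        · refine prod_congr rfl fun i _ => ?_
          rw [hPe]
          unfold FT
          simp
          rfl
      rw [h9, Complex.norm_real, Real.norm_eq_abs]
      exact hcon
    have e2 : |∑ n ∈ Icc 1 K', ∏ i, lamz z (pw (s i) (G i) (c i) n).natAbs - K' * sing P z| ≤ K' / L ^ A3 := by
      by_contra hcon
      push Not at hcon
      apply n2
      rw [hX2, mem_filter]
      refine ⟨hc, K', (hLmono _ _ (by omega)).trans h7, h8.trans hKH, ?_⟩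
      rw [hP] at hcon
      exact hcon
    calc |LP P K' - K' * sing P z| = |(LP P K' - ∑ n ∈ Icc 1 K', ∏ i, lamz z (pw (s i) (G i) (c i) n).natAbs) +
          (∑ n ∈ Icc 1 K', ∏ i, lamz z (pw (s i) (G i) (c i) n).natAbs - K' * sing P z)| := by ring_nf
      _ ≤ _ := abs_add_le _ _
      _ ≤ _ := by linarith
  have hS0 : 0 ≤ sing P z := by
    rw [hP]
    rcases Nat.eq_zero_or_pos z with h | h
    · rw [h]; unfold sing pz; simp
    · have hV : 0 < Vz z := lt_of_lt_of_le (by positivity) (Pool.Agent.H373R2.T7.Vz_ge z h)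
      rw [sing_PL]
      exact mul_nonneg (pow_nonneg (inv_nonneg.mpr hV.le) k) (prod_omc s G c z).1
  have hdeg : ∀ i, (P i).natDegree ≤ DD := by
    intro i
    rw [hP]
    refine (PL_natDegree (s i) (G i) (c i) D (hGd i)).trans ?_
    have := hsD i
    omega
  have hval : ∀ i, ∀ n : ℕ, 1 ≤ n → n ≤ K → ((P i).eval (n : ℤ)).natAbs ≤ H ^ (DD + 3) := by
    intro i n h7 h8
    rw [hP]
    exact natAbs_bd (s i) H DD (by have := hsD i; omega) (G i) (by have := hsD i; omega) (hG i) (c i) (hc' i) n h7 (h8.trans hKH)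
  have hAA : 2 * ((1 : ℝ) / L ^ A3) ≤ 1 / L ^ (A + A') := by
    have : (2 : ℝ) * (1 / L ^ A3) = 2 / L ^ A3 := by ring
    rw [this, div_le_div_iff₀ (hLp0 _) (hLp0 _), one_mul]
    calc 2 * L ^ (A + A') ≤ L * L ^ (A + A') := by gcongr; linarith
      _ = L ^ (A + A' + 1) := by rw [pow_succ]; ring
      _ ≤ L ^ A3 := hLmono _ _ (by omega)
  have hkey' : ∀ K' : ℕ, L ^ (B1 + B2) ≤ K' → K' ≤ K → ∀ a : ℕ, a ≤ A + A' → |LP P K' - K' * sing P z| ≤ K' / L ^ a := by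
    intro K' h7 h8 a ha
    calc |LP P K' - K' * sing P z| ≤ 2 * (K' / L ^ A3) := key K' h7 h8
      _ = K' * (2 * (1 / L ^ A3)) := by ring
      _ ≤ K' * (1 / L ^ (A + A')) := by gcongr
      _ ≤ K' * (1 / L ^ a) := by
          apply mul_le_mul_of_nonneg_left _ (Nat.cast_nonneg _)
          exact one_div_le_one_div_of_le (hLp0 _) (hLmono _ _ ha)
      _ = _ := by ring
  have hbadK : ((((Finset.Icc 1 K).filter (fun n => BadN s (fun i (n : ℕ) => (G i).eval (n : ℤ)) c H n)).card : ℕ) : ℝ) ≤ K / L ^ A3 := by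
    by_contra hcon
    push Not at hcon
    apply n3
    rw [hX3, mem_filter]
    exact ⟨hc, K, hKn, hKH, hcon⟩
  have hbadeq : (Finset.Icc 1 K).filter (fun n => BadN s (fun i (n : ℕ) => (G i).eval (n : ℤ)) c H n) =
      (Finset.Icc 1 K).filter (fun n : ℕ => ∃ i, ((P i).eval (n : ℤ)).natAbs ^ 2 ≤ H ∨
        ∃ a m : ℕ, 2 ≤ m ∧ a ^ m = ((P i).eval (n : ℤ)).natAbs) := by
    apply filter_congr
    intro n _
    unfold BadN
    simp only [hPe]
    rfl
  have hA3' : (K : ℝ) / L ^ A3 ≤ K / L ^ A' := by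
    apply div_le_div_of_nonneg_left hK0.le (hLp0 _)
    exact hLmono _ _ (by omega)
  have hcnt := hCH P K (sing P z) hdeg hval hS0 ((hLmono _ _ (by omega)).trans hLB) hKH
    (fun K' h7 h8 => hkey' K' h7 h8 A' (by omega)) (by
      rw [← hbadeq]
      exact hbadK.trans hA3')
  have hKL : L ^ (B1 + B2) ≤ K := (hLmono _ _ (by omega)).trans hLB
  refine ⟨hkey' K hKL le_rfl A (by omega), ?_, ?_⟩
  · refine hcnt.trans ?_
    apply div_le_div_of_nonneg_left hK0.le (hLp0 _)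
    exact hLmono _ _ (by omega)
  intro hom
  -- lower bound for the main term
  have hsumdeg : ∑ i, (P i).natDegree ≤ k * (2 * DD) := by
    calc ∑ i, (P i).natDegree ≤ ∑ _i : Fin k, 2 * DD := sum_le_sum fun i _ => (hdeg i).trans (by omega)
      _ = k * (2 * DD) := by rw [sum_const, card_univ, Fintype.card_fin, smul_eq_mul]
  have hsl := hslbH P hsumdeg hom
  have hMP : (K : ℝ) / 2 / (((DD : ℝ) + 3) * L) ^ k ≤ MP P K := by
    unfold MP
    have hsubs : (Icc 1 K) \ ((Finset.Icc 1 K).filter (fun n : ℕ => ∃ i, ((P i).eval (n : ℤ)).natAbs ^ 2 ≤ H ∨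
        ∃ a m : ℕ, 2 ≤ m ∧ a ^ m = ((P i).eval (n : ℤ)).natAbs)) ⊆
        (Finset.Icc 1 K).filter (fun n : ℕ => ∀ i, 2 ≤ |(P i).eval (n : ℤ)|) := by
      intro n hn
      rw [Finset.mem_sdiff, mem_filter, not_and] at hn
      rw [mem_filter]
      refine ⟨hn.1, fun i => ?_⟩
      have h7 := hn.2 hn.1
      push Not at h7
      have h8 := (h7 i).1
      by_contra h9
      push Not at h9
      have h10 : ((P i).eval (n : ℤ)).natAbs ≤ 1 := by
        have : (((P i).eval (n : ℤ)).natAbs : ℤ) < 2 := by rw [Int.natCast_natAbs]; exact h9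
        omega
      have h11 : ((P i).eval (n : ℤ)).natAbs ^ 2 ≤ 1 := Nat.pow_le_one_iff (by norm_num) |>.mpr h10
      omega
    have hcard : (K : ℝ) / 2 ≤ ((Finset.Icc 1 K).filter (fun n : ℕ => ∀ i, 2 ≤ |(P i).eval (n : ℤ)|)).card := by
      have h7 := card_le_card hsubs
      have h8 := le_card_sdiff ((Finset.Icc 1 K).filter (fun n : ℕ => ∃ i, ((P i).eval (n : ℤ)).natAbs ^ 2 ≤ H ∨
        ∃ a m : ℕ, 2 ≤ m ∧ a ^ m = ((P i).eval (n : ℤ)).natAbs)) (Icc 1 K)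
      rw [Nat.card_Icc, Nat.add_sub_cancel] at h8
      have h9 : (K : ℝ) ≤ ((Finset.Icc 1 K).filter (fun n : ℕ => ∀ i, 2 ≤ |(P i).eval (n : ℤ)|)).card +
          ((Finset.Icc 1 K).filter (fun n : ℕ => ∃ i, ((P i).eval (n : ℤ)).natAbs ^ 2 ≤ H ∨
        ∃ a m : ℕ, 2 ≤ m ∧ a ^ m = ((P i).eval (n : ℤ)).natAbs)).card := by
        exact_mod_cast (by omega)
      rw [← hbadeq] at h9
      have h10 : (K : ℝ) / L ^ A3 ≤ K / 2 := by
        apply div_le_div_of_nonneg_left hK0.le (by norm_num)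
        calc (2 : ℝ) ≤ L := by linarith
          _ = L ^ 1 := (pow_one L).symm
          _ ≤ L ^ A3 := hLmono _ _ (by omega)
      linarith
    have hterm : ∀ n ∈ (Finset.Icc 1 K).filter (fun n : ℕ => ∀ i, 2 ≤ |(P i).eval (n : ℤ)|),
        1 / (((DD : ℝ) + 3) * L) ^ k ≤ ∏ i, 1 / Real.log |(((P i).eval (n : ℤ) : ℤ) : ℝ)| := by
      intro n hn
      rw [mem_filter, mem_Icc] at hn
      have h7 : ∏ _i : Fin k, (1 / (((DD : ℝ) + 3) * L)) ≤ ∏ i, 1 / Real.log |(((P i).eval (n : ℤ) : ℤ) : ℝ)| := by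
        apply prod_le_prod (fun _ _ => by positivity)
        intro i _
        have h8 : (2 : ℝ) ≤ |(((P i).eval (n : ℤ) : ℤ) : ℝ)| := by exact_mod_cast hn.2 i
        have h9 : |(((P i).eval (n : ℤ) : ℤ) : ℝ)| ≤ (H : ℝ) ^ (DD + 3) := by
          have h10 := hval i n hn.1.1 hn.1.2
          have h11 : ((((P i).eval (n : ℤ)).natAbs : ℕ) : ℝ) = |(((P i).eval (n : ℤ) : ℤ) : ℝ)| := by
            rw [Nat.cast_natAbs, Int.cast_abs]
          rw [← h11]
          exact_mod_cast h10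
        have h12 : 0 < Real.log |(((P i).eval (n : ℤ) : ℤ) : ℝ)| := Real.log_pos (by linarith)
        apply one_div_le_one_div_of_le h12
        calc Real.log |(((P i).eval (n : ℤ) : ℤ) : ℝ)| ≤ Real.log ((H : ℝ) ^ (DD + 3)) :=
              Real.log_le_log (by linarith) h9
          _ = _ := by rw [Real.log_pow]; push_cast; ring
      rw [prod_const, card_univ, Fintype.card_fin, one_div, inv_pow, ← one_div] at h7
      exact h7
    calc (K : ℝ) / 2 / (((DD : ℝ) + 3) * L) ^ k = (K : ℝ) / 2 * (1 / (((DD : ℝ) + 3) * L) ^ k) := by ring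
      _ ≤ ((Finset.Icc 1 K).filter (fun n : ℕ => ∀ i, 2 ≤ |(P i).eval (n : ℤ)|)).card * (1 / (((DD : ℝ) + 3) * L) ^ k) := by
          gcongr
      _ = ∑ n ∈ (Finset.Icc 1 K).filter (fun n : ℕ => ∀ i, 2 ≤ |(P i).eval (n : ℤ)|), 1 / (((DD : ℝ) + 3) * L) ^ k := by
          rw [sum_const, nsmul_eq_mul]
      _ ≤ _ := sum_le_sum hterm
  have hlow : (K : ℝ) / L ^ (k + 2) ≤ sing P z * MP P K := by
    have h7 : (K : ℝ) / L ^ (k + 1) ≤ MP P K := by
      refine le_trans ?_ hMP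
      rw [div_div, div_le_div_iff₀ (hLp0 _) (by positivity)]
      have h8 : 2 * (((DD : ℝ) + 3) * L) ^ k ≤ L ^ (k + 1) := by
        rw [mul_pow, pow_succ]
        calc 2 * (((DD : ℝ) + 3) ^ k * L ^ k) = L ^ k * (2 * ((DD : ℝ) + 3) ^ k) := by ring
          _ ≤ L ^ k * L := by gcongr; linarith
      exact mul_le_mul_of_nonneg_left h8 hK0.le
    calc (K : ℝ) / L ^ (k + 2) = (1 / L) * (K / L ^ (k + 1)) := by
          rw [show k + 2 = k + 1 + 1 by ring, pow_succ L (k + 1)]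
          field_simp
      _ ≤ sing P z * MP P K := mul_le_mul hsl h7 (by positivity) hS0
  have hrel : (K : ℝ) / L ^ (A + k + 5) ≤ sing P z * MP P K / L ^ A := by
    have h7 : (K : ℝ) / L ^ (A + k + 5) = (K / L ^ (k + 5)) / L ^ A := by
      rw [div_div, ← pow_add]; congr 2; ring
    rw [h7]
    apply div_le_div_of_nonneg_right _ (hLp0 _).le
    refine le_trans ?_ hlow
    apply div_le_div_of_nonneg_left hK0.le (hLp0 _)
    exact hLmono _ _ (by omega)
  have hpi : (K : ℝ) / L ^ (k + 4) ≤ piP P K := by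
    have h7 := (abs_le.mp hcnt).1
    have h8 : (K : ℝ) / L ^ (A + k + 5) ≤ K / L ^ (k + 2) / 2 := by
      rw [div_div]
      apply div_le_div_of_nonneg_left hK0.le (by positivity)
      calc L ^ (k + 2) * 2 ≤ L ^ (k + 2) * L := by gcongr; linarith
        _ = L ^ (k + 3) := by rw [← pow_succ]
        _ ≤ L ^ (A + k + 5) := hLmono _ _ (by omega)
    have h9 : (K : ℝ) / L ^ (k + 4) ≤ K / L ^ (k + 2) / 2 := by
      rw [div_div]
      apply div_le_div_of_nonneg_left hK0.le (by positivity)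
      calc L ^ (k + 2) * 2 ≤ L ^ (k + 2) * L := by gcongr; linarith
        _ = L ^ (k + 3) := by rw [← pow_succ]
        _ ≤ L ^ (k + 4) := hLmono _ _ (by omega)
    linarith
  refine ⟨hcnt.trans hrel, hpi, fun i hi => ?_⟩
  -- irreducibility
  apply Pool.Agent.Q91.BX.irreducible_of_primes (P i) hi
    ((Icc 1 K).filter (fun n : ℕ => ∀ i, ((P i).eval (n : ℤ)).natAbs.Prime))
  · intro n hn
    exact (mem_filter.mp hn).2 i
  · have h7 : ((piP P K : ℕ) : ℝ) = ((((Icc 1 K).filter (fun n : ℕ => ∀ i, ((P i).eval (n : ℤ)).natAbs.Prime)).card : ℕ) : ℝ) := rfl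
    have h8 : (2 * (P i).natDegree : ℝ) < K / L ^ (k + 4) := by
      have hk1 : (1 : ℝ) ≤ k := by
        have : 1 ≤ k := by
          have := i.2
          omega
        exact_mod_cast this
      have h9 : ((P i).natDegree : ℝ) ≤ DD := by exact_mod_cast hdeg i
      have h10 : (2 * (DD : ℝ)) < L := by
        have : (0 : ℝ) ≤ DD := Nat.cast_nonneg _
        nlinarith
      rw [lt_div_iff₀ (hLp0 _)]
      calc 2 * ((P i).natDegree : ℝ) * L ^ (k + 4) ≤ 2 * DD * L ^ (k + 4) := by gcongr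
        _ < L * L ^ (k + 4) := by gcongr
        _ = L ^ (k + 5) := by rw [pow_succ L (k + 4)]; ring
        _ ≤ L ^ (B1 + B2 + B' + A3 + k + 8) := hLmono _ _ (by omega)
        _ ≤ K := hLB
    have h11 : (2 * (P i).natDegree : ℝ) < ((((Icc 1 K).filter (fun n : ℕ => ∀ i, ((P i).eval (n : ℤ)).natAbs.Prime)).card : ℕ) : ℝ) := by
      rw [← h7]
      exact h8.trans_le hpi
    exact_mod_cast h11

end Pool.Agent.Q236.CR
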