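import Mathlib
import Pool.Agent.Q236.CR.Arg2
import Pool.Agent.Q236.CR.Fin
import Pool.Agent.Q151.CR.BAD
import Pool.Agent.Q151.CR.SLB
import Pool.Agent.Q151.CR.TV

/-! Project CR: systems of random polynomials at prime arguments, the theorem. -/

set_option autoImplicit false

namespace Pool.Agent.Q236.CR

open Finset Filter Polynomial
open Pool.Agent.H373R2.T7 (pz Vz lamz)
open Pool.Agent.Q236.CR.Tri (tht tht_le pp_sum)

/-- the sum of the products of von Mangoldt values at `n` and the `|P_i(n)|` -/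
noncomputable def LQ {k : ℕ} (P : Fin k → ℤ[X]) (K : ℕ) : ℝ :=
  ∑ n ∈ Icc 1 K, ArithmeticFunction.vonMangoldt n * ∏ i, ArithmeticFunction.vonMangoldt ((P i).eval (n : ℤ)).natAbs

open Classical in
/-- the number of primes `q ≤ K` with all `|P_i(q)|` prime -/
noncomputable def piQ {k : ℕ} (P : Fin k → ℤ[X]) (K : ℕ) : ℕ :=
  ((Icc 1 K).filter (fun n : ℕ => n.Prime ∧ ∀ i, ((P i).eval (n : ℤ)).natAbs.Prime)).card

open Classical in
/-- the sum of `∏ 1 / log |P_i(q)|` over the primes `q ≤ K` with all `|P_i(q)| ≥ 2` -/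
noncomputable def MQ {k : ℕ} (P : Fin k → ℤ[X]) (K : ℕ) : ℝ :=
  ∑ n ∈ (Icc 1 K).filter (fun n : ℕ => n.Prime ∧ ∀ i, 2 ≤ |(P i).eval (n : ℤ)|),
    ∏ i, 1 / Real.log |(((P i).eval (n : ℤ) : ℤ) : ℝ)|

open Classical in
theorem arg_all (k : ℕ) (s : Fin k → ℕ) (D A : ℕ) (ε : ℝ) (hε : 0 < ε) :
    ∃ E B H0 : ℕ, ∀ H : ℕ, H0 ≤ H → ∀ G : Fin k → ℤ[X], (∀ i, (G i).natDegree ≤ D) →
    (∀ i, ∀ n : ℕ, 1 ≤ n → n ≤ H → |(G i).eval (n : ℤ)| ≤ H * (n : ℤ) ^ (s i + 1)) →
    ∃ Bad ⊆ SB k s H, (Bad.card : ℝ) ≤ (SB k s H).card / Real.log H ^ A ∧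
    ∀ c ∈ SB k s H, c ∉ Bad → ∀ P : Fin k → ℤ[X], P = (fun i => PL (s i) (G i) (c i)) →
    ∀ K : ℕ, Real.exp (Real.log H ^ ε) ≤ K → (K : ℝ) * Real.log H ^ B ≤ H →
      |LQ P K - K * sing (ext P) ⌊Real.log H ^ E⌋₊| ≤ K / Real.log H ^ A ∧
      |(piQ P K : ℝ) - sing (ext P) ⌊Real.log H ^ E⌋₊ * MQ P K| ≤ K / Real.log H ^ A ∧
      ((∀ p : ℕ, p.Prime → om (ext P) p < p) →
        |(piQ P K : ℝ) - sing (ext P) ⌊Real.log H ^ E⌋₊ * MQ P K| ≤
          sing (ext P) ⌊Real.log H ^ E⌋₊ * MQ P K / Real.log H ^ A ∧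
        (K : ℝ) / Real.log H ^ (k + 5) ≤ piQ P K) := by
  -- the degree bound
  set DD := D + ∑ i, (s i + 1) with hDD
  have hsD : ∀ i, s i + 1 ≤ DD - D := by
    intro i
    have h1 : s i + 1 ≤ ∑ i, (s i + 1) := single_le_sum (f := fun i => s i + 1) (fun _ _ => Nat.zero_le _) (mem_univ i)
    omega
  obtain ⟨A', H3, hCH⟩ := Pool.Agent.Q285.CR.cntw Pool.Agent.Q151.CR.tv k DD (A + k + 6)
  set A3 := A + A' + k + 4 with hA3
  obtain ⟨E, B1, hmain⟩ := main_fam k s A3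
  obtain ⟨H1, hmain⟩ := hmain E le_rfl
  obtain ⟨H2, hmt⟩ := arg_term k s (ε / 2) (by linarith) E A3
  obtain ⟨H4, hbad⟩ := Pool.Agent.Q151.CR.bad k s A3
  obtain ⟨H5, hslb⟩ := Pool.Agent.Q151.CR.slb (k + 1) (k * (2 * DD) + 1) E
  obtain ⟨H6, h6⟩ := evL _ (eventually_ge_atTop (4 * ((DD : ℝ) + 3) ^ k + 4 * k * (2 * DD) + 40))
  obtain ⟨H7, h7⟩ := theta_lem (A3 + k + 1) (ε / 2) (by linarith)
  obtain ⟨H8, h8⟩ := evL _ (exp_gap (ε / 2) (3 * ε / 4) (by linarith) (by linarith) (A3 + k + 8))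
  obtain ⟨H9, h9⟩ := evL _ (exp_gap (3 * ε / 4) ε (by linarith) (by linarith) (A' + k + 4))
  obtain ⟨H10, h10⟩ := Vz_inv E
  obtain ⟨H11, h11⟩ := evL _ (exp_gap (ε / 4) (ε / 2) (by linarith) (by linarith) B1)
  refine ⟨E, B1 + 1, max (max (max H1 H2) (max H3 H4)) (max (max H5 H6) (max (max H7 H8) (max (max H9 H10) (max H11 (4 * (DD + 3)))))),
    fun H hH G hGd hG => ?_⟩
  have hL6 := h6 H (by omega)
  have h7 := h7 H (by omega)
  have h8 := h8 H (by omega)
  have h9 := h9 H (by omega)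
  have h10 := h10 H (by omega)
  have h11 := h11 H (by omega)
  have hmainH := hmain H (by omega) (fun _ => 0) (fun i n => (G i).eval (n : ℤ)) {fun n => ((tht n : ℝ) : ℂ)} hG
  have hmtH := hmt H (by omega) G
  have hbadH := hbad H (by omega) (fun i n => (G i).eval (n : ℤ)) hG
  have hCH := hCH H (by omega)
  have hslbH := hslb H (by omega)
  have hH4 : 4 * (DD + 3) ≤ H := by omega
  clear hmain hmt hbad hslb h6
  set L := Real.log H with hL
  have hp1 : (0 : ℝ) ≤ 4 * ((DD : ℝ) + 3) ^ k := by positivity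
  have hp2 : (0 : ℝ) ≤ 4 * k * (2 * DD) := by positivity
  have hL40 : 40 ≤ L := by linarith
  have hL0 : 0 < L := by linarith
  have hL1 : 1 ≤ L := by linarith
  have hLp : ∀ n : ℕ, 1 ≤ L ^ n := fun n => one_le_pow₀ hL1
  have hLp0 : ∀ n : ℕ, 0 < L ^ n := fun n => by positivity
  have hLmono : ∀ m n : ℕ, m ≤ n → L ^ m ≤ L ^ n := fun m n h => pow_le_pow_right₀ hL1 h
  have hmainH := hmainH (by rw [card_singleton]; push_cast; exact hLp _) (by
    intro w hw n hn1 hn2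
    rw [mem_singleton] at hw
    rw [hw, Complex.norm_real, Real.norm_eq_abs, abs_of_nonneg (tht_le n).1]
    calc tht n ≤ ArithmeticFunction.vonMangoldt n := (tht_le n).2
      _ ≤ Real.log n := ArithmeticFunction.vonMangoldt_le_log
      _ ≤ L := Real.log_le_log (by exact_mod_cast hn1) (by exact_mod_cast hn2)
      _ = L ^ 1 := (pow_one L).symm
      _ ≤ L ^ A3 := hLmono _ _ (by omega))
  obtain ⟨z, hz⟩ : ∃ z : ℕ, z = ⌊L ^ E⌋₊ := ⟨_, rfl⟩
  rw [← hz] at hmainH hmtH hslbH ⊢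
  have hz1 : 1 ≤ z := by
    rw [hz]
    exact Nat.le_floor (by simpa using hLp E)
  obtain ⟨hV, hVi⟩ := h10 z hz1 (by rw [hz]; exact Nat.floor_le (by positivity))
  have hVk : (Vz z)⁻¹ ^ k ≤ L ^ k := pow_le_pow_left₀ (inv_nonneg.mpr hV.le) hVi k
  have hVk0 : 0 ≤ (Vz z)⁻¹ ^ k := pow_nonneg (inv_nonneg.mpr hV.le) k
  obtain ⟨X1, hX1⟩ : ∃ X1 : Finset ((i : Fin k) → Fin (s i + 2) → ℤ), X1 = (SB k s H).filter (fun c =>
      ∃ w ∈ ({fun n => ((tht n : ℝ) : ℂ)} : Finset (ℕ → ℂ)), ∃ K : ℕ, L ^ B1 ≤ K ∧ (K : ℝ) * L ^ B1 ≤ H ∧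
      (K : ℝ) / L ^ A3 < ‖∑ n ∈ Icc 1 K, w n * (∏ i, FT ((fun _ => 0) i) (pv (s i) ((fun i (n : ℕ) => (G i).eval (n : ℤ)) i) (c i) n).natAbs -
        ∏ i, MT ((fun _ => 0) i) z (pv (s i) ((fun i (n : ℕ) => (G i).eval (n : ℤ)) i) (c i) n).natAbs)‖) := ⟨_, rfl⟩
  obtain ⟨X2, hX2⟩ : ∃ X2 : Finset ((i : Fin k) → Fin (s i + 2) → ℤ), X2 = (SB k s H).filter (fun c => ∃ K : ℕ,
      4 * Real.exp (L ^ (ε / 2)) ≤ K ∧ K ≤ H ∧
      (K : ℝ) / L ^ A3 < |∑ n ∈ Icc 1 K, ArithmeticFunction.vonMangoldt n * ∏ i, lamz z (pw (s i) (G i) (c i) n).natAbs -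
        K * singP (fun i => PL (s i) (G i) (c i)) z|) := ⟨_, rfl⟩
  obtain ⟨X3, hX3⟩ : ∃ X3 : Finset ((i : Fin k) → Fin (s i + 2) → ℤ), X3 = (SB k s H).filter (fun c => ∃ K : ℕ, 1 ≤ K ∧ K ≤ H ∧ (K : ℝ) / L ^ A3 <
    ((((Finset.Icc 1 K).filter (fun n => BadN s (fun i (n : ℕ) => (G i).eval (n : ℤ)) c H n)).card : ℕ) : ℝ)) := ⟨_, rfl⟩
  have c1 : (X1.card : ℝ) ≤ (SB k s H).card / L ^ A3 := by rw [hX1]; exact_mod_cast hmainH
  have c2 : (X2.card : ℝ) ≤ (SB k s H).card / L ^ A3 := by rw [hX2]; exact_mod_cast hmtH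
  have c3 : (X3.card : ℝ) ≤ (SB k s H).card / L ^ A3 := by rw [hX3]; exact_mod_cast hbadH
  clear hmainH hmtH hbadH
  refine ⟨X1 ∪ (X2 ∪ X3), ?_, ?_, ?_⟩
  · apply union_subset
    · rw [hX1]; exact filter_subset _ _
    · apply union_subset
      · rw [hX2]; exact filter_subset _ _
      · rw [hX3]; exact filter_subset _ _
  · have h7 : ((X1 ∪ (X2 ∪ X3)).card : ℝ) ≤ X1.card + (X2.card + X3.card) := by
      have h8 := card_union_le X1 (X2 ∪ X3)
      have h9 := card_union_le X2 X3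
      exact_mod_cast h8.trans (by omega)
    have h8 : (0 : ℝ) ≤ (SB k s H).card := Nat.cast_nonneg _
    calc ((X1 ∪ (X2 ∪ X3)).card : ℝ) ≤ 3 * ((SB k s H).card / L ^ A3) := by linarith
      _ ≤ L * ((SB k s H).card / L ^ A3) := by gcongr; linarith
      _ = (SB k s H).card * (L / L ^ A3) := by ring
      _ ≤ (SB k s H).card * (1 / L ^ A) := by
          apply mul_le_mul_of_nonneg_left _ h8
          rw [div_le_div_iff₀ (hLp0 _) (hLp0 _), one_mul]
          calc L * L ^ A = L ^ (A + 1) := by rw [pow_succ]; ring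
            _ ≤ L ^ A3 := hLmono _ _ (by omega)
      _ = _ := by ring
  intro c hc hcb P hP K hK1 hK2
  rw [mem_union, mem_union, not_or, not_or] at hcb
  obtain ⟨n1, n2, n3⟩ := hcb
  have hc' : ∀ i, c i ∈ BX (s i) H := fun i => (Fintype.mem_piFinset.mp hc) i
  have hK0 : (0 : ℝ) < K := (Real.exp_pos _).trans_le hK1
  have hKn : 1 ≤ K := by
    have : 0 < K := by exact_mod_cast hK0
    omega
  have hKHr : (K : ℝ) ≤ H := by
    calc (K : ℝ) = K * 1 := by ring
      _ ≤ K * L ^ (B1 + 1) := by gcongr; exact hLp _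
      _ ≤ H := hK2
  have hKH : K ≤ H := by exact_mod_cast hKHr
  have hPe : ∀ i (n : ℕ), (P i).eval (n : ℤ) = pw (s i) (G i) (c i) n := by
    intro i n; rw [hP]; exact PL_eval _ _ _ _
  have hdeg : ∀ i, (P i).natDegree ≤ DD := by
    intro i
    rw [hP]
    refine (PL_natDegree (s i) (G i) (c i) D (hGd i)).trans ?_
    have := hsD i
    omega
  have hval : ∀ i, ∀ n : ℕ, 1 ≤ n → n ≤ K → ((P i).eval (n : ℤ)).natAbs ≤ H ^ (DD + 3) := by
    intro i n h7 h8
    rw [hP]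
    exact natAbs_bd (s i) H DD (by have := hsD i; omega) (G i) (by have := hsD i; omega) (hG i) (c i) (hc' i) n h7 (h8.trans hKH)
  -- the constant
  obtain ⟨S, hSdef⟩ : ∃ S : ℝ, S = sing (ext P) z := ⟨_, rfl⟩
  have hSP : singP (fun i => PL (s i) (G i) (c i)) z = S := by rw [hSdef, sing_ext, hP]
  have hS0 : 0 ≤ S := by
    rw [← hSP, singP_PL]
    exact mul_nonneg hVk0 (prod_omp s G c z).1
  have hSk : S ≤ L ^ k := by
    rw [← hSP, singP_PL]
    calc (Vz z)⁻¹ ^ k * ∏ p ∈ pz z, (1 - (omp s G c p : ℝ) / ((p : ℝ) - 1)) ≤ L ^ k * 1 :=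
          mul_le_mul hVk (prod_omp s G c z).2 (prod_omp s G c z).1 (hLp0 k).le
      _ = L ^ k := mul_one _
  rw [← hSdef]
  -- the size of the products
  have hPr : ∀ n : ℕ, 1 ≤ n → n ≤ K → 0 ≤ ∏ i, ArithmeticFunction.vonMangoldt ((P i).eval (n : ℤ)).natAbs ∧
      ∏ i, ArithmeticFunction.vonMangoldt ((P i).eval (n : ℤ)).natAbs ≤ L ^ (k + 1) := by
    intro n hn1 hn2
    refine ⟨prod_nonneg fun i _ => ArithmeticFunction.vonMangoldt_nonneg, ?_⟩
    calc ∏ i, ArithmeticFunction.vonMangoldt ((P i).eval (n : ℤ)).natAbs ≤ ∏ _i : Fin k, (((DD : ℝ) + 3) * L) := by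
          apply prod_le_prod (fun _ _ => ArithmeticFunction.vonMangoldt_nonneg)
          intro i _
          rcases Nat.eq_zero_or_pos ((P i).eval (n : ℤ)).natAbs with h | h
          · rw [h, ArithmeticFunction.map_zero]; positivity
          · calc ArithmeticFunction.vonMangoldt ((P i).eval (n : ℤ)).natAbs ≤ Real.log (((P i).eval (n : ℤ)).natAbs : ℕ) :=
                  ArithmeticFunction.vonMangoldt_le_log
              _ ≤ Real.log ((H : ℝ) ^ (DD + 3)) := by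
                  apply Real.log_le_log (by exact_mod_cast h)
                  exact_mod_cast hval i n hn1 hn2
              _ = _ := by rw [Real.log_pow]; push_cast; ring
      _ = (((DD : ℝ) + 3)) ^ k * L ^ k := by rw [prod_const, card_univ, Fintype.card_fin, mul_pow]
      _ ≤ L * L ^ k := by gcongr; linarith
      _ = L ^ (k + 1) := by ring
  have hlz : ∀ n : ℕ, 0 ≤ ∏ i, lamz z (pw (s i) (G i) (c i) n).natAbs ∧
      ∏ i, lamz z (pw (s i) (G i) (c i) n).natAbs ≤ L ^ k := by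
    intro n
    refine ⟨prod_nonneg fun i _ => (Tri.lamz_bd z L hV hVi _).1, ?_⟩
    calc ∏ i, lamz z (pw (s i) (G i) (c i) n).natAbs ≤ ∏ _i : Fin k, L :=
          prod_le_prod (fun i _ => (Tri.lamz_bd z L hV hVi _).1) (fun i _ => (Tri.lamz_bd z L hV hVi _).2)
      _ = L ^ k := by rw [prod_const, card_univ, Fintype.card_fin]
  obtain ⟨F, hF⟩ : ∃ F : ℕ → ℝ, F = fun (n : ℕ) => ∏ i, ArithmeticFunction.vonMangoldt ((P i).eval (n : ℤ)).natAbs := ⟨_, rfl⟩
  have hFn : ∀ n, F n = ∏ i, ArithmeticFunction.vonMangoldt ((P i).eval (n : ℤ)).natAbs := fun n => by rw [hF]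
  have hF' : ∀ n : ℕ, 1 ≤ n → n ≤ K → 0 ≤ F n ∧ F n ≤ L ^ (k + 1) := fun n h1 h2 => by rw [hFn]; exact hPr n h1 h2
  -- the estimate with the weights `log q`
  have key : ∀ K' : ℕ, 4 * Real.exp (L ^ (ε / 2)) ≤ K' → K' ≤ K →
      |∑ n ∈ Icc 1 K', tht n * (F n - S)| ≤ 4 * (K' / L ^ A3) ∧
      |∑ n ∈ Icc 1 K', ArithmeticFunction.vonMangoldt n * F n - K' * S| ≤ 6 * (K' / L ^ A3) := by
    intro K' g1 g2
    have hK'0 : (0 : ℝ) < K' := lt_of_lt_of_le (by positivity) g1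
    have g1' : Real.exp (L ^ (ε / 2)) ≤ K' := by
      have := Real.exp_pos (L ^ (ε / 2))
      linarith
    have hK'H : (K' : ℝ) * L ^ B1 ≤ H := by
      calc (K' : ℝ) * L ^ B1 ≤ K * L ^ (B1 + 1) := by
            have h9 := hLmono B1 (B1 + 1) (by omega)
            gcongr
        _ ≤ H := hK2
    have hLB1 : L ^ B1 ≤ K' := by
      refine le_trans ?_ (h11.trans g1')
      have h12 : 1 ≤ Real.exp (L ^ (ε / 4)) := Real.one_le_exp (Real.rpow_nonneg hL0.le _)
      have h13 := hLp0 B1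
      nlinarith
    obtain ⟨t1, t2⟩ := h7 K' g1' (g2.trans hKH)
    have e1 : |∑ n ∈ Icc 1 K', tht n * (F n - ∏ i, lamz z (pw (s i) (G i) (c i) n).natAbs)| ≤ K' / L ^ A3 := by
      by_contra hcon
      push Not at hcon
      apply n1
      rw [hX1, mem_filter]
      refine ⟨hc, _, mem_singleton_self _, K', hLB1, hK'H, ?_⟩
      have h9 : ∑ n ∈ Icc 1 K', (fun n => ((tht n : ℝ) : ℂ)) n * (∏ i, FT ((fun _ => 0) i) (pv (s i) ((fun i (n : ℕ) => (G i).eval (n : ℤ)) i) (c i) n).natAbs -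
        ∏ i, MT ((fun _ => 0) i) z (pv (s i) ((fun i (n : ℕ) => (G i).eval (n : ℤ)) i) (c i) n).natAbs) =
        ((∑ n ∈ Icc 1 K', tht n * (F n - ∏ i, lamz z (pw (s i) (G i) (c i) n).natAbs) : ℝ) : ℂ) := by
        push_cast
        refine sum_congr rfl fun n _ => ?_
        congr 2
        · rw [hFn]
          push_cast
          refine prod_congr rfl fun i _ => ?_
          rw [hPe]
          unfold FT
          simp
          rfl
      rw [h9, Complex.norm_real, Real.norm_eq_abs]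
      exact hcon
    have e2 : |∑ n ∈ Icc 1 K', ArithmeticFunction.vonMangoldt n * ∏ i, lamz z (pw (s i) (G i) (c i) n).natAbs - K' * S| ≤
        K' / L ^ A3 := by
      by_contra hcon
      push Not at hcon
      apply n2
      rw [hX2, mem_filter]
      refine ⟨hc, K', g1, g2.trans hKH, ?_⟩
      rw [hSP]
      exact hcon
    have hA3k : ∀ x : ℝ, 0 ≤ x → x ≤ L ^ (k + 1) → x * (K' / L ^ (A3 + k + 1)) ≤ K' / L ^ A3 := by
      intro x hx0 hx
      calc x * (K' / L ^ (A3 + k + 1)) ≤ L ^ (k + 1) * (K' / L ^ (A3 + k + 1)) := by gcongr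
        _ = K' / L ^ A3 := by
            rw [show A3 + k + 1 = (k + 1) + A3 by ring, pow_add L (k + 1) A3, ← mul_div_assoc,
              mul_div_mul_left _ _ (hLp0 (k + 1)).ne']
    have hdiff : ∀ (u : ℕ → ℝ) (M : ℝ), 0 ≤ M → M ≤ L ^ (k + 1) → (∀ n, 1 ≤ n → n ≤ K' → 0 ≤ u n ∧ u n ≤ M) →
        0 ≤ ∑ n ∈ Icc 1 K', (ArithmeticFunction.vonMangoldt n - tht n) * u n ∧
        ∑ n ∈ Icc 1 K', (ArithmeticFunction.vonMangoldt n - tht n) * u n ≤ K' / L ^ A3 := by
      intro u M hM0 hM hu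
      constructor
      · refine sum_nonneg fun n hn => ?_
        rw [mem_Icc] at hn
        exact mul_nonneg (sub_nonneg.2 (tht_le n).2) (hu n hn.1 hn.2).1
      · calc ∑ n ∈ Icc 1 K', (ArithmeticFunction.vonMangoldt n - tht n) * u n ≤
            ∑ n ∈ Icc 1 K', (ArithmeticFunction.vonMangoldt n - tht n) * M := by
              refine sum_le_sum fun n hn => ?_
              rw [mem_Icc] at hn
              exact mul_le_mul_of_nonneg_left (hu n hn.1 hn.2).2 (sub_nonneg.2 (tht_le n).2)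
          _ = M * ∑ n ∈ Icc 1 K', (ArithmeticFunction.vonMangoldt n - tht n) := by rw [← sum_mul, mul_comm]
          _ ≤ M * (K' / L ^ (A3 + k + 1)) := by gcongr
          _ ≤ K' / L ^ A3 := hA3k M hM0 hM
    have hSk1 : S ≤ L ^ (k + 1) := hSk.trans (hLmono _ _ (by omega))
    have e3 := hdiff (fun n => ∏ i, lamz z (pw (s i) (G i) (c i) n).natAbs) (L ^ k) (hLp0 k).le (hLmono _ _ (by omega))
      (fun n _ _ => hlz n)
    have e4 := hdiff F (L ^ (k + 1)) (hLp0 _).le le_rfl (fun n h1 h2 => hF' n h1 (h2.trans g2))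
    have e5 : |S * (∑ n ∈ Icc 1 K', tht n - K')| ≤ K' / L ^ A3 := by
      rw [abs_mul, abs_of_nonneg hS0]
      exact (mul_le_mul_of_nonneg_left t1 hS0).trans (hA3k S hS0 hSk1)
    have i1 : ∑ n ∈ Icc 1 K', tht n * (F n - S) =
        ∑ n ∈ Icc 1 K', tht n * (F n - ∏ i, lamz z (pw (s i) (G i) (c i) n).natAbs) +
        (∑ n ∈ Icc 1 K', ArithmeticFunction.vonMangoldt n * ∏ i, lamz z (pw (s i) (G i) (c i) n).natAbs - K' * S) -
        ∑ n ∈ Icc 1 K', (ArithmeticFunction.vonMangoldt n - tht n) * ∏ i, lamz z (pw (s i) (G i) (c i) n).natAbs -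
        S * (∑ n ∈ Icc 1 K', tht n - K') := by
      simp only [mul_sub, sub_mul, sum_sub_distrib, ← sum_mul]
      ring
    have i2 : ∑ n ∈ Icc 1 K', ArithmeticFunction.vonMangoldt n * F n - K' * S =
        ∑ n ∈ Icc 1 K', tht n * (F n - S) + ∑ n ∈ Icc 1 K', (ArithmeticFunction.vonMangoldt n - tht n) * F n +
        S * (∑ n ∈ Icc 1 K', tht n - K') := by
      simp only [mul_sub, sub_mul, sum_sub_distrib, ← sum_mul]
      ring
    rw [abs_le] at e1 e2 e5
    have r1 : |∑ n ∈ Icc 1 K', tht n * (F n - S)| ≤ 4 * (K' / L ^ A3) := by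
      rw [i1, abs_le]
      constructor <;> linarith [e1.1, e1.2, e2.1, e2.2, e5.1, e5.2, e3.1, e3.2]
    refine ⟨r1, ?_⟩
    rw [i2]
    rw [abs_le] at r1 ⊢
    constructor <;> linarith [r1.1, r1.2, e5.1, e5.2, e4.1, e4.2]
  clear n1 n2
  -- the estimate with the weights `1`
  obtain ⟨v, hv⟩ : ∃ v : ℕ → ℝ, v = fun n : ℕ => if n.Prime then (1 : ℝ) else 0 := ⟨_, rfl⟩
  have hvn : ∀ n : ℕ, v n = if n.Prime then (1 : ℝ) else 0 := fun n => by rw [hv]
  obtain ⟨K1, hK1d⟩ : ∃ K1 : ℕ, K1 = ⌈Real.exp (L ^ (3 * ε / 4))⌉₊ := ⟨_, rfl⟩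
  have hexp1 : 1 ≤ Real.exp (L ^ (3 * ε / 4)) := Real.one_le_exp (Real.rpow_nonneg hL0.le _)
  have hexp2 : 1 ≤ Real.exp (L ^ (ε / 2)) := Real.one_le_exp (Real.rpow_nonneg hL0.le _)
  have hK1a : Real.exp (L ^ (3 * ε / 4)) ≤ K1 := by rw [hK1d]; exact Nat.le_ceil _
  have hK1b : (K1 : ℝ) ≤ 2 * Real.exp (L ^ (3 * ε / 4)) := by
    have := Nat.ceil_lt_add_one (show 0 ≤ Real.exp (L ^ (3 * ε / 4)) by positivity)
    rw [← hK1d] at this
    linarith
  have hK11 : 1 ≤ K1 := by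
    have : (1 : ℝ) ≤ K1 := hexp1.trans hK1a
    exact_mod_cast this
  have hKbig : 4 * Real.exp (L ^ (ε / 2)) ≤ K := by
    have g1 : 4 * Real.exp (L ^ (ε / 2)) ≤ 8 * Real.exp (L ^ (ε / 2)) * L ^ (A3 + k + 8) := by
      have := hLp (A3 + k + 8)
      nlinarith
    have g2 : Real.exp (L ^ (3 * ε / 4)) ≤ 8 * Real.exp (L ^ (3 * ε / 4)) * L ^ (A' + k + 4) := by
      have := hLp (A' + k + 4)
      nlinarith
    linarith
  have hone : ∀ K' : ℕ, K1 ≤ K' → K' ≤ K → |∑ n ∈ Icc 1 K', v n * F n - S * ∑ n ∈ Icc 1 K', v n| ≤ 12 * (K' / L ^ A3) := by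
    intro K' g1 g2
    have g1' : Real.exp (L ^ (3 * ε / 4)) ≤ K' := hK1a.trans (by exact_mod_cast g1)
    have hK'0 : (0 : ℝ) ≤ K' := Nat.cast_nonneg _
    have h12 := to_one (fun n => F n - S) K' (hK11.trans g1) (4 * (K' / L ^ A3)) (by positivity) (by
      intro n hn1 hn2
      by_cases hcase : 4 * Real.exp (L ^ (ε / 2)) ≤ n
      · refine (key n hcase (hn2.trans g2)).1.trans ?_
        gcongr
      · push Not at hcase
        have h13 : ∀ m ∈ Icc 1 n, |tht m * (F m - S)| ≤ L * L ^ (k + 1) := by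
          intro m hm
          rw [mem_Icc] at hm
          rw [abs_mul]
          have h14 : |tht m| ≤ L := by
            rw [abs_of_nonneg (tht_le m).1]
            calc tht m ≤ ArithmeticFunction.vonMangoldt m := (tht_le m).2
              _ ≤ Real.log m := ArithmeticFunction.vonMangoldt_le_log
              _ ≤ L := Real.log_le_log (by exact_mod_cast hm.1) (by exact_mod_cast (hm.2.trans (hn2.trans (g2.trans hKH))))
          have h15 := hF' m hm.1 (hm.2.trans (hn2.trans g2))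
          have h16 : |F m - S| ≤ L ^ (k + 1) := by
            rw [abs_le]
            have h17 : S ≤ L ^ (k + 1) := hSk.trans (hLmono _ _ (by omega))
            constructor <;> linarith [h15.1, h15.2]
          exact mul_le_mul h14 h16 (abs_nonneg _) hL0.le
        calc |∑ m ∈ Icc 1 n, tht m * (F m - S)| ≤ ∑ m ∈ Icc 1 n, |tht m * (F m - S)| := abs_sum_le_sum_abs _ _
          _ ≤ ∑ m ∈ Icc 1 n, L * L ^ (k + 1) := sum_le_sum h13
          _ = n * (L * L ^ (k + 1)) := by rw [sum_const, Nat.card_Icc, nsmul_eq_mul, Nat.add_sub_cancel]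
          _ ≤ (4 * Real.exp (L ^ (ε / 2))) * (L * L ^ (k + 1)) := by gcongr
          _ ≤ 4 * (K' / L ^ A3) := by
              rw [← mul_div_assoc, le_div_iff₀ (hLp0 _)]
              calc 4 * Real.exp (L ^ (ε / 2)) * (L * L ^ (k + 1)) * L ^ A3 =
                    4 * Real.exp (L ^ (ε / 2)) * L ^ (A3 + k + 2) := by ring
                _ ≤ 8 * Real.exp (L ^ (ε / 2)) * L ^ (A3 + k + 8) := by
                    have h18 := hLmono (A3 + k + 2) (A3 + k + 8) (by omega)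
                    gcongr
                    norm_num
                _ ≤ K' := h8.trans g1'
                _ ≤ 4 * K' := by linarith)
    have h13 : ∑ n ∈ Icc 1 K', v n * F n - S * ∑ n ∈ Icc 1 K', v n =
        ∑ n ∈ Icc 1 K', (if n.Prime then 1 else 0) * (F n - S) := by
      rw [mul_sum, ← sum_sub_distrib]
      refine sum_congr rfl fun n _ => ?_
      rw [hvn]
      ring
    rw [h13]
    linarith
  -- prime values
  have hbadK : ((((Finset.Icc 1 K).filter (fun n => BadN s (fun i (n : ℕ) => (G i).eval (n : ℤ)) c H n)).card : ℕ) : ℝ) ≤ K / L ^ A3 := by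
    by_contra hcon
    push Not at hcon
    apply n3
    rw [hX3, mem_filter]
    exact ⟨hc, K, hKn, hKH, hcon⟩
  have hbadeq : (Finset.Icc 1 K).filter (fun n => BadN s (fun i (n : ℕ) => (G i).eval (n : ℤ)) c H n) =
      (Finset.Icc 1 K).filter (fun n : ℕ => ∃ i, ((P i).eval (n : ℤ)).natAbs ^ 2 ≤ H ∨
        ∃ a m : ℕ, 2 ≤ m ∧ a ^ m = ((P i).eval (n : ℤ)).natAbs) := by
    apply filter_congr
    intro n _
    unfold BadN
    simp only [hPe]
    rfl
  have hA3' : (K : ℝ) / L ^ A3 ≤ K / L ^ A' := by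
    apply div_le_div_of_nonneg_left hK0.le (hLp0 _)
    exact hLmono _ _ (by omega)
  have hcnt := hCH P K K1 S v hdeg hval hS0 (hSk.trans (hLmono _ _ (by omega))) hK11 (by
      calc (K1 : ℝ) * L ^ (A' + k + 4) ≤ (2 * Real.exp (L ^ (3 * ε / 4))) * L ^ (A' + k + 4) := by gcongr
        _ ≤ (8 * Real.exp (L ^ (3 * ε / 4))) * L ^ (A' + k + 4) := by gcongr; norm_num
        _ ≤ K := h9.trans hK1) hKH (fun n => by rw [hvn]; split_ifs <;> norm_num) (by
      intro K' g1 g2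
      have h12 := hone K' g1 g2
      simp only [hFn] at h12
      refine h12.trans ?_
      have hK'0 : (0 : ℝ) ≤ K' := Nat.cast_nonneg _
      rw [← mul_div_assoc, div_le_div_iff₀ (hLp0 _) (hLp0 _)]
      calc 12 * (K' : ℝ) * L ^ A' ≤ L * K' * L ^ A' := by gcongr; linarith
        _ = K' * L ^ (A' + 1) := by ring
        _ ≤ K' * L ^ A3 := by
            have := hLmono (A' + 1) A3 (by omega)
            gcongr) (by
      rw [← hbadeq]
      exact hbadK.trans hA3')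
  have hpi : ∑ n ∈ (Finset.Icc 1 K).filter (fun n : ℕ => ∀ i, ((P i).eval (n : ℤ)).natAbs.Prime), v n = piQ P K := by
    unfold piQ
    have h12 : (Icc 1 K).filter (fun n : ℕ => n.Prime ∧ ∀ i, ((P i).eval (n : ℤ)).natAbs.Prime) =
        ((Finset.Icc 1 K).filter (fun n : ℕ => ∀ i, ((P i).eval (n : ℤ)).natAbs.Prime)).filter (fun n : ℕ => n.Prime) := by
      rw [filter_filter]
      exact filter_congr fun n _ => and_comm
    rw [h12, card_filter]
    push_cast
    exact sum_congr rfl fun n _ => hvn n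
  have hMQ : ∑ n ∈ (Finset.Icc 1 K).filter (fun n : ℕ => ∀ i, 2 ≤ |(P i).eval (n : ℤ)|),
      v n * ∏ i, (1 / Real.log |(((P i).eval (n : ℤ) : ℤ) : ℝ)|) = MQ P K := by
    unfold MQ
    have h12 : (Icc 1 K).filter (fun n : ℕ => n.Prime ∧ ∀ i, 2 ≤ |(P i).eval (n : ℤ)|) =
        ((Finset.Icc 1 K).filter (fun n : ℕ => ∀ i, 2 ≤ |(P i).eval (n : ℤ)|)).filter (fun n : ℕ => n.Prime) := by
      rw [filter_filter]
      exact filter_congr fun n _ => and_comm
    rw [h12, sum_filter (p := fun n : ℕ => n.Prime)]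
    refine sum_congr rfl fun n _ => ?_
    rw [hvn]
    split_ifs
    · rw [one_mul]
    · rw [zero_mul]
  rw [hpi, hMQ] at hcnt
  have hAle : ∀ m : ℕ, A ≤ m → (K : ℝ) / L ^ m ≤ K / L ^ A := by
    intro m hm
    apply div_le_div_of_nonneg_left hK0.le (hLp0 _)
    exact hLmono _ _ hm
  refine ⟨?_, hcnt.trans (hAle _ (by omega)), ?_⟩
  · have h12 := (key K hKbig le_rfl).2
    simp only [hFn] at h12
    unfold LQ
    refine h12.trans ?_
    rw [← mul_div_assoc, div_le_div_iff₀ (hLp0 _) (hLp0 _)]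
    calc 6 * (K : ℝ) * L ^ A ≤ L * K * L ^ A := by gcongr; linarith
      _ = K * L ^ (A + 1) := by ring
      _ ≤ K * L ^ A3 := by
          have := hLmono (A + 1) A3 (by omega)
          gcongr
  intro hom
  -- lower bound for the main term
  have hsumdeg : ∑ i, (ext P i).natDegree ≤ k * (2 * DD) + 1 := by
    unfold ext
    rw [Fin.sum_univ_succ]
    simp only [Fin.cons_zero, Fin.cons_succ, natDegree_X]
    have h12 : ∑ i, (P i).natDegree ≤ k * (2 * DD) := by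
      calc ∑ i, (P i).natDegree ≤ ∑ _i : Fin k, 2 * DD := sum_le_sum fun i _ => (hdeg i).trans (by omega)
        _ = k * (2 * DD) := by rw [sum_const, card_univ, Fintype.card_fin, smul_eq_mul]
    omega
  have hsl := hslbH (ext P) hsumdeg hom
  rw [← hSdef] at hsl
  have hMP : (K : ℝ) / (4 * L) / (((DD : ℝ) + 3) * L) ^ k ≤ MQ P K := by
    unfold MQ
    have hsubs : ((Icc 1 K).filter (fun n : ℕ => n.Prime)) \ ((Finset.Icc 1 K).filter (fun n : ℕ => ∃ i, ((P i).eval (n : ℤ)).natAbs ^ 2 ≤ H ∨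
        ∃ a m : ℕ, 2 ≤ m ∧ a ^ m = ((P i).eval (n : ℤ)).natAbs)) ⊆
        (Finset.Icc 1 K).filter (fun n : ℕ => n.Prime ∧ ∀ i, 2 ≤ |(P i).eval (n : ℤ)|) := by
      intro n hn
      rw [Finset.mem_sdiff, mem_filter, mem_filter, not_and] at hn
      rw [mem_filter]
      refine ⟨hn.1.1, hn.1.2, fun i => ?_⟩
      have h7 := hn.2 hn.1.1
      push Not at h7
      have h8 := (h7 i).1
      by_contra h9
      push Not at h9
      have h10 : ((P i).eval (n : ℤ)).natAbs ≤ 1 := by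
        have : (((P i).eval (n : ℤ)).natAbs : ℤ) < 2 := by rw [Int.natCast_natAbs]; exact h9
        omega
      have h11 : ((P i).eval (n : ℤ)).natAbs ^ 2 ≤ 1 := Nat.pow_le_one_iff (by norm_num) |>.mpr h10
      omega
    have hprimes : (K : ℝ) / (2 * L) ≤ ((Icc 1 K).filter (fun n : ℕ => n.Prime)).card := by
      obtain ⟨t1, _⟩ := h7 K (by linarith) hKH
      have t2 := (abs_le.1 t1).1
      have t3 : ∑ n ∈ Icc 1 K, tht n ≤ L * ((Icc 1 K).filter (fun n : ℕ => n.Prime)).card := by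
        rw [card_filter]
        push_cast
        rw [mul_sum]
        refine sum_le_sum fun n hn => ?_
        rw [mem_Icc] at hn
        unfold tht
        split_ifs
        · rw [mul_one]
          exact Real.log_le_log (by exact_mod_cast hn.1) (by exact_mod_cast (hn.2.trans hKH))
        · rw [mul_zero]
      have t4 : (K : ℝ) / L ^ (A3 + k + 1) ≤ K / 2 := by
        apply div_le_div_of_nonneg_left hK0.le (by norm_num)
        calc (2 : ℝ) ≤ L := by linarith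
          _ = L ^ 1 := (pow_one L).symm
          _ ≤ L ^ (A3 + k + 1) := hLmono _ _ (by omega)
      rw [div_le_iff₀ (by positivity)]
      nlinarith
    have hcard : (K : ℝ) / (4 * L) ≤ ((Finset.Icc 1 K).filter (fun n : ℕ => n.Prime ∧ ∀ i, 2 ≤ |(P i).eval (n : ℤ)|)).card := by
      have h7 := card_le_card hsubs
      have h8 := le_card_sdiff ((Finset.Icc 1 K).filter (fun n : ℕ => ∃ i, ((P i).eval (n : ℤ)).natAbs ^ 2 ≤ H ∨
        ∃ a m : ℕ, 2 ≤ m ∧ a ^ m = ((P i).eval (n : ℤ)).natAbs)) ((Icc 1 K).filter (fun n : ℕ => n.Prime))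
      have h9 : ((((Icc 1 K).filter (fun n : ℕ => n.Prime)).card : ℕ) : ℝ) ≤
          ((Finset.Icc 1 K).filter (fun n : ℕ => n.Prime ∧ ∀ i, 2 ≤ |(P i).eval (n : ℤ)|)).card +
          ((Finset.Icc 1 K).filter (fun n : ℕ => ∃ i, ((P i).eval (n : ℤ)).natAbs ^ 2 ≤ H ∨
        ∃ a m : ℕ, 2 ≤ m ∧ a ^ m = ((P i).eval (n : ℤ)).natAbs)).card := by
        exact_mod_cast (by omega)
      rw [← hbadeq] at h9
      have h10 : (K : ℝ) / L ^ A3 ≤ K / (4 * L) := by
        apply div_le_div_of_nonneg_left hK0.le (by positivity)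
        calc 4 * L ≤ L * L := by gcongr; linarith
          _ = L ^ 2 := by ring
          _ ≤ L ^ A3 := hLmono _ _ (by omega)
      have h11 : (K : ℝ) / (2 * L) = K / (4 * L) + K / (4 * L) := by field_simp; norm_num
      linarith
    have hterm : ∀ n ∈ (Finset.Icc 1 K).filter (fun n : ℕ => n.Prime ∧ ∀ i, 2 ≤ |(P i).eval (n : ℤ)|),
        1 / (((DD : ℝ) + 3) * L) ^ k ≤ ∏ i, 1 / Real.log |(((P i).eval (n : ℤ) : ℤ) : ℝ)| := by
      intro n hn
      rw [mem_filter, mem_Icc] at hn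
      have h7 : ∏ _i : Fin k, (1 / (((DD : ℝ) + 3) * L)) ≤ ∏ i, 1 / Real.log |(((P i).eval (n : ℤ) : ℤ) : ℝ)| := by
        apply prod_le_prod (fun _ _ => by positivity)
        intro i _
        have h8 : (2 : ℝ) ≤ |(((P i).eval (n : ℤ) : ℤ) : ℝ)| := by exact_mod_cast hn.2.2 i
        have h9 : |(((P i).eval (n : ℤ) : ℤ) : ℝ)| ≤ (H : ℝ) ^ (DD + 3) := by
          have h10 := hval i n hn.1.1 hn.1.2
          have h11 : ((((P i).eval (n : ℤ)).natAbs : ℕ) : ℝ) = |(((P i).eval (n : ℤ) : ℤ) : ℝ)| := by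
            rw [Nat.cast_natAbs, Int.cast_abs]
          rw [← h11]
          exact_mod_cast h10
        have h12 : 0 < Real.log |(((P i).eval (n : ℤ) : ℤ) : ℝ)| := Real.log_pos (by linarith)
        apply one_div_le_one_div_of_le h12
        calc Real.log |(((P i).eval (n : ℤ) : ℤ) : ℝ)| ≤ Real.log ((H : ℝ) ^ (DD + 3)) :=
              Real.log_le_log (by linarith) h9
          _ = _ := by rw [Real.log_pow]; push_cast; ring
      rw [prod_const, card_univ, Fintype.card_fin, one_div, inv_pow, ← one_div] at h7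
      exact h7
    calc (K : ℝ) / (4 * L) / (((DD : ℝ) + 3) * L) ^ k = (K : ℝ) / (4 * L) * (1 / (((DD : ℝ) + 3) * L) ^ k) := by ring
      _ ≤ ((Finset.Icc 1 K).filter (fun n : ℕ => n.Prime ∧ ∀ i, 2 ≤ |(P i).eval (n : ℤ)|)).card * (1 / (((DD : ℝ) + 3) * L) ^ k) := by
          gcongr
      _ = ∑ n ∈ (Finset.Icc 1 K).filter (fun n : ℕ => n.Prime ∧ ∀ i, 2 ≤ |(P i).eval (n : ℤ)|), 1 / (((DD : ℝ) + 3) * L) ^ k := by
          rw [sum_const, nsmul_eq_mul]
      _ ≤ _ := sum_le_sum hterm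
  have hlow : (K : ℝ) / L ^ (k + 3) ≤ S * MQ P K := by
    have h7 : (K : ℝ) / L ^ (k + 2) ≤ MQ P K := by
      refine le_trans ?_ hMP
      rw [div_div, div_le_div_iff₀ (hLp0 _) (by positivity)]
      have h8 : 4 * L * (((DD : ℝ) + 3) * L) ^ k ≤ L ^ (k + 2) := by
        rw [mul_pow]
        calc 4 * L * (((DD : ℝ) + 3) ^ k * L ^ k) = L ^ (k + 1) * (4 * ((DD : ℝ) + 3) ^ k) := by ring
          _ ≤ L ^ (k + 1) * L := by gcongr; linarith
          _ = L ^ (k + 2) := by ring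
      exact mul_le_mul_of_nonneg_left h8 hK0.le
    calc (K : ℝ) / L ^ (k + 3) = (1 / L) * (K / L ^ (k + 2)) := by
          rw [show k + 3 = k + 2 + 1 by ring, pow_succ L (k + 2)]
          field_simp
      _ ≤ S * MQ P K := mul_le_mul hsl h7 (by positivity) hS0
  have hrel : (K : ℝ) / L ^ (A + k + 6) ≤ S * MQ P K / L ^ A := by
    have h7 : (K : ℝ) / L ^ (A + k + 6) = (K / L ^ (k + 6)) / L ^ A := by
      rw [div_div, ← pow_add]; congr 2; ring
    rw [h7]
    apply div_le_div_of_nonneg_right _ (hLp0 _).le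
    refine le_trans ?_ hlow
    apply div_le_div_of_nonneg_left hK0.le (hLp0 _)
    exact hLmono _ _ (by omega)
  refine ⟨hcnt.trans hrel, ?_⟩
  have h7 := (abs_le.mp hcnt).1
  have h8 : (K : ℝ) / L ^ (A + k + 6) ≤ K / L ^ (k + 3) / 2 := by
    rw [div_div]
    apply div_le_div_of_nonneg_left hK0.le (by positivity)
    calc L ^ (k + 3) * 2 ≤ L ^ (k + 3) * L := by gcongr; linarith
      _ = L ^ (k + 4) := by rw [← pow_succ]
      _ ≤ L ^ (A + k + 6) := hLmono _ _ (by omega)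
  have h9 : (K : ℝ) / L ^ (k + 5) ≤ K / L ^ (k + 3) / 2 := by
    rw [div_div]
    apply div_le_div_of_nonneg_left hK0.le (by positivity)
    calc L ^ (k + 3) * 2 ≤ L ^ (k + 3) * L := by gcongr; linarith
      _ = L ^ (k + 4) := by rw [← pow_succ]
      _ ≤ L ^ (k + 5) := hLmono _ _ (by omega)
  linarith

end Pool.Agent.Q236.CR
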