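import Pool.Agent.Q236.CR.MainAll
import Pool.Agent.Q236.CR.Fin
import Pool.Agent.Q14.CR.Eqd
import Pool.Agent.Q14.CR.Var
import Pool.Agent.Q14.CR.Cnt
import Pool.Agent.Q154.CR.ER
import Pool.Agent.Q151.CR.MT
import Pool.Agent.Q151.CR.TV
import Pool.Agent.Q151.CR.BAD
import Pool.Agent.Q151.CR.SLB

/-! Project CR: the formula of Bateman and Horn for almost all systems, without hypotheses. -/

set_option autoImplicit false

namespace Pool.Agent.Q236.CR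

open Finset Filter Polynomial
open Pool.Agent.H373R2.T7 (pz Vz lamz)

theorem mt_all : S_MT := Pool.Agent.Q151.CR.mt (Pool.Agent.Q14.CR.var Pool.Agent.Q14.CR.eqd)
  (Pool.Agent.Q154.CR.er Pool.Agent.Q14.CR.eqd)

open Classical in
theorem bh_all (k : ℕ) (s : Fin k → ℕ) (D A : ℕ) :
    ∃ E B H0 : ℕ, ∀ H : ℕ, H0 ≤ H → ∀ G : Fin k → ℤ[X], (∀ i, (G i).natDegree ≤ D) →
    (∀ i, ∀ n : ℕ, 1 ≤ n → n ≤ H → |(G i).eval (n : ℤ)| ≤ H * (n : ℤ) ^ (s i + 1)) →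
    ∃ Bad ⊆ SB k s H, (Bad.card : ℝ) ≤ (SB k s H).card / Real.log H ^ A ∧
    ∀ c ∈ SB k s H, c ∉ Bad → ∀ P : Fin k → ℤ[X], P = (fun i => PL (s i) (G i) (c i)) →
    ∀ K : ℕ, Real.log H ^ B ≤ K → (K : ℝ) * Real.log H ^ B ≤ H →
      |LP P K - K * sing P ⌊Real.log H ^ E⌋₊| ≤ K / Real.log H ^ A ∧
      |(piP P K : ℝ) - sing P ⌊Real.log H ^ E⌋₊ * MP P K| ≤ K / Real.log H ^ A ∧
      ((∀ p : ℕ, p.Prime → om P p < p) →
        |(piP P K : ℝ) - sing P ⌊Real.log H ^ E⌋₊ * MP P K| ≤ sing P ⌊Real.log H ^ E⌋₊ * MP P K / Real.log H ^ A ∧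
        (K : ℝ) / Real.log H ^ (k + 4) ≤ piP P K ∧ ∀ i, 1 ≤ (P i).natDegree → Irreducible (P i)) :=
  bh_of ob_all wl_all wm_all wv_all Pool.Agent.Q162.CR.tel Pool.Agent.Q24.CR.grd mt_all Pool.Agent.Q151.CR.bad
    (Pool.Agent.Q14.CR.cnt Pool.Agent.Q151.CR.tv) Pool.Agent.Q151.CR.slb k s D A

end Pool.Agent.Q236.CR
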