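import Pool.Agent.Q236.CR.Cor
import Pool.Agent.Q162.CR.TEL

/-! Project CR: one random polynomial against everything which is independent of it. -/

set_option autoImplicit false

namespace Pool.Agent.Q236.CR

open Finset Filter
open Pool.Agent.H373R2.T7 (pz Vz lamz)
open Pool.Agent.Q162.CR (sum_update card_BX_pos)

open Classical in
/-- one polynomial, `μ` or `λ`, families of weights -/
theorem one_fam (s : ℕ) (A : ℕ) : ∃ B H0 : ℕ, ∀ H : ℕ, H0 ≤ H → ∀ (t : Fin 3), t ≠ 0 → ∀ (g : ℕ → ℤ) (W : Finset (ℕ → ℂ)),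
    (∀ n : ℕ, 1 ≤ n → n ≤ H → |g n| ≤ H * (n : ℤ) ^ (s + 1)) →
    (W.card : ℝ) ≤ Real.log H ^ A → (∀ w ∈ W, ∀ n : ℕ, 1 ≤ n → n ≤ H → ‖w n‖ ≤ Real.log H ^ A) →
    ((((BX s H).filter (fun c => ∃ w ∈ W, ∃ K : ℕ, Real.log H ^ B ≤ K ∧ (K : ℝ) * Real.log H ^ B ≤ H ∧
      (K : ℝ) / Real.log H ^ A < ‖∑ n ∈ Icc 1 K, w n * FT t (pv s g c n).natAbs‖)).card : ℕ) : ℝ) ≤
      (BX s H).card / Real.log H ^ A := by
  obtain ⟨E0, B, h⟩ := main_fam 1 (fun _ => s) A
  obtain ⟨H0, h⟩ := h E0 le_rfl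
  refine ⟨B, H0, fun H hH t ht g W hg hW hw => ?_⟩
  have h1 := h H hH (fun _ => t) (fun _ => g) W (fun _ => hg) hW hw
  have hM : ∀ z n, MT t z n = 0 := fun z n => by unfold MT; rw [if_neg ht]
  simp only [Finset.univ_unique, Finset.prod_singleton, hM, sub_zero] at h1
  -- the two boxes
  have h2 : (SB 1 (fun _ => s) H).card = (BX s H).card := by
    unfold SB
    rw [Fintype.card_piFinset]
    simp
  rw [h2] at h1
  refine le_trans ?_ h1
  have h3 : ((BX s H).filter (fun c => ∃ w ∈ W, ∃ K : ℕ, Real.log H ^ B ≤ K ∧ (K : ℝ) * Real.log H ^ B ≤ H ∧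
      (K : ℝ) / Real.log H ^ A < ‖∑ n ∈ Icc 1 K, w n * FT t (pv s g c n).natAbs‖)).card ≤
      ((SB 1 (fun _ => s) H).filter (fun c => ∃ w ∈ W, ∃ K : ℕ, Real.log H ^ B ≤ K ∧ (K : ℝ) * Real.log H ^ B ≤ H ∧
      (K : ℝ) / Real.log H ^ A < ‖∑ n ∈ Icc 1 K, w n * FT t (pv s g (c default) n).natAbs‖)).card := by
    refine card_le_card_of_injOn (fun c => (fun _ => c)) ?_ ?_
    · intro c hc
      rw [mem_coe, mem_filter] at hc ⊢
      refine ⟨?_, hc.2⟩
      unfold SB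
      rw [Fintype.mem_piFinset]
      exact fun _ => hc.1
    · intro c _ c' _ hcc
      exact congrFun hcc (0 : Fin 1)
  exact_mod_cast h3

open Classical in
/-- Markov over one coordinate -/
lemma fub (k : ℕ) (s : Fin k → ℕ) (H : ℕ) (j : Fin k) (Q : ((i : Fin k) → Fin (s i + 2) → ℤ) → Prop) (δ : ℝ)
    (h : ∀ c ∈ SB k s H, ((((BX (s j) H).filter (fun u => Q (Function.update c j u))).card : ℕ) : ℝ) ≤
      (BX (s j) H).card * δ) :
    ((((SB k s H).filter Q).card : ℕ) : ℝ) ≤ (SB k s H).card * δ := by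
  have h1 := sum_update (fun i => BX (s i) H) j (fun c => if Q c then (1 : ℝ) else 0)
  have h2 : ∀ c ∈ SB k s H, ∑ u ∈ BX (s j) H, (if Q (Function.update c j u) then (1 : ℝ) else 0) ≤
      (BX (s j) H).card * δ := by
    intro c hc
    rw [← Finset.sum_filter, Finset.sum_const, nsmul_eq_mul, mul_one]
    exact h c hc
  have h3 : ((BX (s j) H).card : ℝ) * (((SB k s H).filter Q).card : ℕ) ≤
      ((BX (s j) H).card : ℝ) * ((SB k s H).card * δ) := by
    have h4 : ((((SB k s H).filter Q).card : ℕ) : ℝ) = ∑ c ∈ SB k s H, (if Q c then (1 : ℝ) else 0) := by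
      rw [← Finset.sum_filter, Finset.sum_const, nsmul_eq_mul, mul_one]
    rw [h4]
    unfold SB at h2 ⊢
    rw [h1]
    refine (Finset.sum_le_sum h2).trans ?_
    rw [Finset.sum_const, nsmul_eq_mul]
    apply le_of_eq
    ring
  exact le_of_mul_le_mul_left h3 (card_BX_pos _ _)

open Classical in
/-- one coordinate of a system of random polynomials (any number of them, bounded degrees) against every function of the
other coordinates -/
theorem one_sys (D : ℕ) (A : ℕ) : ∃ B H0 : ℕ, ∀ H : ℕ, H0 ≤ H → ∀ (k : ℕ) (s : Fin k → ℕ), (∀ i, s i ≤ D) →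
    ∀ (j : Fin k) (t : Fin 3), t ≠ 0 →
    ∀ (g : ((i : Fin k) → Fin (s i + 2) → ℤ) → ℕ → ℤ) (W : Finset (((i : Fin k) → Fin (s i + 2) → ℤ) → ℕ → ℂ)),
    (∀ c u, g (Function.update c j u) = g c) →
    (∀ c ∈ SB k s H, ∀ n : ℕ, 1 ≤ n → n ≤ H → |g c n| ≤ H * (n : ℤ) ^ (s j + 1)) →
    (W.card : ℝ) ≤ Real.log H ^ A →
    (∀ w ∈ W, ∀ c u, w (Function.update c j u) = w c) →
    (∀ w ∈ W, ∀ c ∈ SB k s H, ∀ n : ℕ, 1 ≤ n → n ≤ H → ‖w c n‖ ≤ Real.log H ^ A) →
    ((((SB k s H).filter (fun c => ∃ w ∈ W, ∃ K : ℕ, Real.log H ^ B ≤ K ∧ (K : ℝ) * Real.log H ^ B ≤ H ∧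
      (K : ℝ) / Real.log H ^ A < ‖∑ n ∈ Icc 1 K, w c n * FT t (pv (s j) (g c) (c j) n).natAbs‖)).card : ℕ) : ℝ) ≤
      (SB k s H).card / Real.log H ^ A := by
  have h0 := fun j : ℕ => one_fam j A
  choose B0 H0 h0 using h0
  obtain ⟨H1, h1⟩ := evL _ (eventually_ge_atTop (3 : ℝ))
  refine ⟨∑ j ∈ range (D + 1), B0 j, H1 + ∑ j ∈ range (D + 1), H0 j, fun H hH k s hs j t ht g W hg1 hg2 hW hw1 hw2 => ?_⟩
  have hsj : s j ∈ range (D + 1) := by
    rw [mem_range]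
    have := hs j
    omega
  have hB : B0 (s j) ≤ ∑ j ∈ range (D + 1), B0 j := single_le_sum (f := B0) (fun _ _ => Nat.zero_le _) hsj
  have hH' : H0 (s j) ≤ ∑ j ∈ range (D + 1), H0 j := single_le_sum (f := H0) (fun _ _ => Nat.zero_le _) hsj
  have hL3 := h1 H (by omega)
  have hL1 : 1 ≤ Real.log H := by linarith
  have key := fub k s H j (fun c => ∃ w ∈ W, ∃ K : ℕ, Real.log H ^ (∑ j ∈ range (D + 1), B0 j) ≤ K ∧
      (K : ℝ) * Real.log H ^ (∑ j ∈ range (D + 1), B0 j) ≤ H ∧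
      (K : ℝ) / Real.log H ^ A < ‖∑ n ∈ Icc 1 K, w c n * FT t (pv (s j) (g c) (c j) n).natAbs‖) (1 / Real.log H ^ A) ?_
  · rw [mul_one_div] at key
    convert key
  · intro c hc
    have h3 := h0 (s j) H (by omega) t ht (g c) (W.image (fun w => w c)) (hg2 c hc) ?_ ?_
    · rw [mul_one_div]
      refine le_trans ?_ h3
      have h4 : ((BX (s j) H).filter (fun u => ∃ w ∈ W, ∃ K : ℕ, Real.log H ^ (∑ j ∈ range (D + 1), B0 j) ≤ K ∧
          (K : ℝ) * Real.log H ^ (∑ j ∈ range (D + 1), B0 j) ≤ H ∧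
          (K : ℝ) / Real.log H ^ A < ‖∑ n ∈ Icc 1 K, w (Function.update c j u) n *
            FT t (pv (s j) (g (Function.update c j u)) (Function.update c j u j) n).natAbs‖)).card ≤
          ((BX (s j) H).filter (fun c' => ∃ w ∈ W.image (fun w => w c), ∃ K : ℕ, Real.log H ^ (B0 (s j)) ≤ K ∧
          (K : ℝ) * Real.log H ^ (B0 (s j)) ≤ H ∧
          (K : ℝ) / Real.log H ^ A < ‖∑ n ∈ Icc 1 K, w n * FT t (pv (s j) (g c) c' n).natAbs‖)).card := by
        apply card_le_card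
        intro u hu
        rw [mem_filter] at hu ⊢
        refine ⟨hu.1, ?_⟩
        obtain ⟨w, hwW, K, hK1, hK2, hK3⟩ := hu.2
        refine ⟨w c, mem_image_of_mem _ hwW, K, ?_, ?_, ?_⟩
        · exact (pow_le_pow_right₀ hL1 hB).trans hK1
        · refine le_trans ?_ hK2
          gcongr
        · rw [hw1 w hwW c u, hg1 c u, Function.update_self] at hK3
          exact hK3
      refine Nat.cast_le.2 ?_
      convert h4
    · refine le_trans ?_ hW
      exact_mod_cast card_image_le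
    · intro w hw n hn1 hn2
      rw [mem_image] at hw
      obtain ⟨w', hw', rfl⟩ := hw
      exact hw2 w' hw' c hc n hn1 hn2

end Pool.Agent.Q236.CR
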