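import Mathlib
import Pool.Agent.Q236.CR.Cor2

/-! Project CR: products of factors `Λ` and `λ`, all sub-products at once. -/

set_option autoImplicit false

namespace Pool.Agent.Q236.CR.Hyb

open Finset

/-- the value at `n` of the function `g` plus the polynomial of degree at most `d` with coefficients `c 0, ..., c d` -/
def val (d : ℕ) (g : ℕ → ℤ) (c : Fin (d + 1) → ℤ) (n : ℕ) : ℤ := g n + ∑ l, c l * (n : ℤ) ^ (l : ℕ)

/-- the systems of coefficients of polynomials of degrees at most `d i`, all coefficients in `[-H, H]` -/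
noncomputable def Box (k : ℕ) (d : Fin k → ℕ) (H : ℕ) : Finset ((i : Fin k) → Fin (d i + 1) → ℤ) :=
  Fintype.piFinset (fun i => Fintype.piFinset (fun _ : Fin (d i + 1) => Icc (-(H : ℤ)) H))

open Classical in
theorem hyb (k0 D A : ℕ) :
    ∃ B H0 : ℕ, ∀ H : ℕ, H0 ≤ H → ∀ (r : ℕ) (d : Fin r → ℕ), (2 : ℝ) ^ r ≤ Real.log H ^ A → (∀ i, 1 ≤ d i ∧ d i ≤ D) →
    ∀ g : Fin r → ℕ → ℤ, (∀ i, ∀ n : ℕ, 1 ≤ n → n ≤ H → |g i n| ≤ H * (n : ℤ) ^ d i) →
    ∀ W : Finset (ℕ → ℂ), (W.card : ℝ) ≤ Real.log H ^ A →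
      (∀ w ∈ W, ∀ n : ℕ, 1 ≤ n → n ≤ H → ‖w n‖ ≤ Real.log H ^ A) →
    ∃ Bad ⊆ Box r d H, (Bad.card : ℝ) ≤ (Box r d H).card / Real.log H ^ A ∧
    ∀ c ∈ Box r d H, c ∉ Bad → ∀ I J : Finset (Fin r), I.card ≤ k0 → Disjoint I J → J.Nonempty → ∀ w ∈ W,
    ∀ K : ℕ, Real.log H ^ B ≤ K → (K : ℝ) * Real.log H ^ B ≤ H →
      ‖∑ n ∈ Icc 1 K, w n *
        ((∏ i ∈ I, ((ArithmeticFunction.vonMangoldt (val (d i) (g i) (c i) n).natAbs : ℝ) : ℂ)) *
          ∏ j ∈ J, ((ArithmeticFunction.liouville (val (d j) (g j) (c j) n).natAbs : ℤ) : ℂ))‖ ≤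
        K / Real.log H ^ A := by
  obtain ⟨B, H0, h⟩ := Pool.Agent.Q236.CR.one_sys D (3 * A + k0 + 2)
  obtain ⟨H1, h1⟩ := Pool.Agent.Q236.CR.evL _ (Filter.eventually_ge_atTop (((D : ℝ) + 3) ^ k0 + 8))
  refine ⟨B, max (max H0 H1) (4 * (D + 3)), fun H hH r d hr hd' g hg W hW hw => ?_⟩
  obtain ⟨s, rfl⟩ : ∃ s : Fin r → ℕ, d = fun i => s i + 1 :=
    ⟨fun i => d i - 1, funext fun i => (Nat.sub_add_cancel (hd' i).1).symm⟩
  have hD : ∀ i, s i ≤ D := fun i => by have h3 : s i + 1 ≤ D := (hd' i).2; omega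
  have hLk := h1 H (by omega)
  have hhH := h H (by omega) r s hD
  have hH4 : 4 * (D + 3) ≤ H := by omega
  clear h h1
  set L := Real.log H with hL
  have hp2 : (1 : ℝ) ≤ ((D : ℝ) + 3) ^ k0 := one_le_pow₀ (by have : (0 : ℝ) ≤ D := Nat.cast_nonneg _; linarith)
  have hL8 : 8 ≤ L := by linarith
  have hL0 : 0 < L := by linarith
  have hL1 : 1 ≤ L := by linarith
  have hLp : ∀ m n : ℕ, m ≤ n → L ^ m ≤ L ^ n := fun m n h => pow_le_pow_right₀ hL1 h
  have hr2 : (r : ℝ) ≤ L ^ A := by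
    have h3 : r ≤ 2 ^ r := Nat.lt_two_pow_self.le
    have h4 : (r : ℝ) ≤ (2 : ℝ) ^ r := by exact_mod_cast h3
    exact h4.trans hr
  -- the family of weights of the coordinate `j`
  obtain ⟨Φ, hΦ⟩ : ∃ Φ : Fin r → (Finset (Fin r) × Finset (Fin r)) × (ℕ → ℂ) →
      ((i : Fin r) → Fin (s i + 2) → ℤ) → ℕ → ℂ, Φ = fun j x c n => x.2 n *
        ((∏ i ∈ x.1.1.erase j, ((ArithmeticFunction.vonMangoldt (val (s i + 1) (g i) (c i) n).natAbs : ℝ) : ℂ)) *
          ∏ i ∈ x.1.2.erase j, ((ArithmeticFunction.liouville (val (s i + 1) (g i) (c i) n).natAbs : ℤ) : ℂ)) := ⟨_, rfl⟩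
  obtain ⟨Fam, hFam⟩ : ∃ Fam : Fin r → Finset (((i : Fin r) → Fin (s i + 2) → ℤ) → ℕ → ℂ),
    Fam = fun j => (((univ.filter (fun I : Finset (Fin r) => I.card ≤ k0)) ×ˢ univ) ×ˢ W).image (Φ j) := ⟨_, rfl⟩
  have hval : ∀ (i : Fin r) (c : Fin (s i + 2) → ℤ) (n : ℕ), val (s i + 1) (g i) c n =
      Pool.Agent.Q236.CR.pv (s i) (g i) c n := fun i c n => rfl
  have hbd : ∀ c ∈ Pool.Agent.Q236.CR.SB r s H, ∀ i, ∀ n : ℕ, 1 ≤ n → n ≤ H →
      Real.log ((val (s i + 1) (g i) (c i) n).natAbs : ℕ) ≤ (D + 3) * L := by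
    intro c hc i n hn1 hn2
    have hc' : c i ∈ Pool.Agent.Q236.CR.BX (s i) H := (Fintype.mem_piFinset.mp hc) i
    have h3 := Pool.Agent.Q236.CR.pv_bd (s i) H n (g i) (fun m h4 h5 => hg i m h4 (h5.trans hn2)) (c i) hc' n
      (by rw [mem_Icc]; omega)
    have h4 := (Pool.Agent.Q236.CR.XX_facts (s i) H n (by have := hD i; omega) hn1 hn2).2
    have h5 : (val (s i + 1) (g i) (c i) n).natAbs ≤ H ^ (D + 3) := by
      rw [hval]
      refine h3.trans (h4.trans ?_)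
      apply Nat.pow_le_pow_right (by omega)
      have := hD i
      omega
    have h6 : ((H ^ (D + 3) : ℕ) : ℝ) = (H : ℝ) ^ (D + 3) := by push_cast; rfl
    rcases Nat.eq_zero_or_pos (val (s i + 1) (g i) (c i) n).natAbs with h7 | h7
    · rw [h7]
      simp only [Nat.cast_zero, Real.log_zero]
      positivity
    · calc Real.log ((val (s i + 1) (g i) (c i) n).natAbs : ℕ) ≤ Real.log ((H : ℝ) ^ (D + 3)) := by
            apply Real.log_le_log (by exact_mod_cast h7)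
            rw [← h6]
            exact_mod_cast h5
        _ = (D + 3) * L := by rw [Real.log_pow]; push_cast; ring
  have hvM : ∀ n : ℕ, ‖((ArithmeticFunction.vonMangoldt n : ℝ) : ℂ)‖ ≤ Real.log n := by
    intro n
    rw [Complex.norm_real, Real.norm_of_nonneg ArithmeticFunction.vonMangoldt_nonneg]
    exact ArithmeticFunction.vonMangoldt_le_log
  have hlv : ∀ n : ℕ, ‖((ArithmeticFunction.liouville n : ℤ) : ℂ)‖ ≤ 1 := by
    intro n
    have h2 : |ArithmeticFunction.liouville n| ≤ 1 := by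
      rcases Nat.eq_zero_or_pos n with h3 | h3
      · subst h3; simp
      · rw [ArithmeticFunction.liouville_apply h3.ne', abs_pow]
        simp
    rw [Complex.norm_intCast]
    exact_mod_cast h2
  have hΦbd : ∀ j, ∀ w ∈ Fam j, ∀ c ∈ Pool.Agent.Q236.CR.SB r s H, ∀ n : ℕ, 1 ≤ n → n ≤ H → ‖w c n‖ ≤ L ^ (3 * A + k0 + 2) := by
    intro j w hwF c hc n hn1 hn2
    rw [hFam] at hwF
    rw [mem_image] at hwF
    obtain ⟨⟨⟨I, J⟩, w0⟩, hx, rfl⟩ := hwF
    rw [mem_product, mem_product, mem_filter] at hx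
    have hw0 := hw w0 hx.2 n hn1 hn2
    have hIc : I.card ≤ k0 := hx.1.1.2
    rw [hΦ]
    simp only
    rw [norm_mul, norm_mul, norm_prod, norm_prod]
    have hDn : (0 : ℝ) ≤ D := Nat.cast_nonneg _
    have h3 : ∏ i ∈ I.erase j, ‖((ArithmeticFunction.vonMangoldt (val (s i + 1) (g i) (c i) n).natAbs : ℝ) : ℂ)‖ ≤
        ((D + 3) * L) ^ k0 := by
      calc _ ≤ ∏ i ∈ I.erase j, ((D + 3) * L) := by
            apply prod_le_prod (fun _ _ => norm_nonneg _)
            intro i _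
            exact (hvM _).trans (hbd c hc i n hn1 hn2)
        _ = ((D + 3) * L) ^ (I.erase j).card := by rw [prod_const]
        _ ≤ ((D + 3) * L) ^ k0 := by
            apply pow_le_pow_right₀
            · nlinarith
            · exact (card_le_card (erase_subset _ _)).trans hIc
    have h4 : ∏ i ∈ J.erase j, ‖((ArithmeticFunction.liouville (val (s i + 1) (g i) (c i) n).natAbs : ℤ) : ℂ)‖ ≤ 1 :=
      prod_le_one (fun _ _ => norm_nonneg _) (fun i _ => hlv _)
    have h5 : ((D + 3) * L) ^ k0 ≤ L ^ (k0 + 1) := by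
      rw [mul_pow, pow_succ]
      have : 0 ≤ L ^ k0 := by positivity
      nlinarith
    calc ‖w0 n‖ * (_ * _) ≤ L ^ A * (((D + 3) * L) ^ k0 * 1) := by
          apply mul_le_mul hw0 _ (by positivity) (by positivity)
          apply mul_le_mul h3 h4 (prod_nonneg fun _ _ => norm_nonneg _)
          positivity
      _ ≤ L ^ A * (L ^ (k0 + 1) * 1) := by gcongr
      _ = L ^ (A + k0 + 1) := by ring
      _ ≤ L ^ (3 * A + k0 + 2) := hLp _ _ (by omega)
  have hFcard : ∀ j, ((Fam j).card : ℝ) ≤ L ^ (3 * A + k0 + 2) := by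
    intro j
    have h3 : (Fam j).card ≤ (2 ^ r * 2 ^ r) * W.card := by
      rw [hFam]
      refine card_image_le.trans ?_
      rw [card_product, card_product]
      refine Nat.mul_le_mul (Nat.mul_le_mul ?_ ?_) le_rfl
      · refine (card_filter_le _ _).trans ?_
        simp [Fintype.card_finset]
      · simp [Fintype.card_finset]
    calc ((Fam j).card : ℝ) ≤ ((2 ^ r * 2 ^ r) * W.card : ℕ) := by exact_mod_cast h3
      _ = (2 : ℝ) ^ r * (2 : ℝ) ^ r * W.card := by push_cast; ring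
      _ ≤ L ^ A * L ^ A * L ^ A := by gcongr
      _ = L ^ (3 * A) := by ring
      _ ≤ L ^ (3 * A + k0 + 2) := hLp _ _ (by omega)
  have hup : ∀ j, ∀ w ∈ Fam j, ∀ c u, w (Function.update c j u) = w c := by
    intro j w hwF c u
    rw [hFam] at hwF
    rw [mem_image] at hwF
    obtain ⟨⟨⟨I, J⟩, w0⟩, hx, rfl⟩ := hwF
    rw [hΦ]
    funext n
    simp only
    congr 1
    congr 1
    · refine prod_congr rfl fun i hi => ?_
      rw [Function.update_of_ne (ne_of_mem_erase hi)]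
    · refine prod_congr rfl fun i hi => ?_
      rw [Function.update_of_ne (ne_of_mem_erase hi)]
  have h2 : (2 : Fin 3) ≠ 0 := by decide
  have hone := fun j : Fin r => hhH j 2 h2 (fun _ => g j) (Fam j) (fun _ _ => rfl) (fun _ _ => hg j) (hFcard j) (hup j)
    (hΦbd j)
  refine ⟨univ.biUnion (fun j => (Pool.Agent.Q236.CR.SB r s H).filter (fun c => ∃ w ∈ Fam j, ∃ K : ℕ,
      L ^ B ≤ K ∧ (K : ℝ) * L ^ B ≤ H ∧
      (K : ℝ) / L ^ (3 * A + k0 + 2) < ‖∑ n ∈ Icc 1 K, w c n *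
        Pool.Agent.Q236.CR.FT 2 (Pool.Agent.Q236.CR.pv (s j) (g j) (c j) n).natAbs‖)), ?_, ?_, ?_⟩
  · intro c hc
    rw [mem_biUnion] at hc
    obtain ⟨j, _, hc⟩ := hc
    exact (mem_filter.1 hc).1
  · have h3 : (Box r (fun i => s i + 1) H) = Pool.Agent.Q236.CR.SB r s H := rfl
    rw [h3]
    refine (Nat.cast_le.2 card_biUnion_le).trans ?_
    rw [Nat.cast_sum]
    refine (sum_le_sum fun j _ => hone j).trans ?_
    rw [sum_const, nsmul_eq_mul, card_univ, Fintype.card_fin]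
    have h4 : (0 : ℝ) ≤ (Pool.Agent.Q236.CR.SB r s H).card := Nat.cast_nonneg _
    calc (r : ℝ) * ((Pool.Agent.Q236.CR.SB r s H).card / L ^ (3 * A + k0 + 2)) ≤
        L ^ A * ((Pool.Agent.Q236.CR.SB r s H).card / L ^ (3 * A + k0 + 2)) := by
          gcongr
      _ = (Pool.Agent.Q236.CR.SB r s H).card * (L ^ A / L ^ (3 * A + k0 + 2)) := by ring
      _ ≤ (Pool.Agent.Q236.CR.SB r s H).card * (1 / L ^ A) := by
          apply mul_le_mul_of_nonneg_left _ h4
          rw [div_le_div_iff₀ (by positivity) (by positivity), one_mul, ← pow_add]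
          exact hLp _ _ (by omega)
      _ = _ := by ring
  · intro c hc hcb I J hI hIJ hJ w hwW K hK1 hK2
    obtain ⟨j, hj⟩ := hJ
    by_contra hcon
    apply hcb
    rw [mem_biUnion]
    refine ⟨j, mem_univ _, ?_⟩
    rw [mem_filter]
    refine ⟨hc, Φ j ((I, J), w), ?_, K, hK1, hK2, ?_⟩
    · rw [hFam]
      exact mem_image_of_mem _ (by simp [hwW, hI])
    · push Not at hcon
      have hjI : j ∉ I := fun hjI => (disjoint_left.1 hIJ hjI hj)
      have h3 : ∑ n ∈ Icc 1 K, Φ j ((I, J), w) c n *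
          Pool.Agent.Q236.CR.FT 2 (Pool.Agent.Q236.CR.pv (s j) (g j) (c j) n).natAbs =
          ∑ n ∈ Icc 1 K, w n *
          ((∏ i ∈ I, ((ArithmeticFunction.vonMangoldt (val (s i + 1) (g i) (c i) n).natAbs : ℝ) : ℂ)) *
          ∏ j ∈ J, ((ArithmeticFunction.liouville (val (s j + 1) (g j) (c j) n).natAbs : ℤ) : ℂ)) := by
        refine sum_congr rfl fun n _ => ?_
        rw [hΦ]
        simp only
        rw [erase_eq_of_notMem hjI, ← mul_prod_erase J _ hj]
        have h5 : Pool.Agent.Q236.CR.FT 2 (Pool.Agent.Q236.CR.pv (s j) (g j) (c j) n).natAbs =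
          ((ArithmeticFunction.liouville (val (s j + 1) (g j) (c j) n).natAbs : ℤ) : ℂ) := by
          unfold Pool.Agent.Q236.CR.FT Pool.Agent.Q236.CR.fV
          have h1 : (2 : Fin 3) ≠ 1 := by decide
          rw [if_neg h2, if_neg h1]
          rfl
        rw [h5]
        ring
      rw [h3]
      refine lt_of_le_of_lt ?_ hcon
      exact div_le_div_of_nonneg_left (Nat.cast_nonneg _) (by positivity) (hLp _ _ (by omega))

end Pool.Agent.Q236.CR.Hyb
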