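import Pool.Agent.Q246.CR.Dpl2
import Pool.Agent.Q229.CR.HB

/-! Project CR: the mean square of the Dirichlet polynomials. This is the proof of `Pool.Agent.Q246.CR.dpl` (helper246) with
the corrected form of Heath-Brown's identity (`1 ≤ k`) proved by helper229. -/

set_option autoImplicit false

namespace Pool.Agent.Q236.CR

open Finset Filter MeasureTheory
open Pool.Agent.Q246.CR

theorem dpl' : S_MVG → S_PW → S_CHR → S_FD → S_DPL := by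
  intro hMVG hPW hCHR hFD B U
  have hHB := Pool.Agent.Q229.CR.hb'
  have hp : ∀ r : ℕ, ∃ Cm : ℕ, ∀ C₀ : ℕ, Cm ≤ C₀ → ∃ C₁ X₀ : ℕ, 1 ≤ r → r ≤ 6 →
      ∀ X : ℕ, X₀ ≤ X → ∀ (q : ℕ) (_ : NeZero q), (q : ℝ) ≤ Real.log X ^ B →
      ∀ χ : DirichletCharacter ℂ q, ∀ T : ℝ, T * Real.log X ^ C₁ ≤ (X : ℝ) ^ (2 / 3 : ℝ) →
      Real.log X ^ C₀ ≤ T → ∀ z : ℕ, (z : ℝ) ≤ 8 * (X : ℝ) ^ (1 / 3 : ℝ) →
      ∀ F : Fin r → ℕ → ℂ, (∀ i, Typ (fun n => χ (n : ZMod q)) z (F i)) → ∀ x1 x2 : ℕ, X ≤ x1 →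
      x2 ≤ 9 * X →
      ∫ τ in (Real.log X ^ C₀)..T, ‖PD F x1 x2 τ‖ ^ 2 ≤ (X : ℝ) ^ 2 / Real.log X ^ (U + 1) ∧
      ∫ τ in (-T)..(-Real.log X ^ C₀), ‖PD F x1 x2 τ‖ ^ 2 ≤ (X : ℝ) ^ 2 / Real.log X ^ (U + 1) := by
    intro r
    by_cases hr : 1 ≤ r ∧ r ≤ 6
    · obtain ⟨Cm, h⟩ := piece hMVG hPW hCHR hFD B (U + 1) r hr.1 hr.2
      refine ⟨Cm, fun C₀ hC₀ => ?_⟩
      obtain ⟨C₁, X₀, h⟩ := h C₀ hC₀
      exact ⟨C₁, X₀, fun _ _ => h⟩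
    · exact ⟨0, fun C₀ _ => ⟨0, 0, fun h1 h2 => absurd ⟨h1, h2⟩ hr⟩⟩
  choose Cm hCm using hp
  refine ⟨∑ r ∈ Finset.range 7, Cm r, fun C₀ hC₀ => ?_⟩
  have hle : ∀ r ∈ Finset.range 7, Cm r ≤ C₀ := fun r hr =>
    (Finset.single_le_sum (f := Cm) (fun _ _ => Nat.zero_le _) hr).trans hC₀
  have hp2 : ∀ r : ℕ, ∃ C₁ X₀ : ℕ, 1 ≤ r → r ≤ 6 →
      ∀ X : ℕ, X₀ ≤ X → ∀ (q : ℕ) (_ : NeZero q), (q : ℝ) ≤ Real.log X ^ B →
      ∀ χ : DirichletCharacter ℂ q, ∀ T : ℝ, T * Real.log X ^ C₁ ≤ (X : ℝ) ^ (2 / 3 : ℝ) →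
      Real.log X ^ C₀ ≤ T → ∀ z : ℕ, (z : ℝ) ≤ 8 * (X : ℝ) ^ (1 / 3 : ℝ) →
      ∀ F : Fin r → ℕ → ℂ, (∀ i, Typ (fun n => χ (n : ZMod q)) z (F i)) → ∀ x1 x2 : ℕ, X ≤ x1 →
      x2 ≤ 9 * X →
      ∫ τ in (Real.log X ^ C₀)..T, ‖PD F x1 x2 τ‖ ^ 2 ≤ (X : ℝ) ^ 2 / Real.log X ^ (U + 1) ∧
      ∫ τ in (-T)..(-Real.log X ^ C₀), ‖PD F x1 x2 τ‖ ^ 2 ≤
        (X : ℝ) ^ 2 / Real.log X ^ (U + 1) := by
    intro r
    by_cases hr : 1 ≤ r ∧ r ≤ 6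
    · obtain ⟨C₁, X₀, h⟩ := hCm r C₀ (hle r (Finset.mem_range.2 (by omega)))
      exact ⟨C₁, X₀, h⟩
    · exact ⟨0, 0, fun h1 h2 => absurd ⟨h1, h2⟩ hr⟩
  choose C₁ X₀ hH using hp2
  obtain ⟨X1, hX1⟩ : ∃ X1 : ℕ, ∀ X : ℕ, X1 ≤ X → 81 ≤ Real.log X := by
    have := (Real.tendsto_log_atTop.comp tendsto_natCast_atTop_atTop).eventually_ge_atTop 81
    exact eventually_atTop.1 this
  refine ⟨∑ r ∈ Finset.range 7, C₁ r, X1 + 1 + ∑ r ∈ Finset.range 7, X₀ r,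
    fun X hX q _ hq χ T hT1 hT2 x1 x2 hx1 hx2 c hc => ?_⟩
  have hL := hX1 X (by omega)
  have hX1' : 1 ≤ X := by omega
  have hXr : (1 : ℝ) ≤ X := by exact_mod_cast hX1'
  have hX0r : ∀ r ∈ Finset.range 7, X₀ r ≤ X := fun r hr =>
    (Finset.single_le_sum (f := X₀) (fun _ _ => Nat.zero_le _) hr).trans (by omega)
  have hL1 : 1 ≤ Real.log X := by linarith
  have hT0 : 0 ≤ T := le_trans (by positivity) hT2
  have hT1r : ∀ r ∈ Finset.range 7, T * Real.log X ^ C₁ r ≤ (X : ℝ) ^ (2 / 3 : ℝ) := fun r hr => by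
    refine le_trans (mul_le_mul_of_nonneg_left (pow_le_pow_right₀ hL1 ?_) hT0) hT1
    exact Finset.single_le_sum (f := C₁) (fun _ _ => Nat.zero_le _) hr
  -- the parameter `z`
  obtain ⟨Y, hYd⟩ : ∃ Y, Y = (X : ℝ) ^ (1 / 3 : ℝ) := ⟨_, rfl⟩
  have hY3 : (X : ℝ) = Y ^ 3 := by
    rw [hYd, ← Real.rpow_natCast, ← Real.rpow_mul (by linarith)]
    norm_num
  have hY1 : 1 ≤ Y := by rw [hYd]; exact Real.one_le_rpow hXr (by norm_num)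
  obtain ⟨z, hzd⟩ : ∃ z : ℕ, z = ⌈3 * Y⌉₊ := ⟨_, rfl⟩
  have hz1 : 3 * Y ≤ z := by rw [hzd]; exact Nat.le_ceil _
  have hz2 : (z : ℝ) ≤ 8 * (X : ℝ) ^ (1 / 3 : ℝ) := by
    have := Nat.ceil_lt_add_one (show 0 ≤ 3 * Y by linarith)
    rw [← hzd] at this
    rw [← hYd]
    linarith
  have hz3 : 9 * X ≤ z ^ 3 := by
    have h1 : (3 * Y) ^ 3 ≤ (z : ℝ) ^ 3 := by gcongr
    have h2 : (9 * X : ℝ) ≤ (z : ℝ) ^ 3 := by
      rw [hY3]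
      refine le_trans ?_ h1
      have : 0 ≤ Y ^ 3 := by positivity
      nlinarith
    exact_mod_cast h2
  have hgm : ∀ m n : ℕ, χ ((m * n : ℕ) : ZMod q) = χ (m : ZMod q) * χ (n : ZMod q) := by
    intro m n
    rw [Nat.cast_mul, map_mul]
  have hg1 : χ ((1 : ℕ) : ZMod q) = 1 := by simp
  have hfin : 81 * ((X : ℝ) ^ 2 / Real.log X ^ (U + 1)) ≤ (X : ℝ) ^ 2 / Real.log X ^ U := by
    have h1 : 81 * ((X : ℝ) ^ 2 / Real.log X ^ (U + 1)) ≤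
        Real.log X * ((X : ℝ) ^ 2 / Real.log X ^ (U + 1)) :=
      mul_le_mul_of_nonneg_right hL (by positivity)
    refine h1.trans (le_of_eq ?_)
    rw [pow_succ (Real.log X) U]
    field_simp
  rcases hc with rfl | rfl
  · have hid : ∀ n, 1 ≤ n → n ≤ x2 → cL χ n = ∑ j ∈ Finset.range 3,
        (-1 : ℂ) ^ j * ((3 : ℕ).choose (j + 1) : ℂ) * TS (HBL (fun n => χ (n : ZMod q)) z j) x2 n :=
      fun n h1 h2 => (hHB (fun n => χ (n : ZMod q)) hgm hg1 3 z x2 n (by norm_num) h1 h2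
        (h2.trans (hx2.trans hz3))).1
    have hr : ∀ j < 3, 1 ≤ (j + 1) + (j + 1) ∧ (j + 1) + (j + 1) ≤ 6 := fun j hj => by omega
    constructor
    · refine (comb (cL χ) (fun j => (j + 1) + (j + 1)) (fun j => HBL (fun n => χ (n : ZMod q)) z j)
        x1 x2 hid _ _ _ hT2 fun j hj => ?_).trans hfin
      exact (hH _ (hr j hj).1 (hr j hj).2 X (hX0r _ (Finset.mem_range.2 (by omega))) q inferInstance hq χ T
        (hT1r _ (Finset.mem_range.2 (by omega))) hT2 z hz2 _ (typ_HBL _ z j) x1 x2 hx1 hx2).1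
    · refine (comb (cL χ) (fun j => (j + 1) + (j + 1)) (fun j => HBL (fun n => χ (n : ZMod q)) z j)
        x1 x2 hid _ _ _ (neg_le_neg hT2) fun j hj => ?_).trans hfin
      exact (hH _ (hr j hj).1 (hr j hj).2 X (hX0r _ (Finset.mem_range.2 (by omega))) q inferInstance hq χ T
        (hT1r _ (Finset.mem_range.2 (by omega))) hT2 z hz2 _ (typ_HBL _ z j) x1 x2 hx1 hx2).2
  · have hid : ∀ n, 1 ≤ n → n ≤ x2 → cM χ n = ∑ j ∈ Finset.range 3,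
        (-1 : ℂ) ^ j * ((3 : ℕ).choose (j + 1) : ℂ) * TS (HBM (fun n => χ (n : ZMod q)) z j) x2 n :=
      fun n h1 h2 => (hHB (fun n => χ (n : ZMod q)) hgm hg1 3 z x2 n (by norm_num) h1 h2
        (h2.trans (hx2.trans hz3))).2
    have hr : ∀ j < 3, 1 ≤ (j + 1) + j ∧ (j + 1) + j ≤ 6 := fun j hj => by omega
    constructor
    · refine (comb (cM χ) (fun j => (j + 1) + j) (fun j => HBM (fun n => χ (n : ZMod q)) z j)
        x1 x2 hid _ _ _ hT2 fun j hj => ?_).trans hfin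
      exact (hH _ (hr j hj).1 (hr j hj).2 X (hX0r _ (Finset.mem_range.2 (by omega))) q inferInstance hq χ T
        (hT1r _ (Finset.mem_range.2 (by omega))) hT2 z hz2 _ (typ_HBM _ z j) x1 x2 hx1 hx2).1
    · refine (comb (cM χ) (fun j => (j + 1) + j) (fun j => HBM (fun n => χ (n : ZMod q)) z j)
        x1 x2 hid _ _ _ (neg_le_neg hT2) fun j hj => ?_).trans hfin
      exact (hH _ (hr j hj).1 (hr j hj).2 X (hX0r _ (Finset.mem_range.2 (by omega))) q inferInstance hq χ T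
        (hT1r _ (Finset.mem_range.2 (by omega))) hT2 z hz2 _ (typ_HBM _ z j) x1 x2 hx1 hx2).2

end Pool.Agent.Q236.CR
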