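import Mathlib
import Pool.Agent.Q236.CR.Aper
import Pool.Agent.Q236.LG.Ap

/-! Project CR: the Liouville function along fixed progressions does not correlate with the primes of almost all systems. -/

set_option autoImplicit false

namespace Pool.Agent.Q236.CR

open Finset Filter Polynomial
open Pool.Agent.H373R2.T7 (liR sup_liou)
open Pool.Agent.H807R2.Dav (ee)

/-- the Liouville function, real valued -/
noncomputable def lioR (m : ℕ) : ℝ := ((ArithmeticFunction.liouville m : ℤ) : ℝ)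

lemma lioR_abs (m : ℕ) : |lioR m| ≤ 1 := by
  unfold lioR
  rcases Nat.eq_zero_or_pos m with h | h
  · rw [h]; simp
  · rw [ArithmeticFunction.liouville_apply h.ne']
    push_cast
    rw [abs_pow]
    simp

lemma lioR_liR (m : ℕ) (hm : 1 ≤ m) : liR m = ((lioR m : ℝ) : ℂ) := by
  unfold lioR liR
  rw [ArithmeticFunction.liouville_apply (by omega)]
  push_cast
  rfl

/-- sums of the Liouville function over progressions, arbitrary initial segments -/
lemma lio_ap (U : ℕ) : ∃ N0 : ℕ, ∀ N : ℕ, N0 ≤ N → ∀ Q : ℕ, 1 ≤ Q → ∀ b : ℕ,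
    |∑ m ∈ (Icc 1 N).filter (fun m => m ≡ b [MOD Q]), lioR m| ≤ N / Real.log N ^ U := by
  obtain ⟨N0, h⟩ := sup_liou U
  refine ⟨N0, fun N hN Q hQ b => ?_⟩
  have h1 := Pool.Agent.Q236.LG.ap_pre N liR _ (h N hN) Q b hQ 0
  have h2 : ∑ n ∈ (Icc 1 N).filter (fun n => n ≡ b [MOD Q]), liR n * ee ((n : ℝ) * 0) =
      ((∑ m ∈ (Icc 1 N).filter (fun m => m ≡ b [MOD Q]), lioR m : ℝ) : ℂ) := by
    push_cast
    refine sum_congr rfl fun n hn => ?_
    rw [mem_filter, mem_Icc] at hn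
    rw [mul_zero, Pool.Agent.H807R2.Dav.ee_zero, mul_one, lioR_liR n hn.1.1]
  rw [h2, Complex.norm_real, Real.norm_eq_abs] at h1
  exact h1

/-- sums of `λ(a n + b)` over progressions -/
lemma lio_line (K a b q c : ℕ) (ha : 1 ≤ a) (hq : 1 ≤ q) (S : ℝ)
    (hS : |∑ m ∈ (Icc 1 (a * K + b)).filter (fun m => m ≡ a * c + b [MOD a * q]), lioR m| ≤ S) :
    |∑ n ∈ (Icc 1 K).filter (fun n => n ≡ c [MOD q]), lioR (a * n + b)| ≤ S + b := by
  have h1 : ∑ n ∈ (Icc 1 K).filter (fun n => n ≡ c [MOD q]), lioR (a * n + b) =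
      ∑ m ∈ ((Icc 1 (a * K + b)).filter (fun m => m ≡ a * c + b [MOD a * q])).filter (fun m => b < m), lioR m := by
    refine sum_bij (fun n _ => a * n + b) ?_ ?_ ?_ ?_
    · intro n hn
      rw [mem_filter, mem_Icc] at hn
      rw [mem_filter, mem_filter, mem_Icc]
      have h2 : a * n ≤ a * K := Nat.mul_le_mul_left _ hn.1.2
      have h3 : 1 ≤ a * n := Nat.mul_pos ha hn.1.1
      refine ⟨⟨⟨by omega, by omega⟩, ?_⟩, by omega⟩
      exact Nat.ModEq.add_right b (Nat.ModEq.mul_left' a hn.2)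
    · intro n1 _ n2 _ h
      have h2 : a * n1 = a * n2 := by omega
      exact Nat.eq_of_mul_eq_mul_left ha h2
    · intro m hm
      rw [mem_filter, mem_filter, mem_Icc] at hm
      obtain ⟨⟨⟨h2, h3⟩, h4⟩, h5⟩ := hm
      have h6 : m ≡ b [MOD a] := by
        have h7 : m ≡ a * c + b [MOD a] := h4.of_mul_right q
        have h8 : a * c + b ≡ 0 + b [MOD a] := Nat.ModEq.add_right b ((Nat.modEq_zero_iff_dvd).2 (dvd_mul_right a c))
        rw [zero_add] at h8
        exact h7.trans h8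
      obtain ⟨n, hn⟩ : a ∣ m - b := (Nat.modEq_iff_dvd' h5.le).1 h6.symm
      have hmn : m = a * n + b := by omega
      refine ⟨n, ?_, hmn.symm⟩
      rw [mem_filter, mem_Icc]
      have h9 : 1 ≤ n := by
        rcases Nat.eq_zero_or_pos n with h | h
        · rw [h] at hn; omega
        · exact h
      have h10 : n ≤ K := by
        have : a * n ≤ a * K := by omega
        exact Nat.le_of_mul_le_mul_left this ha
      refine ⟨⟨h9, h10⟩, ?_⟩
      rw [hmn] at h4
      have h11 : a * n ≡ a * c [MOD a * q] := Nat.ModEq.add_right_cancel' b h4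
      exact Nat.ModEq.mul_left_cancel' (by omega) h11
    · intro n _
      rfl
  rw [h1]
  have h2 : ∑ m ∈ (Icc 1 (a * K + b)).filter (fun m => m ≡ a * c + b [MOD a * q]), lioR m =
      ∑ m ∈ ((Icc 1 (a * K + b)).filter (fun m => m ≡ a * c + b [MOD a * q])).filter (fun m => b < m), lioR m +
      ∑ m ∈ ((Icc 1 (a * K + b)).filter (fun m => m ≡ a * c + b [MOD a * q])).filter (fun m => ¬ b < m), lioR m :=
    (sum_filter_add_sum_filter_not _ _ _).symm
  have h3 : |∑ m ∈ ((Icc 1 (a * K + b)).filter (fun m => m ≡ a * c + b [MOD a * q])).filter (fun m => ¬ b < m), lioR m| ≤ b := by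
    refine (abs_sum_le_sum_abs _ _).trans ?_
    calc ∑ m ∈ ((Icc 1 (a * K + b)).filter (fun m => m ≡ a * c + b [MOD a * q])).filter (fun m => ¬ b < m), |lioR m| ≤
          ∑ m ∈ ((Icc 1 (a * K + b)).filter (fun m => m ≡ a * c + b [MOD a * q])).filter (fun m => ¬ b < m), (1 : ℝ) :=
          sum_le_sum fun m _ => lioR_abs m
      _ = ((((Icc 1 (a * K + b)).filter (fun m => m ≡ a * c + b [MOD a * q])).filter (fun m => ¬ b < m)).card : ℝ) := by simp
      _ ≤ ((Icc 1 b).card : ℝ) := by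
          apply Nat.cast_le.2
          apply card_le_card
          intro m hm
          rw [mem_filter, mem_filter, mem_Icc] at hm
          rw [mem_Icc]
          omega
      _ = b := by rw [Nat.card_Icc]; simp
  rw [h2] at hS
  have h4 := abs_sub_abs_le_abs_sub (∑ m ∈ ((Icc 1 (a * K + b)).filter (fun m => m ≡ a * c + b [MOD a * q])).filter (fun m => b < m), lioR m)
    (-∑ m ∈ ((Icc 1 (a * K + b)).filter (fun m => m ≡ a * c + b [MOD a * q])).filter (fun m => ¬ b < m), lioR m)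
  rw [abs_neg, sub_neg_eq_add] at h4
  linarith

open Classical in
theorem lio (k : ℕ) (s : Fin k → ℕ) (A : ℕ) (ε : ℝ) (hε : 0 < ε) :
    ∃ B H0 : ℕ, ∀ H : ℕ, H0 ≤ H → ∀ G : Fin k → ℤ[X],
    (∀ i, ∀ n : ℕ, 1 ≤ n → n ≤ H → |(G i).eval (n : ℤ)| ≤ H * (n : ℤ) ^ (s i + 1)) →
    ((((SB k s H).filter (fun c => ∃ a b : ℕ, 1 ≤ a ∧ (a : ℝ) ≤ Real.log H ^ A ∧ (b : ℝ) ≤ Real.log H ^ A ∧
      ∃ K : ℕ, Real.exp (Real.log H ^ ε) ≤ K ∧ (K : ℝ) * Real.log H ^ B ≤ H ∧
      (K : ℝ) / Real.log H ^ A < |∑ n ∈ Icc 1 K, lioR (a * n + b) *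
        ∏ i, ArithmeticFunction.vonMangoldt (pw (s i) (G i) (c i) n).natAbs|)).card : ℕ) : ℝ) ≤
      (SB k s H).card / Real.log H ^ A := by
  set A1 := 2 * A + 1 with hA1
  obtain ⟨U, B, H0, h⟩ := aper k s A1
  -- the exponent for the exponential sums
  obtain ⟨V, hV⟩ : ∃ V : ℕ, (U + A + 2 : ℝ) ≤ ε * V := by
    obtain ⟨V, hV⟩ := exists_nat_ge ((U + A + 2 : ℝ) / ε)
    refine ⟨V, ?_⟩
    rw [div_le_iff₀ hε] at hV
    linarith
  obtain ⟨N0, hN⟩ := lio_ap V
  -- largeness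
  have ev1 : ∀ᶠ L : ℝ in atTop, 8 * (L ^ (B + U + A + 2) + N0 + 2 : ℝ) ≤ Real.exp (L ^ ε) := by
    have h1 : Tendsto (fun L : ℝ => L ^ ε) atTop atTop := tendsto_rpow_atTop hε
    obtain ⟨m, hm⟩ : ∃ m : ℕ, (B + U + A + 3 : ℝ) ≤ ε * m := by
      obtain ⟨V, hV⟩ := exists_nat_ge ((B + U + A + 3 : ℝ) / ε)
      refine ⟨V, ?_⟩
      rw [div_le_iff₀ hε] at hV
      linarith
    have h2 := (Real.tendsto_exp_div_pow_atTop m).comp h1
    have h3 := h2.eventually_ge_atTop 1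
    filter_upwards [h3, eventually_ge_atTop (8 * (N0 + 4 : ℝ)), h1.eventually_ge_atTop 1] with L h4 h5 h6
    simp only [Function.comp] at h4
    rw [le_div_iff₀ (by positivity), one_mul] at h4
    have hN0 : (0 : ℝ) ≤ N0 := Nat.cast_nonneg _
    have hL1 : (1 : ℝ) ≤ L := by linarith
    refine le_trans ?_ h4
    have h7 : (L ^ ε) ^ m = L ^ (ε * m) := by rw [← Real.rpow_natCast, ← Real.rpow_mul (by linarith)]
    rw [h7]
    have h8 : L ^ (B + U + A + 3) ≤ L ^ (ε * m) := by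
      rw [← Real.rpow_natCast]
      apply Real.rpow_le_rpow_of_exponent_le hL1
      push_cast
      linarith
    refine le_trans ?_ h8
    have h9 : (1 : ℝ) ≤ L ^ (B + U + A + 2) := one_le_pow₀ hL1
    calc 8 * (L ^ (B + U + A + 2) + N0 + 2 : ℝ) ≤ 8 * (L ^ (B + U + A + 2) + (N0 + 2) * L ^ (B + U + A + 2)) := by
          have : (N0 + 2 : ℝ) * 1 ≤ (N0 + 2) * L ^ (B + U + A + 2) := by gcongr
          linarith
      _ = (8 * (N0 + 3)) * L ^ (B + U + A + 2) := by ring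
      _ ≤ L * L ^ (B + U + A + 2) := by gcongr; linarith
      _ = L ^ (B + U + A + 3) := by ring
  have ev2 : ∀ᶠ L : ℝ in atTop, (2 : ℝ) ^ (V + 4) ≤ L := eventually_ge_atTop _
  have tlog : Tendsto (fun n : ℕ => Real.log n) atTop atTop := Real.tendsto_log_atTop.comp tendsto_natCast_atTop_atTop
  obtain ⟨H1, h1⟩ := eventually_atTop.1 (tlog.eventually ev1)
  obtain ⟨H2, h2⟩ := eventually_atTop.1 (tlog.eventually ev2)
  refine ⟨B, max H0 (max H1 H2), fun H hH G hg => ?_⟩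
  have h1 := h1 H (by omega)
  have h2 := h2 H (by omega)
  have hH := h H (by omega) G hg
  clear h
  set L := Real.log H with hL
  have hpV : (1 : ℝ) ≤ (2 : ℝ) ^ V := one_le_pow₀ (by norm_num)
  have hL16 : 16 ≤ L := by
    rw [pow_add] at h2
    nlinarith
  have hL1 : 1 ≤ L := by linarith
  have hL0 : 0 < L := by linarith
  have hLp : ∀ n : ℕ, 1 ≤ L ^ n := fun n => one_le_pow₀ hL1
  have hLp0 : ∀ n : ℕ, 0 < L ^ n := fun n => by positivity
  have hLmono : ∀ m n : ℕ, m ≤ n → L ^ m ≤ L ^ n := fun m n h => pow_le_pow_right₀ hL1 h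
  have hN00 : (0 : ℝ) ≤ N0 := Nat.cast_nonneg _
  set X := Real.exp (L ^ ε) with hX
  obtain ⟨K0, hK0⟩ : ∃ K0 : ℕ, K0 = ⌊X / 2⌋₊ := ⟨_, rfl⟩
  have hX0 : 0 < X := Real.exp_pos _
  have hK0u : (K0 : ℝ) ≤ X / 2 := by rw [hK0]; exact Nat.floor_le (by positivity)
  have hK0l : X / 4 ≤ K0 := by
    have h3 := Nat.lt_floor_add_one (X / 2)
    rw [← hK0] at h3
    have h4 : 8 ≤ X := by
      have := hLp (B + U + A + 2)
      linarith
    linarith
  -- the family
  obtain ⟨n1, hn1⟩ : ∃ n1 : ℕ, n1 = ⌊L ^ A⌋₊ := ⟨_, rfl⟩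
  have hn1u : (n1 : ℝ) ≤ L ^ A := by rw [hn1]; exact Nat.floor_le (by positivity)
  obtain ⟨W, hW⟩ : ∃ W : Finset (ℕ → ℝ), W = ((Icc 1 n1) ×ˢ (range (n1 + 1))).image (fun ab n => lioR (ab.1 * n + ab.2)) := ⟨_, rfl⟩
  have hWc : (W.card : ℝ) ≤ L ^ A1 := by
    have h3 : W.card ≤ n1 * (n1 + 1) := by
      rw [hW]
      refine card_image_le.trans ?_
      rw [card_product, Nat.card_Icc, card_range]
      simp
    calc (W.card : ℝ) ≤ (n1 : ℝ) * (n1 + 1) := by exact_mod_cast h3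
      _ ≤ L ^ A * (L ^ A + 1) := by gcongr
      _ ≤ L ^ A * (L ^ A * L) := by
          gcongr
          have := hLp A
          nlinarith
      _ = L ^ A1 := by rw [hA1]; ring
  have hWb : ∀ w ∈ W, ∀ n, |w n| ≤ 1 := by
    intro w hw n
    rw [hW, mem_image] at hw
    obtain ⟨ab, _, rfl⟩ := hw
    exact lioR_abs _
  have hap : ∀ w ∈ W, Aper U H K0 w := by
    intro w hw K hK1 hK2 q hq1 hq2 c
    rw [hW, mem_image] at hw
    obtain ⟨⟨a, b⟩, hab, rfl⟩ := hw
    rw [mem_product, mem_Icc, mem_range] at hab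
    obtain ⟨⟨ha1, ha2⟩, hb⟩ := hab
    simp only at ha1 ha2 hb ⊢
    have har : (a : ℝ) ≤ L ^ A := le_trans (by exact_mod_cast ha2) hn1u
    have hbr : (b : ℝ) ≤ L ^ A := le_trans (by exact_mod_cast (show b ≤ n1 by omega)) hn1u
    have hKX : X / 4 ≤ K := hK0l.trans (by exact_mod_cast hK1)
    have hKbig : 2 * (L ^ (B + U + A + 2) + N0 + 2 : ℝ) ≤ K := by linarith
    have hKM : (K : ℝ) ≤ ((a * K + b : ℕ) : ℝ) := by
      have : 1 * K ≤ a * K := Nat.mul_le_mul_right _ ha1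
      exact_mod_cast (show K ≤ a * K + b by omega)
    have hMN : N0 ≤ a * K + b := by
      have h3 : (N0 : ℝ) ≤ ((a * K + b : ℕ) : ℝ) := by
        have := hLp (B + U + A + 2)
        linarith
      exact_mod_cast h3
    have h3 := hN (a * K + b) hMN (a * q) (Nat.mul_pos ha1 hq1) (a * c + b)
    refine (lio_line K a b q c ha1 hq1 _ h3).trans ?_
    -- the logarithm of the length
    have hKp : (0 : ℝ) < K := by linarith [hLp (B + U + A + 2)]
    have hlogM : L ^ ε / 2 ≤ Real.log ((a * K + b : ℕ) : ℝ) := by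
      have h4 : Real.log (X / 4) ≤ Real.log ((a * K + b : ℕ) : ℝ) :=
        Real.log_le_log (by positivity) (hKX.trans hKM)
      rw [Real.log_div hX0.ne' (by norm_num), hX, Real.log_exp] at h4
      have h5 : Real.log 4 ≤ 2 := by
        have : Real.log 4 ≤ 4 - 1 := Real.log_le_sub_one_of_pos (by norm_num)
        have h6 : Real.log 4 = 2 * Real.log 2 := by
          rw [show (4 : ℝ) = 2 ^ 2 by norm_num, Real.log_pow]; push_cast; ring
        have h7 := Real.log_two_lt_d9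
        rw [h6]
        linarith
      have h6 : 4 ≤ L ^ ε := by
        -- from exp (L^ε) ≥ 8 * (L^... ) ≥ e^4
        have h7 : Real.exp 4 ≤ Real.exp (L ^ ε) := by
          have h8 : Real.exp 4 ≤ 81 := by
            have h9 : Real.exp 4 = Real.exp 1 ^ 4 := by
              rw [← Real.exp_nat_mul]; norm_num
            rw [h9]
            have h10 := Real.exp_one_lt_d9
            calc Real.exp 1 ^ 4 ≤ 3 ^ 4 := pow_le_pow_left₀ (Real.exp_pos 1).le (by linarith) 4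
              _ = 81 := by norm_num
          have h9 : L ^ 2 ≤ L ^ (B + U + A + 2) := hLmono _ _ (by omega)
          have h10 : (16 : ℝ) ^ 2 ≤ L ^ 2 := pow_le_pow_left₀ (by norm_num) hL16 2
          linarith
        exact Real.exp_le_exp.1 h7
      linarith
    have hLε : 0 < L ^ ε := Real.rpow_pos_of_pos hL0 ε
    have h4 : L ^ (U + A + 2) ≤ 2 ^ V * Real.log ((a * K + b : ℕ) : ℝ) ^ V := by
      calc L ^ (U + A + 2) = L ^ ((U + A + 2 : ℕ) : ℝ) := (Real.rpow_natCast _ _).symm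
        _ ≤ L ^ (ε * V) := by
            apply Real.rpow_le_rpow_of_exponent_le hL1
            push_cast
            linarith
        _ = (L ^ ε) ^ V := by rw [Real.rpow_mul hL0.le, Real.rpow_natCast]
        _ = 2 ^ V * (L ^ ε / 2) ^ V := by rw [← mul_pow]; congr 1; ring
        _ ≤ _ := by gcongr
    have hlog0 : 0 < Real.log ((a * K + b : ℕ) : ℝ) ^ V := by
      have : 0 < Real.log ((a * K + b : ℕ) : ℝ) := by linarith
      positivity
    have h5 : ((a * K + b : ℕ) : ℝ) / Real.log ((a * K + b : ℕ) : ℝ) ^ V ≤ K / (2 * L ^ U) := by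
      rw [div_le_div_iff₀ hlog0 (by positivity)]
      have h6 : ((a * K + b : ℕ) : ℝ) ≤ 2 * L ^ A * K := by
        push_cast
        calc (a : ℝ) * K + b ≤ L ^ A * K + L ^ A * K := by
              have h7 : (1 : ℝ) ≤ K := by linarith [hLp (B + U + A + 2)]
              have h8 : (b : ℝ) ≤ L ^ A * K := hbr.trans (by nlinarith [hLp A])
              have h9 : (a : ℝ) * K ≤ L ^ A * K := by gcongr
              linarith
          _ = _ := by ring
      have h7 : 2 ^ V * (2 * L ^ A * (2 * L ^ U)) ≤ L ^ (U + A + 2) := by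
        have h2' : (2 : ℝ) ^ V * 16 ≤ L := by
          rw [pow_add] at h2
          linarith
        calc (2 : ℝ) ^ V * (2 * L ^ A * (2 * L ^ U)) = (2 ^ V * 4) * L ^ (U + A) := by rw [pow_add]; ring
          _ ≤ L * L ^ (U + A) := by gcongr; linarith
          _ = L ^ (U + A + 1) := by ring
          _ ≤ _ := hLmono _ _ (by omega)
      have h8 : 2 * L ^ A * (2 * L ^ U) ≤ Real.log ((a * K + b : ℕ) : ℝ) ^ V := by
        have h9 := h7.trans h4
        exact le_of_mul_le_mul_left h9 (by positivity)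
      calc ((a * K + b : ℕ) : ℝ) * (2 * L ^ U) ≤ (2 * L ^ A * K) * (2 * L ^ U) := by gcongr
        _ = K * (2 * L ^ A * (2 * L ^ U)) := by ring
        _ ≤ _ := by gcongr
    have h6 : (b : ℝ) ≤ K / (2 * L ^ U) := by
      rw [le_div_iff₀ (by positivity)]
      calc (b : ℝ) * (2 * L ^ U) ≤ L ^ A * (2 * L ^ U) := by gcongr
        _ = 2 * L ^ (U + A) := by rw [pow_add]; ring
        _ ≤ 2 * L ^ (B + U + A + 2) := by
            have := hLmono (U + A) (B + U + A + 2) (by omega)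
            linarith
        _ ≤ K := by linarith
    calc ((a * K + b : ℕ) : ℝ) / Real.log ((a * K + b : ℕ) : ℝ) ^ V + b ≤ K / (2 * L ^ U) + K / (2 * L ^ U) := add_le_add h5 h6
      _ = K / L ^ U := by field_simp; ring
  have hfin := hH W K0 hWc hWb (by
    have h3 := hLmono B (B + U + A + 2) (by omega)
    linarith) hap
  obtain ⟨P, hP⟩ : ∃ P : ((i : Fin k) → Fin (s i + 2) → ℤ) → Prop, P = fun c =>
      ∃ w ∈ W, ∃ K : ℕ, 2 * K0 ≤ K ∧ (K : ℝ) * L ^ B ≤ H ∧
      (K : ℝ) / L ^ A1 < |∑ n ∈ Icc 1 K, w n * ∏ i, ArithmeticFunction.vonMangoldt (pw (s i) (G i) (c i) n).natAbs| := ⟨_, rfl⟩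
  have hfin2 : ((((SB k s H).filter P).card : ℕ) : ℝ) ≤ (SB k s H).card / L ^ A1 := by
    rw [hP]
    refine le_trans (le_of_eq ?_) hfin
    congr!
  have hsub : ((SB k s H).filter (fun c => ∃ a b : ℕ, 1 ≤ a ∧ (a : ℝ) ≤ L ^ A ∧ (b : ℝ) ≤ L ^ A ∧
      ∃ K : ℕ, X ≤ K ∧ (K : ℝ) * L ^ B ≤ H ∧
      (K : ℝ) / L ^ A < |∑ n ∈ Icc 1 K, lioR (a * n + b) *
        ∏ i, ArithmeticFunction.vonMangoldt (pw (s i) (G i) (c i) n).natAbs|)) ⊆ (SB k s H).filter P := by
    intro c hc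
    rw [mem_filter] at hc
    obtain ⟨hc, a, b, ha1, ha2, hb, K, hK1, hK2, hK3⟩ := hc
    rw [mem_filter, hP]
    refine ⟨hc, fun n => lioR (a * n + b), ?_, K, ?_, hK2, ?_⟩
    · rw [hW, mem_image]
      refine ⟨(a, b), ?_, rfl⟩
      rw [mem_product, mem_Icc, mem_range]
      have e1 : a ≤ n1 := by rw [hn1]; exact Nat.le_floor ha2
      have e2 : b ≤ n1 := by rw [hn1]; exact Nat.le_floor hb
      simp only
      omega
    · have h3 : ((2 * K0 : ℕ) : ℝ) ≤ K := by
        push_cast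
        linarith
      exact_mod_cast h3
    · refine lt_of_le_of_lt ?_ hK3
      exact div_le_div_of_nonneg_left (Nat.cast_nonneg _) (hLp0 _) (hLmono _ _ (by omega))
  calc ((((SB k s H).filter (fun c => ∃ a b : ℕ, 1 ≤ a ∧ (a : ℝ) ≤ L ^ A ∧ (b : ℝ) ≤ L ^ A ∧
      ∃ K : ℕ, X ≤ K ∧ (K : ℝ) * L ^ B ≤ H ∧
      (K : ℝ) / L ^ A < |∑ n ∈ Icc 1 K, lioR (a * n + b) *
        ∏ i, ArithmeticFunction.vonMangoldt (pw (s i) (G i) (c i) n).natAbs|)).card : ℕ) : ℝ) ≤
      (((SB k s H).filter P).card : ℕ) := by exact_mod_cast card_le_card hsub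
    _ ≤ (SB k s H).card / L ^ A1 := hfin2
    _ ≤ _ := div_le_div_of_nonneg_left (Nat.cast_nonneg _) (hLp0 _) (hLmono _ _ (by omega))

end Pool.Agent.Q236.CR
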