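import Pool.Agent.Q236.CR.All
import Pool.Agent.Q236.CR.Main
import Pool.Agent.Q208.CR.WL

/-! Project CR: the theorem on systems, without hypotheses. -/

set_option autoImplicit false

namespace Pool.Agent.Q236.CR

theorem wl_all : S_WL := Pool.Agent.Q208.CR.wl sia_all Pool.Agent.Q111.CR.lz Pool.Agent.Q95.CR.cov

open Finset Filter
open Pool.Agent.H373R2.T7 (pz Vz lamz)

open Classical in
/-- **MAIN** -/
theorem main_all (k : ℕ) (s : Fin k → ℕ) (A : ℕ) :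
    ∃ E0 B : ℕ, ∀ E : ℕ, E0 ≤ E → ∃ H0 : ℕ, ∀ H : ℕ, H0 ≤ H →
    ∀ (t : Fin k → Fin 3) (g : Fin k → ℕ → ℤ) (w : ℕ → ℂ),
    (∀ i, ∀ n : ℕ, 1 ≤ n → n ≤ H → |g i n| ≤ H * (n : ℤ) ^ (s i + 1)) → (∀ n, ‖w n‖ ≤ 1) →
    ((((SB k s H).filter (fun c => ∃ K : ℕ, Real.log H ^ B ≤ K ∧ (K : ℝ) * Real.log H ^ B ≤ H ∧
      (K : ℝ) / Real.log H ^ A < ‖∑ n ∈ Icc 1 K, w n * (∏ i, FT (t i) (pv (s i) (g i) (c i) n).natAbs -
        ∏ i, MT (t i) ⌊Real.log H ^ E⌋₊ (pv (s i) (g i) (c i) n).natAbs)‖)).card : ℕ) : ℝ) ≤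
      (SB k s H).card / Real.log H ^ A :=
  main_of ob_all wl_all wm_all wv_all Pool.Agent.Q162.CR.tel Pool.Agent.Q24.CR.grd k s A

end Pool.Agent.Q236.CR
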