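import Pool.Agent.Q236.CR.Tri

/-! Project CR: the equation `a p - b q = c` for almost all triples, assembly. -/

set_option autoImplicit false

namespace Pool.Agent.Q236.CR.Tri

open Finset Filter
open Pool.Agent.H373R2.T7 (pz Vz lamz)
open Pool.Agent.Q236.CR

/-- the triples `(a, b, c)` with `1 ≤ a, b ≤ A`, `|c| ≤ A X` -/
noncomputable def Tr (A X : ℕ) : Finset (ℕ × ℕ × ℤ) := Icc 1 A ×ˢ (Icc 1 A ×ˢ Icc (-((A : ℤ) * X)) (A * X))

lemma Tr_sum (A X : ℕ) (f : ℕ → ℕ → ℤ → ℝ) :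
    ∑ x ∈ Tr A X, f x.1 x.2.1 x.2.2 = ∑ a ∈ Icc 1 A, ∑ b ∈ Icc 1 A, ∑ c ∈ Icc (-((A : ℤ) * X)) (A * X), f a b c := by
  unfold Tr
  rw [sum_product]
  refine sum_congr rfl fun a _ => ?_
  rw [sum_product]

lemma neg_sum (M : ℤ) (f : ℤ → ℝ) : ∑ c ∈ Icc (-M) M, f (-c) = ∑ c ∈ Icc (-M) M, f c := by
  refine sum_nbij' (fun c => -c) (fun c => -c) ?_ ?_ ?_ ?_ ?_
  · intro c hc
    rw [mem_Icc] at hc ⊢
    omega
  · intro c hc
    rw [mem_Icc] at hc ⊢
    omega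
  · intro c _; simp
  · intro c _; simp
  · intro c _; rfl

lemma lamz_bd (z : ℕ) (L : ℝ) (hV0 : 0 < Vz z) (hV : (Vz z)⁻¹ ≤ L) (n : ℕ) : 0 ≤ lamz z n ∧ lamz z n ≤ L := by
  unfold lamz
  have h1 : 0 ≤ (Vz z)⁻¹ := by positivity
  split_ifs
  · exact ⟨h1, hV⟩
  · exact ⟨le_rfl, h1.trans hV⟩

/-- mean square of the difference between `Λ ⊗ Λ` and the model -/
lemma ms (U : ℕ) : ∃ E0 B : ℕ, ∀ E : ℕ, ∃ X0 : ℕ, ∀ X : ℕ, X0 ≤ X → ∀ z : ℕ, Real.log X ^ E0 ≤ z →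
    (z : ℝ) ≤ Real.log X ^ E → ∀ A : ℕ, 1 ≤ A → (A : ℝ) * Real.log X ^ B ≤ X →
    ∑ x ∈ Tr A X, (rS ArithmeticFunction.vonMangoldt ArithmeticFunction.vonMangoldt X x.1 x.2.1 x.2.2 -
      rS (lamz z) (lamz z) X x.1 x.2.1 x.2.2) ^ 2 ≤ 4 * (A * (X : ℝ) ^ 3 / Real.log X ^ U) := by
  obtain ⟨E0, B, h⟩ := Pool.Agent.Q224.CR.t3a U
  refine ⟨E0, B, fun E => ?_⟩
  obtain ⟨X0, h⟩ := h E
  obtain ⟨X1, hV⟩ := Vz_inv E
  obtain ⟨X2, h2⟩ := evL _ (eventually_ge_atTop (1 : ℝ))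
  refine ⟨max X0 (max X1 X2), fun X hX z hz1 hz2 A hA1 hA2 => ?_⟩
  have hL1 := h2 X (by omega)
  have hz : 1 ≤ z := by
    have h3 : (1 : ℝ) ≤ z := (one_le_pow₀ hL1).trans hz1
    exact_mod_cast h3
  obtain ⟨hV0, hVi⟩ := hV X (by omega) z hz hz2
  have hg := h X (by omega) z hz1 hz2 A hA1 hA2
  clear h h2 hV
  set L := Real.log X with hL
  set F : ℕ → ℝ := fun n => ArithmeticFunction.vonMangoldt n - lamz z n with hF
  have hlz := lamz_bd z L hV0 hVi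
  -- first
  have h1 : ∑ x ∈ Tr A X, (rS F ArithmeticFunction.vonMangoldt X x.1 x.2.1 x.2.2) ^ 2 ≤ A * (X : ℝ) ^ 3 / L ^ U := by
    rw [Tr_sum A X (fun a b c => (rS F ArithmeticFunction.vonMangoldt X a b c) ^ 2)]
    have h3 := hg (fun n => if n ≤ X then ((ArithmeticFunction.vonMangoldt n : ℝ) : ℂ) else 0) (by
      intro n
      show ‖(if n ≤ X then ((ArithmeticFunction.vonMangoldt n : ℝ) : ℂ) else 0)‖ ≤ L
      split_ifs with h4
      · rw [Complex.norm_real, Real.norm_of_nonneg ArithmeticFunction.vonMangoldt_nonneg]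
        refine ArithmeticFunction.vonMangoldt_le_log.trans ?_
        rcases Nat.eq_zero_or_pos n with h5 | h5
        · rw [h5]; simp; linarith
        · exact Real.log_le_log (by exact_mod_cast h5) (by exact_mod_cast h4)
      · rw [norm_zero]; linarith)
    refine le_trans (le_of_eq ?_) h3
    refine sum_congr rfl fun a _ => sum_congr rfl fun b _ => sum_congr rfl fun c _ => ?_
    rw [SS_congr (fL z) (fun n => ((F n : ℝ) : ℂ)) _ (fun n => ((ArithmeticFunction.vonMangoldt n : ℝ) : ℂ)) X a b c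
      (fun n _ _ => rfl) (fun n _ h5 => if_pos h5), SS_real, Complex.norm_real, Real.norm_eq_abs, sq_abs]
  have h2 : ∑ x ∈ Tr A X, (rS F (lamz z) X x.2.1 x.1 (-x.2.2)) ^ 2 ≤ A * (X : ℝ) ^ 3 / L ^ U := by
    rw [Tr_sum A X (fun a b c => (rS F (lamz z) X b a (-c)) ^ 2), sum_comm]
    have h3 := hg (fun n => ((lamz z n : ℝ) : ℂ)) (by
      intro n
      rw [Complex.norm_real, Real.norm_of_nonneg (hlz n).1]
      exact (hlz n).2)
    refine le_trans (le_of_eq ?_) h3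
    refine sum_congr rfl fun a _ => sum_congr rfl fun b _ => ?_
    rw [neg_sum ((A : ℤ) * X) (fun c => (rS F (lamz z) X a b c) ^ 2)]
    refine sum_congr rfl fun c _ => ?_
    rw [SS_congr (fL z) (fun n => ((F n : ℝ) : ℂ)) _ (fun n => ((lamz z n : ℝ) : ℂ)) X a b c
      (fun n _ _ => rfl) (fun n _ _ => rfl), SS_real, Complex.norm_real, Real.norm_eq_abs, sq_abs]
  have h3 : ∀ x ∈ Tr A X, (rS ArithmeticFunction.vonMangoldt ArithmeticFunction.vonMangoldt X x.1 x.2.1 x.2.2 -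
      rS (lamz z) (lamz z) X x.1 x.2.1 x.2.2) ^ 2 ≤ 2 * (rS F ArithmeticFunction.vonMangoldt X x.1 x.2.1 x.2.2) ^ 2 +
      2 * (rS F (lamz z) X x.2.1 x.1 (-x.2.2)) ^ 2 := by
    intro x _
    rw [rS_split (fun n => ArithmeticFunction.vonMangoldt n) (lamz z)]
    have e1 : rS (fun n => ArithmeticFunction.vonMangoldt n - lamz z n) (fun n => ArithmeticFunction.vonMangoldt n) X x.1 x.2.1 x.2.2 =
      rS F ArithmeticFunction.vonMangoldt X x.1 x.2.1 x.2.2 := rfl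
    have e2 : rS (fun n => ArithmeticFunction.vonMangoldt n - lamz z n) (lamz z) X x.2.1 x.1 (-x.2.2) =
      rS F (lamz z) X x.2.1 x.1 (-x.2.2) := rfl
    rw [e1, e2]
    nlinarith [sq_nonneg (rS F ArithmeticFunction.vonMangoldt X x.1 x.2.1 x.2.2 - rS F (lamz z) X x.2.1 x.1 (-x.2.2))]
  refine (sum_le_sum h3).trans ?_
  rw [sum_add_distrib, ← mul_sum, ← mul_sum]
  linarith

/-- prime powers -/
lemma pp (A X : ℕ) (hX : 1 ≤ X) :
    ∑ x ∈ Tr A X, (rS ArithmeticFunction.vonMangoldt ArithmeticFunction.vonMangoldt X x.1 x.2.1 x.2.2 -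
      rS tht tht X x.1 x.2.1 x.2.2) ≤ 4 * (A : ℝ) ^ 2 * (X * √(X : ℝ) * Real.log X ^ 2) := by
  set F : ℕ → ℝ := fun n => ArithmeticFunction.vonMangoldt n - tht n with hF
  have hF0 : ∀ n, 0 ≤ F n := fun n => by
    rw [hF]
    exact sub_nonneg.2 (tht_le n).2
  have hL0 : 0 ≤ Real.log X := Real.log_natCast_nonneg _
  have hFs : ∑ n ∈ Icc 1 X, F n ≤ 2 * √(X : ℝ) * Real.log X := pp_sum X hX
  have hFs0 : 0 ≤ ∑ n ∈ Icc 1 X, F n := sum_nonneg fun n _ => hF0 n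
  have hv : ∑ n ∈ Icc 1 X, ArithmeticFunction.vonMangoldt n ≤ X * Real.log X := by
    calc ∑ n ∈ Icc 1 X, ArithmeticFunction.vonMangoldt n ≤ ∑ n ∈ Icc 1 X, Real.log X := by
          refine sum_le_sum fun n hn => ?_
          rw [mem_Icc] at hn
          refine ArithmeticFunction.vonMangoldt_le_log.trans ?_
          exact Real.log_le_log (by exact_mod_cast hn.1) (by exact_mod_cast hn.2)
      _ = X * Real.log X := by rw [sum_const, Nat.card_Icc, nsmul_eq_mul]; simp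
  have hv0 : 0 ≤ ∑ n ∈ Icc 1 X, ArithmeticFunction.vonMangoldt n :=
    sum_nonneg fun n _ => ArithmeticFunction.vonMangoldt_nonneg
  have ht : ∑ n ∈ Icc 1 X, tht n ≤ X * Real.log X := (sum_le_sum fun n _ => (tht_le n).2).trans hv
  have ht0 : 0 ≤ ∑ n ∈ Icc 1 X, tht n := sum_nonneg fun n _ => (tht_le n).1
  have h1 : ∀ a b, ∑ c ∈ Icc (-((A : ℤ) * X)) (A * X),
      (rS ArithmeticFunction.vonMangoldt ArithmeticFunction.vonMangoldt X a b c - rS tht tht X a b c) ≤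
      4 * (X * √(X : ℝ) * Real.log X ^ 2) := by
    intro a b
    have h2 : ∀ c ∈ Icc (-((A : ℤ) * X)) ((A : ℤ) * X),
        rS ArithmeticFunction.vonMangoldt ArithmeticFunction.vonMangoldt X a b c - rS tht tht X a b c =
        rS F ArithmeticFunction.vonMangoldt X a b c + rS tht F X a b c := by
      intro c _
      unfold rS
      rw [← sum_sub_distrib, ← sum_add_distrib]
      refine sum_congr rfl fun t _ => ?_
      rw [hF]
      ring
    rw [sum_congr rfl h2, sum_add_distrib]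
    have h3 := rS_sum F ArithmeticFunction.vonMangoldt hF0 (fun _ => ArithmeticFunction.vonMangoldt_nonneg) X a b
      (Icc (-((A : ℤ) * X)) (A * X))
    have h4 := rS_sum tht F (fun n => (tht_le n).1) hF0 X a b (Icc (-((A : ℤ) * X)) (A * X))
    have h5 : (∑ m ∈ Icc 1 X, F m) * ∑ n ∈ Icc 1 X, ArithmeticFunction.vonMangoldt n ≤
        (2 * √(X : ℝ) * Real.log X) * (X * Real.log X) := mul_le_mul hFs hv hv0 (by positivity)
    have h6 : (∑ m ∈ Icc 1 X, tht m) * ∑ n ∈ Icc 1 X, F n ≤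
        (X * Real.log X) * (2 * √(X : ℝ) * Real.log X) := mul_le_mul ht hFs hFs0 (by positivity)
    calc _ ≤ (2 * √(X : ℝ) * Real.log X) * (X * Real.log X) + (X * Real.log X) * (2 * √(X : ℝ) * Real.log X) := by linarith
      _ = _ := by ring
  rw [Tr_sum A X (fun a b c => rS ArithmeticFunction.vonMangoldt ArithmeticFunction.vonMangoldt X a b c - rS tht tht X a b c)]
  calc _ ≤ ∑ a ∈ Icc 1 A, ∑ b ∈ Icc 1 A, 4 * (X * √(X : ℝ) * Real.log X ^ 2) :=
        sum_le_sum fun a _ => sum_le_sum fun b _ => h1 a b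
    _ = _ := by
        simp only [sum_const, Nat.card_Icc, nsmul_eq_mul, Nat.add_sub_cancel]
        ring

lemma cheb (S : Finset (ℕ × ℕ × ℤ)) (f : ℕ × ℕ × ℤ → ℝ) (t M : ℝ) (ht : 0 < t) (hM : ∑ x ∈ S, (f x) ^ 2 ≤ M) :
    (((S.filter (fun x => t < |f x|)).card : ℕ) : ℝ) ≤ M / t ^ 2 := by
  rw [le_div_iff₀ (by positivity)]
  calc (((S.filter (fun x => t < |f x|)).card : ℕ) : ℝ) * t ^ 2 = ∑ _x ∈ S.filter (fun x => t < |f x|), t ^ 2 := by
        rw [sum_const, nsmul_eq_mul]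
    _ ≤ ∑ x ∈ S.filter (fun x => t < |f x|), (f x) ^ 2 := by
        refine sum_le_sum fun x hx => ?_
        rw [mem_filter] at hx
        rw [← sq_abs (f x)]
        exact pow_le_pow_left₀ ht.le hx.2.le 2
    _ ≤ ∑ x ∈ S, (f x) ^ 2 := sum_le_sum_of_subset_of_nonneg (filter_subset _ _) fun _ _ _ => sq_nonneg _
    _ ≤ M := hM

lemma mark (S : Finset (ℕ × ℕ × ℤ)) (f : ℕ × ℕ × ℤ → ℝ) (hf : ∀ x, 0 ≤ f x) (t M : ℝ) (ht : 0 < t) (hM : ∑ x ∈ S, f x ≤ M) :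
    (((S.filter (fun x => t < f x)).card : ℕ) : ℝ) ≤ M / t := by
  rw [le_div_iff₀ ht]
  calc (((S.filter (fun x => t < f x)).card : ℕ) : ℝ) * t = ∑ _x ∈ S.filter (fun x => t < f x), t := by
        rw [sum_const, nsmul_eq_mul]
    _ ≤ ∑ x ∈ S.filter (fun x => t < f x), f x := by
        refine sum_le_sum fun x hx => ?_
        rw [mem_filter] at hx
        exact hx.2.le
    _ ≤ ∑ x ∈ S, f x := sum_le_sum_of_subset_of_nonneg (filter_subset _ _) fun x _ _ => hf x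
    _ ≤ M := hM

end Pool.Agent.Q236.CR.Tri
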